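import Mathlib
import Pool.Agent.H373R2.T7.Lin

/-! Linear exponential sums over arithmetic progressions: type I and type II sums. -/

set_option autoImplicit false

namespace Pool.Agent.L0h42.TB
open Finset
open Pool.Agent.H807R2.Dav
open Pool.Agent.H373R2.T7 (KK_mono cs_norm ee_conj' vaughan_gen typeI_lin)

/-- parametrisation of a progression in an interval -/
lemma ap_param (lo hi q c : ℕ) (hq : 1 ≤ q) : ∃ n0 J : ℕ,
    (Ioc lo hi).filter (fun n => n ≡ c [MOD q]) = (range J).image (fun j => n0 + q * j) ∧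
    (1 ≤ J → ((J : ℝ) ≤ ((hi : ℝ) - lo) / q + 1)) := by
  classical
  set s := (Ioc lo hi).filter (fun n => n ≡ c [MOD q]) with hs
  have hq0 : (0 : ℝ) < q := by exact_mod_cast hq
  rcases s.eq_empty_or_nonempty with he | hne
  · exact ⟨0, 0, by rw [he]; simp, by omega⟩
  · set n0 := s.min' hne with hn0
    have h0 : n0 ∈ s := s.min'_mem hne
    rw [hs, mem_filter, mem_Ioc] at h0
    refine ⟨n0, (hi - n0) / q + 1, ?_, ?_⟩
    · ext n
      rw [mem_image]
      constructor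
      · intro hn
        have h1 : n0 ≤ n := s.min'_le n hn
        rw [hs, mem_filter, mem_Ioc] at hn
        have h2 : n0 ≡ n [MOD q] := h0.2.trans hn.2.symm
        obtain ⟨j, hj⟩ := (Nat.modEq_iff_dvd' h1).1 h2
        refine ⟨j, ?_, by omega⟩
        rw [mem_range, Nat.lt_succ_iff, Nat.le_div_iff_mul_le (by omega)]
        rw [mul_comm]
        omega
      · rintro ⟨j, hj, rfl⟩
        rw [mem_range, Nat.lt_succ_iff, Nat.le_div_iff_mul_le (by omega)] at hj
        rw [hs, mem_filter, mem_Ioc]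
        have h3 : q * j ≤ hi - n0 := by rw [mul_comm]; exact hj
        refine ⟨⟨by omega, by omega⟩, ?_⟩
        have : n0 + q * j ≡ n0 [MOD q] := by
          unfold Nat.ModEq
          simp
        exact this.trans h0.2
    · intro _
      have h1 : (((hi - n0) / q : ℕ) : ℝ) ≤ ((hi : ℝ) - n0) / q := by
        have := @Nat.cast_div_le ℝ _ _ _ (hi - n0) q
        rwa [Nat.cast_sub h0.1.2] at this
      have h2 : ((hi : ℝ) - n0) / q ≤ ((hi : ℝ) - lo) / q := by
        apply div_le_div_of_nonneg_right _ hq0.le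
        have : (lo : ℝ) < n0 := by exact_mod_cast h0.1.1
        linarith
      push_cast
      linarith

lemma sum_ap {β : Type*} [AddCommMonoid β] (lo hi q c n0 J : ℕ) (hq : 1 ≤ q)
    (h : (Ioc lo hi).filter (fun n => n ≡ c [MOD q]) = (range J).image (fun j => n0 + q * j))
    (F : ℕ → β) : ∑ n ∈ (Ioc lo hi).filter (fun n => n ≡ c [MOD q]), F n = ∑ j ∈ range J, F (n0 + q * j) := by
  rw [h, sum_image]
  intro x _ y _ hxy
  have : q * x = q * y := by simpa using hxy
  exact Nat.eq_of_mul_eq_mul_left (by omega) this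

/-- geometric sums over a progression -/
lemma geoAP (lo hi q c : ℕ) (hq : 1 ≤ q) (W : ℝ) (hW0 : 0 ≤ W) (hW : ((hi : ℝ) - lo) / q + 1 ≤ W) (x : ℝ) :
    ‖∑ n ∈ (Ioc lo hi).filter (fun n => n ≡ c [MOD q]), ee ((n : ℝ) * x)‖ ≤ KK W (q * x) := by
  obtain ⟨n0, J, h1, h2⟩ := ap_param lo hi q c hq
  rw [sum_ap lo hi q c n0 J hq h1]
  rcases Nat.eq_zero_or_pos J with hJ | hJ
  · rw [hJ]; simp; exact KK_nonneg hW0 _
  · have e : ∀ j ∈ range J, ee (((n0 + q * j : ℕ) : ℝ) * x) = ee (n0 * x) * ee ((j : ℝ) * (q * x)) := by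
      intro j _
      rw [← ee_add]; congr 1; push_cast; ring
    rw [sum_congr rfl e, ← mul_sum, norm_mul, norm_ee, one_mul, range_eq_Ico]
    apply geo_bound 0 J (Nat.zero_le _)
    push_cast
    have := h2 hJ
    linarith

/-- the class of `m` when `m l` lies in a given class -/
lemma mul_class (l q u : ℕ) (hq : 1 ≤ q) (hlq : l.Coprime q) :
    ∃ v : ℕ, ∀ m : ℕ, m * l ≡ u [MOD q] ↔ m ≡ v [MOD q] := by
  haveI : NeZero q := ⟨by omega⟩
  refine ⟨((u : ZMod q) * (l : ZMod q)⁻¹).val, fun m => ?_⟩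
  rw [← ZMod.natCast_eq_natCast_iff, ← ZMod.natCast_eq_natCast_iff, ZMod.natCast_val, ZMod.cast_id]
  have h1 : (l : ZMod q) * (l : ZMod q)⁻¹ = 1 := ZMod.coe_mul_inv_eq_one l hlq
  push_cast
  constructor
  · intro h
    rw [← h, mul_assoc, h1, mul_one]
  · intro h
    rw [h, mul_assoc, mul_comm (l : ZMod q)⁻¹, h1, mul_one]

/-- bilinear sums with a linear phase over a progression -/
theorem typeII_ap {b : ℕ} (hb : 1 ≤ b) {c : ℤ} (hcop : IsCoprime c (b : ℤ)) (q u : ℕ) (hq : 1 ≤ q)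
    (hu : u.Coprime q) {α : ℝ}
    (hα : |(q : ℝ) ^ 2 * α - c / b| ≤ 1 / (b : ℝ) ^ 2) (N N' M L : ℕ) (a d : ℕ → ℂ) :
    ‖∑ m ∈ Ioc M (2 * M), ∑ l ∈ Ioc L (2 * L), a m * d l *
      (if N < m * l ∧ m * l ≤ N' then (if m * l ≡ u [MOD q] then ee (((m * l : ℕ) : ℝ) * α) else 0) else 0)‖ ^ 2 ≤
      (∑ m ∈ Ioc M (2 * M), ‖a m‖ ^ 2) * ((∑ l ∈ Ioc L (2 * L), ‖d l‖ ^ 2) *
        ((((L : ℝ) / q + 1) / b + 1) * (39 * ((M : ℝ) / q + 1) + 3 * b * (1 + Real.log b)))) := by
  classical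
  have hq0 : (0 : ℝ) < q := by exact_mod_cast hq
  have hb0 : (0 : ℝ) < b := by exact_mod_cast hb
  set P : ℕ → ℕ → Prop := fun m l => (N < m * l ∧ m * l ≤ N') ∧ m * l ≡ u [MOD q] with hP
  set S : ℕ → ℂ := fun m => ∑ l ∈ Ioc L (2 * L), d l * (if P m l then ee (((m * l : ℕ) : ℝ) * α) else 0) with hS
  have e1 : ∑ m ∈ Ioc M (2 * M), ∑ l ∈ Ioc L (2 * L), a m * d l *
      (if N < m * l ∧ m * l ≤ N' then (if m * l ≡ u [MOD q] then ee (((m * l : ℕ) : ℝ) * α) else 0) else 0) =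
      ∑ m ∈ Ioc M (2 * M), a m * S m := by
    apply sum_congr rfl; intro m _
    rw [hS, mul_sum]
    apply sum_congr rfl; intro l _
    rw [← ite_and]
    ring
  rw [e1]
  refine (cs_norm _ _ _).trans (mul_le_mul_of_nonneg_left ?_ (by positivity))
  set W : ℝ := (M : ℝ) / q + 1 with hW
  have hW0 : 0 ≤ W := by positivity
  have h1 : ((∑ m ∈ Ioc M (2 * M), ‖S m‖ ^ 2 : ℝ) : ℂ) =
      ∑ l ∈ Ioc L (2 * L), ∑ l' ∈ Ioc L (2 * L), (d l * (starRingEnd ℂ) (d l')) *
        ∑ m ∈ (Ioc M (2 * M)).filter (fun m => P m l ∧ P m l'),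
          ee ((m : ℝ) * (((l : ℝ) - l') * α)) := by
    push_cast
    have h2 : ∀ m ∈ Ioc M (2 * M), ((‖S m‖ : ℂ)) ^ 2 = ∑ l ∈ Ioc L (2 * L), ∑ l' ∈ Ioc L (2 * L),
        (d l * (starRingEnd ℂ) (d l')) * (if P m l ∧ P m l' then
          ee ((m : ℝ) * (((l : ℝ) - l') * α)) else 0) := by
      intro m _
      rw [← Complex.mul_conj', hS]
      simp only
      rw [map_sum, sum_mul_sum]
      apply sum_congr rfl; intro l _
      apply sum_congr rfl; intro l' _
      rw [map_mul]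
      by_cases g1 : P m l
      · by_cases g2 : P m l'
        · rw [if_pos g1, if_pos g2, if_pos ⟨g1, g2⟩, ee_conj']
          have : ee ((m : ℝ) * (((l : ℝ) - l') * α)) = ee (((m * l : ℕ) : ℝ) * α) * ee (-(((m * l' : ℕ) : ℝ) * α)) := by
            rw [← ee_add]; congr 1; push_cast; ring
          rw [this]; ring
        · rw [if_neg g2, if_neg (show ¬ (P m l ∧ P m l') from fun h => g2 h.2)]; simp
      · rw [if_neg g1, if_neg (show ¬ (P m l ∧ P m l') from fun h => g1 h.1)]; simp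
    rw [sum_congr rfl h2, sum_comm]
    apply sum_congr rfl; intro l _
    rw [sum_comm]
    apply sum_congr rfl; intro l' _
    rw [← mul_sum, sum_filter]
  have hK : ∀ l ∈ Ioc L (2 * L), ∀ l' ∈ Ioc L (2 * L),
      ‖∑ m ∈ (Ioc M (2 * M)).filter (fun m => P m l ∧ P m l'),
          ee ((m : ℝ) * (((l : ℝ) - l') * α))‖ ≤
        (if l' ≡ l [MOD q] then KK W (q * (((l : ℝ) - l') * α)) else 0) := by
    intro l hl l' hl'
    rw [mem_Ioc] at hl hl'
    have hl0 : 0 < l := by omega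
    have hl0' : 0 < l' := by omega
    by_cases hll : l' ≡ l [MOD q]
    · rw [if_pos hll]
      set lo := max M (max (N / l) (N / l')) with hlo
      set hi := min (2 * M) (min (N' / l) (N' / l')) with hhi
      by_cases hlq : l.Coprime q
      · -- the class of m
        obtain ⟨v, hv⟩ := mul_class l q u hq hlq
        have hset : (Ioc M (2 * M)).filter (fun m => P m l ∧ P m l') =
            (Ioc lo hi).filter (fun m => m ≡ v [MOD q]) := by
          ext m
          rw [mem_filter, mem_filter, mem_Ioc, mem_Ioc, hP]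
          simp only
          have g1 : N < m * l ↔ N / l < m := (Nat.div_lt_iff_lt_mul hl0).symm
          have g2 : m * l ≤ N' ↔ m ≤ N' / l := (Nat.le_div_iff_mul_le hl0).symm
          have g3 : N < m * l' ↔ N / l' < m := (Nat.div_lt_iff_lt_mul hl0').symm
          have g4 : m * l' ≤ N' ↔ m ≤ N' / l' := (Nat.le_div_iff_mul_le hl0').symm
          have g5 : m * l' ≡ u [MOD q] ↔ m * l ≡ u [MOD q] :=
            ⟨fun h => ((hll.mul_left m).symm).trans h, fun h => (hll.mul_left m).trans h⟩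
          rw [g1, g2, g3, g4, g5, hv m]
          constructor
          · rintro ⟨h1, ⟨h2, h3⟩, ⟨h4, _⟩⟩
            exact ⟨by omega, h3⟩
          · rintro ⟨h1, h3⟩
            exact ⟨by omega, ⟨by omega, h3⟩, ⟨by omega, h3⟩⟩
        rw [hset]
        rcases le_or_gt hi lo with h | h
        · rw [Ioc_eq_empty_of_le h, filter_empty, sum_empty, norm_zero]
          exact KK_nonneg hW0 _
        · apply geoAP lo hi q v hq W hW0
          have g1 : M ≤ lo := le_max_left _ _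
          have g2 : hi ≤ 2 * M := min_le_left _ _
          have g1r : (M : ℝ) ≤ lo := by exact_mod_cast g1
          have g2r : (hi : ℝ) ≤ 2 * M := by exact_mod_cast g2
          have : ((hi : ℝ) - lo) / q ≤ M / q := div_le_div_of_nonneg_right (by linarith) hq0.le
          linarith
      · have hemp : (Ioc M (2 * M)).filter (fun m => P m l ∧ P m l') = ∅ := by
          apply filter_eq_empty_iff.2
          rintro m _ ⟨⟨_, h1⟩, _⟩
          apply hlq
          have h2 : (m * l).Coprime q := by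
            unfold Nat.Coprime
            rw [h1.gcd_eq]
            exact hu
          exact h2.coprime_mul_left
        rw [hemp, sum_empty, norm_zero]
        exact KK_nonneg hW0 _
    · rw [if_neg hll]
      have hemp : (Ioc M (2 * M)).filter (fun m => P m l ∧ P m l') = ∅ := by
        apply filter_eq_empty_iff.2
        rintro m _ ⟨⟨_, h1⟩, ⟨_, h3⟩⟩
        apply hll
        have h2 : (m * l).Coprime q := by
          unfold Nat.Coprime
          rw [h1.gcd_eq]
          exact hu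
        have h4 : m.Coprime q := h2.coprime_mul_right
        exact Nat.ModEq.cancel_left_of_coprime (by rwa [Nat.gcd_comm] ) (h3.trans h1.symm)
      rw [hemp, sum_empty, norm_zero]
  have h2 : ∑ m ∈ Ioc M (2 * M), ‖S m‖ ^ 2 ≤
      ∑ l ∈ Ioc L (2 * L), ∑ l' ∈ Ioc L (2 * L), (‖d l‖ ^ 2 + ‖d l'‖ ^ 2) / 2 *
        (if l' ≡ l [MOD q] then KK W (q * (((l : ℝ) - l') * α)) else 0) := by
    have h3 : (∑ m ∈ Ioc M (2 * M), ‖S m‖ ^ 2) = ‖((∑ m ∈ Ioc M (2 * M), ‖S m‖ ^ 2 : ℝ) : ℂ)‖ := by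
      rw [Complex.norm_real, Real.norm_of_nonneg (by positivity)]
    rw [h3, h1]
    refine (norm_sum_le _ _).trans (sum_le_sum fun l hl => ?_)
    refine (norm_sum_le _ _).trans (sum_le_sum fun l' hl' => ?_)
    rw [norm_mul, norm_mul, RCLike.norm_conj]
    apply mul_le_mul _ (hK l hl l' hl') (norm_nonneg _) (by positivity)
    nlinarith [sq_nonneg (‖d l‖ - ‖d l'‖)]
  refine h2.trans ?_
  set T : ℕ → ℕ → ℝ := fun l l' => if l' ≡ l [MOD q] then KK W (q * (((l : ℝ) - l') * α)) else 0 with hT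
  have hTsymm : ∀ l l', T l l' = T l' l := by
    intro l l'
    simp only [hT]
    by_cases h : l' ≡ l [MOD q]
    · rw [if_pos h, if_pos h.symm, ← KK_neg]; congr 1; ring
    · rw [if_neg h, if_neg (fun h' => h h'.symm)]
  have h4 : ∑ l ∈ Ioc L (2 * L), ∑ l' ∈ Ioc L (2 * L), (‖d l‖ ^ 2 + ‖d l'‖ ^ 2) / 2 * T l l' =
      ∑ l ∈ Ioc L (2 * L), ‖d l‖ ^ 2 * ∑ l' ∈ Ioc L (2 * L), T l l' := by
    have e2 : ∀ l l' : ℕ, (‖d l‖ ^ 2 + ‖d l'‖ ^ 2) / 2 * T l l' =
        1 / 2 * (‖d l‖ ^ 2 * T l l') + 1 / 2 * (‖d l'‖ ^ 2 * T l l') := by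
      intro l l'; ring
    simp_rw [e2, sum_add_distrib]
    have e3 : ∑ l ∈ Ioc L (2 * L), ∑ l' ∈ Ioc L (2 * L), 1 / 2 * (‖d l'‖ ^ 2 * T l l') =
        ∑ l ∈ Ioc L (2 * L), ∑ l' ∈ Ioc L (2 * L), 1 / 2 * (‖d l‖ ^ 2 * T l l') := by
      rw [sum_comm]
      apply sum_congr rfl; intro l _
      apply sum_congr rfl; intro l' _
      rw [hTsymm]
    rw [e3, ← sum_add_distrib]
    apply sum_congr rfl; intro l _
    rw [← sum_add_distrib, mul_sum]
    apply sum_congr rfl; intro l' _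
    ring
  rw [h4, sum_mul]
  apply sum_le_sum
  intro l _
  apply mul_le_mul_of_nonneg_left _ (by positivity)
  have h5 : ∑ l' ∈ Ioc L (2 * L), T l l' = ∑ l' ∈ (Ioc L (2 * L)).filter (fun l' => l' ≡ l [MOD q]),
      KK W (q * (((l : ℝ) - l') * α)) := by
    rw [sum_filter]
  rw [h5]
  obtain ⟨n0, J, g1, g2⟩ := ap_param L (2 * L) q l hq
  rw [sum_ap L (2 * L) q l n0 J hq g1]
  have h6 : ∑ j ∈ range J, KK W (q * (((l : ℝ) - ((n0 + q * j : ℕ) : ℝ)) * α)) =
      ∑ j ∈ range J, KK W (-(q * (((l : ℝ) - n0) * α)) + j * ((q : ℝ) ^ 2 * α)) := by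
    apply sum_congr rfl; intro j _
    rw [← KK_neg]; congr 1; push_cast; ring
  rw [h6]
  refine (vino hb hcop hα hW0 _ _).trans ?_
  have hlb : 0 ≤ Real.log b := Real.log_nonneg (by exact_mod_cast hb)
  apply mul_le_mul_of_nonneg_right _ (by positivity)
  apply add_le_add _ le_rfl
  apply div_le_div_of_nonneg_right _ hb0.le
  rcases Nat.eq_zero_or_pos J with hJ | hJ
  · rw [hJ]; push_cast; positivity
  · have := g2 hJ
    refine this.trans (le_of_eq ?_)
    push_cast; ring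

end Pool.Agent.L0h42.TB
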