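import Mathlib
import Pool.Agent.L0h42.TB.A1
import Pool.Agent.H373R2.T7.Lin

/-! A dyadic block of the exponential sum of the von Mangoldt function over a progression. -/

set_option autoImplicit false

namespace Pool.Agent.L0h42.TB
open Finset
open Pool.Agent.H807R2.Dav
open Pool.Agent.H373R2.T7 (KK_mono cs_norm ee_conj' vaughan_gen typeI_lin)

theorem block_ap {b : ℕ} (hb : 1 ≤ b) {c : ℤ} (hcop : IsCoprime c (b : ℤ)) {b1 : ℕ} (hb1 : 1 ≤ b1) {c1 : ℤ}
    (hcop1 : IsCoprime c1 (b1 : ℤ)) (q u : ℕ) (hq : 1 ≤ q) (hu : u.Coprime q) {α : ℝ}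
    (hα : |(q : ℝ) ^ 2 * α - c / b| ≤ 1 / (b : ℝ) ^ 2) (hα1 : |(q : ℝ) * α - c1 / b1| ≤ 1 / (b1 : ℝ) ^ 2)
    (N N' U : ℕ) (hN : 1 ≤ N) (hNN' : N ≤ N') (hN' : N' ≤ 2 * N)
    (hU : 1 ≤ U) (hUN : U * U ≤ N) (hqU : q ≤ U) :
    ‖∑ n ∈ Ioc N N', ((ArithmeticFunction.vonMangoldt n : ℝ) : ℂ) *
      (if n ≡ u [MOD q] then ee ((n : ℝ) * α) else 0)‖ ≤
      8 * (1 + Real.log (4 * N)) ^ 5 *
        Real.sqrt (1404 * (1 + Real.log b) * (N * ((N : ℝ) / (q ^ 2 * b) + N / (q * U) + b))) +
      3 * (1 + Real.log (4 * N)) * (600 * (Nat.log 2 (U * U) + 1 : ℝ) *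
        ((N : ℝ) / (q * b1) + 3 * (U * U : ℕ) + b1) * (1 + Real.log b1)) := by
  have hq0 : (0 : ℝ) < q := by exact_mod_cast hq
  have hb0 : (0 : ℝ) < b := by exact_mod_cast hb
  have hb1r : (1 : ℝ) ≤ b := by exact_mod_cast hb
  have hlb : 0 ≤ Real.log b := Real.log_nonneg hb1r
  have hb10 : (0 : ℝ) < b1 := by exact_mod_cast hb1
  have hb11 : (1 : ℝ) ≤ b1 := by exact_mod_cast hb1
  have hlb1 : 0 ≤ Real.log b1 := Real.log_nonneg hb11
  have hN0 : (1 : ℝ) ≤ N := by exact_mod_cast hN
  have hU0 : (0 : ℝ) < U := by exact_mod_cast hU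
  have hlog4N : 0 ≤ Real.log (4 * (N : ℝ)) := Real.log_nonneg (by linarith)
  have hqUr : (q : ℝ) ≤ U := by exact_mod_cast hqU
  set N₁ : ℕ := N / q + 1 + U * U with hN₁
  have hN₁1 : 1 ≤ N₁ := by
    rw [hN₁]
    exact le_trans (Nat.le_add_left 1 _) (Nat.le_add_right _ _)
  have hN₁a : (N : ℝ) / q + U * U ≤ N₁ := by
    have : (N : ℝ) / q < ((N / q : ℕ) : ℝ) + 1 := by
      rw [div_lt_iff₀ hq0]
      have h1 := Nat.lt_mul_div_succ N (show 0 < q by omega)
      have h2 : (N : ℝ) < ((q * (N / q + 1) : ℕ) : ℝ) := by exact_mod_cast h1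
      push_cast at h2
      linarith
    rw [hN₁]; push_cast; linarith
  have hN₁b : (N₁ : ℝ) ≤ N / q + 1 + U * U := by
    have : ((N / q : ℕ) : ℝ) ≤ N / q := Nat.cast_div_le
    rw [hN₁]; push_cast; linarith
  have key := vaughan_gen (fun n => if n ≡ u [MOD q] then ee ((n : ℝ) * α) else 0) N N' U hN hNN' hN' hU hUN
    (fun m => KK (2 * N₁ / m) (m * (q * α)))
    (Real.sqrt (1404 * (1 + Real.log b) * (N * ((N : ℝ) / (q ^ 2 * b) + N / (q * U) + b))))
    (Real.sqrt_nonneg _) (fun m => KK_nonneg (by positivity) _) (by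
      intro m hm y hy
      rw [mem_Icc] at hm
      have hm0 : (0 : ℝ) < m := by exact_mod_cast (by omega : 0 < m)
      have e0 : ∑ l ∈ Ioc (N / m) y, (if m * l ≡ u [MOD q] then ee (((m * l : ℕ) : ℝ) * α) else 0) =
          ∑ l ∈ (Ioc (N / m) y).filter (fun l => m * l ≡ u [MOD q]), ee ((l : ℝ) * (m * α)) := by
        rw [sum_filter]
        apply sum_congr rfl; intro l _
        split_ifs
        · congr 1; push_cast; ring
        · rfl
      rw [e0]
      by_cases hmq : m.Coprime q
      · obtain ⟨v, hv⟩ := mul_class m q u hq hmq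
        have e1 : (Ioc (N / m) y).filter (fun l => m * l ≡ u [MOD q]) =
            (Ioc (N / m) y).filter (fun l => l ≡ v [MOD q]) := by
          apply filter_congr; intro l _
          rw [mul_comm m l]; exact hv l
        rw [e1]
        have e2 : (m : ℝ) * (q * α) = q * (m * α) := by ring
        rw [e2]
        have hm2 : (m : ℝ) ≤ U * U := by exact_mod_cast hm.2
        apply geoAP _ _ q v hq _ (by positivity)
        have h1 : (y : ℝ) ≤ 2 * N / m := by
          have h2 : (y : ℝ) ≤ ((N' / m : ℕ) : ℝ) := by exact_mod_cast hy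
          have h3 : ((N' / m : ℕ) : ℝ) ≤ N' / m := Nat.cast_div_le
          have h4 : (N' : ℝ) / m ≤ 2 * N / m := by
            apply div_le_div_of_nonneg_right _ hm0.le
            exact_mod_cast hN'
          linarith
        have h5 : (0 : ℝ) ≤ ((N / m : ℕ) : ℝ) := Nat.cast_nonneg _
        have h6 : ((y : ℝ) - ((N / m : ℕ) : ℝ)) / q + 1 ≤ 2 * N / m / q + 1 := by
          have : ((y : ℝ) - ((N / m : ℕ) : ℝ)) / q ≤ 2 * N / m / q :=
            div_le_div_of_nonneg_right (by linarith) hq0.le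
          linarith
        refine h6.trans ?_
        have h7 : 2 * (N : ℝ) / m / q + 1 = 2 * (N / q + m / 2) / m := by field_simp
        rw [h7]
        apply div_le_div_of_nonneg_right _ hm0.le
        nlinarith
      · have hemp : (Ioc (N / m) y).filter (fun l => m * l ≡ u [MOD q]) = ∅ := by
          apply filter_eq_empty_iff.2
          intro l _ h1
          apply hmq
          have h2 : (m * l).Coprime q := by
            unfold Nat.Coprime
            rw [h1.gcd_eq]
            exact hu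
          exact h2.coprime_mul_right
        rw [hemp, sum_empty, norm_zero]
        exact KK_nonneg (by positivity) _) (by
      intro a d A₂ B₂ hA0 hB0 M L hM hL hM2 hL2 hML hA hB
      have h1 := typeII_ap hb hcop q u hq hu hα N N' M L a d
      refine h1.trans ?_
      rw [Real.sq_sqrt (by positivity)]
      have hM0 : (0 : ℝ) < M := by exact_mod_cast hM
      have hL0 : (0 : ℝ) < L := by exact_mod_cast hL
      have hMLr : (M : ℝ) * L ≤ 2 * N := by exact_mod_cast hML.trans hN'
      have hM2r : (U : ℝ) ≤ 2 * M := by exact_mod_cast hM2.le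
      have hL2r : (U : ℝ) ≤ 2 * L := by exact_mod_cast hL2.le
      have hM4 : (M : ℝ) ≤ 4 * (N / U) := by
        rw [mul_div_assoc', le_div_iff₀ hU0]
        nlinarith
      have hL4 : (L : ℝ) ≤ 4 * (N / U) := by
        rw [mul_div_assoc', le_div_iff₀ hU0]
        nlinarith
      have hMq : (M : ℝ) / q + 1 ≤ 3 * M / q := by
        rw [div_add_one hq0.ne']
        apply div_le_div_of_nonneg_right _ hq0.le
        linarith
      have hLq : (L : ℝ) / q + 1 ≤ 3 * L / q := by
        rw [div_add_one hq0.ne']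
        apply div_le_div_of_nonneg_right _ hq0.le
        linarith
      have hlb1' : 1 ≤ 1 + Real.log b := by linarith
      set ℓ := 1 + Real.log b with hℓ
      have hℓ0 : 0 < ℓ := by linarith
      have k1 : (((L : ℝ) / q + 1) / b + 1) * (39 * ((M : ℝ) / q + 1) + 3 * b * ℓ) ≤
          ((3 * L / q) / b + 1) * (39 * (3 * M / q) + 3 * b * ℓ) := by
        gcongr
      calc (∑ m ∈ Ioc M (2 * M), ‖a m‖ ^ 2) * ((∑ l ∈ Ioc L (2 * L), ‖d l‖ ^ 2) *
            ((((L : ℝ) / q + 1) / b + 1) * (39 * ((M : ℝ) / q + 1) + 3 * b * ℓ)))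
          ≤ (A₂ * M) * ((B₂ * L) * (((3 * L / q) / b + 1) * (39 * (3 * M / q) + 3 * b * ℓ))) := by
            gcongr
        _ = A₂ * B₂ * (351 * (M * L) * (M * L) / (q ^ 2 * b) + 9 * ℓ * (M * L) * L / q +
              117 * (M * L) * M / q + 3 * b * ℓ * (M * L)) := by
            field_simp; ring
        _ ≤ A₂ * B₂ * (351 * (2 * N) * (2 * N) / (q ^ 2 * b) + 9 * ℓ * (2 * N) * (4 * (N / U)) / q +
              117 * (2 * N) * (4 * (N / U)) / q + 3 * b * ℓ * (2 * N)) := by
            apply mul_le_mul_of_nonneg_left _ (by positivity)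
            have hML0 : 0 ≤ (M : ℝ) * L := by positivity
            have hNN0 : 0 ≤ 2 * (N : ℝ) := by positivity
            have hNU0 : 0 ≤ 4 * ((N : ℝ) / U) := by positivity
            have w1 : 351 * ((M : ℝ) * L) * (M * L) / (q ^ 2 * b) ≤ 351 * (2 * N) * (2 * N) / (q ^ 2 * b) := by
              apply div_le_div_of_nonneg_right _ (by positivity)
              have := mul_le_mul hMLr hMLr hML0 hNN0
              nlinarith
            have w2 : 9 * ℓ * ((M : ℝ) * L) * L / q ≤ 9 * ℓ * (2 * N) * (4 * (N / U)) / q := by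
              apply div_le_div_of_nonneg_right _ hq0.le
              have := mul_le_mul hMLr hL4 hL0.le hNN0
              have h9 : 9 * ℓ * ((M * L) * L) ≤ 9 * ℓ * ((2 * N) * (4 * (N / U))) :=
                mul_le_mul_of_nonneg_left this (by positivity)
              nlinarith
            have w3 : 117 * ((M : ℝ) * L) * M / q ≤ 117 * (2 * N) * (4 * (N / U)) / q := by
              apply div_le_div_of_nonneg_right _ hq0.le
              have := mul_le_mul hMLr hM4 hM0.le hNN0
              nlinarith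
            have w4 : 3 * (b : ℝ) * ℓ * (M * L) ≤ 3 * b * ℓ * (2 * N) :=
              mul_le_mul_of_nonneg_left hMLr (by positivity)
            linarith
        _ ≤ A₂ * B₂ * (1404 * ℓ * (N * ((N : ℝ) / (q ^ 2 * b) + N / (q * U) + b))) := by
            apply mul_le_mul_of_nonneg_left _ (by positivity)
            have t1 : 351 * (2 * (N : ℝ)) * (2 * N) / (q ^ 2 * b) = 1404 * (N * (N / (q ^ 2 * b))) := by ring
            have t2 : 9 * ℓ * (2 * (N : ℝ)) * (4 * (N / U)) / q = 72 * ℓ * (N * (N / (q * U))) := by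
              field_simp; ring
            have t3 : 117 * (2 * (N : ℝ)) * (4 * (N / U)) / q = 936 * (N * (N / (q * U))) := by
              field_simp; ring
            have t4 : 3 * (b : ℝ) * ℓ * (2 * N) = 6 * ℓ * (N * b) := by ring
            rw [t1, t2, t3, t4]
            have p1 : 0 ≤ (N : ℝ) * (N / (q ^ 2 * b)) := by positivity
            have p2 : 0 ≤ (N : ℝ) * (N / (q * U)) := by positivity
            have p3 : 0 ≤ (N : ℝ) * b := by positivity
            nlinarith)
  refine key.trans ?_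
  apply add_le_add le_rfl
  apply mul_le_mul_of_nonneg_left _ (by positivity)
  have hUU : 1 ≤ U * U := Nat.mul_pos hU hU
  refine (typeI_lin hb1 hcop1 hα1 N₁ (U * U) hN₁1 hUU).trans ?_
  apply mul_le_mul_of_nonneg_right _ (by linarith)
  apply mul_le_mul_of_nonneg_left _ (by positivity)
  have h1 : (N₁ : ℝ) / b1 ≤ N / (q * b1) + 1 + U * U := by
    have h2 : (N₁ : ℝ) / b1 ≤ (N / q + 1 + U * U) / b1 := div_le_div_of_nonneg_right hN₁b hb10.le
    have h3 : ((N : ℝ) / q + 1 + U * U) / b1 = N / (q * b1) + (1 + U * U) / b1 := by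
      field_simp
      ring
    have h4 : (1 + (U : ℝ) * U) / b1 ≤ 1 + U * U := div_le_self (by positivity) hb11
    linarith
  have h5 : (1 : ℝ) ≤ ((U * U : ℕ) : ℝ) := by exact_mod_cast hUU
  push_cast at h5 ⊢
  linarith

end Pool.Agent.L0h42.TB
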