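import Mathlib
import Pool.Agent.L0h42.TB.A2
import Pool.Agent.H373R2.T7.Lin

/-! The exponential sum of the von Mangoldt function over a progression, minor arcs. -/

set_option autoImplicit false

namespace Pool.Agent.L0h42.TB
open Finset
open Pool.Agent.H807R2.Dav

/-- from dyadic blocks to full sums -/
lemma dyadic_up (F : ℕ → ℂ) (T M : ℕ) (hT : 1 ≤ T) (B0 B : ℝ) (hB : 0 ≤ B)
    (h0 : ∀ y, y ≤ 2 * T → ‖∑ n ∈ Icc 1 y, F n‖ ≤ B0)
    (hblock : ∀ N N' : ℕ, T ≤ N → N ≤ N' → N' ≤ 2 * N → N' ≤ M → ‖∑ n ∈ Ioc N N', F n‖ ≤ B) :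
    ∀ k y : ℕ, y ≤ 2 ^ k → y ≤ M → ‖∑ n ∈ Icc 1 y, F n‖ ≤ B0 + k * B := by
  intro k
  induction k with
  | zero =>
    intro y hy _
    have := h0 y (by simp at hy; omega)
    simpa using this
  | succ k ih =>
    intro y hy hyM
    by_cases hyT : y ≤ 2 * T
    · refine (h0 y hyT).trans ?_
      have : 0 ≤ ((k + 1 : ℕ) : ℝ) * B := by positivity
      linarith
    · set y' := (y + 1) / 2 with hy'
      have h1 : y' ≤ 2 ^ k := by
        rw [pow_succ] at hy
        omega
      have h2 := ih y' h1 (by omega)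
      have h3 := hblock y' y (by omega) (by omega) (by omega) hyM
      have h4 : ∑ n ∈ Icc 1 y, F n = ∑ n ∈ Icc 1 y', F n + ∑ n ∈ Ioc y' y, F n := by
        rw [← sum_union]
        · apply sum_congr _ fun _ _ => rfl
          ext n
          simp only [mem_union, mem_Icc, mem_Ioc]
          omega
        · rw [disjoint_left]
          intro n hn hn'
          rw [mem_Icc] at hn
          rw [mem_Ioc] at hn'
          omega
      rw [h4]
      refine (norm_add_le _ _).trans ?_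
      push_cast
      linarith

/-- the bound for the block sums -/
noncomputable def RB (N q b b1 U : ℕ) : ℝ :=
  8 * (1 + Real.log (4 * N)) ^ 5 *
        Real.sqrt (1404 * (1 + Real.log b) * (N * ((N : ℝ) / (q ^ 2 * b) + N / (q * U) + b))) +
      3 * (1 + Real.log (4 * N)) * (600 * (Nat.log 2 (U * U) + 1 : ℝ) *
        ((N : ℝ) / (q * b1) + 3 * (U * U : ℕ) + b1) * (1 + Real.log b1))

lemma RB_mono {N N₁ q b b1 U : ℕ} (hN : 1 ≤ N) (h : N ≤ N₁) (hb : 1 ≤ b) (hb1 : 1 ≤ b1) :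
    RB N q b b1 U ≤ RB N₁ q b b1 U := by
  have hr : (N : ℝ) ≤ N₁ := by exact_mod_cast h
  have hN0 : (1 : ℝ) ≤ N := by exact_mod_cast hN
  have hlb : 0 ≤ Real.log b := Real.log_nonneg (by exact_mod_cast hb)
  have hlb1 : 0 ≤ Real.log b1 := Real.log_nonneg (by exact_mod_cast hb1)
  have hl : Real.log (4 * (N : ℝ)) ≤ Real.log (4 * N₁) := Real.log_le_log (by linarith) (by linarith)
  have hl0 : 0 ≤ Real.log (4 * (N : ℝ)) := Real.log_nonneg (by linarith)
  have hl1 : 0 ≤ Real.log (4 * (N₁ : ℝ)) := hl0.trans hl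
  unfold RB
  gcongr

theorem lam_ap_minor {b : ℕ} (hb : 1 ≤ b) {c : ℤ} (hcop : IsCoprime c (b : ℤ)) {b1 : ℕ} (hb1 : 1 ≤ b1) {c1 : ℤ}
    (hcop1 : IsCoprime c1 (b1 : ℤ)) (q u : ℕ) (hq : 1 ≤ q) (hu : u.Coprime q) {α : ℝ}
    (hα : |(q : ℝ) ^ 2 * α - c / b| ≤ 1 / (b : ℝ) ^ 2) (hα1 : |(q : ℝ) * α - c1 / b1| ≤ 1 / (b1 : ℝ) ^ 2)
    (N U y : ℕ) (hN : 1 ≤ N) (hy : y ≤ N) (hU : 1 ≤ U) (hUN : 2 * (U * U) ≤ N) (hqU : q ≤ U) :
    ‖∑ n ∈ Icc 1 y, ((ArithmeticFunction.vonMangoldt n : ℝ) : ℂ) *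
      (if n ≡ u [MOD q] then ee ((n : ℝ) * α) else 0)‖ ≤
      2 * (U * U : ℕ) * Real.log N + (Nat.log 2 N + 1) * RB N q b b1 U := by
  have hN0 : (1 : ℝ) ≤ N := by exact_mod_cast hN
  have hlN : 0 ≤ Real.log N := Real.log_nonneg hN0
  have hUU : 1 ≤ U * U := Nat.mul_pos hU hU
  have hlb : 0 ≤ Real.log b := Real.log_nonneg (by exact_mod_cast hb)
  have hlb1 : 0 ≤ Real.log b1 := Real.log_nonneg (by exact_mod_cast hb1)
  have hRB : 0 ≤ RB N q b b1 U := by
    have : 0 ≤ Real.log (4 * (N : ℝ)) := Real.log_nonneg (by linarith)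
    unfold RB
    positivity
  set F : ℕ → ℂ := fun n => ((ArithmeticFunction.vonMangoldt n : ℝ) : ℂ) *
      (if n ≡ u [MOD q] then ee ((n : ℝ) * α) else 0) with hF
  have h1 := dyadic_up F (U * U) N hUU (2 * (U * U : ℕ) * Real.log N) (RB N q b b1 U) hRB (by
      intro y' hy'
      rcases Nat.eq_zero_or_pos y' with h0 | h0
      · rw [h0]
        simp only [Icc_eq_empty_of_lt Nat.zero_lt_one, sum_empty, norm_zero]
        positivity
      refine (norm_sum_le _ _).trans ?_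
      have h2 : ∀ n ∈ Icc 1 y', ‖F n‖ ≤ Real.log N := by
        intro n hn
        rw [mem_Icc] at hn
        rw [hF]
        simp only
        rw [norm_mul]
        have e1 : ‖(if n ≡ u [MOD q] then ee ((n : ℝ) * α) else 0 : ℂ)‖ ≤ 1 := by
          split_ifs
          · rw [norm_ee]
          · simp
        have e2 : ‖((ArithmeticFunction.vonMangoldt n : ℝ) : ℂ)‖ ≤ Real.log N := by
          rw [Complex.norm_real, Real.norm_of_nonneg ArithmeticFunction.vonMangoldt_nonneg]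
          refine ArithmeticFunction.vonMangoldt_le_log.trans ?_
          apply Real.log_le_log (by exact_mod_cast (by omega : 0 < n))
          have : n ≤ N := by omega
          exact_mod_cast this
        calc _ ≤ Real.log N * 1 := mul_le_mul e2 e1 (norm_nonneg _) hlN
          _ = _ := mul_one _
      refine (sum_le_sum h2).trans ?_
      rw [sum_const, Nat.card_Icc, nsmul_eq_mul]
      have : ((y' + 1 - 1 : ℕ) : ℝ) ≤ 2 * (U * U : ℕ) := by
        have : y' + 1 - 1 ≤ 2 * (U * U) := by omega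
        exact_mod_cast this
      exact mul_le_mul_of_nonneg_right this hlN) (by
      intro N1 N1' g1 g2 g3 g4
      have h2 := block_ap hb hcop hb1 hcop1 q u hq hu hα hα1 N1 N1' U (by omega) g2 g3 hU g1 hqU
      exact h2.trans (RB_mono (by omega) (by omega) hb hb1))
    (Nat.log 2 N + 1) y (by
      have : N < 2 ^ (Nat.log 2 N + 1) := Nat.lt_pow_succ_log_self (by norm_num) _
      omega) hy
  refine h1.trans ?_
  push_cast
  exact le_rfl

end Pool.Agent.L0h42.TB
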