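import Mathlib
import Pool.Agent.L0h42.TB.A3
import Pool.Agent.H373R2.T7.Lin
import Pool.Agent.H373R2.T7.Minor

/-! Minor arcs for the von Mangoldt function in progressions: the final form for one modulus. -/

set_option autoImplicit false

namespace Pool.Agent.L0h42.TB
open Finset
open Pool.Agent.H807R2.Dav
open Pool.Agent.H373R2.T7 (ev_log' ev_L' ev_root)

/-- Dirichlet's theorem -/
lemma dirichlet (θ M : ℝ) (hM : 1 ≤ M) : ∃ (b : ℕ) (c : ℤ), 1 ≤ b ∧ IsCoprime c (b : ℤ) ∧ (b : ℝ) ≤ M ∧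
    |θ - c / b| ≤ 1 / (M * b) := by
  have hQ : 0 < ⌊M⌋₊ := Nat.floor_pos.2 hM
  obtain ⟨r, hr1, hr2⟩ := Real.exists_rat_abs_sub_le_and_den_le θ hQ
  have hb : 0 < r.den := r.den_pos
  have hb0 : (0 : ℝ) < r.den := by exact_mod_cast hb
  have hrq : ((r : ℚ) : ℝ) = (r.num : ℝ) / r.den := by exact_mod_cast (Rat.num_div_den r).symm
  rw [hrq] at hr1
  refine ⟨r.den, r.num, hb, ?_, ?_, ?_⟩
  · rw [Int.isCoprime_iff_gcd_eq_one]
    have := r.reduced
    rw [Nat.Coprime] at this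
    rw [Int.gcd]
    simpa using this
  · have h1 : (r.den : ℝ) ≤ (⌊M⌋₊ : ℝ) := by exact_mod_cast hr2
    exact h1.trans (Nat.floor_le (by linarith))
  · refine hr1.trans ?_
    apply one_div_le_one_div_of_le (by positivity)
    apply mul_le_mul_of_nonneg_right _ hb0.le
    have := Nat.lt_floor_add_one M
    linarith

/-- two different fractions are far apart -/
lemma frac_gap {b b' : ℕ} (hb : 1 ≤ b) (hb' : 1 ≤ b') (c c' : ℤ) (h : (c : ℝ) / b ≠ c' / b') :
    1 / ((b : ℝ) * b') ≤ |(c : ℝ) / b - c' / b'| := by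
  have hb0 : (0 : ℝ) < b := by exact_mod_cast hb
  have hb0' : (0 : ℝ) < b' := by exact_mod_cast hb'
  have e : (c : ℝ) / b - c' / b' = ((c * b' - c' * b : ℤ) : ℝ) / (b * b') := by
    push_cast; field_simp
  have hne : c * b' - c' * b ≠ 0 := by
    intro h0
    apply h
    have h1 : (c : ℝ) / b - c' / b' = 0 := by rw [e, h0]; simp
    linarith
  rw [e, abs_div, abs_of_pos (by positivity : (0 : ℝ) < b * b')]
  apply div_le_div_of_nonneg_right _ (by positivity)
  have : (1 : ℤ) ≤ |c * b' - c' * b| := Int.one_le_abs hne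
  exact_mod_cast this

/-- a good approximation for `q ^ 2 α` gives one for `q α` -/
lemma good_first {N K α : ℝ} {q b : ℕ} {c : ℤ} (hN : 0 < N) (hK : 1 ≤ K) (hq : 1 ≤ q)
    (hqK : (q : ℝ) ^ 2 * K ^ 2 < N) (hb : 1 ≤ b) (hcop : IsCoprime c (b : ℤ))
    (hbK : K < b) (hbM : (b : ℝ) ≤ N / (q ^ 2 * K)) (hα : |(q : ℝ) ^ 2 * α - c / b| ≤ 1 / (N / (q ^ 2 * K) * b))
    {b1 : ℕ} {c1 : ℤ} (hb1 : 1 ≤ b1) (hα1 : |(q : ℝ) * α - c1 / b1| ≤ 1 / (N / (q * (K / 2)) * b1)) :
    K / 2 < b1 := by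
  by_contra hcon
  push Not at hcon
  have hq0 : (0 : ℝ) < q := by exact_mod_cast hq
  have hb0 : (0 : ℝ) < b := by exact_mod_cast hb
  have hb10 : (0 : ℝ) < b1 := by exact_mod_cast hb1
  have hK0 : 0 < K := by linarith
  have h1 : |(q : ℝ) ^ 2 * α - ((q * c1 : ℤ) : ℝ) / b1| ≤ q ^ 2 * (K / 2) / (N * b1) := by
    have e : (q : ℝ) ^ 2 * α - ((q * c1 : ℤ) : ℝ) / b1 = q * (q * α - c1 / b1) := by push_cast; ring
    rw [e, abs_mul, abs_of_pos hq0]
    calc (q : ℝ) * |q * α - c1 / b1| ≤ q * (1 / (N / (q * (K / 2)) * b1)) :=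
          mul_le_mul_of_nonneg_left hα1 hq0.le
      _ = _ := by field_simp
  have h2 : |(q : ℝ) ^ 2 * α - c / b| ≤ q ^ 2 * K / (N * b) := by
    refine hα.trans (le_of_eq ?_)
    field_simp
  by_cases heq : (c : ℝ) / b = ((q * c1 : ℤ) : ℝ) / b1
  · -- then `b ∣ b1`
    have h3 : (c : ℝ) * b1 = ((q * c1 : ℤ) : ℝ) * b := by
      rw [div_eq_div_iff hb0.ne' hb10.ne'] at heq
      exact heq
    have h4 : c * (b1 : ℤ) = (q * c1) * b := by exact_mod_cast h3
    have h5 : (b : ℤ) ∣ c * b1 := ⟨q * c1, by rw [h4]; ring⟩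
    have h6 : (b : ℤ) ∣ b1 := (hcop.symm).dvd_of_dvd_mul_left h5
    have h7 : b ≤ b1 := Nat.le_of_dvd (by omega) (by exact_mod_cast h6)
    have h8 : (b : ℝ) ≤ b1 := by exact_mod_cast h7
    linarith
  · have h3 := frac_gap hb hb1 c (q * c1) heq
    have h4 : |(c : ℝ) / b - ((q * c1 : ℤ) : ℝ) / b1| ≤ q ^ 2 * K / (N * b) + q ^ 2 * (K / 2) / (N * b1) := by
      have e : (c : ℝ) / b - ((q * c1 : ℤ) : ℝ) / b1 =
        (q ^ 2 * α - ((q * c1 : ℤ) : ℝ) / b1) - (q ^ 2 * α - c / b) := by ring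
      rw [e]
      refine (abs_sub _ _).trans ?_
      linarith
    have h5 : 1 / ((b : ℝ) * b1) ≤ q ^ 2 * K / (N * b) + q ^ 2 * (K / 2) / (N * b1) := h3.trans h4
    have h6 : (1 : ℝ) ≤ q ^ 2 * K * b1 / N + q ^ 2 * (K / 2) * b / N := by
      have := mul_le_mul_of_nonneg_left h5 (show (0 : ℝ) ≤ b * b1 by positivity)
      have e1 : (b : ℝ) * b1 * (1 / (b * b1)) = 1 := by field_simp
      have e2 : (b : ℝ) * b1 * (q ^ 2 * K / (N * b) + q ^ 2 * (K / 2) / (N * b1)) =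
        q ^ 2 * K * b1 / N + q ^ 2 * (K / 2) * b / N := by field_simp
      rw [e1, e2] at this
      exact this
    have h7 : (q : ℝ) ^ 2 * K * b1 / N ≤ q ^ 2 * K ^ 2 / N / 2 := by
      rw [div_div, div_le_div_iff₀ hN (by positivity)]
      have : (q : ℝ) ^ 2 * K * b1 ≤ q ^ 2 * K * (K / 2) := mul_le_mul_of_nonneg_left hcon (by positivity)
      nlinarith
    have h8 : (q : ℝ) ^ 2 * (K / 2) * b / N ≤ 1 / 2 := by
      rw [le_div_iff₀ (by positivity)] at hbM
      rw [div_le_div_iff₀ hN (by norm_num)]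
      nlinarith
    have h9 : (q : ℝ) ^ 2 * K ^ 2 / N < 1 := by rw [div_lt_one hN]; exact hqK
    linarith

set_option maxHeartbeats 4000000 in
/-- the minor arcs for one modulus -/
theorem good_lam (U : ℕ) : ∃ B : ℕ, U + 10 ≤ B ∧ ∃ N0 : ℕ, ∀ N : ℕ, N0 ≤ N → ∀ q u : ℕ, 1 ≤ q → q ^ 20 ≤ N → u.Coprime q →
    ∀ (α : ℝ) (b : ℕ) (c : ℤ), 1 ≤ b → IsCoprime c (b : ℤ) → Real.log N ^ B < b →
    (b : ℝ) ≤ N / (q ^ 2 * Real.log N ^ B) → |(q : ℝ) ^ 2 * α - c / b| ≤ 1 / (N / (q ^ 2 * Real.log N ^ B) * b) →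
    ∀ y : ℕ, y ≤ N → ‖∑ n ∈ Icc 1 y, ((ArithmeticFunction.vonMangoldt n : ℝ) : ℂ) *
      (if n ≡ u [MOD q] then ee ((n : ℝ) * α) else 0)‖ ≤ N / (q * Real.log N ^ U) := by
  set B : ℕ := 2 * (U + 10) with hB
  obtain ⟨n1, h1⟩ := ev_log' (20 * (B + U + 3)) 1
  obtain ⟨n2, h2⟩ := ev_L' 10000000
  refine ⟨B, by omega, max (max n1 n2) 16, ?_⟩
  intro N hN q u hq hqN hu α b c hb hcop hb1 hb2 hα y hy
  have hNn1 : n1 ≤ N := le_trans (le_trans (le_max_left _ _) (le_max_left _ _)) hN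
  have hNn2 : n2 ≤ N := le_trans (le_trans (le_max_right _ _) (le_max_left _ _)) hN
  have hN16 : 16 ≤ N := le_trans (le_max_right _ _) hN
  have hNr : (16 : ℝ) ≤ N := by exact_mod_cast hN16
  have hN0 : (0 : ℝ) < N := by linarith
  have hLt := h2 N hNn2
  have hLr := h1 N hNn1
  set L := Real.log N with hL
  rw [one_mul] at hLr
  have hL0 : 0 < L := by linarith
  have hL1 : 1 ≤ L := by linarith
  obtain ⟨t, ht⟩ : ∃ t : ℝ, t = (N : ℝ) ^ ((1 : ℝ) / 40) := ⟨_, rfl⟩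
  have ht0 : 0 ≤ t := by rw [ht]; positivity
  have ht40 : t ^ 40 = N := by
    rw [ht, ← Real.rpow_natCast, ← Real.rpow_mul hN0.le]
    norm_num
  have hsq : √(N : ℝ) = t ^ 20 := by
    rw [← ht40, show t ^ 40 = (t ^ 20) ^ 2 by ring, Real.sqrt_sq (by positivity)]
  have hLm : L ^ (B + U + 3) ≤ t := by
    apply le_of_pow_le_pow_left₀ (n := 20) (by norm_num) ht0
    rw [← pow_mul, mul_comm (B + U + 3), ← hsq]
    exact hLr
  have hLt1 : L ≤ t := le_trans (le_self_pow₀ hL1 (by omega)) hLm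
  have hLB : L ^ B ≤ t := le_trans (pow_le_pow_right₀ hL1 (by omega)) hLm
  have hLU : L ^ U ≤ t := le_trans (pow_le_pow_right₀ hL1 (by omega)) hLm
  have ht7 : 10000000 ≤ t := hLt.trans hLt1
  have ht1 : 1 ≤ t := by linarith
  have hqt : (q : ℝ) ≤ t ^ 2 := by
    apply le_of_pow_le_pow_left₀ (n := 20) (by norm_num) (by positivity)
    rw [← pow_mul, show 2 * 20 = 40 by norm_num, ht40]
    exact_mod_cast hqN
  set V := Nat.sqrt (Nat.sqrt N) with hV
  have hVV : V * V ≤ Nat.sqrt N := Nat.sqrt_le _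
  have hSN : Nat.sqrt N * Nat.sqrt N ≤ N := Nat.sqrt_le _
  have hSr : ((Nat.sqrt N : ℕ) : ℝ) ≤ t ^ 20 := by
    rw [← hsq]; exact Real.nat_sqrt_le_real_sqrt
  have hVVr : ((V * V : ℕ) : ℝ) ≤ t ^ 20 := le_trans (by exact_mod_cast hVV) hSr
  have hVlow : t ^ 10 ≤ (V : ℝ) + 1 := by
    have g2 : Nat.sqrt N < (V + 1) * (V + 1) := Nat.sqrt_lt'.1 (by rw [← hV]; exact Nat.lt_succ_self _) |>.trans_eq (by rw [pow_two])
    have g3 : N < (Nat.sqrt N + 1) * (Nat.sqrt N + 1) := Nat.lt_succ_sqrt N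
    have g4 : N < ((V + 1) * (V + 1)) * ((V + 1) * (V + 1)) :=
      lt_of_lt_of_le g3 (Nat.mul_le_mul (by omega) (by omega))
    have g5 : (N : ℝ) ≤ ((V : ℝ) + 1) ^ 4 := by
      have : (N : ℝ) ≤ ((((V + 1) * (V + 1)) * ((V + 1) * (V + 1)) : ℕ) : ℝ) := by exact_mod_cast g4.le
      push_cast at this
      calc (N : ℝ) ≤ _ := this
        _ = _ := by ring
    apply le_of_pow_le_pow_left₀ (n := 4) (by norm_num) (by positivity)
    rw [← pow_mul, show 10 * 4 = 40 by norm_num, ht40]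
    exact g5
  have ht10 : t ^ 3 + 1 ≤ t ^ 10 := by
    have e : t ^ 10 = t ^ 3 * t ^ 7 := by ring
    have h3 : 1 ≤ t ^ 3 := one_le_pow₀ ht1
    have h7 : 2 ≤ t ^ 7 := by
      calc (2 : ℝ) ≤ t := by linarith
        _ ≤ t ^ 7 := le_self_pow₀ ht1 (by norm_num)
    rw [e]
    nlinarith
  have hVt : t ^ 3 ≤ V := by linarith
  have hV0 : (0 : ℝ) < V := lt_of_lt_of_le (by positivity) hVt
  have hVn : 1 ≤ V := by exact_mod_cast hV0
  have hq0 : (0 : ℝ) < q := by exact_mod_cast hq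
  have hq1 : (1 : ℝ) ≤ q := by exact_mod_cast hq
  have hb0 : (0 : ℝ) < b := by exact_mod_cast hb
  have hb11 : (1 : ℝ) ≤ b := by exact_mod_cast hb
  set K := L ^ B with hK
  have hK1 : 1 ≤ K := one_le_pow₀ hL1
  have hK0 : 0 < K := by linarith
  have hK2 : 2 ≤ K := by
    have : L ≤ K := le_self_pow₀ hL1 (by omega)
    linarith
  have hqK3 : (q : ℝ) * K ≤ t ^ 3 := by
    calc (q : ℝ) * K ≤ t ^ 2 * t := by gcongr
      _ = t ^ 3 := by ring
  have hqV : q ≤ V := by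
    have : (q : ℝ) ≤ V := by
      have : (q : ℝ) * 1 ≤ q * K := mul_le_mul_of_nonneg_left hK1 hq0.le
      linarith
    exact_mod_cast this
  -- the approximation to `q α`
  have hM1 : 1 ≤ (N : ℝ) / (q * (K / 2)) := by
    rw [one_le_div (by positivity)]
    calc (q : ℝ) * (K / 2) ≤ q * K := by nlinarith
      _ ≤ t ^ 3 := hqK3
      _ ≤ t ^ 40 := pow_le_pow_right₀ ht1 (by norm_num)
      _ = N := ht40
  obtain ⟨b1, c1, g1, g2, g3, g4⟩ := dirichlet ((q : ℝ) * α) ((N : ℝ) / (q * (K / 2))) hM1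
  have hb10 : (0 : ℝ) < b1 := by exact_mod_cast g1
  have hb1K : K / 2 < b1 := by
    apply good_first hN0 hK1 hq _ hb hcop hb1 hb2 hα g1 g4
    calc (q : ℝ) ^ 2 * K ^ 2 = (q * K) ^ 2 := by ring
      _ ≤ (t ^ 3) ^ 2 := pow_le_pow_left₀ (by positivity) hqK3 2
      _ = t ^ 6 := by ring
      _ < t ^ 40 := pow_lt_pow_right₀ (by linarith) (by norm_num)
      _ = N := ht40
  have hα' : |(q : ℝ) ^ 2 * α - c / b| ≤ 1 / (b : ℝ) ^ 2 := by
    refine hα.trans ?_
    rw [pow_two (b : ℝ)]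
    apply one_div_le_one_div_of_le (by positivity)
    exact mul_le_mul_of_nonneg_right hb2 hb0.le
  have hα1' : |(q : ℝ) * α - c1 / b1| ≤ 1 / (b1 : ℝ) ^ 2 := by
    refine g4.trans ?_
    rw [pow_two (b1 : ℝ)]
    apply one_div_le_one_div_of_le (by positivity)
    exact mul_le_mul_of_nonneg_right g3 hb10.le
  have h2VN : 2 * (V * V) ≤ N := by
    have : 2 * ((V * V : ℕ) : ℝ) ≤ N := by
      calc 2 * ((V * V : ℕ) : ℝ) ≤ t * t ^ 20 := by
            apply mul_le_mul (by linarith) hVVr (by positivity) ht0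
        _ = t ^ 21 := by ring
        _ ≤ t ^ 40 := pow_le_pow_right₀ ht1 (by norm_num)
        _ = N := ht40
    exact_mod_cast this
  have key := lam_ap_minor hb hcop g1 g2 q u hq hu hα' hα1' N V y (by omega) hy hVn h2VN hqV
  refine key.trans ?_
  -- numerics
  have hlog4N : 1 + Real.log (4 * N) ≤ 2 * L := by
    rw [Real.log_mul (by norm_num) hN0.ne', ← hL]
    have : Real.log 4 ≤ 3 := by
      have := Real.log_le_sub_one_of_pos (show (0 : ℝ) < 4 by norm_num)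
      linarith
    linarith
  have hlog4N0 : 0 ≤ 1 + Real.log (4 * N) := by
    have : 0 ≤ Real.log (4 * (N : ℝ)) := Real.log_nonneg (by linarith)
    linarith
  have hlogle : ∀ x : ℝ, 1 ≤ x → x ≤ N → 1 + Real.log x ≤ 2 * L := by
    intro x hx hxN
    have := Real.log_le_log (by linarith) hxN
    linarith
  have hbN : (b : ℝ) ≤ N := by
    refine hb2.trans (div_le_self hN0.le ?_)
    have : (1 : ℝ) ≤ (q : ℝ) ^ 2 := one_le_pow₀ hq1
    nlinarith
  have hb1N : (b1 : ℝ) ≤ N := by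
    refine g3.trans (div_le_self hN0.le ?_)
    nlinarith
  have hlogb := hlogle b hb11 hbN
  have hlogb1 := hlogle b1 (by exact_mod_cast g1) hb1N
  have hlogb0 : 0 ≤ 1 + Real.log b := by
    have : 0 ≤ Real.log b := Real.log_nonneg hb11
    linarith
  have hlogb10 : 0 ≤ 1 + Real.log b1 := by
    have : 0 ≤ Real.log b1 := Real.log_nonneg (by exact_mod_cast g1)
    linarith
  have hnatlog : ∀ m : ℕ, 1 ≤ m → m ≤ N → (Nat.log 2 m + 1 : ℝ) ≤ 3 * L := by
    intro m hm hmN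
    have g4 : (2 : ℝ) ^ Nat.log 2 m ≤ m := by exact_mod_cast Nat.pow_log_le_self 2 (by omega : m ≠ 0)
    have g5 : (m : ℝ) ≤ N := by exact_mod_cast hmN
    have g6 := Real.log_le_log (by positivity) (g4.trans g5)
    rw [Real.log_pow] at g6
    have := Real.log_two_gt_d9
    have g7 : (0 : ℝ) ≤ Nat.log 2 m := Nat.cast_nonneg _
    nlinarith
  have hlogVV := hnatlog (V * V) (Nat.mul_pos hVn hVn) (by omega)
  have hlogN := hnatlog N (by omega) le_rfl
  obtain ⟨D, hD⟩ : ∃ D : ℝ, D = N / (q * L ^ U) := ⟨_, rfl⟩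
  have hD0 : 0 < D := by rw [hD]; positivity
  have hKU : K = L ^ (U + 10) * L ^ (U + 10) := by rw [hK, hB, ← pow_add]; congr 1; ring
  have hsqrtarg : 1404 * (1 + Real.log b) * (N * ((N : ℝ) / (q ^ 2 * b) + N / (q * V) + b)) ≤
      (92 * L * (N / (q * L ^ (U + 10)))) ^ 2 := by
    have a1 : (N : ℝ) / (q ^ 2 * b) ≤ N / (q ^ 2 * K) := by
      apply div_le_div_of_nonneg_left hN0.le (by positivity)
      exact mul_le_mul_of_nonneg_left hb1.le (by positivity)
    have a2 : (N : ℝ) / (q * V) ≤ N / (q ^ 2 * K) := by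
      apply div_le_div_of_nonneg_left hN0.le (by positivity)
      have : (q : ℝ) * K ≤ V := hqK3.trans hVt
      nlinarith
    calc 1404 * (1 + Real.log b) * (N * ((N : ℝ) / (q ^ 2 * b) + N / (q * V) + b))
        ≤ 1404 * (2 * L) * (N * (N / (q ^ 2 * K) + N / (q ^ 2 * K) + N / (q ^ 2 * K))) := by gcongr
      _ = 8424 * L * (N ^ 2 / (q ^ 2 * K)) := by ring
      _ ≤ 8464 * L ^ 2 * (N ^ 2 / (q ^ 2 * K)) := by
          apply mul_le_mul_of_nonneg_right _ (by positivity)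
          nlinarith
      _ = _ := by rw [hKU]; field_simp; ring
  have hsqrt : Real.sqrt (1404 * (1 + Real.log b) * (N * ((N : ℝ) / (q ^ 2 * b) + N / (q * V) + b))) ≤
      92 * L * (N / (q * L ^ (U + 10))) := by
    rw [Real.sqrt_le_left (by positivity)]
    exact hsqrtarg
  have hfirst : 8 * (1 + Real.log (4 * N)) ^ 5 *
        Real.sqrt (1404 * (1 + Real.log b) * (N * ((N : ℝ) / (q ^ 2 * b) + N / (q * V) + b))) ≤
        23552 / L ^ 4 * D := by
    calc _ ≤ 8 * (2 * L) ^ 5 * (92 * L * (N / (q * L ^ (U + 10)))) := by gcongr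
      _ = 23552 / L ^ 4 * D := by
        rw [hD, pow_add L U 10]
        field_simp
        ring
  have hsecond : 3 * (1 + Real.log (4 * N)) * (600 * (Nat.log 2 (V * V) + 1 : ℝ) *
        ((N : ℝ) / (q * b1) + 3 * (V * V : ℕ) + b1) * (1 + Real.log b1)) ≤ 108000 / L ^ 4 * D := by
    have a1 : (N : ℝ) / (q * b1) ≤ 2 * (N / (q * K)) := by
      have : 2 * ((N : ℝ) / (q * K)) = N / (q * (K / 2)) := by field_simp
      rw [this]
      apply div_le_div_of_nonneg_left hN0.le (by positivity)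
      exact mul_le_mul_of_nonneg_left hb1K.le (by positivity)
    have a2 : (b1 : ℝ) ≤ 2 * (N / (q * K)) := by
      have : 2 * ((N : ℝ) / (q * K)) = N / (q * (K / 2)) := by field_simp
      rw [this]
      exact g3
    have a3 : 3 * ((V * V : ℕ) : ℝ) ≤ N / (q * K) := by
      rw [le_div_iff₀ (by positivity)]
      calc 3 * ((V * V : ℕ) : ℝ) * (q * K) ≤ t * t ^ 20 * t ^ 3 := by
            apply mul_le_mul _ hqK3 (by positivity) (by positivity)
            exact mul_le_mul (by linarith) hVVr (by positivity) ht0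
        _ = t ^ 24 := by ring
        _ ≤ t ^ 40 := pow_le_pow_right₀ ht1 (by norm_num)
        _ = N := ht40
    calc _ ≤ 3 * (2 * L) * (600 * (3 * L) * (2 * (N / (q * K)) + N / (q * K) + 2 * (N / (q * K))) * (2 * L)) := by
          gcongr
      _ = 108000 * L ^ 3 * (N / (q * K)) := by ring
      _ ≤ _ := by
        rw [hKU, hD]
        have e : 108000 / L ^ 4 * ((N : ℝ) / (q * L ^ U)) = 108000 * L ^ 3 * (N / (q * (L ^ U * L ^ 7))) := by
          field_simp
        rw [e]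
        apply mul_le_mul_of_nonneg_left _ (by positivity)
        apply div_le_div_of_nonneg_left hN0.le (by positivity)
        apply mul_le_mul_of_nonneg_left _ hq0.le
        rw [← pow_add, ← pow_add]
        exact pow_le_pow_right₀ hL1 (by omega)
  have hRB : RB N q b b1 V ≤ 131552 / L ^ 4 * D := by
    unfold RB
    refine (add_le_add hfirst hsecond).trans (le_of_eq ?_)
    ring
  have hthird : 2 * ((V * V : ℕ) : ℝ) * L ≤ D / 2 := by
    rw [hD, div_div, le_div_iff₀ (by positivity)]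
    calc 2 * ((V * V : ℕ) : ℝ) * L * (q * L ^ U * 2) ≤ 2 * t ^ 20 * t * (t ^ 2 * t * 2) := by gcongr
      _ = 4 * t ^ 24 := by ring
      _ ≤ t * t ^ 24 := by
          apply mul_le_mul_of_nonneg_right (by linarith) (by positivity)
      _ = t ^ 25 := by ring
      _ ≤ t ^ 40 := pow_le_pow_right₀ ht1 (by norm_num)
      _ = N := ht40
  have hfourth : (Nat.log 2 N + 1 : ℝ) * RB N q b b1 V ≤ D / 2 := by
    calc (Nat.log 2 N + 1 : ℝ) * RB N q b b1 V ≤ 3 * L * (131552 / L ^ 4 * D) := by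
          apply mul_le_mul hlogN hRB _ (by positivity)
          unfold RB
          positivity
      _ = 394656 / L ^ 3 * D := by field_simp; ring
      _ ≤ 1 / 2 * D := by
          apply mul_le_mul_of_nonneg_right _ hD0.le
          rw [div_le_div_iff₀ (by positivity) (by norm_num)]
          have : L ≤ L ^ 3 := le_self_pow₀ hL1 (by norm_num)
          linarith
      _ = D / 2 := by ring
  rw [← hD]
  linarith

end Pool.Agent.L0h42.TB
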