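import Mathlib
import Pool.Agent.L0h42.TB.A1
import Pool.Agent.H373R2.T7.Lin
import Pool.Agent.H373R2.T7.Minor
import Pool.Agent.H373R2.T7.LamZ2

/-! Minor arcs for the sieve model in progressions. -/

set_option autoImplicit false

namespace Pool.Agent.L0h42.TB
open Finset
open Pool.Agent.H807R2.Dav
open Pool.Agent.H373R2.T7

/-- the number `t` with `t ^ 40 = N` -/
lemma exists_t (N : ℕ) (hN : 1 ≤ N) : ∃ t : ℝ, 0 ≤ t ∧ t ^ 40 = N ∧ √(N : ℝ) = t ^ 20 := by
  have hN0 : (0 : ℝ) < N := by exact_mod_cast hN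
  refine ⟨(N : ℝ) ^ ((1 : ℝ) / 40), by positivity, ?_, ?_⟩
  · rw [← Real.rpow_natCast, ← Real.rpow_mul hN0.le]
    norm_num
  · have : ((N : ℝ) ^ ((1 : ℝ) / 40)) ^ 40 = N := by
      rw [← Real.rpow_natCast, ← Real.rpow_mul hN0.le]
      norm_num
    nth_rewrite 1 [← this]
    rw [show ((N : ℝ) ^ ((1 : ℝ) / 40)) ^ 40 = (((N : ℝ) ^ ((1 : ℝ) / 40)) ^ 20) ^ 2 by ring, Real.sqrt_sq (by positivity)]

/-- a power of the logarithm is at most `t` -/
lemma log_le_t (m : ℕ) : ∃ N0 : ℕ, ∀ N : ℕ, N0 ≤ N → ∀ t : ℝ, 0 ≤ t → t ^ 40 = N → √(N : ℝ) = t ^ 20 →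
    Real.log N ^ m ≤ t := by
  obtain ⟨n1, h1⟩ := ev_log' (20 * m) 1
  refine ⟨n1, fun N hN t ht0 _ hsq => ?_⟩
  have := h1 N hN
  rw [one_mul, hsq] at this
  apply le_of_pow_le_pow_left₀ (n := 20) (by norm_num) ht0
  rw [← pow_mul, mul_comm m]
  exact this

/-- the sieve model on a class, pointwise: the sum over a progression for one set of primes -/
lemma chi_ap (y N q u d : ℕ) (hq : 1 ≤ q) (hu : u.Coprime q) (hd : 1 ≤ d) (hy : y ≤ N) (α : ℝ) (N₁ : ℕ)
    (hN₁ : (N : ℝ) / q + d ≤ 2 * N₁) :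
    ‖∑ n ∈ (Icc 1 y).filter (fun n => d ∣ n), (if n ≡ u [MOD q] then ee ((n : ℝ) * α) else 0)‖ ≤
      KK (2 * N₁ / d) (d * (q * α)) := by
  have hd0 : (0 : ℝ) < d := by exact_mod_cast hd
  have hq0 : (0 : ℝ) < q := by exact_mod_cast hq
  rw [sum_mult y d hd]
  have h1 : ∑ m ∈ Icc 1 (y / d), (if d * m ≡ u [MOD q] then ee (((d * m : ℕ) : ℝ) * α) else 0) =
      ∑ m ∈ (Ioc 0 (y / d)).filter (fun m => d * m ≡ u [MOD q]), ee ((m : ℝ) * (d * α)) := by
    rw [sum_filter]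
    have : Icc 1 (y / d) = Ioc 0 (y / d) := by ext m; rw [mem_Icc, mem_Ioc]; omega
    rw [this]
    apply sum_congr rfl
    intro m _
    split_ifs
    · congr 1; push_cast; ring
    · rfl
  rw [h1]
  by_cases hdq : d.Coprime q
  · obtain ⟨v, hv⟩ := mul_class d q u hq hdq
    have e1 : (Ioc 0 (y / d)).filter (fun m => d * m ≡ u [MOD q]) =
        (Ioc 0 (y / d)).filter (fun m => m ≡ v [MOD q]) := by
      apply filter_congr; intro m _
      rw [mul_comm d m]; exact hv m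
    rw [e1]
    have e2 : (d : ℝ) * (q * α) = q * (d * α) := by ring
    rw [e2]
    apply geoAP _ _ q v hq _ (by positivity)
    have h2 : ((y / d : ℕ) : ℝ) ≤ N / d := by
      have h3 : ((y / d : ℕ) : ℝ) ≤ y / d := Nat.cast_div_le
      have h4 : (y : ℝ) / d ≤ N / d := div_le_div_of_nonneg_right (by exact_mod_cast hy) hd0.le
      linarith
    have h5 : (((y / d : ℕ) : ℝ) - ((0 : ℕ) : ℝ)) / q + 1 ≤ N / d / q + 1 := by
      push_cast
      have := div_le_div_of_nonneg_right h2 hq0.le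
      rw [sub_zero]
      linarith
    refine h5.trans ?_
    have h6 : (N : ℝ) / d / q + 1 = (N / q + d) / d := by field_simp
    rw [h6]
    exact div_le_div_of_nonneg_right hN₁ hd0.le
  · have hemp : (Ioc 0 (y / d)).filter (fun m => d * m ≡ u [MOD q]) = ∅ := by
      apply filter_eq_empty_iff.2
      intro m _ h2
      apply hdq
      have h3 : (d * m).Coprime q := by
        unfold Nat.Coprime
        rw [h2.gcd_eq]
        exact hu
      exact h3.coprime_mul_right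
    rw [hemp, sum_empty, norm_zero]
    exact KK_nonneg (by positivity) _

/-- counting multiples in a class -/
lemma count_ap (y N q u d : ℕ) (hq : 1 ≤ q) (hu : u.Coprime q) (hd : 1 ≤ d) (hy : y ≤ N) :
    (((Icc 1 y).filter (fun n => n ≡ u [MOD q] ∧ d ∣ n)).card : ℝ) ≤ N / (q * d) + 1 := by
  have hd0 : (0 : ℝ) < d := by exact_mod_cast hd
  have hq0 : (0 : ℝ) < q := by exact_mod_cast hq
  by_cases hdq : q.Coprime d
  · have h1 : (Icc 1 y).filter (fun n => n ≡ u [MOD q] ∧ d ∣ n) ⊆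
        (Icc 1 y).filter (fun n => n ≡ (Nat.chineseRemainder hdq u 0 : ℕ) [MOD (q * d)]) := by
      intro n hn
      rw [mem_filter] at hn ⊢
      refine ⟨hn.1, Nat.chineseRemainder_modEq_unique hdq hn.2.1 ((Nat.modEq_zero_iff_dvd).2 hn.2.2)⟩
    have h2 := count_class y (q * d) (Nat.chineseRemainder hdq u 0 : ℕ) (Nat.mul_pos hq hd)
    have h3 := (abs_le.1 h2).2
    have h4 : (((Icc 1 y).filter (fun n => n ≡ u [MOD q] ∧ d ∣ n)).card : ℝ) ≤
        (((Icc 1 y).filter (fun n => n ≡ (Nat.chineseRemainder hdq u 0 : ℕ) [MOD (q * d)])).card : ℝ) := by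
      exact_mod_cast card_le_card h1
    have h5 : (y : ℝ) / ((q * d : ℕ) : ℝ) ≤ N / (q * d) := by
      push_cast
      exact div_le_div_of_nonneg_right (by exact_mod_cast hy) (by positivity)
    linarith
  · have hemp : (Icc 1 y).filter (fun n => n ≡ u [MOD q] ∧ d ∣ n) = ∅ := by
      apply filter_eq_empty_iff.2
      rintro n _ ⟨h2, h3⟩
      apply hdq
      have h4 : n.Coprime q := by
        unfold Nat.Coprime
        rw [h2.gcd_eq]
        exact hu
      exact (h4.coprime_dvd_left h3).symm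
    rw [hemp]
    simp only [card_empty, Nat.cast_zero]
    positivity

set_option maxHeartbeats 4000000 in
theorem good_lamz (E U : ℕ) : ∃ N0 : ℕ, ∀ N : ℕ, N0 ≤ N → ∀ z : ℕ, 1 ≤ z → (z : ℝ) ≤ Real.log N ^ E →
    ∀ q u : ℕ, 1 ≤ q → q ^ 20 ≤ N → u.Coprime q → ∀ (α : ℝ) (b : ℕ) (c : ℤ), 1 ≤ b → IsCoprime c (b : ℤ) →
    Real.log N ^ (U + 5) ≤ b → (b : ℝ) ≤ N / (q * Real.log N ^ (U + 5)) → |(q : ℝ) * α - c / b| ≤ 1 / (b : ℝ) ^ 2 →
    ∀ y : ℕ, y ≤ N → ‖∑ n ∈ Icc 1 y, ((lamz z n : ℝ) : ℂ) * (if n ≡ u [MOD q] then ee ((n : ℝ) * α) else 0)‖ ≤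
      N / (q * Real.log N ^ U) := by
  obtain ⟨N0, h0⟩ := choice 1 E (U + 2) 20
  obtain ⟨n1, h1⟩ := log_le_t (U + 5)
  obtain ⟨n2, h2⟩ := ev_L' 1000000
  obtain ⟨n3, h3⟩ := Vz_inv_small E
  refine ⟨max (max N0 n1) (max n2 (max n3 1)), ?_⟩
  intro N hN z hz hzE q u hq hqN hu α b c hb hcop hb1 hb2 hα y hy
  have a0 := h0 N (le_trans (le_trans (le_max_left _ _) (le_max_left _ _)) hN) z hzE
  have hL := h2 N (le_trans (le_trans (le_max_left _ _) (le_max_right _ _)) hN)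
  have hV := h3 N (le_trans (le_trans (le_trans (le_max_left _ _) (le_max_right _ _)) (le_max_right _ _)) hN) z hz hzE
  have hN1 : 1 ≤ N := le_trans (le_trans (le_trans (le_max_right _ _) (le_max_right _ _)) (le_max_right _ _)) hN
  obtain ⟨t, ht0, ht40, hsq⟩ := exists_t N hN1
  have hLt := h1 N (le_trans (le_trans (le_max_right _ _) (le_max_left _ _)) hN) t ht0 ht40 hsq
  have hNr : (1 : ℝ) ≤ N := by exact_mod_cast hN1
  have hN0 : (0 : ℝ) < N := by linarith
  set L := Real.log N with hLd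
  have hL0 : 0 < L := by linarith
  have hL1 : 1 ≤ L := by linarith
  have hLt1 : L ≤ t := le_trans (le_self_pow₀ hL1 (by omega)) hLt
  have ht1 : 1 ≤ t := by linarith
  have hqt : (q : ℝ) ≤ t ^ 2 := by
    apply le_of_pow_le_pow_left₀ (n := 20) (by norm_num) (by positivity)
    rw [← pow_mul, show 2 * 20 = 40 by norm_num, ht40]
    exact_mod_cast hqN
  have hq0 : (0 : ℝ) < q := by exact_mod_cast hq
  have hq1 : (1 : ℝ) ≤ q := by exact_mod_cast hq
  have hLB : 1 ≤ L ^ (U + 5) := one_le_pow₀ hL1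
  have hb0 : (0 : ℝ) < b := by exact_mod_cast hb
  have hbr : (1 : ℝ) ≤ b := by exact_mod_cast hb
  have hbN : (b : ℝ) ≤ N := hb2.trans (div_le_self hN0.le (by nlinarith))
  have hlb : Real.log b ≤ L := Real.log_le_log hb0 hbN
  have hlb0 : 0 ≤ Real.log b := Real.log_nonneg hbr
  obtain ⟨r, hr1, hr2, _⟩ := a0
  set D := (z + 1) ^ r with hD
  have hD1 : 1 ≤ D := Nat.one_le_pow _ _ (by omega)
  have hDt : (D : ℝ) ≤ t ^ 2 := by
    apply le_of_pow_le_pow_left₀ (n := 20) (by norm_num) (by positivity)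
    rw [← pow_mul, show 2 * 20 = 40 by norm_num, ht40, hD]
    push_cast
    exact hr2
  have hV0 : 0 < (Vz z)⁻¹ := inv_pos.2 (Vz_pos z)
  set N₁ : ℕ := N / q + 1 + D with hN₁
  have hN₁1 : 1 ≤ N₁ := by rw [hN₁]; exact le_trans (Nat.le_add_left 1 _) (Nat.le_add_right _ _)
  have hN₁a : (N : ℝ) / q + D ≤ N₁ := by
    have : (N : ℝ) / q < ((N / q : ℕ) : ℝ) + 1 := by
      rw [div_lt_iff₀ hq0]
      have h1 := Nat.lt_mul_div_succ N (show 0 < q by omega)
      have h2 : (N : ℝ) < ((q * (N / q + 1) : ℕ) : ℝ) := by exact_mod_cast h1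
      push_cast at h2
      linarith
    rw [hN₁]; push_cast; linarith
  have hN₁b : (N₁ : ℝ) ≤ N / q + 1 + D := by
    have : ((N / q : ℕ) : ℝ) ≤ N / q := Nat.cast_div_le
    rw [hN₁]; push_cast; linarith
  set ind : ℕ → ℝ := fun n => if ∀ p ∈ pz z, ¬ p ∣ n then (1 : ℝ) else 0 with hind
  set χ : Finset ℕ → ℕ → ℝ := fun S n => if ∀ p ∈ S, p ∣ n then (1 : ℝ) else 0 with hχ
  set ψ : ℕ → ℂ := fun n => if n ≡ u [MOD q] then ee ((n : ℝ) * α) else 0 with hψ
  have hpt : ∀ n : ℕ, |ind n - ∑ j ∈ range r, (-1 : ℝ) ^ j * ∑ S ∈ (pz z).powersetCard j, χ S n| ≤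
      ∑ S ∈ (pz z).powersetCard r, χ S n := by
    intro n
    have := bonf_ind (fun p n => p ∣ n) (pz z) r n
    rw [hind, hχ]
    convert this
  have hS : ∑ n ∈ Icc 1 y, ((lamz z n : ℝ) : ℂ) * ψ n =
      (((Vz z)⁻¹ : ℝ) : ℂ) * ∑ n ∈ Icc 1 y, ((ind n : ℝ) : ℂ) * ψ n := by
    rw [mul_sum]
    apply sum_congr rfl
    intro n _
    rw [hind]
    unfold lamz
    by_cases h : ∀ p ∈ pz z, ¬ p ∣ n
    · simp only [if_pos h]
      push_cast
      ring
    · simp only [if_neg h]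
      push_cast
      ring
  have hprime : ∀ j, ∀ S ∈ (pz z).powersetCard j, ∀ p ∈ S, p.Prime := fun j S hS p hp =>
    (mem_pz.1 ((mem_powersetCard.1 hS).1 hp)).2
  have hpos : ∀ j, ∀ S ∈ (pz z).powersetCard j, 1 ≤ ∏ p ∈ S, p := fun j S hS =>
    Nat.pos_of_ne_zero (prod_ne_zero_iff.2 fun p hp => (hprime j S hS p hp).ne_zero)
  have hle : ∀ j, j ≤ r → ∀ S ∈ (pz z).powersetCard j, ∏ p ∈ S, p ≤ D := fun j hj S hS =>
    prod_le_pow S z r (mem_powersetCard.1 hS).1 (by rw [(mem_powersetCard.1 hS).2]; exact hj)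
  have hψn : ∀ n, ‖ψ n‖ = if n ≡ u [MOD q] then 1 else 0 := by
    intro n
    rw [hψ]
    simp only
    split_ifs
    · rw [norm_ee]
    · simp
  -- the error
  have herr : ∑ n ∈ Icc 1 y, (∑ S ∈ (pz z).powersetCard r, χ S n) * ‖ψ n‖ ≤ N / q * (1 / L ^ (U + 2)) + D := by
    have e1 : ∑ n ∈ Icc 1 y, (∑ S ∈ (pz z).powersetCard r, χ S n) * ‖ψ n‖ =
        ∑ S ∈ (pz z).powersetCard r, (((Icc 1 y).filter (fun n => n ≡ u [MOD q] ∧ ∏ p ∈ S, p ∣ n)).card : ℝ) := by
      simp only [sum_mul]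
      rw [sum_comm]
      apply sum_congr rfl
      intro S hS
      rw [card_eq_sum_ones]
      push_cast
      rw [sum_filter]
      apply sum_congr rfl
      intro n _
      rw [hχ, hψn]
      simp only [prod_dvd_iff S (hprime r S hS)]
      split_ifs <;> simp_all
    rw [e1]
    have h4 : ∀ S ∈ (pz z).powersetCard r, (((Icc 1 y).filter (fun n => n ≡ u [MOD q] ∧ ∏ p ∈ S, p ∣ n)).card : ℝ) ≤
        N / q * ∏ p ∈ S, (1 / (p : ℝ)) + 1 := by
      intro S hS
      refine (count_ap y N q u _ hq hu (hpos r S hS) hy).trans (le_of_eq ?_)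
      rw [prod_div_distrib, prod_const_one, mul_one_div]
      push_cast
      rw [div_div]
    refine (sum_le_sum h4).trans ?_
    rw [sum_add_distrib, ← mul_sum]
    apply add_le_add
    · apply mul_le_mul_of_nonneg_left _ (by positivity)
      have h5 := es_le (x := fun p => 1 / (p : ℝ)) (T := pz z) (fun p _ => by positivity) r
      unfold es at h5
      refine h5.trans ?_
      refine le_trans ?_ hr1
      apply Real.exp_le_exp.2
      have := sum_pz_le z
      push_cast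
      linarith
    · rw [sum_const, nsmul_eq_mul, mul_one]
      have h5 := card_small (pz z) r
      have h6 : (((pz z).powersetCard r).card : ℝ) ≤ ((∑ j ∈ range (r + 1), ((pz z).powersetCard j).card : ℕ) : ℝ) := by
        exact_mod_cast single_le_sum (f := fun j => ((pz z).powersetCard j).card) (fun _ _ => Nat.zero_le _)
          (mem_range.2 (Nat.lt_succ_self r))
      refine h6.trans (h5.trans ?_)
      rw [hD]
      push_cast
      apply pow_le_pow_left₀ (by positivity)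
      have : ((pz z).card : ℝ) ≤ z := by exact_mod_cast card_pz_le z
      linarith
  -- the main part
  have hmain : ‖∑ n ∈ Icc 1 y, (((∑ j ∈ range r, (-1 : ℝ) ^ j * ∑ S ∈ (pz z).powersetCard j, χ S n : ℝ)) : ℂ) *
      ψ n‖ ≤ ∑ d ∈ Icc 1 D, KK (2 * N₁ / d) (d * (q * α)) := by
    have h4 : ∑ n ∈ Icc 1 y, (((∑ j ∈ range r, (-1 : ℝ) ^ j * ∑ S ∈ (pz z).powersetCard j, χ S n : ℝ)) : ℂ) *
        ψ n = ∑ j ∈ range r, (-1 : ℂ) ^ j * ∑ S ∈ (pz z).powersetCard j,
          ∑ n ∈ Icc 1 y, ((χ S n : ℝ) : ℂ) * ψ n := by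
      push_cast
      simp only [sum_mul, mul_sum]
      rw [sum_comm]
      apply sum_congr rfl
      intro j _
      rw [sum_comm]
      apply sum_congr rfl
      intro S _
      apply sum_congr rfl
      intro n _
      ring
    rw [h4]
    refine (norm_sum_le _ _).trans ?_
    have h5 : ∀ j ∈ range r, ‖(-1 : ℂ) ^ j * ∑ S ∈ (pz z).powersetCard j,
          ∑ n ∈ Icc 1 y, ((χ S n : ℝ) : ℂ) * ψ n‖ ≤
        ∑ S ∈ (pz z).powersetCard j, KK (2 * N₁ / ((∏ p ∈ S, p : ℕ) : ℝ)) (((∏ p ∈ S, p : ℕ) : ℝ) * (q * α)) := by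
      intro j hj
      rw [mem_range] at hj
      rw [norm_mul, norm_pow, norm_neg, norm_one, one_pow, one_mul]
      refine (norm_sum_le _ _).trans (sum_le_sum fun S hS => ?_)
      have hdD : ((∏ p ∈ S, p : ℕ) : ℝ) ≤ D := by exact_mod_cast hle j hj.le S hS
      have h6 : ∑ n ∈ Icc 1 y, ((χ S n : ℝ) : ℂ) * ψ n =
          ∑ n ∈ (Icc 1 y).filter (fun n => ∏ p ∈ S, p ∣ n), ψ n := by
        rw [sum_filter]
        apply sum_congr rfl
        intro n _
        rw [hχ]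
        simp only [prod_dvd_iff S (hprime j S hS)]
        split_ifs <;> simp
      rw [h6]
      apply chi_ap y N q u _ hq hu (hpos j S hS) hy α N₁
      have : (0 : ℝ) ≤ N₁ := Nat.cast_nonneg _
      linarith
    refine (sum_le_sum h5).trans ?_
    have h6 := sum_small_le z r (fun d => KK (2 * N₁ / (d : ℝ)) ((d : ℝ) * (q * α))) (fun d => KK_nonneg (by positivity) _)
    rw [sum_range_succ] at h6
    have h7 : 0 ≤ ∑ S ∈ (pz z).powersetCard r, KK (2 * N₁ / ((∏ p ∈ S, p : ℕ) : ℝ)) (((∏ p ∈ S, p : ℕ) : ℝ) * (q * α)) :=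
      sum_nonneg fun S _ => KK_nonneg (by positivity) _
    linarith
  have htot : ‖∑ n ∈ Icc 1 y, ((ind n : ℝ) : ℂ) * ψ n‖ ≤
      N / q * (1 / L ^ (U + 2)) + D + ∑ d ∈ Icc 1 D, KK (2 * N₁ / d) (d * (q * α)) := by
    have h4 : ∑ n ∈ Icc 1 y, ((ind n : ℝ) : ℂ) * ψ n =
        ∑ n ∈ Icc 1 y, ((ind n - ∑ j ∈ range r, (-1 : ℝ) ^ j * ∑ S ∈ (pz z).powersetCard j, χ S n : ℝ) : ℂ) * ψ n +
        ∑ n ∈ Icc 1 y, (((∑ j ∈ range r, (-1 : ℝ) ^ j * ∑ S ∈ (pz z).powersetCard j, χ S n : ℝ)) : ℂ) * ψ n := by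
      rw [← sum_add_distrib]
      apply sum_congr rfl
      intro n _
      push_cast
      ring
    rw [h4]
    refine (norm_add_le _ _).trans (add_le_add ?_ hmain)
    refine le_trans ?_ herr
    refine (norm_sum_le _ _).trans (sum_le_sum fun n _ => ?_)
    rw [norm_mul, Complex.norm_real, Real.norm_eq_abs]
    exact mul_le_mul_of_nonneg_right (hpt n) (norm_nonneg _)
  have htI := typeI_lin hb hcop hα N₁ D hN₁1 hD1
  rw [hS, norm_mul, Complex.norm_real, Real.norm_of_nonneg hV0.le]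
  have hDN : (D : ℝ) ≤ N := by
    calc (D : ℝ) ≤ t ^ 2 := hDt
      _ ≤ t ^ 40 := pow_le_pow_right₀ ht1 (by norm_num)
      _ = N := ht40
  have hlog2 : (Nat.log 2 D : ℝ) ≤ 2 * L := by
    have h4 : (2 : ℝ) ^ Nat.log 2 D ≤ D := by exact_mod_cast Nat.pow_log_le_self 2 (by omega : D ≠ 0)
    have h6 := Real.log_le_log (by positivity) (h4.trans hDN)
    rw [Real.log_pow] at h6
    have := Real.log_two_gt_d9
    have h7 : (0 : ℝ) ≤ Nat.log 2 D := Nat.cast_nonneg _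
    rw [← hLd] at h6
    nlinarith
  obtain ⟨P, hPd⟩ : ∃ P : ℝ, P = N / (q * L ^ (U + 5)) := ⟨_, rfl⟩
  have hP : 0 ≤ P := by rw [hPd]; positivity
  have hDP : (D : ℝ) ≤ P := by
    rw [hPd, le_div_iff₀ (by positivity)]
    calc (D : ℝ) * (q * L ^ (U + 5)) ≤ t ^ 2 * (t ^ 2 * t) := by gcongr
      _ = t ^ 5 := by ring
      _ ≤ t ^ 40 := pow_le_pow_right₀ ht1 (by norm_num)
      _ = N := ht40
  have h1P : (1 : ℝ) ≤ P := le_trans (by exact_mod_cast hD1) hDP
  have hN₁P : (N₁ : ℝ) / b ≤ 3 * P := by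
    have e1 : (N₁ : ℝ) / b ≤ (N / q + 1 + D) / b := div_le_div_of_nonneg_right hN₁b hb0.le
    have e2 : ((N : ℝ) / q + 1 + D) / b = N / (q * b) + (1 + D) / b := by field_simp; ring
    have e3 : (1 + (D : ℝ)) / b ≤ 1 + D := div_le_self (by positivity) hbr
    have e4 : (N : ℝ) / (q * b) ≤ P := by
      rw [hPd]
      apply div_le_div_of_nonneg_left hN0.le (by positivity)
      exact mul_le_mul_of_nonneg_left hb1 hq0.le
    linarith
  have hbP : (b : ℝ) ≤ P := by rw [hPd]; exact hb2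
  calc (Vz z)⁻¹ * ‖∑ n ∈ Icc 1 y, ((ind n : ℝ) : ℂ) * ψ n‖
      ≤ L * (N / q * (1 / L ^ (U + 2)) + P + 600 * (2 * L + 1) * (6 * P) * (1 + L)) := by
        apply mul_le_mul hV _ (norm_nonneg _) hL0.le
        refine htot.trans (add_le_add (by linarith) (htI.trans ?_))
        gcongr
        linarith
    _ = (1 / L + 1 / L ^ 4 + 3600 * (2 * L + 1) * (1 + L) / L ^ 4) * (N / (q * L ^ U)) := by
        rw [hPd]
        field_simp
        ring
    _ ≤ 1 * (N / (q * L ^ U)) := by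
        apply mul_le_mul_of_nonneg_right _ (by positivity)
        have h4 : 1 / L ≤ 1 / 1000000 := one_div_le_one_div_of_le (by norm_num) hL
        have h41 : 1 / L ^ 4 ≤ 1 / L := by
          apply one_div_le_one_div_of_le hL0
          exact le_self_pow₀ hL1 (by norm_num)
        have h5 : 3600 * (2 * L + 1) * (1 + L) / L ^ 4 ≤ 1 / 2 := by
          rw [div_le_iff₀ (by positivity)]
          have h6 : (1000000 : ℝ) * L ^ 2 ≤ L ^ 3 := by nlinarith [sq_nonneg L]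
          have h7 : (1000000 : ℝ) * L ^ 3 ≤ L ^ 4 := by nlinarith [pow_pos hL0 3]
          nlinarith [sq_nonneg L]
        linarith
    _ = N / (q * L ^ U) := one_mul _

end Pool.Agent.L0h42.TB
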