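import Mathlib
import Pool.Agent.L0h42.TB.A5
import Pool.Agent.H373R2.T7.Lin
import Pool.Agent.H373R2.T7.Minor
import Pool.Agent.H373R2.T7.LamZ2
import Pool.Agent.H442R2.KF.BvY
import Pool.Agent.H373R2.T7.SupE2
import Pool.Agent.H373R2.T7.Cnt

/-! Major arcs: primes minus the sieve model in progressions. -/

set_option autoImplicit false

namespace Pool.Agent.L0h42.TB
open Finset
open Pool.Agent.H807R2.Dav
open Pool.Agent.H373R2.T7
open Pool.Agent.H442R2.KF (Er piAP piN)

/-- the primes with the weight `log p` -/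
noncomputable def pl (n : ℕ) : ℝ := if n.Prime then Real.log n else 0

lemma pl_nonneg (n : ℕ) : 0 ≤ pl n := by
  unfold pl
  split_ifs with h
  · exact Real.log_nonneg (by exact_mod_cast h.one_lt.le)
  · exact le_rfl

lemma pl_le_vM (n : ℕ) : pl n ≤ ArithmeticFunction.vonMangoldt n := by
  unfold pl
  split_ifs with h
  · rw [ArithmeticFunction.vonMangoldt_apply_prime h]
  · exact ArithmeticFunction.vonMangoldt_nonneg

lemma pl_le_log {n N : ℕ} (hn : n ≤ N) (hN : 1 ≤ N) : pl n ≤ Real.log N := by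
  unfold pl
  split_ifs with h
  · exact Real.log_le_log (by exact_mod_cast h.pos) (by exact_mod_cast hn)
  · exact Real.log_nonneg (by exact_mod_cast hN)

lemma Icc_one_eq (y : ℕ) : Icc 1 y = Ioc 0 y := by ext n; rw [mem_Icc, mem_Ioc]; omega

lemma sum_diff (y : ℕ) (hy : 1 ≤ y) :
    ∑ n ∈ Icc 1 y, (ArithmeticFunction.vonMangoldt n - pl n) ≤ 2 * √(y : ℝ) * Real.log y := by
  have h := Chebyshev.psi_sub_theta_le (x := (y : ℝ)) (by exact_mod_cast hy)
  refine le_trans (le_of_eq ?_) h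
  unfold Chebyshev.psi Chebyshev.theta
  rw [Nat.floor_natCast, sum_sub_distrib, Icc_one_eq, sum_filter]
  rfl

/-- summation by parts with a monotone weight -/
lemma abel_mono (c w : ℕ → ℝ) (M : ℝ) (x : ℕ) (hw0 : ∀ n, 0 ≤ w n) (hw : Monotone w)
    (hC : ∀ y : ℕ, y ≤ x → |∑ n ∈ Icc 1 y, c n| ≤ M) :
    |∑ n ∈ Icc 1 x, c n * w n| ≤ 2 * M * w x := by
  have key : ∀ y : ℕ, y ≤ x → |∑ n ∈ Icc 1 y, c n * w n - (∑ n ∈ Icc 1 y, c n) * w y| ≤ M * w y := by
    intro y
    induction y with
    | zero =>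
      intro _
      have := hC 0 (Nat.zero_le _)
      simp only [Icc_eq_empty_of_lt Nat.zero_lt_one, sum_empty, zero_mul, sub_zero, abs_zero] at this ⊢
      exact mul_nonneg this (hw0 0)
    | succ y ih =>
      intro hy
      have h1 := ih (by omega)
      rw [sum_Icc_succ_top (by omega), sum_Icc_succ_top (by omega)]
      have e : (∑ n ∈ Icc 1 y, c n * w n + c (y + 1) * w (y + 1)) - (∑ n ∈ Icc 1 y, c n + c (y + 1)) * w (y + 1) =
          (∑ n ∈ Icc 1 y, c n * w n - (∑ n ∈ Icc 1 y, c n) * w y) - (∑ n ∈ Icc 1 y, c n) * (w (y + 1) - w y) := by ring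
      rw [e]
      refine (abs_sub _ _).trans ?_
      have h2 : 0 ≤ w (y + 1) - w y := sub_nonneg.2 (hw (Nat.le_succ y))
      rw [abs_mul, abs_of_nonneg h2]
      have h3 := mul_le_mul_of_nonneg_right (hC y (by omega)) h2
      nlinarith
  have h1 := key x le_rfl
  have h2 := hC x le_rfl
  have e : ∑ n ∈ Icc 1 x, c n * w n = (∑ n ∈ Icc 1 x, c n * w n - (∑ n ∈ Icc 1 x, c n) * w x) +
      (∑ n ∈ Icc 1 x, c n) * w x := by ring
  rw [e]
  refine (abs_add_le _ _).trans ?_
  rw [abs_mul, abs_of_nonneg (hw0 x)]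
  have := mul_le_mul_of_nonneg_right h2 (hw0 x)
  linarith

/-- the prime number theorem -/
lemma theta_pnt (U : ℕ) : ∃ N0 : ℕ, ∀ N : ℕ, N0 ≤ N → ∀ y : ℕ, y ≤ N →
    |∑ n ∈ Icc 1 y, pl n - y| ≤ N / Real.log N ^ U := by
  obtain ⟨n0, h0⟩ := lam_ap 0 (U + 1)
  obtain ⟨n1, h1⟩ := log_le_t (U + 2)
  obtain ⟨n2, h2⟩ := ev_L' 4
  refine ⟨max (max n0 n1) (max n2 1), fun N hN y hy => ?_⟩
  have a0 := h0 N (le_trans (le_trans (le_max_left _ _) (le_max_left _ _)) hN)
  have hL := h2 N (le_trans (le_trans (le_max_left _ _) (le_max_right _ _)) hN)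
  have hN1 : 1 ≤ N := le_trans (le_trans (le_max_right _ _) (le_max_right _ _)) hN
  obtain ⟨t, ht0, ht40, hsq⟩ := exists_t N hN1
  have hLt := h1 N (le_trans (le_trans (le_max_right _ _) (le_max_left _ _)) hN) t ht0 ht40 hsq
  have hN0 : (0 : ℝ) < N := by exact_mod_cast hN1
  set L := Real.log N with hLd
  have hL1 : 1 ≤ L := by linarith
  have hL0 : 0 < L := by linarith
  have hLt1 : L ≤ t := le_trans (le_self_pow₀ hL1 (by omega)) hLt
  have ht1 : 1 ≤ t := by linarith
  have b0 := a0 1 le_rfl (by simp) 0 y hy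
  have e1 : (Icc 1 y).filter (fun n => n ≡ 0 [MOD 1]) = Icc 1 y := by
    apply filter_true_of_mem
    intro n _
    exact Nat.modEq_one
  rw [e1, if_pos (Nat.coprime_one_right 0), Nat.totient_one, Nat.cast_one, div_one] at b0
  rcases Nat.eq_zero_or_pos y with hy0 | hy0
  · rw [hy0]; simp; positivity
  have hd := sum_diff y hy0
  rw [sum_sub_distrib] at hd
  have hd0 : 0 ≤ ∑ n ∈ Icc 1 y, ArithmeticFunction.vonMangoldt n - ∑ n ∈ Icc 1 y, pl n := by
    rw [← sum_sub_distrib]
    exact sum_nonneg fun n _ => sub_nonneg.2 (pl_le_vM n)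
  have hyr : (y : ℝ) ≤ N := by exact_mod_cast hy
  have hy1 : (1 : ℝ) ≤ y := by exact_mod_cast hy0
  have h3 : 2 * √(y : ℝ) * Real.log y ≤ N / L ^ (U + 1) := by
    have e2 : √(y : ℝ) ≤ t ^ 20 := by rw [← hsq]; exact Real.sqrt_le_sqrt hyr
    have e3 : Real.log y ≤ L := Real.log_le_log (by linarith) hyr
    have e4 : 0 ≤ Real.log y := Real.log_nonneg hy1
    rw [le_div_iff₀ (by positivity)]
    calc 2 * √(y : ℝ) * Real.log y * L ^ (U + 1) ≤ 2 * t ^ 20 * L * L ^ (U + 1) := by gcongr
      _ = 2 * t ^ 20 * L ^ (U + 2) := by rw [pow_succ L (U + 1)]; ring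
      _ ≤ t * t ^ 20 * t := by
          apply mul_le_mul _ hLt (by positivity) (by positivity)
          apply mul_le_mul_of_nonneg_right _ (by positivity)
          linarith
      _ = t ^ 22 := by ring
      _ ≤ t ^ 40 := pow_le_pow_right₀ ht1 (by norm_num)
      _ = N := ht40
  have h4 : 2 * ((N : ℝ) / L ^ (U + 1)) ≤ N / L ^ U := by
    rw [pow_succ]
    have : 2 * ((N : ℝ) / (L ^ U * L)) = 2 / L * (N / L ^ U) := by field_simp
    rw [this]
    have h5 : 2 / L ≤ 1 := by rw [div_le_one hL0]; linarith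
    calc _ ≤ 1 * (N / L ^ U) := mul_le_mul_of_nonneg_right h5 (by positivity)
      _ = _ := one_mul _
  have h5 := abs_le.1 b0
  rw [abs_le]
  constructor <;> linarith [h5.1, h5.2]

/-- counting integers of a class free of small primes -/
lemma rough_count (m t z y r : ℕ) (hm : 1 ≤ m) (htm : t.Coprime m) :
    |(((Icc 1 y).filter (fun n => n ≡ t [MOD m] ∧ ∀ p ∈ pz z, ¬ p ∣ n)).card : ℝ) -
      (y : ℝ) / m * ∏ p ∈ (pz z).filter (fun p => ¬ p ∣ m), (1 - 1 / (p : ℝ))| ≤
      ((z : ℝ) + 1) ^ r + 2 * ((y : ℝ) / m) * Real.exp (3 * (1 + Real.log z) - r) := by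
  classical
  set T := (pz z).filter (fun p => ¬ p ∣ m) with hT
  have hm0 : (0 : ℝ) < m := by exact_mod_cast hm
  have hTp : ∀ p ∈ T, p.Prime := fun p hp => (mem_pz.1 (mem_filter.1 hp).1).2
  have hXn : 0 ≤ (y : ℝ) / m := by positivity
  have key := sieve_gen' ((Icc 1 y).filter (fun n => n ≡ t [MOD m])) (fun _ => (1 : ℝ)) (fun _ _ => zero_le_one)
    (fun p n => p ∣ n) T (fun p => 1 / (p : ℝ)) (by
      intro p hp
      have hp1 : (1 : ℝ) ≤ p := by exact_mod_cast (hTp p hp).one_lt.le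
      refine ⟨by positivity, ?_⟩
      rw [div_le_one (by linarith)]
      exact hp1) ((y : ℝ) / m) hXn (fun _ => 1) r (by
      intro S hS _
      have h1 := count_sys (fun _ a => a = 0) y S (fun p hp => hTp p (hS hp)) m hm
        (fun p hp => (mem_filter.1 (hS hp)).2) t
      have h2 : ∀ p ∈ S, (((range p).filter (fun a => a = 0)).card : ℝ) = 1 := by
        intro p hp
        have hp0 := (hTp p (hS hp)).pos
        have : (range p).filter (fun a => a = 0) = {0} := by
          ext a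
          rw [mem_filter, mem_range, mem_singleton]
          constructor
          · exact fun h => h.2
          · rintro rfl; exact ⟨hp0, rfl⟩
        rw [this]; simp
      have h3 : ∏ p ∈ S, ((((range p).filter (fun a => a = 0)).card : ℝ) / p) = ∏ p ∈ S, (1 / (p : ℝ)) :=
        prod_congr rfl fun p hp => by rw [h2 p hp]
      have h4 : ∏ p ∈ S, (((range p).filter (fun a => a = 0)).card : ℝ) = 1 := by
        rw [prod_congr rfl h2, prod_const_one]
      rw [h3, h4] at h1
      refine le_trans (le_of_eq ?_) h1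
      congr 2
      rw [filter_filter, sum_const, nsmul_eq_mul, mul_one]
      congr 2
      apply filter_congr
      intro n _
      simp only [Nat.dvd_iff_mod_eq_zero])
  have h1 : (∑ i ∈ ((Icc 1 y).filter (fun n => n ≡ t [MOD m])) with ∀ p ∈ T, ¬ p ∣ i, (1 : ℝ)) =
      (((Icc 1 y).filter (fun n => n ≡ t [MOD m] ∧ ∀ p ∈ pz z, ¬ p ∣ n)).card : ℝ) := by
    rw [filter_filter, sum_const, nsmul_eq_mul, mul_one]
    congr 2
    apply filter_congr
    intro n _
    constructor
    · rintro ⟨h2, h3⟩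
      refine ⟨h2, fun p hp hpn => ?_⟩
      by_cases hpm : p ∣ m
      · have h4 : n.Coprime m := by
          unfold Nat.Coprime
          rw [h2.gcd_eq]
          exact htm
        have h5 := Nat.dvd_gcd hpn hpm
        rw [h4] at h5
        exact (mem_pz.1 hp).2.one_lt.ne' (Nat.dvd_one.1 h5)
      · exact h3 p (mem_filter.2 ⟨hp, hpm⟩) hpn
    · rintro ⟨h2, h3⟩
      exact ⟨h2, fun p hp => h3 p (mem_filter.1 hp).1⟩
  rw [h1] at key
  refine key.trans (add_le_add ?_ ?_)
  · have h2 := card_small T r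
    simp only [sum_const, nsmul_eq_mul, mul_one]
    push_cast at h2
    refine h2.trans (pow_le_pow_left₀ (by positivity) ?_ r)
    have h3 : (T.card : ℝ) ≤ z := by
      exact_mod_cast (card_filter_le _ _).trans (card_pz_le z)
    linarith
  · apply mul_le_mul_of_nonneg_left _ (by positivity)
    have h2 := es_le (x := fun p => 1 / (p : ℝ)) (T := T) (fun p _ => by positivity) r
    refine h2.trans (Real.exp_le_exp.2 ?_)
    have h3 : ∑ p ∈ T, 1 / (p : ℝ) ≤ ∑ p ∈ pz z, 1 / (p : ℝ) :=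
      sum_le_sum_of_subset_of_nonneg (filter_subset _ _) fun _ _ _ => by positivity
    have := sum_pz_le z
    linarith

lemma one_sub_sum (s : Finset ℕ) (x : ℕ → ℝ) (h0 : ∀ p ∈ s, 0 ≤ x p) (h1 : ∀ p ∈ s, x p ≤ 1) :
    1 - ∑ p ∈ s, x p ≤ ∏ p ∈ s, (1 - x p) := by
  classical
  induction s using Finset.induction_on with
  | empty => simp
  | insert a s ha ih =>
    rw [sum_insert ha, prod_insert ha]
    have i1 := ih (fun p hp => h0 p (mem_insert_of_mem hp)) (fun p hp => h1 p (mem_insert_of_mem hp))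
    have i2 := h0 a (mem_insert_self _ _)
    have i3 := h1 a (mem_insert_self _ _)
    have i4 : ∏ p ∈ s, (1 - x p) ≤ 1 := prod_le_one (fun p hp => by linarith [h1 p (mem_insert_of_mem hp)])
      (fun p hp => by linarith [h0 p (mem_insert_of_mem hp)])
    nlinarith

/-- the product over the large prime factors of `m` -/
lemma tot_ratio (m z : ℕ) (hm : 1 ≤ m) (hz : 1 ≤ z) (L : ℝ) (hL : Real.log m ≤ L) :
    |(Vz z)⁻¹ * (1 / (m : ℝ) * ∏ p ∈ (pz z).filter (fun p => ¬ p ∣ m), (1 - 1 / (p : ℝ))) - 1 / (Nat.totient m : ℝ)| ≤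
      1 / (Nat.totient m : ℝ) * (4 * L / z) := by
  classical
  have hm0 : (0 : ℝ) < m := by exact_mod_cast hm
  have hz0 : (0 : ℝ) < z := by exact_mod_cast hz
  have htot0 : (0 : ℝ) < Nat.totient m := by exact_mod_cast Nat.totient_pos.2 hm
  have hLn : 0 ≤ L := le_trans (Real.log_nonneg (by exact_mod_cast hm)) hL
  have hfac : ∀ p ∈ pz z, (0 : ℝ) < 1 - 1 / (p : ℝ) := by
    intro p hp
    have : (2 : ℝ) ≤ p := by exact_mod_cast (mem_pz.1 hp).2.two_le
    have h2 : 1 / (p : ℝ) ≤ 1 / 2 := one_div_le_one_div_of_le (by norm_num) this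
    linarith
  set A := ∏ p ∈ (pz z).filter (fun p => ¬ p ∣ m), (1 - 1 / (p : ℝ)) with hA
  set B := ∏ p ∈ (pz z).filter (fun p => p ∣ m), (1 - 1 / (p : ℝ)) with hB
  set G := ∏ p ∈ m.primeFactors.filter (fun p => z < p), (1 - 1 / (p : ℝ)) with hG
  have hA0 : 0 < A := prod_pos fun p hp => hfac p (mem_filter.1 hp).1
  have hB0 : 0 < B := prod_pos fun p hp => hfac p (mem_filter.1 hp).1
  have hG0 : 0 < G := by
    apply prod_pos
    intro p hp
    have : (2 : ℝ) ≤ p := by exact_mod_cast (Nat.prime_of_mem_primeFactors (mem_filter.1 hp).1).two_le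
    have h2 : 1 / (p : ℝ) ≤ 1 / 2 := one_div_le_one_div_of_le (by norm_num) this
    linarith
  have hV : Vz z = A * B := by
    unfold Vz
    rw [hA, hB, mul_comm, prod_filter_mul_prod_filter_not]
  have hBset : (pz z).filter (fun p => p ∣ m) = m.primeFactors.filter (fun p => ¬ z < p) := by
    ext p
    rw [mem_filter, mem_filter, mem_pz, Nat.mem_primeFactors]
    constructor
    · rintro ⟨⟨h1, h2⟩, h3⟩
      exact ⟨⟨h2, h3, by omega⟩, by omega⟩
    · rintro ⟨⟨h1, h2, h3⟩, h4⟩
      exact ⟨⟨by omega, h1⟩, h2⟩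
  have htot : (Nat.totient m : ℝ) = m * (G * B) := by
    have h1 := Nat.totient_eq_mul_prod_factors m
    have h2 : ((Nat.totient m : ℚ) : ℝ) = ((m * ∏ p ∈ m.primeFactors, (1 - (p : ℚ)⁻¹) : ℚ) : ℝ) := by rw [h1]
    push_cast at h2
    rw [h2, hG, hB, hBset, prod_filter_mul_prod_filter_not]
    simp only [one_div]
  have hG1 : G ≤ 1 := by
    apply prod_le_one
    · intro p hp
      have : (1 : ℝ) ≤ p := by exact_mod_cast (Nat.prime_of_mem_primeFactors (mem_filter.1 hp).1).one_lt.le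
      have h2 : 1 / (p : ℝ) ≤ 1 := by rw [div_le_one (by linarith)]; exact this
      linarith
    · intro p _
      have : (0 : ℝ) ≤ 1 / (p : ℝ) := by positivity
      linarith
  -- lower bound for `G`
  have hcard : ((m.primeFactors.filter (fun p => z < p)).card : ℝ) ≤ 2 * L := by
    have h1 : (2 : ℝ) ^ m.primeFactors.card ≤ m := by
      have h2 : 2 ^ m.primeFactors.card ≤ ∏ p ∈ m.primeFactors, p := by
        rw [← prod_const]
        exact prod_le_prod' fun p hp => (Nat.prime_of_mem_primeFactors hp).two_le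
      exact_mod_cast h2.trans (Nat.le_of_dvd hm (Nat.prod_primeFactors_dvd m))
    have h3 := Real.log_le_log (by positivity) h1
    rw [Real.log_pow] at h3
    have h4 : ((m.primeFactors.filter (fun p => z < p)).card : ℝ) ≤ m.primeFactors.card := by
      exact_mod_cast card_filter_le _ _
    have h5 := Real.log_two_gt_d9
    nlinarith
  have hGlow : 1 - 2 * L / z ≤ G := by
    have h1 : 1 - ∑ p ∈ m.primeFactors.filter (fun p => z < p), 1 / (p : ℝ) ≤ G := by
      rw [hG]
      apply one_sub_sum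
      · intro p _; positivity
      · intro p hp
        have : (1 : ℝ) ≤ p := by exact_mod_cast (Nat.prime_of_mem_primeFactors (mem_filter.1 hp).1).one_lt.le
        rw [div_le_one (by linarith)]; exact this
    have h2 : ∑ p ∈ m.primeFactors.filter (fun p => z < p), 1 / (p : ℝ) ≤ 2 * L / z := by
      calc ∑ p ∈ m.primeFactors.filter (fun p => z < p), 1 / (p : ℝ)
          ≤ ∑ p ∈ m.primeFactors.filter (fun p => z < p), 1 / (z : ℝ) := by
            apply sum_le_sum
            intro p hp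
            apply one_div_le_one_div_of_le hz0
            exact_mod_cast (mem_filter.1 hp).2.le
        _ = ((m.primeFactors.filter (fun p => z < p)).card : ℝ) * (1 / z) := by rw [sum_const, nsmul_eq_mul]
        _ ≤ 2 * L * (1 / z) := mul_le_mul_of_nonneg_right hcard (by positivity)
        _ = _ := by ring
    linarith
  have h1 : (Vz z)⁻¹ * (1 / (m : ℝ) * A) = 1 / (m * B) := by
    rw [hV]; field_simp
  have h2 : 1 / (Nat.totient m : ℝ) = 1 / (m * B) * (1 / G) := by
    rw [htot]; field_simp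
  have h3 : 1 / ((m : ℝ) * B) = 1 / (Nat.totient m : ℝ) * G := by
    rw [h2]; field_simp
  rw [h1, h3]
  have h4 : 1 / (Nat.totient m : ℝ) * G - 1 / (Nat.totient m : ℝ) = -(1 / (Nat.totient m : ℝ) * (1 - G)) := by ring
  rw [h4, abs_neg, abs_of_nonneg (mul_nonneg (by positivity) (by linarith))]
  apply mul_le_mul_of_nonneg_left _ (by positivity)
  have h5 : 2 * L / z ≤ 4 * L / z := div_le_div_of_nonneg_right (by linarith) hz0.le
  linarith

end Pool.Agent.L0h42.TB
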