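import Mathlib
import Pool.Agent.L0h42.TB.A4
import Pool.Agent.L0h42.TB.A7
import Pool.Agent.H373R2.T7.Lin
import Pool.Agent.H373R2.T7.Minor
import Pool.Agent.H373R2.T7.LamZ2
import Pool.Agent.H442R2.KF.BvY
import Pool.Agent.H373R2.T7.SupE2
import Pool.Agent.H373R2.T7.Cnt

/-! The set of moduli, good and bad moduli. -/

set_option autoImplicit false

namespace Pool.Agent.L0h42.TB
open Finset
open Pool.Agent.H807R2.Dav
open Pool.Agent.H373R2.T7
open Pool.Agent.H442R2.KF (Er piAP piN)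

/-- the moduli: squarefree and at most `N ^ (1/20)` -/
def QQ (N : ℕ) : Finset ℕ := (Icc 1 N).filter (fun q => Squarefree q ∧ q ^ 20 ≤ N)

lemma mem_QQ {N q : ℕ} : q ∈ QQ N ↔ 1 ≤ q ∧ Squarefree q ∧ q ^ 20 ≤ N := by
  unfold QQ
  rw [mem_filter, mem_Icc]
  constructor
  · rintro ⟨⟨h1, h2⟩, h3⟩
    exact ⟨h1, h3⟩
  · rintro ⟨h1, h2, h3⟩
    exact ⟨⟨h1, le_trans (Nat.le_self_pow (by norm_num) q) h3⟩, h2, h3⟩

/-- the exponential sum in question -/
noncomputable def ES (z q u y : ℕ) (α : ℝ) : ℂ :=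
  ∑ n ∈ Icc 1 y, (((pl n - lamz z n : ℝ)) : ℂ) * (if n ≡ u [MOD q] then ee (n * α) else 0)

lemma card_class_le (y N q u : ℕ) (hq : 1 ≤ q) (hy : y ≤ N) :
    (((Icc 1 y).filter (fun n => n ≡ u [MOD q])).card : ℝ) ≤ N / q + 1 := by
  have hq0 : (0 : ℝ) < q := by exact_mod_cast hq
  have h := (abs_le.1 (count_class y q u hq)).2
  have h2 : (y : ℝ) / q ≤ N / q := div_le_div_of_nonneg_right (by exact_mod_cast hy) hq0.le
  linarith

/-- the trivial bound -/
lemma ES_triv (N z q u y : ℕ) (α : ℝ) (hN : 1 ≤ N) (hq : 1 ≤ q) (hy : y ≤ N) (hqN : q ≤ N)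
    (hV : (Vz z)⁻¹ ≤ Real.log N) : ‖ES z q u y α‖ ≤ 2 * Real.log N * (N / q) := by
  have hq0 : (0 : ℝ) < q := by exact_mod_cast hq
  have hN0 : (0 : ℝ) < N := by exact_mod_cast hN
  have hL0 : 0 ≤ Real.log N := Real.log_nonneg (by exact_mod_cast hN)
  have h1 : ‖ES z q u y α‖ ≤ ∑ n ∈ (Icc 1 y).filter (fun n => n ≡ u [MOD q]), Real.log N := by
    unfold ES
    rw [sum_filter]
    refine (norm_sum_le _ _).trans (sum_le_sum fun n hn => ?_)
    rw [norm_mul]
    split_ifs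
    · rw [norm_ee, mul_one, Complex.norm_real, Real.norm_eq_abs, abs_le]
      have h2 := pl_nonneg n
      have h3 := pl_le_log (show n ≤ N from (mem_Icc.1 hn).2.trans hy) hN
      have h4 := lamz_nonneg z n
      have h5 : lamz z n ≤ Real.log N := by
        unfold lamz
        split_ifs
        · exact hV
        · exact hL0
      constructor <;> linarith
    · simp
  refine h1.trans ?_
  rw [sum_const, nsmul_eq_mul]
  have h2 := card_class_le y N q u hq hy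
  have h3 : (1 : ℝ) ≤ N / q := by
    rw [one_le_div hq0]
    exact_mod_cast hqN
  calc (((Icc 1 y).filter (fun n => n ≡ u [MOD q])).card : ℝ) * Real.log N ≤ (N / q + N / q) * Real.log N :=
        mul_le_mul_of_nonneg_right (by linarith) hL0
    _ = _ := by ring

/-- good moduli -/
theorem good_one (U : ℕ) : ∃ B : ℕ, U + 10 ≤ B ∧ ∀ E : ℕ, ∃ N0 : ℕ, ∀ N : ℕ, N0 ≤ N → ∀ z : ℕ, 1 ≤ z →
    (z : ℝ) ≤ Real.log N ^ E → ∀ q u : ℕ, 1 ≤ q → q ^ 20 ≤ N → u.Coprime q →
    ∀ (α : ℝ) (b : ℕ) (c : ℤ), 1 ≤ b → IsCoprime c (b : ℤ) → Real.log N ^ B < b →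
    (b : ℝ) ≤ N / (q ^ 2 * Real.log N ^ B) → |(q : ℝ) ^ 2 * α - c / b| ≤ 1 / (N / (q ^ 2 * Real.log N ^ B) * b) →
    ∀ y : ℕ, y ≤ N → ‖ES z q u y α‖ ≤ 3 * (N / (q * Real.log N ^ U)) := by
  obtain ⟨B, hBU, m1, h1⟩ := good_lam U
  refine ⟨B, hBU, fun E => ?_⟩
  obtain ⟨m2, h2⟩ := good_lamz E U
  obtain ⟨m3, h3⟩ := ev_L' 4
  obtain ⟨m4, h4⟩ := log_le_t (B + U + 2)
  refine ⟨max (max m1 m2) (max m3 (max m4 1)), ?_⟩
  intro N hN z hz hzE q u hq hqN hu α b c hb hcop hb1 hb2 hα y hy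
  have a1 := h1 N (le_trans (le_trans (le_max_left _ _) (le_max_left _ _)) hN) q u hq hqN hu α b c hb hcop hb1 hb2 hα y hy
  have a2 := h2 N (le_trans (le_trans (le_max_right _ _) (le_max_left _ _)) hN) z hz hzE q u hq hqN hu α
  have hL := h3 N (le_trans (le_trans (le_max_left _ _) (le_max_right _ _)) hN)
  have hN1 : 1 ≤ N := le_trans (le_trans (le_trans (le_max_right _ _) (le_max_right _ _)) (le_max_right _ _)) hN
  obtain ⟨t, ht0, ht40, hsq⟩ := exists_t N hN1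
  have hLm := h4 N (le_trans (le_trans (le_trans (le_max_left _ _) (le_max_right _ _)) (le_max_right _ _)) hN) t ht0 ht40 hsq
  have hN0 : (0 : ℝ) < N := by exact_mod_cast hN1
  set L := Real.log N with hLd
  have hL1 : 1 ≤ L := by linarith
  have hL0 : 0 < L := by linarith
  have hLt : L ≤ t := le_trans (le_self_pow₀ hL1 (by omega)) hLm
  have hLB : L ^ B ≤ t := le_trans (pow_le_pow_right₀ hL1 (by omega)) hLm
  have ht1 : 1 ≤ t := by linarith
  have hqt : (q : ℝ) ≤ t ^ 2 := by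
    apply le_of_pow_le_pow_left₀ (n := 20) (by norm_num) (by positivity)
    rw [← pow_mul, show 2 * 20 = 40 by norm_num, ht40]
    exact_mod_cast hqN
  have hq0 : (0 : ℝ) < q := by exact_mod_cast hq
  have hq1 : (1 : ℝ) ≤ q := by exact_mod_cast hq
  set K := L ^ B with hK
  have hK1 : 1 ≤ K := one_le_pow₀ hL1
  have hqK3 : (q : ℝ) * K ≤ t ^ 3 := by
    calc (q : ℝ) * K ≤ t ^ 2 * t := by gcongr
      _ = t ^ 3 := by ring
  have hM1 : 1 ≤ (N : ℝ) / (q * (K / 2)) := by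
    rw [one_le_div (by positivity)]
    calc (q : ℝ) * (K / 2) ≤ q * K := by nlinarith
      _ ≤ t ^ 3 := hqK3
      _ ≤ t ^ 40 := pow_le_pow_right₀ ht1 (by norm_num)
      _ = N := ht40
  obtain ⟨b1, c1, g1, g2, g3, g4⟩ := dirichlet ((q : ℝ) * α) ((N : ℝ) / (q * (K / 2))) hM1
  have hb10 : (0 : ℝ) < b1 := by exact_mod_cast g1
  have hb1K : K / 2 < b1 := by
    apply good_first hN0 hK1 hq _ hb hcop hb1 hb2 hα g1 g4
    calc (q : ℝ) ^ 2 * K ^ 2 = (q * K) ^ 2 := by ring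
      _ ≤ (t ^ 3) ^ 2 := pow_le_pow_left₀ (by positivity) hqK3 2
      _ = t ^ 6 := by ring
      _ < t ^ 40 := pow_lt_pow_right₀ (by linarith) (by norm_num)
      _ = N := ht40
  have hKU : L ^ (U + 5) ≤ K / 2 := by
    have e1 : 2 * L ^ (U + 5) ≤ L * L ^ (U + 5) := mul_le_mul_of_nonneg_right (by linarith) (by positivity)
    have e2 : L * L ^ (U + 5) = L ^ (U + 6) := by ring
    have e3 : L ^ (U + 6) ≤ K := pow_le_pow_right₀ hL1 (by omega)
    linarith
  have a3 := a2 b1 c1 g1 g2 (hKU.trans hb1K.le) (g3.trans (by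
      apply div_le_div_of_nonneg_left hN0.le (by positivity)
      exact mul_le_mul_of_nonneg_left hKU hq0.le)) (by
      refine g4.trans ?_
      rw [pow_two (b1 : ℝ)]
      apply one_div_le_one_div_of_le (by positivity)
      exact mul_le_mul_of_nonneg_right g3 hb10.le) y hy
  -- prime powers
  set ψ : ℕ → ℂ := fun n => if n ≡ u [MOD q] then ee ((n : ℝ) * α) else 0 with hψ
  have hψ1 : ∀ n, ‖ψ n‖ ≤ 1 := by
    intro n
    rw [hψ]
    simp only
    split_ifs
    · rw [norm_ee]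
    · simp
  have e1 : ES z q u y α = ∑ n ∈ Icc 1 y, ((ArithmeticFunction.vonMangoldt n : ℝ) : ℂ) * ψ n -
      ∑ n ∈ Icc 1 y, (((ArithmeticFunction.vonMangoldt n - pl n : ℝ)) : ℂ) * ψ n -
      ∑ n ∈ Icc 1 y, ((lamz z n : ℝ) : ℂ) * ψ n := by
    unfold ES
    rw [← sum_sub_distrib, ← sum_sub_distrib]
    apply sum_congr rfl
    intro n _
    push_cast
    ring
  have h5 : ‖∑ n ∈ Icc 1 y, (((ArithmeticFunction.vonMangoldt n - pl n : ℝ)) : ℂ) * ψ n‖ ≤ N / (q * L ^ U) := by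
    have h6 : ‖∑ n ∈ Icc 1 y, (((ArithmeticFunction.vonMangoldt n - pl n : ℝ)) : ℂ) * ψ n‖ ≤
        ∑ n ∈ Icc 1 y, (ArithmeticFunction.vonMangoldt n - pl n) := by
      refine (norm_sum_le _ _).trans (sum_le_sum fun n _ => ?_)
      rw [norm_mul, Complex.norm_real, Real.norm_of_nonneg (sub_nonneg.2 (pl_le_vM n))]
      have := mul_le_mul_of_nonneg_left (hψ1 n) (sub_nonneg.2 (pl_le_vM n))
      linarith
    refine h6.trans ?_
    rcases Nat.eq_zero_or_pos y with hy0 | hy0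
    · rw [hy0]; simp; positivity
    refine (sum_diff y hy0).trans ?_
    have hyr : (y : ℝ) ≤ N := by exact_mod_cast hy
    have hy1 : (1 : ℝ) ≤ y := by exact_mod_cast hy0
    have e2 : √(y : ℝ) ≤ t ^ 20 := by rw [← hsq]; exact Real.sqrt_le_sqrt hyr
    have e3 : Real.log y ≤ L := Real.log_le_log (by linarith) hyr
    have e4 : 0 ≤ Real.log y := Real.log_nonneg hy1
    have e5 : L ^ U ≤ t := le_trans (pow_le_pow_right₀ hL1 (by omega)) hLm
    rw [le_div_iff₀ (by positivity)]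
    calc 2 * √(y : ℝ) * Real.log y * (q * L ^ U) ≤ 2 * t ^ 20 * t * (t ^ 2 * t) := by
          gcongr
          exact e3.trans hLt
      _ = 2 * t ^ 24 := by ring
      _ ≤ t * t ^ 24 := mul_le_mul_of_nonneg_right (by linarith) (by positivity)
      _ = t ^ 25 := by ring
      _ ≤ t ^ 40 := pow_le_pow_right₀ ht1 (by norm_num)
      _ = N := ht40
  rw [e1]
  refine (norm_sub_le _ _).trans ?_
  have := norm_sub_le (∑ n ∈ Icc 1 y, ((ArithmeticFunction.vonMangoldt n : ℝ) : ℂ) * ψ n)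
    (∑ n ∈ Icc 1 y, (((ArithmeticFunction.vonMangoldt n - pl n : ℝ)) : ℂ) * ψ n)
  linarith

/-- the radical -/
def rad (e : ℕ) : ℕ := ∏ p ∈ e.primeFactors, p

lemma rad_pos (e : ℕ) : 1 ≤ rad e :=
  Nat.pos_of_ne_zero (prod_ne_zero_iff.2 fun _ hp => (Nat.prime_of_mem_primeFactors hp).ne_zero)

lemma rad_dvd {e q : ℕ} (h : e ∣ q ^ 2) : rad e ∣ q := by
  unfold rad
  apply Finset.prod_primes_dvd
  · intro p hp
    exact (Nat.prime_of_mem_primeFactors hp).prime
  · intro p hp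
    exact (Nat.prime_of_mem_primeFactors hp).dvd_of_dvd_pow ((Nat.dvd_of_mem_primeFactors hp).trans h)

lemma le_rad_sq {e q : ℕ} (h : e ∣ q ^ 2) (hq : Squarefree q) (he : e ≠ 0) : e ≤ rad e ^ 2 := by
  obtain ⟨q', hq'⟩ := rad_dvd h
  have hcop : e.Coprime (q' ^ 2) := by
    apply Nat.Coprime.pow_right
    by_contra hc
    obtain ⟨p, hp, h1, h2⟩ := Nat.Prime.not_coprime_iff_dvd.1 hc
    have h3 : p ∣ rad e := by
      unfold rad
      exact dvd_prod_of_mem _ (Nat.mem_primeFactors.2 ⟨hp, h1, he⟩)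
    have h4 : p * p ∣ q := by rw [hq']; exact mul_dvd_mul h3 h2
    exact hp.one_lt.ne' (Nat.isUnit_iff.1 (hq p h4))
  have h1 : e ∣ rad e ^ 2 * q' ^ 2 := by rw [← mul_pow, ← hq']; exact h
  exact Nat.le_of_dvd (pow_pos (rad_pos e) 2) (hcop.dvd_of_dvd_mul_right h1)

lemma pow_omega_le (c e : ℕ) (hc : 1 ≤ c) : (c : ℝ) ^ e.primeFactors.card ≤ (c : ℝ) ^ (c ^ 2) * √(rad e : ℝ) := by
  have hcr : (1 : ℝ) ≤ c := by exact_mod_cast hc
  have h1 : √(rad e : ℝ) = ∏ p ∈ e.primeFactors, √(p : ℝ) := by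
    unfold rad
    push_cast
    rw [Real.sqrt_prod _ (fun p _ => Nat.cast_nonneg p)]
  rw [h1, ← prod_const, ← prod_filter_mul_prod_filter_not e.primeFactors (fun p => p < c ^ 2) (fun _ => (c : ℝ)),
    ← prod_filter_mul_prod_filter_not e.primeFactors (fun p => p < c ^ 2) (fun p => √(p : ℝ))]
  have h2 : ∏ p ∈ e.primeFactors.filter (fun p => p < c ^ 2), (c : ℝ) ≤ (c : ℝ) ^ (c ^ 2) := by
    rw [prod_const]
    apply pow_le_pow_right₀ hcr
    have : e.primeFactors.filter (fun p => p < c ^ 2) ⊆ range (c ^ 2) := by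
      intro p hp
      exact mem_range.2 (mem_filter.1 hp).2
    exact (card_le_card this).trans (by rw [card_range])
  have h3 : ∏ p ∈ e.primeFactors.filter (fun p => ¬ p < c ^ 2), (c : ℝ) ≤
      ∏ p ∈ e.primeFactors.filter (fun p => ¬ p < c ^ 2), √(p : ℝ) := by
    apply prod_le_prod (fun _ _ => by positivity)
    intro p hp
    apply Real.le_sqrt_of_sq_le
    exact_mod_cast not_lt.1 (mem_filter.1 hp).2
  have h4 : (1 : ℝ) ≤ ∏ p ∈ e.primeFactors.filter (fun p => p < c ^ 2), √(p : ℝ) := by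
    have : ∀ p ∈ e.primeFactors.filter (fun p => p < c ^ 2), (1 : ℝ) ≤ √(p : ℝ) := by
      intro p hp
      rw [Real.one_le_sqrt]
      exact_mod_cast (Nat.prime_of_mem_primeFactors (mem_filter.1 hp).1).one_lt.le
    calc (1 : ℝ) = ∏ p ∈ e.primeFactors.filter (fun p => p < c ^ 2), (1 : ℝ) := by rw [prod_const_one]
      _ ≤ _ := prod_le_prod (fun _ _ => zero_le_one) this
  have h5 : (0 : ℝ) ≤ ∏ p ∈ e.primeFactors.filter (fun p => ¬ p < c ^ 2), √(p : ℝ) := prod_nonneg fun _ _ => Real.sqrt_nonneg _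
  calc _ ≤ (c : ℝ) ^ (c ^ 2) * ∏ p ∈ e.primeFactors.filter (fun p => ¬ p < c ^ 2), √(p : ℝ) := by
        apply mul_le_mul h2 h3 (prod_nonneg fun _ _ => by positivity) (by positivity)
    _ ≤ _ := by
        apply mul_le_mul_of_nonneg_left _ (by positivity)
        nlinarith

/-- the multiples of `s` among the moduli -/
lemma sum_multiples (N s c : ℕ) (hs : 1 ≤ s) (hc : 1 ≤ c) :
    ∑ q ∈ (QQ N).filter (fun q => s ∣ q), (c : ℝ) ^ q.primeFactors.card / q ≤
      (c : ℝ) ^ s.primeFactors.card / s * ∑ q ∈ Icc 1 N, (c : ℝ) ^ q.primeFactors.card / q := by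
  have hcr : (1 : ℝ) ≤ c := by exact_mod_cast hc
  have hsr : (0 : ℝ) < s := by exact_mod_cast hs
  have h1 : (QQ N).filter (fun q => s ∣ q) ⊆ (Icc 1 N).image (fun q' => s * q') := by
    intro q hq
    rw [mem_filter] at hq
    obtain ⟨q', hq'⟩ := hq.2
    have h2 := mem_filter.1 (show q ∈ (Icc 1 N).filter (fun q => Squarefree q ∧ q ^ 20 ≤ N) from hq.1)
    have h3 := mem_Icc.1 h2.1
    rw [mem_image]
    refine ⟨q', ?_, hq'.symm⟩
    rw [mem_Icc]
    constructor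
    · rcases Nat.eq_zero_or_pos q' with h | h
      · rw [h] at hq'; omega
      · exact h
    · calc q' ≤ s * q' := Nat.le_mul_of_pos_left _ hs
        _ = q := hq'.symm
        _ ≤ N := h3.2
  refine (sum_le_sum_of_subset_of_nonneg h1 (fun _ _ _ => by positivity)).trans ?_
  rw [sum_image (by
    intro a _ b _ hab
    exact Nat.eq_of_mul_eq_mul_left hs hab), mul_sum]
  apply sum_le_sum
  intro q hq
  have hq1 := (mem_Icc.1 hq).1
  have hq0 : (0 : ℝ) < q := by exact_mod_cast hq1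
  have h2 : ((s * q).primeFactors.card) ≤ s.primeFactors.card + q.primeFactors.card := by
    rw [Nat.primeFactors_mul (by omega) (by omega)]
    exact card_union_le _ _
  have h3 : (c : ℝ) ^ (s * q).primeFactors.card ≤ (c : ℝ) ^ s.primeFactors.card * (c : ℝ) ^ q.primeFactors.card := by
    rw [← pow_add]
    exact pow_le_pow_right₀ hcr h2
  calc (c : ℝ) ^ (s * q).primeFactors.card / ((s * q : ℕ) : ℝ) ≤
      ((c : ℝ) ^ s.primeFactors.card * (c : ℝ) ^ q.primeFactors.card) / ((s * q : ℕ) : ℝ) :=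
        div_le_div_of_nonneg_right h3 (by positivity)
    _ = _ := by push_cast; field_simp

end Pool.Agent.L0h42.TB
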