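import Mathlib
import Pool.Agent.H373R2.T7.Lin
import Pool.Agent.H373R2.T7.Minor
import Pool.Agent.H373R2.T7.LamZ2
import Pool.Agent.H442R2.KF.BvY
import Pool.Agent.H373R2.T7.SupE2
import Pool.Agent.H373R2.T7.Cnt
import Pool.Agent.R311.DEH.A1
import Pool.Agent.Helper256.KM.Mertens

/-! Counting the integers for which finitely many linear forms are divisible by given coprime numbers and
free of small prime factors. -/

set_option autoImplicit false
set_option linter.unusedSectionVars false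

namespace Pool.Agent.L0h42.TB
open Finset
open Pool.Agent.H373R2.T7

variable {κ : Type*} [Fintype κ] [DecidableEq κ]

/-- all the forms are divisible by the given numbers -/
def Hit (c : κ → ℤ) (d : κ → ℕ) (a : ℕ) : Prop := ∀ x, (d x : ℤ) ∣ (a : ℤ) - c x

/-- one of the forms is divisible by `p` -/
def Som (c : κ → ℤ) (p : ℕ) (a : ℕ) : Prop := ∃ x, (p : ℤ) ∣ (a : ℤ) - c x

/-- the forms have no small prime factors -/
def Rgh (z : ℕ) (c : κ → ℤ) (a : ℕ) : Prop := ∀ p ∈ pz z, ¬ Som c p a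

open Classical in
noncomputable def nu (c : κ → ℤ) (p : ℕ) : ℕ := ((range p).filter (fun r : ℕ => Som c p r)).card

noncomputable def VV (z : ℕ) (c : κ → ℤ) : ℝ := ∏ p ∈ pz z, (1 - (nu c p : ℝ) / p)

lemma som_mod (c : κ → ℤ) (p a : ℕ) : Som c p (a % p) ↔ Som c p a := by
  unfold Som
  apply exists_congr
  intro x
  have h : (((a % p : ℕ)) : ℤ) - c x = (a : ℤ) - c x - p * ((a / p : ℕ) : ℤ) := by
    have := Nat.div_add_mod a p
    have h2 : (a : ℤ) = p * ((a / p : ℕ) : ℤ) + ((a % p : ℕ) : ℤ) := by exact_mod_cast this.symm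
    linarith
  rw [h]
  exact dvd_sub_left (Dvd.intro _ rfl)

lemma res_eq (c : ℤ) (p r : ℕ) (h1 : r < p) (h2 : (p : ℤ) ∣ (r : ℤ) - c) : (c % (p : ℤ)).toNat = r := by
  have h3 : c % (p : ℤ) = (r : ℤ) % (p : ℤ) := (Int.modEq_iff_dvd.2 h2 : c ≡ r [ZMOD p])
  rw [h3, Int.emod_eq_of_lt (by positivity) (by exact_mod_cast h1)]
  simp

lemma nu_le_card (c : κ → ℤ) (p : ℕ) : nu c p ≤ Fintype.card κ := by
  classical
  unfold nu
  have h : (range p).filter (fun r : ℕ => Som c p r) ⊆ (univ : Finset κ).image (fun x => (c x % (p : ℤ)).toNat) := by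
    intro r hr
    rw [mem_filter, mem_range] at hr
    obtain ⟨h1, x, h2⟩ := hr
    rw [mem_image]
    exact ⟨x, mem_univ _, res_eq _ _ _ h1 h2⟩
  refine le_trans (le_of_eq ?_) ((card_le_card h).trans (card_image_le.trans (le_of_eq (card_univ (α := κ)))))
  congr

lemma nu_le_self (c : κ → ℤ) (p : ℕ) : nu c p ≤ p := by
  classical
  unfold nu
  exact (card_filter_le _ _).trans (by simp)

/-- the Chinese remainder theorem -/
lemma hit_class (c : κ → ℤ) (D : κ → ℕ) (hD : ∀ x, 1 ≤ D x) (hcop : ∀ x y, x ≠ y → (D x).Coprime (D y)) :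
    ∃ u : ℕ, ∀ a : ℕ, Hit c D a ↔ a ≡ u [MOD ∏ x, D x] := by
  obtain ⟨u, hu⟩ := Nat.chineseRemainderOfFinset (fun x => (c x % (D x : ℤ)).toNat) D univ
    (fun x _ => by have := hD x; omega) (fun x _ y _ hxy => hcop x y hxy)
  have hu2 : ∀ x, (D x : ℤ) ∣ (u : ℤ) - c x := by
    intro x
    have h1 := hu x (mem_univ _)
    have h0 : (0 : ℤ) < D x := by exact_mod_cast hD x
    have h2 : (((c x % (D x : ℤ)).toNat : ℕ) : ℤ) = c x % (D x : ℤ) := Int.toNat_of_nonneg (Int.emod_nonneg _ h0.ne')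
    have h3 := (Nat.modEq_iff_dvd.1 h1.symm)
    rw [h2] at h3
    have h4 : (D x : ℤ) ∣ c x % (D x : ℤ) - c x := by
      rw [Int.emod_def]
      exact ⟨-(c x / D x), by ring⟩
    have := dvd_add h3 h4
    have e : (u : ℤ) - c x % (D x : ℤ) + (c x % (D x : ℤ) - c x) = u - c x := by ring
    rwa [e] at this
  refine ⟨u, fun a => ?_⟩
  constructor
  · intro h
    rw [Nat.modEq_iff_dvd]
    push_cast
    apply Finset.prod_dvd_of_coprime
    · intro x _ y _ hxy
      exact Nat.isCoprime_iff_coprime.2 (hcop x y hxy)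
    · intro x _
      have := dvd_sub (hu2 x) (h x)
      have e : (u : ℤ) - c x - ((a : ℤ) - c x) = u - a := by ring
      rwa [e] at this
  · intro h x
    rw [Nat.modEq_iff_dvd] at h
    have h1 : (D x : ℤ) ∣ ((∏ x, D x : ℕ) : ℤ) := by
      exact_mod_cast dvd_prod_of_mem D (mem_univ x)
    have := dvd_sub (hu2 x) (h1.trans h)
    have e : (u : ℤ) - c x - ((u : ℤ) - a) = a - c x := by ring
    rwa [e] at this

lemma prime_ndvd_prod (D : κ → ℕ) (p : ℕ) (hp : p.Prime) (h : ∀ x, ¬ p ∣ D x) : ¬ p ∣ ∏ x, D x := by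
  intro hd
  obtain ⟨x, _, hx⟩ := (Prime.dvd_finsetProd_iff hp.prime D).1 hd
  exact h x hx

open Classical in
/-- the count without the sieve -/
lemma count_raw (c : κ → ℤ) (D : κ → ℕ) (z y : ℕ) (hD : ∀ x, 1 ≤ D x) (hr : ∀ x, ∀ p ∈ pz z, ¬ p ∣ D x)
    (hcop : ∀ x y, x ≠ y → (D x).Coprime (D y)) (S : Finset ℕ) (hS : S ⊆ pz z) :
    |(((Icc 1 y).filter (fun a => Hit c D a ∧ ∀ p ∈ S, Som c p a)).card : ℝ) -
      (y : ℝ) / (∏ x, D x : ℕ) * ∏ p ∈ S, ((nu c p : ℝ) / p)| ≤ ∏ p ∈ S, (nu c p : ℝ) := by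
  obtain ⟨u, hu⟩ := hit_class c D hD hcop
  have hSp : ∀ p ∈ S, p.Prime := fun p hp => (mem_pz.1 (hS hp)).2
  have h1 := count_sys (fun p a => Som c p a) y S hSp (∏ x, D x) (Nat.pos_of_ne_zero (by
      rw [prod_ne_zero_iff]; intro x _; have := hD x; omega)) (fun p hp => prime_ndvd_prod D p (hSp p hp) (fun x => hr x p (hS hp))) u
  refine le_trans (le_of_eq ?_) h1
  congr 3
  congr 1
  apply filter_congr
  intro a _
  rw [hu a]
  apply and_congr_right
  intro _
  apply forall_congr'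
  intro p
  apply imp_congr_right
  intro _
  rw [som_mod]

open Classical in
/-- **the count.** -/
theorem count_gen (c : κ → ℤ) (D : κ → ℕ) (z y r K : ℕ) (hK : Fintype.card κ ≤ K) (hK1 : 1 ≤ K)
    (hD : ∀ x, 1 ≤ D x) (hr : ∀ x, ∀ p ∈ pz z, ¬ p ∣ D x) (hcop : ∀ x y, x ≠ y → (D x).Coprime (D y)) :
    |(((Icc 1 y).filter (fun a => Hit c D a ∧ Rgh z c a)).card : ℝ) - (y : ℝ) / (∏ x, D x : ℕ) * VV z c| ≤
      ((z : ℝ) + 1) ^ r * (K : ℝ) ^ r + 2 * ((y : ℝ) / (∏ x, D x : ℕ)) * Real.exp (3 * (K * (1 + Real.log z)) - r) := by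
  have hXn : 0 ≤ (y : ℝ) / (∏ x, D x : ℕ) := by positivity
  have hKr : (1 : ℝ) ≤ K := by exact_mod_cast hK1
  have hg : ∀ p ∈ pz z, 0 ≤ (nu c p : ℝ) / p ∧ (nu c p : ℝ) / p ≤ 1 := by
    intro p hp
    have hp0 : (0 : ℝ) < p := by exact_mod_cast (mem_pz.1 hp).2.pos
    refine ⟨by positivity, ?_⟩
    rw [div_le_one hp0]
    exact_mod_cast nu_le_self c p
  have key := sieve_gen' ((Icc 1 y).filter (fun a => Hit c D a)) (fun _ => (1 : ℝ)) (fun _ _ => zero_le_one)
    (fun p a => Som c p a) (pz z) (fun p => (nu c p : ℝ) / p) hg ((y : ℝ) / (∏ x, D x : ℕ)) hXn (fun _ => (K : ℝ) ^ r) r (by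
      intro S hS hcard
      have h1 := count_raw c D z y hD hr hcop S hS
      have h2 : ∏ p ∈ S, (nu c p : ℝ) ≤ (K : ℝ) ^ r := by
        calc ∏ p ∈ S, (nu c p : ℝ) ≤ ∏ _p ∈ S, (K : ℝ) := by
              apply prod_le_prod (fun _ _ => Nat.cast_nonneg _)
              intro p _
              exact_mod_cast (nu_le_card c p).trans hK
          _ = (K : ℝ) ^ S.card := by rw [prod_const]
          _ ≤ (K : ℝ) ^ r := pow_le_pow_right₀ hKr hcard
      refine le_trans (le_of_eq ?_) (h1.trans h2)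
      rw [sum_const, nsmul_eq_mul, mul_one, filter_filter])
  have h1 : (∑ i ∈ ((Icc 1 y).filter (fun a => Hit c D a)) with ∀ p ∈ pz z, ¬ Som c p i, (1 : ℝ)) =
      (((Icc 1 y).filter (fun a => Hit c D a ∧ Rgh z c a)).card : ℝ) := by
    rw [filter_filter, sum_const, nsmul_eq_mul, mul_one]
    congr
  rw [h1] at key
  refine key.trans (add_le_add ?_ ?_)
  · have h2 := card_small (pz z) r
    have e1 : ∑ j ∈ range (r + 1), ∑ _S ∈ (pz z).powersetCard j, (K : ℝ) ^ r =
        ((∑ j ∈ range (r + 1), ((pz z).powersetCard j).card : ℕ) : ℝ) * (K : ℝ) ^ r := by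
      push_cast
      rw [sum_mul]
      apply sum_congr rfl
      intro j _
      rw [sum_const, nsmul_eq_mul]
    rw [e1]
    apply mul_le_mul_of_nonneg_right _ (by positivity)
    refine h2.trans (pow_le_pow_left₀ (by positivity) ?_ r)
    have h3 : ((pz z).card : ℝ) ≤ z := by exact_mod_cast card_pz_le z
    linarith
  · apply mul_le_mul_of_nonneg_left _ (by positivity)
    have h2 := es_le (x := fun p => (nu c p : ℝ) / p) (T := pz z) (fun p hp => (hg p hp).1) r
    refine h2.trans (Real.exp_le_exp.2 ?_)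
    have h3 : ∑ p ∈ pz z, (nu c p : ℝ) / p ≤ K * (1 + Real.log z) := by
      calc ∑ p ∈ pz z, (nu c p : ℝ) / p ≤ ∑ p ∈ pz z, K * (1 / (p : ℝ)) := by
            apply sum_le_sum
            intro p hp
            rw [mul_one_div]
            apply div_le_div_of_nonneg_right _ (Nat.cast_nonneg _)
            exact_mod_cast (nu_le_card c p).trans hK
        _ = K * ∑ p ∈ pz z, 1 / (p : ℝ) := by rw [mul_sum]
        _ ≤ _ := mul_le_mul_of_nonneg_left (sum_pz_le z) (by positivity)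
    linarith

end Pool.Agent.L0h42.TB
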