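import Mathlib
import Pool.Agent.H373R2.T7.Lin
import Pool.Agent.H373R2.T7.Minor
import Pool.Agent.H373R2.T7.LamZ2
import Pool.Agent.H442R2.KF.BvY
import Pool.Agent.H373R2.T7.SupE2
import Pool.Agent.H373R2.T7.Cnt
import Pool.Agent.R311.DEH.A1
import Pool.Agent.Helper256.KM.Mertens

/-! Elementary sums: moments of the divisor function, sums over least common multiples. -/

set_option autoImplicit false

namespace Pool.Agent.L0h42.TB
open Finset

lemma harm (N : ℕ) : ∑ n ∈ Icc 1 N, (1 : ℝ) / n ≤ 1 + Real.log N := by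
  have h := harmonic_le_one_add_log N
  rw [harmonic_eq_sum_Icc] at h
  push_cast at h
  have e : ∑ n ∈ Icc 1 N, (1 / (n:ℝ)) = ∑ n ∈ Icc 1 N, ((n:ℝ))⁻¹ := by simp
  rw [e]; exact h

lemma sum_p2 {α β : Type*} (s : Finset α) (t : Finset β) (f : α → ℝ) (g : β → ℝ) :
    ∑ y ∈ s ×ˢ t, f y.1 * g y.2 = (∑ x ∈ s, f x) * ∑ x ∈ t, g x := by
  rw [sum_product, sum_mul_sum]

lemma sum_p3 {α β γ : Type*} (s : Finset α) (t : Finset β) (u : Finset γ) (f : α → ℝ) (g : β → ℝ) (h : γ → ℝ) :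
    ∑ y ∈ s ×ˢ (t ×ˢ u), f y.1 * (g y.2.1 * h y.2.2) = (∑ x ∈ s, f x) * ((∑ x ∈ t, g x) * ∑ x ∈ u, h x) := by
  rw [sum_p2 s (t ×ˢ u) f (fun y => g y.1 * h y.2), sum_p2]

lemma tau_mul (a b : ℕ) : (a * b).divisors.card ≤ a.divisors.card * b.divisors.card := by
  rw [Nat.divisors_mul]
  exact Finset.card_mul_le

lemma sum_inj_le {α β : Type*} [DecidableEq β] (s : Finset α) (t : Finset β) (i : α → β) (F : α → ℝ) (G : β → ℝ)
    (hi : ∀ x ∈ s, i x ∈ t) (hinj : Set.InjOn i s) (hG : ∀ y ∈ t, 0 ≤ G y) (hFG : ∀ x ∈ s, F x ≤ G (i x)) :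
    ∑ x ∈ s, F x ≤ ∑ y ∈ t, G y := by
  calc ∑ x ∈ s, F x ≤ ∑ x ∈ s, G (i x) := sum_le_sum hFG
    _ = ∑ y ∈ s.image i, G y := (sum_image hinj).symm
    _ ≤ ∑ y ∈ t, G y := by
        apply sum_le_sum_of_subset_of_nonneg
        · intro y hy
          obtain ⟨x, hx, rfl⟩ := mem_image.1 hy
          exact hi x hx
        · intro y hy _
          exact hG y hy

lemma tau_pow_div (j N : ℕ) : ∑ n ∈ Icc 1 N, (n.divisors.card : ℝ) ^ j / n ≤ (1 + Real.log N) ^ (2 ^ j) := by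
  have h0 : 0 ≤ Real.log (N : ℝ) := Real.log_natCast_nonneg N
  induction j with
  | zero => simpa using harm N
  | succ j ih =>
    have h1 : ∑ n ∈ Icc 1 N, (n.divisors.card : ℝ) ^ (j + 1) / n =
        ∑ x ∈ (Icc 1 N).sigma (fun n => n.divisorsAntidiagonal), ((x.2.1 * x.2.2).divisors.card : ℝ) ^ j / (x.2.1 * x.2.2) := by
      rw [sum_sigma]
      apply sum_congr rfl
      intro n hn
      have h2 : ∀ i ∈ n.divisorsAntidiagonal, ((i.1 * i.2).divisors.card : ℝ) ^ j / (i.1 * i.2) =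
          (n.divisors.card : ℝ) ^ j / n := by
        intro i hi
        rw [Nat.mem_divisorsAntidiagonal] at hi
        rw [← hi.1]; push_cast; rfl
      rw [sum_congr rfl h2, sum_const, nsmul_eq_mul]
      have : (n.divisorsAntidiagonal.card : ℝ) = n.divisors.card := by
        rw [← Nat.map_div_right_divisors, card_map]
      rw [this, pow_succ]
      ring
    rw [h1]
    have h3 : ∑ x ∈ (Icc 1 N).sigma (fun n => n.divisorsAntidiagonal), ((x.2.1 * x.2.2).divisors.card : ℝ) ^ j / (x.2.1 * x.2.2) ≤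
        ∑ y ∈ Icc 1 N ×ˢ Icc 1 N, ((y.1.divisors.card : ℝ) ^ j / y.1) * ((y.2.divisors.card : ℝ) ^ j / y.2) := by
      apply sum_inj_le _ _ (fun x => x.2)
      · intro x hx
        rw [mem_sigma, Nat.mem_divisorsAntidiagonal, mem_Icc] at hx
        rw [mem_product, mem_Icc, mem_Icc]
        obtain ⟨⟨a1, a2⟩, a3, a4⟩ := hx
        have b1 : x.2.1 ≠ 0 := by rintro h; rw [h, zero_mul] at a3; omega
        have b2 : x.2.2 ≠ 0 := by rintro h; rw [h, mul_zero] at a3; omega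
        have b3 : x.2.1 ≤ x.1 := by rw [← a3]; exact Nat.le_mul_of_pos_right _ (by omega)
        have b4 : x.2.2 ≤ x.1 := by rw [← a3]; exact Nat.le_mul_of_pos_left _ (by omega)
        omega
      · intro x hx y hy hxy
        rw [mem_coe, mem_sigma, Nat.mem_divisorsAntidiagonal] at hx hy
        simp only at hxy
        obtain ⟨x1, x2⟩ := x
        obtain ⟨y1, y2⟩ := y
        simp only at hxy hx hy
        subst hxy
        have : x1 = y1 := by rw [← hx.2.1, ← hy.2.1]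
        subst this
        rfl
      · intro y _
        positivity
      · intro x _
        rw [div_mul_div_comm, ← mul_pow]
        gcongr
        exact_mod_cast tau_mul _ _
    refine h3.trans ?_
    rw [sum_p2 (Icc 1 N) (Icc 1 N) (fun n => (n.divisors.card : ℝ) ^ j / n) (fun n => (n.divisors.card : ℝ) ^ j / n)]
    have h5 : 0 ≤ ∑ c ∈ Icc 1 N, (c.divisors.card : ℝ) ^ j / c := sum_nonneg fun _ _ => by positivity
    calc _ ≤ (1 + Real.log N) ^ (2 ^ j) * (1 + Real.log N) ^ (2 ^ j) := mul_le_mul ih ih h5 (by positivity)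
      _ = _ := by rw [← pow_add]; congr 1; rw [pow_succ]; ring

lemma tau_pow (j N : ℕ) : ∑ n ∈ Icc 1 N, (n.divisors.card : ℝ) ^ j ≤ N * (1 + Real.log N) ^ (2 ^ j) := by
  have h := tau_pow_div j N
  calc ∑ n ∈ Icc 1 N, (n.divisors.card : ℝ) ^ j ≤ ∑ n ∈ Icc 1 N, N * ((n.divisors.card : ℝ) ^ j / n) := by
        apply sum_le_sum
        intro n hn
        rw [mem_Icc] at hn
        have h1 : (0 : ℝ) < n := by exact_mod_cast hn.1
        have h2 : (n : ℝ) ≤ N := by exact_mod_cast hn.2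
        rw [mul_div_assoc', le_div_iff₀ h1, mul_comm]
        exact mul_le_mul_of_nonneg_right h2 (by positivity)
    _ = N * ∑ n ∈ Icc 1 N, (n.divisors.card : ℝ) ^ j / n := by rw [mul_sum]
    _ ≤ _ := mul_le_mul_of_nonneg_left h (Nat.cast_nonneg _)

/-- the splitting of a pair -/
def spl (x : ℕ × ℕ) : ℕ × ℕ × ℕ := (Nat.gcd x.1 x.2, x.1 / Nat.gcd x.1 x.2, x.2 / Nat.gcd x.1 x.2)

lemma spl_spec {R : ℕ} {x : ℕ × ℕ} (hx : x ∈ Icc 1 R ×ˢ Icc 1 R) :
    spl x ∈ Icc 1 R ×ˢ (Icc 1 R ×ˢ Icc 1 R) ∧ (spl x).1 * (spl x).2.1 = x.1 ∧ (spl x).1 * (spl x).2.2 = x.2 ∧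
      Nat.lcm x.1 x.2 = (spl x).1 * (spl x).2.1 * (spl x).2.2 := by
  rw [mem_product, mem_Icc, mem_Icc] at hx
  obtain ⟨⟨h1, h2⟩, h3, h4⟩ := hx
  unfold spl
  obtain ⟨g, hg⟩ : ∃ g, g = Nat.gcd x.1 x.2 := ⟨_, rfl⟩
  simp only [← hg]
  have g0 : 0 < g := by rw [hg]; exact Nat.gcd_pos_of_pos_left _ h1
  obtain ⟨a, ha⟩ : g ∣ x.1 := by rw [hg]; exact Nat.gcd_dvd_left _ _
  obtain ⟨b, hb⟩ : g ∣ x.2 := by rw [hg]; exact Nat.gcd_dvd_right _ _
  have ea : x.1 / g = a := by rw [ha, Nat.mul_div_cancel_left _ g0]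
  have eb : x.2 / g = b := by rw [hb, Nat.mul_div_cancel_left _ g0]
  rw [ea, eb]
  have a0 : 0 < a := Nat.pos_of_ne_zero fun h => by rw [h, mul_zero] at ha; omega
  have b0 : 0 < b := Nat.pos_of_ne_zero fun h => by rw [h, mul_zero] at hb; omega
  have a1 : a ≤ x.1 := by rw [ha]; exact Nat.le_mul_of_pos_left _ g0
  have b1 : b ≤ x.2 := by rw [hb]; exact Nat.le_mul_of_pos_left _ g0
  have g1 : g ≤ x.1 := by rw [ha]; exact Nat.le_mul_of_pos_right _ a0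
  refine ⟨?_, ha.symm, hb.symm, ?_⟩
  · simp only [mem_product, mem_Icc]
    omega
  · have h5 := Nat.gcd_mul_lcm x.1 x.2
    rw [← hg] at h5
    apply Nat.eq_of_mul_eq_mul_left g0
    rw [h5]
    calc x.1 * x.2 = (g * a) * (g * b) := by rw [← ha, ← hb]
      _ = _ := by ring

lemma spl_inj (R : ℕ) : Set.InjOn spl (Icc 1 R ×ˢ Icc 1 R : Finset (ℕ × ℕ)) := by
  intro x hx y hy hxy
  have h1 := spl_spec hx
  have h2 := spl_spec hy
  rw [hxy] at h1
  ext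
  · rw [← h1.2.1, ← h2.2.1]
  · rw [← h1.2.2.1, ← h2.2.2.1]

lemma lcm_sum (R : ℕ) : ∑ x ∈ Icc 1 R ×ˢ Icc 1 R, (1 : ℝ) / (Nat.lcm x.1 x.2) ≤ (1 + Real.log R) ^ 3 := by
  have h0 : 0 ≤ Real.log (R : ℝ) := Real.log_natCast_nonneg R
  have h1 := sum_inj_le (Icc 1 R ×ˢ Icc 1 R) (Icc 1 R ×ˢ (Icc 1 R ×ˢ Icc 1 R)) spl
    (fun x => (1 : ℝ) / (Nat.lcm x.1 x.2)) (fun y => (1 / (y.1 : ℝ)) * ((1 / (y.2.1 : ℝ)) * (1 / (y.2.2 : ℝ))))
    (fun x hx => (spl_spec hx).1) (spl_inj R) (fun y _ => by positivity) (fun x hx => by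
      rw [(spl_spec hx).2.2.2]
      push_cast
      apply le_of_eq
      rw [one_div_mul_one_div, one_div_mul_one_div]
      ring)
  refine h1.trans ?_
  rw [sum_p3 (Icc 1 R) (Icc 1 R) (Icc 1 R) (fun n => 1 / (n : ℝ)) (fun n => 1 / (n : ℝ)) (fun n => 1 / (n : ℝ))]
  have h2 := harm R
  have h3 : 0 ≤ ∑ n ∈ Icc 1 R, (1 : ℝ) / n := sum_nonneg fun _ _ => by positivity
  calc _ ≤ (1 + Real.log R) * ((1 + Real.log R) * (1 + Real.log R)) := by gcongr
    _ = _ := by ring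

lemma harm_mult (R p : ℕ) (hp : 1 ≤ p) : ∑ n ∈ (Icc 1 R).filter (fun n => p ∣ n), (1 : ℝ) / n ≤ 1 / p * (1 + Real.log R) := by
  have h1 : ∑ n ∈ (Icc 1 R).filter (fun n => p ∣ n), (1 : ℝ) / n ≤ ∑ n ∈ Icc 1 R, 1 / (p : ℝ) * (1 / n) := by
    apply sum_inj_le _ _ (fun n => n / p)
    · intro n hn
      rw [mem_filter, mem_Icc] at hn
      obtain ⟨⟨h1, h2⟩, h3⟩ := hn
      rw [mem_Icc]
      exact ⟨Nat.div_pos (Nat.le_of_dvd h1 h3) hp, (Nat.div_le_self _ _).trans h2⟩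
    · intro x hx y hy hxy
      rw [mem_coe, mem_filter] at hx hy
      simp only at hxy
      rw [← Nat.mul_div_cancel' hx.2, ← Nat.mul_div_cancel' hy.2, hxy]
    · intro y _; positivity
    · intro n hn
      rw [mem_filter, mem_Icc] at hn
      obtain ⟨⟨h1, h2⟩, m, rfl⟩ := hn
      rw [Nat.mul_div_cancel_left _ (by omega)]
      push_cast
      rw [one_div_mul_one_div]
  refine h1.trans ?_
  rw [← mul_sum]
  exact mul_le_mul_of_nonneg_left (harm R) (by positivity)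

lemma lcm_sum_p (R p : ℕ) (hp : p.Prime) :
    ∑ x ∈ (Icc 1 R ×ˢ Icc 1 R).filter (fun x => p ∣ Nat.lcm x.1 x.2), (1 : ℝ) / (Nat.lcm x.1 x.2) ≤ 3 / p * (1 + Real.log R) ^ 3 := by
  have h0 : 0 ≤ Real.log (R : ℝ) := Real.log_natCast_nonneg R
  have hp0 : (0 : ℝ) < p := by exact_mod_cast hp.pos
  set K := Icc 1 R ×ˢ (Icc 1 R ×ˢ Icc 1 R) with hK
  set G : ℕ × ℕ × ℕ → ℝ := fun y => (1 / (y.1 : ℝ)) * ((1 / (y.2.1 : ℝ)) * (1 / (y.2.2 : ℝ))) with hG
  have hG0 : ∀ y, 0 ≤ G y := fun y => by rw [hG]; positivity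
  have h1 : ∑ x ∈ (Icc 1 R ×ˢ Icc 1 R).filter (fun x => p ∣ Nat.lcm x.1 x.2), (1 : ℝ) / (Nat.lcm x.1 x.2) ≤
      ∑ y ∈ K.filter (fun y => p ∣ y.1 * y.2.1 * y.2.2), G y := by
    apply sum_inj_le _ _ spl
    · intro x hx
      rw [mem_filter] at hx
      rw [mem_filter, ← (spl_spec hx.1).2.2.2]
      exact ⟨(spl_spec hx.1).1, hx.2⟩
    · intro x hx y hy hxy
      rw [mem_coe, mem_filter] at hx hy
      exact spl_inj R hx.1 hy.1 hxy
    · intro y _; exact hG0 y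
    · intro x hx
      rw [mem_filter] at hx
      rw [(spl_spec hx.1).2.2.2, hG]
      push_cast
      apply le_of_eq
      rw [one_div_mul_one_div, one_div_mul_one_div]
      ring
  refine h1.trans ?_
  have h2 : ∑ y ∈ K.filter (fun y => p ∣ y.1 * y.2.1 * y.2.2), G y ≤
      ∑ y ∈ K.filter (fun y => p ∣ y.1), G y + (∑ y ∈ K.filter (fun y => p ∣ y.2.1), G y + ∑ y ∈ K.filter (fun y => p ∣ y.2.2), G y) := by
    rw [sum_filter, sum_filter, sum_filter, sum_filter, ← sum_add_distrib, ← sum_add_distrib]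
    apply sum_le_sum
    intro y _
    have := hG0 y
    by_cases h : p ∣ y.1 * y.2.1 * y.2.2
    · rw [if_pos h]
      rcases (Nat.Prime.dvd_mul hp).1 h with h3 | h3
      · rcases (Nat.Prime.dvd_mul hp).1 h3 with h4 | h4
        · rw [if_pos h4]; split_ifs <;> linarith
        · rw [if_pos h4]; split_ifs <;> linarith
      · rw [if_pos h3]; split_ifs <;> linarith
    · rw [if_neg h]; split_ifs <;> linarith
  refine h2.trans ?_
  have h3 := harm R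
  have h4 : 0 ≤ ∑ n ∈ Icc 1 R, (1 : ℝ) / n := sum_nonneg fun _ _ => by positivity
  have h5 := harm_mult R p hp.pos
  have h6 : 0 ≤ ∑ n ∈ (Icc 1 R).filter (fun n => p ∣ n), (1 : ℝ) / n := sum_nonneg fun _ _ => by positivity
  have e1 : K.filter (fun y => p ∣ y.1) = ((Icc 1 R).filter (fun n => p ∣ n)) ×ˢ (Icc 1 R ×ˢ Icc 1 R) := by
    ext y; simp only [hK, mem_filter, mem_product]; tauto
  have e2 : K.filter (fun y => p ∣ y.2.1) = (Icc 1 R) ×ˢ (((Icc 1 R).filter (fun n => p ∣ n)) ×ˢ Icc 1 R) := by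
    ext y; simp only [hK, mem_filter, mem_product]; tauto
  have e3 : K.filter (fun y => p ∣ y.2.2) = (Icc 1 R) ×ˢ (Icc 1 R ×ˢ ((Icc 1 R).filter (fun n => p ∣ n))) := by
    ext y; simp only [hK, mem_filter, mem_product]; tauto
  have hs : ∀ s t u : Finset ℕ, ∑ y ∈ s ×ˢ (t ×ˢ u), G y = (∑ n ∈ s, (1 : ℝ) / n) * ((∑ n ∈ t, (1 : ℝ) / n) * ∑ n ∈ u, (1 : ℝ) / n) :=
    fun s t u => sum_p3 s t u (fun n : ℕ => 1 / (n : ℝ)) (fun n : ℕ => 1 / (n : ℝ)) (fun n : ℕ => 1 / (n : ℝ))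
  rw [e1, e2, e3, hs, hs, hs]
  set H := ∑ n ∈ Icc 1 R, (1 : ℝ) / n
  set P := ∑ n ∈ (Icc 1 R).filter (fun n => p ∣ n), (1 : ℝ) / n
  set l := 1 + Real.log R with hl
  have hl0 : 0 ≤ l := by positivity
  have k1 : P * (H * H) ≤ (1 / p * l) * (l * l) := by gcongr
  calc P * (H * H) + (H * (P * H) + H * (H * P)) = 3 * (P * (H * H)) := by ring
    _ ≤ 3 * ((1 / p * l) * (l * l)) := by linarith
    _ = _ := by ring

end Pool.Agent.L0h42.TB
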