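import Mathlib
import Pool.Agent.L0h42.TB.B1
import Pool.Agent.H373R2.T7.Lin
import Pool.Agent.H373R2.T7.Minor
import Pool.Agent.H373R2.T7.LamZ2
import Pool.Agent.H442R2.KF.BvY
import Pool.Agent.H373R2.T7.SupE2
import Pool.Agent.H373R2.T7.Cnt
import Pool.Agent.R311.DEH.A1
import Pool.Agent.Helper256.KM.Mertens
import Pool.Agent.W23.UBb
import Pool.Agent.H373R2.T7.Crt

/-! Sums over squarefree numbers without small prime factors; the diagonalisation of the quadratic form. -/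

set_option autoImplicit false
set_option linter.unusedSectionVars false

namespace Pool.Agent.L0h42.TB
open Finset
open Pool.Agent.H373R2.T7

/-- squarefree numbers up to `R` without prime factors up to `z` -/
def RR (z R : ℕ) : Finset ℕ := (Icc 1 R).filter (fun d => Squarefree d ∧ ∀ p ∈ pz z, ¬ p ∣ d)

lemma mem_RR {z R d : ℕ} : d ∈ RR z R ↔ (1 ≤ d ∧ d ≤ R) ∧ Squarefree d ∧ ∀ p ∈ pz z, ¬ p ∣ d := by
  unfold RR
  rw [mem_filter, mem_Icc]

lemma one_mem_RR {z R : ℕ} (hR : 1 ≤ R) : 1 ∈ RR z R := by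
  rw [mem_RR]
  exact ⟨⟨le_rfl, hR⟩, squarefree_one, fun p hp hd => (mem_pz.1 hp).2.one_lt.ne' (Nat.dvd_one.1 hd)⟩

lemma RR_dvd {z R d e : ℕ} (hd : d ∈ RR z R) (he : e ∣ d) : e ∈ RR z R := by
  rw [mem_RR] at hd ⊢
  obtain ⟨⟨h1, h2⟩, h3, h4⟩ := hd
  refine ⟨⟨Nat.pos_of_dvd_of_pos he h1, (Nat.le_of_dvd h1 he).trans h2⟩, h3.squarefree_of_dvd he, fun p hp hpe => h4 p hp (hpe.trans he)⟩

lemma prod_pz_coprime {z n : ℕ} : Nat.Coprime n (∏ p ∈ pz z, p) ↔ ∀ p ∈ pz z, ¬ p ∣ n := by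
  rw [Nat.coprime_prod_right_iff]
  constructor
  · intro h p hp hd
    have := h p hp
    rw [Nat.coprime_comm, Nat.Prime.coprime_iff_not_dvd (mem_pz.1 hp).2] at this
    exact this hd
  · intro h p hp
    rw [Nat.coprime_comm, Nat.Prime.coprime_iff_not_dvd (mem_pz.1 hp).2]
    exact h p hp

lemma Vz_eq_phi (z : ℕ) : ((Nat.totient (∏ p ∈ pz z, p) : ℕ) : ℝ) / (∏ p ∈ pz z, p : ℕ) = Vz z := by
  rw [totient_prod _ (fun p hp => (mem_pz.1 hp).2)]
  push_cast
  rw [← prod_div_distrib]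
  unfold Vz
  apply prod_congr rfl
  intro p hp
  have h1 := (mem_pz.1 hp).2.one_lt.le
  have h2 : (0 : ℝ) < p := by exact_mod_cast (mem_pz.1 hp).2.pos
  rw [Nat.cast_sub h1]
  push_cast
  field_simp

/-- lower bound -/
lemma phi_low (z R : ℕ) : Vz z * Real.log R ≤ ∑ r ∈ RR z R, (1 : ℝ) / Nat.totient r := by
  have hP : 1 ≤ ∏ p ∈ pz z, p := Nat.pos_of_ne_zero (by
    rw [prod_ne_zero_iff]; intro p hp; exact (mem_pz.1 hp).2.ne_zero)
  have h := Pool.Agent.W23.UB.phi_sum_ge (R := R) hP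
  rw [Vz_eq_phi] at h
  have e : Pool.Agent.W23.UB.SQ (∏ p ∈ pz z, p) R = RR z R := by
    ext d
    rw [Pool.Agent.W23.UB.mem_SQ, mem_RR, prod_pz_coprime]
  rw [e] at h
  simp only [one_div]
  refine le_trans ?_ h
  apply mul_le_mul_of_nonneg_left _ (Vz_pos z).le
  rcases Nat.eq_zero_or_pos R with h0 | h0
  · rw [h0]; simp
  · have : (0 : ℝ) < R := by exact_mod_cast h0
    exact Real.log_le_log this (by linarith)

lemma pz_mono {z w : ℕ} (h : z ≤ w) : pz z ⊆ pz w := by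
  intro p hp
  rw [mem_pz] at hp ⊢
  exact ⟨hp.1.trans h, hp.2⟩

lemma one_sub_pos {p : ℕ} (hp : p.Prime) : (0 : ℝ) < 1 - 1 / p := by
  have : (2 : ℝ) ≤ p := by exact_mod_cast hp.two_le
  have h2 : 1 / (p : ℝ) ≤ 1 / 2 := one_div_le_one_div_of_le (by norm_num) this
  linarith

/-- upper bound -/
lemma phi_up (z R : ℕ) (hzR : z ≤ R) : ∑ r ∈ RR z R, (1 : ℝ) / Nat.totient r ≤ Vz z * (Vz R)⁻¹ := by
  classical
  have h1 : ∑ r ∈ RR z R, (1 : ℝ) / Nat.totient r ≤ ∏ p ∈ pz R \ pz z, (1 + 1 / ((p : ℝ) - 1)) := by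
    rw [prod_one_add]
    apply sum_inj_le _ _ (fun r => r.primeFactors)
    · intro r hr
      rw [mem_RR] at hr
      rw [mem_powerset]
      intro p hp
      rw [Nat.mem_primeFactors] at hp
      rw [mem_sdiff, mem_pz]
      exact ⟨⟨(Nat.le_of_dvd hr.1.1 hp.2.1).trans hr.1.2, hp.1⟩, fun h => hr.2.2 p h hp.2.1⟩
    · intro r hr s hs hrs
      rw [mem_coe, mem_RR] at hr hs
      simp only at hrs
      rw [← Nat.prod_primeFactors_of_squarefree hr.2.1, ← Nat.prod_primeFactors_of_squarefree hs.2.1, hrs]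
    · intro S hS
      rw [mem_powerset] at hS
      apply prod_nonneg
      intro p hp
      have : (1 : ℝ) ≤ p := by exact_mod_cast (mem_pz.1 (mem_sdiff.1 (hS hp)).1).2.one_lt.le
      apply div_nonneg zero_le_one
      linarith
    · intro r hr
      rw [mem_RR] at hr
      apply le_of_eq
      have h2 : Nat.totient r = ∏ p ∈ r.primeFactors, (p - 1) := by
        rw [← totient_prod _ (fun p hp => Nat.prime_of_mem_primeFactors hp), Nat.prod_primeFactors_of_squarefree hr.2.1]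
      rw [h2]
      push_cast
      rw [one_div, ← prod_inv_distrib]
      apply prod_congr rfl
      intro p hp
      rw [Nat.cast_sub (Nat.prime_of_mem_primeFactors hp).one_lt.le, one_div]
      push_cast
      rfl
  refine h1.trans (le_of_eq ?_)
  have h2 : Vz R = Vz z * ∏ p ∈ pz R \ pz z, (1 - 1 / (p : ℝ)) := by
    unfold Vz
    rw [mul_comm, prod_sdiff (pz_mono hzR)]
  have h3 : (∏ p ∈ pz R \ pz z, (1 - 1 / (p : ℝ)))⁻¹ = ∏ p ∈ pz R \ pz z, (1 + 1 / ((p : ℝ) - 1)) := by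
    rw [← prod_inv_distrib]
    apply prod_congr rfl
    intro p hp
    have h4 : (2 : ℝ) ≤ p := by exact_mod_cast (mem_pz.1 (mem_sdiff.1 hp).1).2.two_le
    have h5 : (p : ℝ) - 1 ≠ 0 := by linarith
    have h6 : (p : ℝ) ≠ 0 := by linarith
    field_simp
    ring
  rw [h2, mul_inv, ← mul_assoc, mul_inv_cancel₀ (Vz_pos z).ne', one_mul, h3]

lemma sum_inv_pp (N : ℕ) : ∑ p ∈ pz N, (1 : ℝ) / (p * (p - 1)) ≤ 1 := by
  have h1 : ∀ N : ℕ, ∑ n ∈ Icc 2 (N + 1), (1 : ℝ) / (n * (n - 1)) = 1 - 1 / (N + 1) := by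
    intro N
    induction N with
    | zero => simp
    | succ N ih =>
      rw [sum_Icc_succ_top (by omega), ih]
      push_cast
      field_simp
      ring
  calc ∑ p ∈ pz N, (1 : ℝ) / (p * (p - 1)) ≤ ∑ n ∈ Icc 2 (N + 1), (1 : ℝ) / (n * (n - 1)) := by
        apply sum_le_sum_of_subset_of_nonneg
        · intro p hp
          rw [mem_pz] at hp
          rw [mem_Icc]
          have := hp.2.two_le
          omega
        · intro n hn _
          rw [mem_Icc] at hn
          have : (2 : ℝ) ≤ n := by exact_mod_cast hn.1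
          apply div_nonneg zero_le_one
          apply mul_nonneg <;> linarith
    _ = 1 - 1 / ((N : ℝ) + 1) := h1 N
    _ ≤ 1 := by
        have : 0 ≤ 1 / ((N : ℝ) + 1) := by positivity
        linarith

/-- Mertens' upper bound -/
lemma mertens_up : ∃ C : ℕ, 1 ≤ C ∧ ∀ N : ℕ, 3 ≤ N → (Vz N)⁻¹ ≤ C * Real.log N := by
  obtain ⟨C0, h0⟩ := Pool.Agent.Helper256.KM.mertens_inv
  refine ⟨⌈Real.exp (C0 + 1)⌉₊ + 1, by omega, fun N hN => ?_⟩
  have h1 := (abs_le.1 (h0 N hN)).2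
  have hN3 : (3 : ℝ) ≤ N := by exact_mod_cast hN
  have hL1 : 1 < Real.log N := by
    have h2 : Real.exp 1 < 3 := by have := Real.exp_one_lt_d9; linarith
    rw [Real.lt_log_iff_exp_lt (by linarith)]
    linarith
  have h2 : (Vz N)⁻¹ ≤ Real.exp (∑ p ∈ pz N, 1 / ((p : ℝ) - 1)) := by
    unfold Vz
    rw [Real.exp_sum, ← prod_inv_distrib]
    apply prod_le_prod
    · intro p hp
      exact (inv_pos.2 (one_sub_pos (mem_pz.1 hp).2)).le
    · intro p hp
      have h4 : (2 : ℝ) ≤ p := by exact_mod_cast (mem_pz.1 hp).2.two_le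
      have h5 : (p : ℝ) - 1 ≠ 0 := by linarith
      have h6 : (p : ℝ) ≠ 0 := by linarith
      have h7 : (1 - 1 / (p : ℝ))⁻¹ = 1 / ((p : ℝ) - 1) + 1 := by
        field_simp
        ring
      rw [h7]
      exact Real.add_one_le_exp _
  have h3 : ∑ p ∈ pz N, 1 / ((p : ℝ) - 1) = ∑ p ∈ pz N, 1 / (p : ℝ) + ∑ p ∈ pz N, (1 : ℝ) / (p * (p - 1)) := by
    rw [← sum_add_distrib]
    apply sum_congr rfl
    intro p hp
    have h4 : (2 : ℝ) ≤ p := by exact_mod_cast (mem_pz.1 hp).2.two_le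
    have h5 : (p : ℝ) - 1 ≠ 0 := by linarith
    have h6 : (p : ℝ) ≠ 0 := by linarith
    field_simp
    ring
  have h4 := sum_inv_pp N
  have h5 : ∑ p ∈ pz N, 1 / (p : ℝ) = ∑ p ∈ (Finset.Icc 1 N).filter Nat.Prime, (1 : ℝ) / p := rfl
  have h6 : ∑ p ∈ pz N, 1 / ((p : ℝ) - 1) ≤ Real.log (Real.log N) + (C0 + 1) := by
    rw [h3, h5]; linarith
  calc (Vz N)⁻¹ ≤ Real.exp (Real.log (Real.log N) + (C0 + 1)) := h2.trans (Real.exp_le_exp.2 h6)
    _ = Real.log N * Real.exp (C0 + 1) := by rw [Real.exp_add, Real.exp_log (by linarith)]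
    _ ≤ Real.log N * (⌈Real.exp (C0 + 1)⌉₊ + 1) := by
        apply mul_le_mul_of_nonneg_left _ (by linarith)
        have := Nat.le_ceil (Real.exp (C0 + 1))
        linarith
    _ = _ := by push_cast; ring

/-- totients are large -/
lemma phi_large {d R : ℕ} (hd : 1 ≤ d) (hdR : d ≤ R) : (d : ℝ) / Nat.totient d ≤ (Vz R)⁻¹ := by
  have h1 : (Nat.totient d : ℝ) = d * ∏ p ∈ d.primeFactors, (1 - 1 / (p : ℝ)) := by
    have h3 := congrArg (fun z : ℚ => (z : ℝ)) (Nat.totient_eq_mul_prod_factors d)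
    push_cast at h3
    simp only [one_div]
    exact h3
  have hd0 : (0 : ℝ) < d := by exact_mod_cast hd
  have h2 : Vz R ≤ ∏ p ∈ d.primeFactors, (1 - 1 / (p : ℝ)) := by
    have hsub : d.primeFactors ⊆ pz R := by
      intro p hp
      rw [Nat.mem_primeFactors] at hp
      rw [mem_pz]
      exact ⟨(Nat.le_of_dvd hd hp.2.1).trans hdR, hp.1⟩
    unfold Vz
    rw [← prod_sdiff hsub]
    have h3 : ∏ p ∈ pz R \ d.primeFactors, (1 - 1 / (p : ℝ)) ≤ 1 := by
      apply prod_le_one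
      · intro p hp
        exact (one_sub_pos (mem_pz.1 (mem_sdiff.1 hp).1).2).le
      · intro p _
        have : (0 : ℝ) ≤ 1 / (p : ℝ) := by positivity
        linarith
    have h4 : 0 ≤ ∏ p ∈ d.primeFactors, (1 - 1 / (p : ℝ)) :=
      prod_nonneg fun p hp => (one_sub_pos (Nat.prime_of_mem_primeFactors hp)).le
    calc _ ≤ 1 * ∏ p ∈ d.primeFactors, (1 - 1 / (p : ℝ)) := mul_le_mul_of_nonneg_right h3 h4
      _ = _ := one_mul _
  have h3 : 0 < ∏ p ∈ d.primeFactors, (1 - 1 / (p : ℝ)) :=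
    prod_pos fun p hp => (one_sub_pos (Nat.prime_of_mem_primeFactors hp))
  rw [h1, div_mul_cancel_left₀ hd0.ne']
  exact inv_anti₀ (Vz_pos R) h2

/-- the sum over the multiples of a number -/
lemma phi_mult (z R d : ℕ) (hzR : z ≤ R) (hd : d ∈ RR z R) :
    ∑ r ∈ (RR z R).filter (fun r => d ∣ r), (d : ℝ) / Nat.totient r ≤ (Vz R)⁻¹ * (Vz R)⁻¹ := by
  have hd1 : 1 ≤ d := (mem_RR.1 hd).1.1
  have hV1 : Vz z ≤ 1 := Vz_le_one z
  have hVR := Vz_pos R
  have h1 : ∑ r ∈ (RR z R).filter (fun r => d ∣ r), (d : ℝ) / Nat.totient r ≤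
      ∑ m ∈ RR z R, (d : ℝ) / Nat.totient d * (1 / Nat.totient m) := by
    apply sum_inj_le _ _ (fun r => r / d)
    · intro r hr
      rw [mem_filter] at hr
      exact RR_dvd hr.1 (Nat.div_dvd_of_dvd hr.2)
    · intro r hr s hs hrs
      rw [mem_coe, mem_filter] at hr hs
      simp only at hrs
      rw [← Nat.mul_div_cancel' hr.2, ← Nat.mul_div_cancel' hs.2, hrs]
    · intro y _; positivity
    · intro r hr
      rw [mem_filter] at hr
      obtain ⟨h2, m, rfl⟩ := hr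
      rw [Nat.mul_div_cancel_left _ hd1]
      have h3 : d.Coprime m := Nat.coprime_of_squarefree_mul (mem_RR.1 h2).2.1
      rw [Nat.totient_mul h3]
      push_cast
      rw [div_mul_div_comm, mul_one]
  refine h1.trans ?_
  rw [← mul_sum]
  apply mul_le_mul (phi_large hd1 (mem_RR.1 hd).1.2) _ (sum_nonneg fun _ _ => by positivity) (inv_pos.2 hVR).le
  refine (phi_up z R hzR).trans ?_
  calc Vz z * (Vz R)⁻¹ ≤ 1 * (Vz R)⁻¹ := mul_le_mul_of_nonneg_right hV1 (inv_pos.2 hVR).le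
    _ = _ := one_mul _

/-- the sum of the Moebius function over the multiples of `t` dividing `r` -/
lemma mob_sum {r : ℕ} (hr : Squarefree r) (t : ℕ) :
    ∑ d ∈ r.divisors.filter (fun d => t ∣ d), ((ArithmeticFunction.moebius d : ℤ) : ℝ) =
      if t = r then ((ArithmeticFunction.moebius r : ℤ) : ℝ) else 0 := by
  by_cases htr : t ∣ r
  · obtain ⟨m, rfl⟩ := htr
    have hcop : t.Coprime m := Nat.coprime_of_squarefree_mul hr
    have ht0 : t ≠ 0 := fun h => by rw [h, zero_mul] at hr; exact not_squarefree_zero hr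
    have hm0 : m ≠ 0 := fun h => by rw [h, mul_zero] at hr; exact not_squarefree_zero hr
    have h1 : (t * m).divisors.filter (fun d => t ∣ d) = m.divisors.image (fun e => t * e) := by
      ext d
      rw [mem_filter, Nat.mem_divisors, mem_image]
      constructor
      · rintro ⟨⟨h1, h2⟩, e, rfl⟩
        exact ⟨e, Nat.mem_divisors.2 ⟨Nat.dvd_of_mul_dvd_mul_left (Nat.pos_of_ne_zero ht0) h1, hm0⟩, rfl⟩
      · rintro ⟨e, he, rfl⟩
        rw [Nat.mem_divisors] at he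
        exact ⟨⟨Nat.mul_dvd_mul_left t he.1, Nat.mul_ne_zero ht0 hm0⟩, Dvd.intro _ rfl⟩
    rw [h1, sum_image (fun x _ y _ h => Nat.eq_of_mul_eq_mul_left (Nat.pos_of_ne_zero ht0) h)]
    have h2 : ∀ e ∈ m.divisors, ((ArithmeticFunction.moebius (t * e) : ℤ) : ℝ) =
        ((ArithmeticFunction.moebius t : ℤ) : ℝ) * ((ArithmeticFunction.moebius e : ℤ) : ℝ) := by
      intro e he
      rw [Nat.mem_divisors] at he
      rw [ArithmeticFunction.isMultiplicative_moebius.map_mul_of_coprime (hcop.coprime_dvd_right he.1)]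
      push_cast
      rfl
    rw [sum_congr rfl h2, ← mul_sum]
    have h3 : ∑ e ∈ m.divisors, ((ArithmeticFunction.moebius e : ℤ) : ℝ) = if m = 1 then 1 else 0 := by
      have h4 : ∑ e ∈ m.divisors, ArithmeticFunction.moebius e = (1 : ArithmeticFunction ℤ) m := by
        rw [← ArithmeticFunction.coe_mul_zeta_apply, ArithmeticFunction.moebius_mul_coe_zeta]
      have h5 : ∑ e ∈ m.divisors, ((ArithmeticFunction.moebius e : ℤ) : ℝ) = (((1 : ArithmeticFunction ℤ) m : ℤ) : ℝ) := by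
        rw [← h4]; push_cast; rfl
      rw [h5, ArithmeticFunction.one_apply]
      split_ifs <;> simp
    rw [h3]
    by_cases hm : m = 1
    · rw [if_pos hm, if_pos (by rw [hm, mul_one]), hm, mul_one, mul_one]
    · rw [if_neg hm, if_neg, mul_zero]
      intro h
      apply hm
      exact Nat.eq_of_mul_eq_mul_left (Nat.pos_of_ne_zero ht0) (by rw [mul_one]; exact h.symm)
  · rw [if_neg (fun h => htr (by rw [h])), filter_eq_empty_iff.2, sum_empty]
    intro d hd h
    exact htr (h.trans (Nat.dvd_of_mem_divisors hd))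

end Pool.Agent.L0h42.TB
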