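import Mathlib
import Pool.Agent.L0h42.TB.B3
import Pool.Agent.H373R2.T7.Lin
import Pool.Agent.H373R2.T7.Minor
import Pool.Agent.H373R2.T7.LamZ2
import Pool.Agent.H442R2.KF.BvY
import Pool.Agent.H373R2.T7.SupE2
import Pool.Agent.H373R2.T7.Cnt
import Pool.Agent.R311.DEH.A1
import Pool.Agent.Helper256.KM.Mertens
import Pool.Agent.W23.UBb
import Pool.Agent.H373R2.T7.Crt

/-! The diagonalisation of the quadratic form. -/

set_option autoImplicit false
set_option linter.unusedSectionVars false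

namespace Pool.Agent.L0h42.TB
open Finset
open Pool.Agent.H373R2.T7

variable {κ : Type*} [Fintype κ] [DecidableEq κ]

noncomputable def cM (d r : ℕ) : ℝ :=
  if d ∣ r then ((ArithmeticFunction.moebius d : ℤ) : ℝ) * d / Nat.totient r else 0

noncomputable def c1 (d r : ℕ) : ℝ := if d = 1 then 1 / (Nat.totient r : ℝ) else 0

lemma gcd_sum {d e r : ℕ} (hd : d ∣ r) (hr : r ≠ 0) :
    (Nat.gcd d e : ℝ) = ∑ t ∈ r.divisors, (Nat.totient t : ℝ) * ((if t ∣ d then 1 else 0) * (if t ∣ e then 1 else 0)) := by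
  have h1 := Nat.sum_totient (Nat.gcd d e)
  have hd0 : d ≠ 0 := fun h => hr (by rw [h] at hd; exact Nat.eq_zero_of_zero_dvd hd)
  have hg0 : Nat.gcd d e ≠ 0 := (Nat.gcd_pos_of_pos_left _ (Nat.pos_of_ne_zero hd0)).ne'
  have h2 : ((∑ t ∈ (Nat.gcd d e).divisors, Nat.totient t : ℕ) : ℝ) = (Nat.gcd d e : ℝ) := by rw [h1]
  rw [← h2]
  push_cast
  have h3 : ∀ t, (Nat.totient t : ℝ) * ((if t ∣ d then (1 : ℝ) else 0) * (if t ∣ e then 1 else 0)) =
      if t ∣ Nat.gcd d e then (Nat.totient t : ℝ) else 0 := by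
    intro t
    by_cases h4 : t ∣ d <;> by_cases h5 : t ∣ e <;> simp [h4, h5, Nat.dvd_gcd_iff]
  simp only [h3]
  rw [← sum_filter]
  apply sum_congr _ fun _ _ => rfl
  ext t
  rw [mem_filter, Nat.mem_divisors, Nat.mem_divisors]
  constructor
  · rintro ⟨h4, _⟩
    exact ⟨⟨(h4.trans (Nat.gcd_dvd_left _ _)).trans hd, hr⟩, h4⟩
  · rintro ⟨_, h4⟩
    exact ⟨h4, hg0⟩

lemma RR_filter_dvd {z R r : ℕ} (hr : r ∈ RR z R) : (RR z R).filter (fun d => d ∣ r) = r.divisors := by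
  ext d
  rw [mem_filter, Nat.mem_divisors]
  constructor
  · rintro ⟨_, h⟩
    exact ⟨h, by have := (mem_RR.1 hr).1.1; omega⟩
  · rintro ⟨h, _⟩
    exact ⟨RR_dvd hr h, h⟩

lemma kerM (z R r s : ℕ) (hr : r ∈ RR z R) (hs : s ∈ RR z R) :
    ∑ d ∈ RR z R, ∑ e ∈ RR z R, cM d r * cM e s * (1 / (Nat.lcm d e : ℝ)) = if r = s then 1 / (Nat.totient r : ℝ) else 0 := by
  have hr0 : r ≠ 0 := by have := (mem_RR.1 hr).1.1; omega
  have hs0 : s ≠ 0 := by have := (mem_RR.1 hs).1.1; omega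
  have hrs := (mem_RR.1 hr).2.1
  have hss := (mem_RR.1 hs).2.1
  have hφr : (0 : ℝ) < Nat.totient r := by exact_mod_cast Nat.totient_pos.2 (Nat.pos_of_ne_zero hr0)
  have hφs : (0 : ℝ) < Nat.totient s := by exact_mod_cast Nat.totient_pos.2 (Nat.pos_of_ne_zero hs0)
  set m : ℕ → ℝ := fun d => ((ArithmeticFunction.moebius d : ℤ) : ℝ) with hm
  have h1 : ∑ d ∈ RR z R, ∑ e ∈ RR z R, cM d r * cM e s * (1 / (Nat.lcm d e : ℝ)) =
      ∑ d ∈ r.divisors, ∑ e ∈ s.divisors, 1 / (Nat.totient r * Nat.totient s : ℝ) * (m d * m e * Nat.gcd d e) := by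
    rw [← RR_filter_dvd hr, ← RR_filter_dvd hs, sum_filter]
    apply sum_congr rfl
    intro d hd
    rw [sum_filter]
    by_cases hdr : d ∣ r
    · rw [if_pos hdr]
      apply sum_congr rfl
      intro e he
      by_cases hes : e ∣ s
      · rw [if_pos hes]
        unfold cM
        rw [if_pos hdr, if_pos hes]
        have hd0 : (0 : ℝ) < d := by exact_mod_cast (mem_RR.1 hd).1.1
        have he0 : (0 : ℝ) < e := by exact_mod_cast (mem_RR.1 he).1.1
        have h2 : (Nat.gcd d e : ℝ) * Nat.lcm d e = d * e := by exact_mod_cast Nat.gcd_mul_lcm d e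
        have h3 : (0 : ℝ) < Nat.lcm d e := by
          exact_mod_cast Nat.lcm_pos (mem_RR.1 hd).1.1 (mem_RR.1 he).1.1
        have h4 : (Nat.gcd d e : ℝ) = d * e / Nat.lcm d e := by rw [← h2]; field_simp
        rw [h4, hm]
        field_simp
      · rw [if_neg hes]
        unfold cM
        rw [if_neg hes]; ring
    · rw [if_neg hdr]
      apply sum_eq_zero
      intro e _
      unfold cM
      rw [if_neg hdr]; ring
  rw [h1]
  have h2 : ∀ d ∈ r.divisors, ∀ e ∈ s.divisors, 1 / (Nat.totient r * Nat.totient s : ℝ) * (m d * m e * Nat.gcd d e) =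
      ∑ t ∈ r.divisors, 1 / (Nat.totient r * Nat.totient s : ℝ) * (Nat.totient t * ((if t ∣ d then m d else 0) * (if t ∣ e then m e else 0))) := by
    intro d hd e _
    rw [gcd_sum (Nat.dvd_of_mem_divisors hd) hr0, mul_sum, mul_sum]
    apply sum_congr rfl
    intro t _
    split_ifs <;> ring
  rw [sum_congr rfl fun d hd => sum_congr rfl fun e he => h2 d hd e he]
  have h3 : ∑ d ∈ r.divisors, ∑ e ∈ s.divisors, ∑ t ∈ r.divisors, 1 / (Nat.totient r * Nat.totient s : ℝ) *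
      (Nat.totient t * ((if t ∣ d then m d else 0) * (if t ∣ e then m e else 0))) =
      ∑ t ∈ r.divisors, 1 / (Nat.totient r * Nat.totient s : ℝ) * (Nat.totient t *
        ((∑ d ∈ r.divisors, if t ∣ d then m d else 0) * (∑ e ∈ s.divisors, if t ∣ e then m e else 0))) := by
    have : ∀ d ∈ r.divisors, ∑ e ∈ s.divisors, ∑ t ∈ r.divisors, 1 / (Nat.totient r * Nat.totient s : ℝ) *
      (Nat.totient t * ((if t ∣ d then m d else 0) * (if t ∣ e then m e else 0))) =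
      ∑ t ∈ r.divisors, ∑ e ∈ s.divisors, 1 / (Nat.totient r * Nat.totient s : ℝ) *
      (Nat.totient t * ((if t ∣ d then m d else 0) * (if t ∣ e then m e else 0))) := fun d _ => sum_comm
    rw [sum_congr rfl this, sum_comm]
    apply sum_congr rfl
    intro t _
    rw [sum_mul_sum, mul_sum, mul_sum]
    apply sum_congr rfl
    intro d _
    rw [mul_sum, mul_sum]
  rw [h3]
  simp only [← sum_filter]
  rw [hm]
  simp only [mob_sum hrs, mob_sum hss]
  have h4 : ∀ t ∈ r.divisors, 1 / ((Nat.totient r : ℝ) * Nat.totient s) * (Nat.totient t *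
      ((if t = r then ((ArithmeticFunction.moebius r : ℤ) : ℝ) else 0) * (if t = s then ((ArithmeticFunction.moebius s : ℤ) : ℝ) else 0))) =
      if t = r then (if r = s then 1 / (Nat.totient r : ℝ) else 0) else 0 := by
    intro t _
    by_cases htr : t = r
    · rw [if_pos htr, if_pos htr, htr]
      by_cases hrs' : r = s
      · rw [if_pos hrs', if_pos hrs', ← hrs']
        have hmu : ((ArithmeticFunction.moebius r : ℤ) : ℝ) * ((ArithmeticFunction.moebius r : ℤ) : ℝ) = 1 := by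
          have := ArithmeticFunction.moebius_sq_eq_one_of_squarefree hrs
          have h5 : (((ArithmeticFunction.moebius r) ^ 2 : ℤ) : ℝ) = 1 := by rw [this]; simp
          push_cast at h5
          rw [← h5]; ring
        rw [hmu]
        field_simp
      · rw [if_neg hrs', if_neg hrs']; ring
    · rw [if_neg htr, if_neg htr]; ring
  rw [sum_congr rfl h4, sum_ite_eq' r.divisors r, if_pos (Nat.mem_divisors.2 ⟨dvd_rfl, hr0⟩)]

lemma ker1 (z R r s : ℕ) (hR : 1 ≤ R) :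
    ∑ d ∈ RR z R, ∑ e ∈ RR z R, c1 d r * c1 e s * (1 / (Nat.lcm d e : ℝ)) = 1 / (Nat.totient r : ℝ) * (1 / Nat.totient s) := by
  have h1 : ∀ d ∈ RR z R, ∀ e ∈ RR z R, c1 d r * c1 e s * (1 / (Nat.lcm d e : ℝ)) =
      if d = 1 then (if e = 1 then 1 / (Nat.totient r : ℝ) * (1 / Nat.totient s) else 0) else 0 := by
    intro d _ e _
    unfold c1
    by_cases hd : d = 1 <;> by_cases he : e = 1 <;> simp [hd, he]
  rw [sum_congr rfl fun d hd => sum_congr rfl fun e he => h1 d hd e he]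
  have h2 : ∀ d ∈ RR z R, ∑ e ∈ RR z R, (if d = 1 then (if e = 1 then 1 / (Nat.totient r : ℝ) * (1 / Nat.totient s) else 0) else 0) =
      if d = 1 then 1 / (Nat.totient r : ℝ) * (1 / Nat.totient s) else 0 := by
    intro d _
    by_cases hd : d = 1
    · simp only [if_pos hd]
      rw [sum_ite_eq' (RR z R) 1, if_pos (one_mem_RR hR)]
    · simp only [if_neg hd, sum_const_zero]
  rw [sum_congr rfl h2, sum_ite_eq' (RR z R) 1, if_pos (one_mem_RR hR)]

/-- tuples -/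
def PD (κ : Type*) [Fintype κ] [DecidableEq κ] (z R : ℕ) : Finset (κ → ℕ) := Fintype.piFinset (fun _ => RR z R)

lemma mem_PD {z R : ℕ} {d : κ → ℕ} : d ∈ PD κ z R ↔ ∀ x, d x ∈ RR z R := Fintype.mem_piFinset

/-- the quadratic form -/
noncomputable def Qf (z R : ℕ) (Λ : (κ → ℕ) → ℝ) : ℝ :=
  ∑ d ∈ PD κ z R, ∑ e ∈ PD κ z R, Λ d * Λ e * ∏ x, (1 / (Nat.lcm (d x) (e x) : ℝ))

lemma pi2 (z R : ℕ) (f : κ → ℕ → ℕ → ℝ) :
    ∑ d ∈ PD κ z R, ∑ e ∈ PD κ z R, ∏ x, f x (d x) (e x) = ∏ x, ∑ d ∈ RR z R, ∑ e ∈ RR z R, f x d e := by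
  unfold PD
  have h1 : ∀ d ∈ Fintype.piFinset (fun _ : κ => RR z R), ∑ e ∈ Fintype.piFinset (fun _ : κ => RR z R), ∏ x, f x (d x) (e x) =
      ∏ x, ∑ e ∈ RR z R, f x (d x) e := by
    intro d _
    exact sum_prod_piFinset (RR z R) (fun x e => f x (d x) e)
  rw [sum_congr rfl h1]
  exact sum_prod_piFinset (RR z R) (fun x d => ∑ e ∈ RR z R, f x d e)

lemma Qf_ker (z R : ℕ) (c : κ → ℕ → ℕ → ℝ) (y Λ : (κ → ℕ) → ℝ)
    (hΛ : ∀ d, Λ d = ∑ r ∈ PD κ z R, y r * ∏ x, c x (d x) (r x)) :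
    Qf z R Λ = ∑ r ∈ PD κ z R, ∑ s ∈ PD κ z R, y r * y s *
      ∏ x, ∑ d ∈ RR z R, ∑ e ∈ RR z R, c x d (r x) * c x e (s x) * (1 / (Nat.lcm d e : ℝ)) := by
  have h1 : ∀ r ∈ PD κ z R, ∀ s ∈ PD κ z R, y r * y s *
      ∏ x, ∑ d ∈ RR z R, ∑ e ∈ RR z R, c x d (r x) * c x e (s x) * (1 / (Nat.lcm d e : ℝ)) =
      ∑ d ∈ PD κ z R, ∑ e ∈ PD κ z R, (y r * ∏ x, c x (d x) (r x)) * (y s * ∏ x, c x (e x) (s x)) * ∏ x, (1 / (Nat.lcm (d x) (e x) : ℝ)) := by
    intro r _ s _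
    rw [← pi2 z R (fun x d e => c x d (r x) * c x e (s x) * (1 / (Nat.lcm d e : ℝ))), mul_sum]
    apply sum_congr rfl
    intro d _
    rw [mul_sum]
    apply sum_congr rfl
    intro e _
    rw [prod_mul_distrib, prod_mul_distrib]
    ring
  rw [sum_congr rfl fun r hr => sum_congr rfl fun s hs => h1 r hr s hs]
  unfold Qf
  have h2 : ∀ r ∈ PD κ z R, ∑ s ∈ PD κ z R, ∑ d ∈ PD κ z R, ∑ e ∈ PD κ z R,
      (y r * ∏ x, c x (d x) (r x)) * (y s * ∏ x, c x (e x) (s x)) * ∏ x, (1 / (Nat.lcm (d x) (e x) : ℝ)) =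
      ∑ d ∈ PD κ z R, ∑ e ∈ PD κ z R, (y r * ∏ x, c x (d x) (r x)) * (∑ s ∈ PD κ z R, y s * ∏ x, c x (e x) (s x)) *
        ∏ x, (1 / (Nat.lcm (d x) (e x) : ℝ)) := by
    intro r _
    rw [sum_comm]
    apply sum_congr rfl
    intro d _
    rw [sum_comm]
    apply sum_congr rfl
    intro e _
    rw [mul_sum, sum_mul]
  rw [sum_congr rfl h2]
  symm
  rw [sum_comm]
  apply sum_congr rfl
  intro d _
  rw [sum_comm]
  apply sum_congr rfl
  intro e _
  rw [hΛ d, hΛ e, sum_mul, sum_mul]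

end Pool.Agent.L0h42.TB
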