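import Mathlib
import Pool.Agent.L0h42.TB.A9
import Pool.Agent.L0h42.TB.B2
import Pool.Agent.L0h42.TB.B4
import Pool.Agent.H373R2.T7.Lin
import Pool.Agent.H373R2.T7.Minor
import Pool.Agent.H373R2.T7.LamZ2
import Pool.Agent.H442R2.KF.BvY
import Pool.Agent.H373R2.T7.SupE2
import Pool.Agent.H373R2.T7.Cnt
import Pool.Agent.R311.DEH.A1
import Pool.Agent.Helper256.KM.Mertens
import Pool.Agent.W23.UBb
import Pool.Agent.H373R2.T7.Crt

/-! Fibres of the moduli. -/

set_option autoImplicit false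
set_option linter.unusedSectionVars false

namespace Pool.Agent.L0h42.TB
open Finset
open Pool.Agent.H807R2.Dav
open Pool.Agent.H373R2.T7

lemma sqf_lcm {d e : ℕ} (hd : Squarefree d) (he : Squarefree e) : Squarefree (Nat.lcm d e) := by
  have hd0 := hd.ne_zero
  have he0 := he.ne_zero
  rw [Nat.squarefree_iff_factorization_le_one (Nat.lcm_ne_zero hd0 he0)]
  intro p
  rw [Nat.factorization_lcm hd0 he0, Finsupp.sup_apply]
  exact sup_le ((Nat.squarefree_iff_factorization_le_one hd0).1 hd p) ((Nat.squarefree_iff_factorization_le_one he0).1 he p)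

lemma card_div_sqf {q : ℕ} (hq : Squarefree q) : q.divisors.card = 2 ^ q.primeFactors.card := by
  rw [Nat.card_divisors hq.ne_zero, ← prod_const]
  apply prod_congr rfl
  intro p hp
  have h1 := (Nat.squarefree_iff_factorization_le_one hq.ne_zero).1 hq p
  have h2 : 1 ≤ q.factorization p := by
    have := Nat.mem_primeFactors.1 hp
    exact (Nat.Prime.dvd_iff_one_le_factorization this.1 this.2.2).1 this.2.1
  omega

/-- the least common multiples -/
def lc {κ : Type*} (x : (κ → ℕ) × (κ → ℕ)) : κ → ℕ := fun l => Nat.lcm (x.1 l) (x.2 l)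

lemma lc_rough {κ : Type*} [Fintype κ] [DecidableEq κ] {z R : ℕ} {x : (κ → ℕ) × (κ → ℕ)} (h1 : x.1 ∈ PD κ z R) (h2 : x.2 ∈ PD κ z R) :
    (∀ l, 1 ≤ lc x l) ∧ (∀ l, ∀ p ∈ pz z, ¬ p ∣ lc x l) ∧ (∀ l, Squarefree (lc x l)) := by
  refine ⟨fun l => ?_, fun l p hp hd => ?_, fun l => ?_⟩
  · exact Nat.lcm_pos (mem_RR.1 (mem_PD.1 h1 l)).1.1 (mem_RR.1 (mem_PD.1 h2 l)).1.1
  · unfold lc at hd
    rcases (Nat.Prime.dvd_lcm (mem_pz.1 hp).2).1 hd with h | h
    · exact (mem_RR.1 (mem_PD.1 h1 l)).2.2 p hp h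
    · exact (mem_RR.1 (mem_PD.1 h2 l)).2.2 p hp h
  · exact sqf_lcm (mem_RR.1 (mem_PD.1 h1 l)).2.1 (mem_RR.1 (mem_PD.1 h2 l)).2.1

lemma lc_prod_le {κ : Type*} [Fintype κ] (x : (κ → ℕ) × (κ → ℕ)) :
    ∏ l, lc x l ≤ (∏ l, x.1 l) * ∏ l, x.2 l := by
  rw [← prod_mul_distrib]
  apply prod_le_prod'
  intro l _
  unfold lc
  rcases Nat.eq_zero_or_pos (x.1 l * x.2 l) with h | h
  · rcases Nat.mul_eq_zero.1 h with h1 | h1 <;> simp [h1]
  · exact Nat.le_of_dvd h (Nat.lcm_dvd_mul _ _)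

lemma modulus_mem {k : ℕ} {z N R r : ℕ} (hz : ((z + 1) ^ r) ^ 40 ≤ N) (hR : R ^ 80 ≤ N) {S : Finset ℕ} (hS : S ⊆ pz z) (hSr : S.card < r)
    {x : (Fin k → ℕ) × (Fin k → ℕ)} (h1 : x.1 ∈ PD (Fin k) z R) (h2 : x.2 ∈ PD (Fin k) z R) (h3 : ∏ l, x.1 l ≤ R) (h4 : ∏ l, x.2 l ≤ R)
    (hcop : ∀ l m, l ≠ m → (lc x l).Coprime (lc x m)) : (∏ p ∈ S, p) * ∏ l, lc x l ∈ QQ N := by
  obtain ⟨a1, a2, a3⟩ := lc_rough h1 h2
  have hSp : ∀ p ∈ S, p.Prime := fun p hp => (mem_pz.1 (hS hp)).2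
  have hS1 : 1 ≤ ∏ p ∈ S, p := Nat.pos_of_ne_zero (prod_ne_zero_iff.2 fun p hp => (hSp p hp).ne_zero)
  have hl1 : 1 ≤ ∏ l, lc x l := Nat.pos_of_ne_zero (prod_ne_zero_iff.2 fun l _ => by have := a1 l; omega)
  rw [mem_QQ]
  refine ⟨Nat.mul_pos hS1 hl1, ?_, ?_⟩
  · rw [Nat.squarefree_mul_iff]
    refine ⟨?_, ?_, ?_⟩
    · rw [Nat.coprime_prod_left_iff]
      intro p hp
      rw [Nat.Prime.coprime_iff_not_dvd (hSp p hp)]
      exact prime_ndvd_prod _ p (hSp p hp) (fun l => a2 l p (hS hp))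
    · apply squarefree_prod_of_pairwise_isCoprime
      · intro p hp p' hp' hne
        rw [Function.onFun, ← Nat.coprime_iff_isRelPrime]
        exact (Nat.coprime_primes (hSp p hp) (hSp p' hp')).2 hne
      · intro p hp
        exact (hSp p hp).squarefree
    · apply squarefree_prod_of_pairwise_isCoprime
      · intro l _ m _ hne
        rw [Function.onFun, ← Nat.coprime_iff_isRelPrime]
        exact hcop l m hne
      · intro l _
        exact a3 l
  · have b1 : ∏ p ∈ S, p ≤ (z + 1) ^ r := prod_le_pow S z r hS hSr.le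
    have b2 : ∏ l, lc x l ≤ R * R := (lc_prod_le x).trans (Nat.mul_le_mul h3 h4)
    have b3 : (((∏ p ∈ S, p) * ∏ l, lc x l) ^ 20) ^ 2 ≤ N ^ 2 := by
      calc (((∏ p ∈ S, p) * ∏ l, lc x l) ^ 20) ^ 2 = (∏ p ∈ S, p) ^ 40 * (∏ l, lc x l) ^ 40 := by
            rw [← pow_mul, mul_pow]
        _ ≤ ((z + 1) ^ r) ^ 40 * (R * R) ^ 40 := Nat.mul_le_mul (Nat.pow_le_pow_left b1 _) (Nat.pow_le_pow_left b2 _)
        _ = ((z + 1) ^ r) ^ 40 * R ^ 80 := by rw [← pow_two R, ← pow_mul R]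
        _ ≤ N * N := Nat.mul_le_mul hz hR
        _ = N ^ 2 := by ring
    exact (Nat.pow_le_pow_iff_left (by norm_num)).1 b3

/-- **summation over the systems.** -/
lemma fibre_bound {k : ℕ} (hk : 1 ≤ k) (z N R r : ℕ) (hz : ((z + 1) ^ r) ^ 40 ≤ N) (hR : R ^ 80 ≤ N)
    (G : Finset ((Fin k → ℕ) × (Fin k → ℕ)))
    (hG : ∀ x ∈ G, x.1 ∈ PD (Fin k) z R ∧ x.2 ∈ PD (Fin k) z R ∧ ∏ l, x.1 l ≤ R ∧ ∏ l, x.2 l ≤ R ∧
      ∀ l m, l ≠ m → (lc x l).Coprime (lc x m)) (M : ℕ → ℝ) (hM : ∀ q, 0 ≤ M q) :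
    ∑ y ∈ ((pz z).powerset.filter (fun S => S.card < r)) ×ˢ G, (k : ℝ) ^ y.1.card * M ((∏ p ∈ y.1, p) * ∏ l, lc y.2 l) ≤
      ∑ q ∈ QQ N, ((k * 2 ^ (2 * k + 1) : ℕ) : ℝ) ^ q.primeFactors.card * M q := by
  classical
  have hkr : (1 : ℝ) ≤ k := by exact_mod_cast hk
  rw [← sum_fiberwise_of_maps_to (t := QQ N) (g := fun y : Finset ℕ × ((Fin k → ℕ) × (Fin k → ℕ)) => (∏ p ∈ y.1, p) * ∏ l, lc y.2 l)]
  · apply sum_le_sum
    intro q hq
    rw [mem_QQ] at hq
    obtain ⟨hq1, hqs, _⟩ := hq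
    have hq0 : q ≠ 0 := by omega
    set F := (((pz z).powerset.filter (fun S => S.card < r)) ×ˢ G).filter (fun y => (∏ p ∈ y.1, p) * ∏ l, lc y.2 l = q) with hF
    have hsub : F ⊆ q.primeFactors.powerset ×ˢ (Fintype.piFinset (fun _ : Fin k => q.divisors) ×ˢ Fintype.piFinset (fun _ : Fin k => q.divisors)) := by
      intro y hy
      rw [hF, mem_filter, mem_product, mem_filter, mem_powerset] at hy
      obtain ⟨⟨⟨hS, hSr⟩, hyG⟩, hyq⟩ := hy
      have hd : ∀ l, lc y.2 l ∣ q := fun l => by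
        rw [← hyq]; exact (dvd_prod_of_mem _ (mem_univ l)).mul_left _
      rw [mem_product, mem_product, mem_powerset, Fintype.mem_piFinset, Fintype.mem_piFinset]
      refine ⟨?_, ?_, ?_⟩
      · intro p hp
        rw [Nat.mem_primeFactors]
        refine ⟨(mem_pz.1 (hS hp)).2, ?_, hq0⟩
        rw [← hyq]
        exact (dvd_prod_of_mem (fun p => p) hp).mul_right _
      · intro l
        rw [Nat.mem_divisors]
        exact ⟨(Nat.dvd_lcm_left _ _).trans (hd l), hq0⟩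
      · intro l
        rw [Nat.mem_divisors]
        exact ⟨(Nat.dvd_lcm_right _ _).trans (hd l), hq0⟩
    have hcard : F.card ≤ 2 ^ ((2 * k + 1) * q.primeFactors.card) := by
      refine (card_le_card hsub).trans (le_of_eq ?_)
      rw [card_product, card_product, card_powerset, Fintype.card_piFinset, prod_const, card_div_sqf hqs, card_univ, Fintype.card_fin]
      rw [← pow_mul, ← pow_add, ← pow_add]
      congr 1
      ring
    calc ∑ y ∈ F, (k : ℝ) ^ y.1.card * M ((∏ p ∈ y.1, p) * ∏ l, lc y.2 l) ≤ ∑ _y ∈ F, (k : ℝ) ^ q.primeFactors.card * M q := by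
          apply sum_le_sum
          intro y hy
          have h1 := hsub hy
          rw [mem_product, mem_powerset] at h1
          rw [hF, mem_filter] at hy
          rw [hy.2]
          apply mul_le_mul_of_nonneg_right _ (hM q)
          exact pow_le_pow_right₀ hkr (card_le_card h1.1)
      _ = F.card * ((k : ℝ) ^ q.primeFactors.card * M q) := by rw [sum_const, nsmul_eq_mul]
      _ ≤ (2 : ℝ) ^ ((2 * k + 1) * q.primeFactors.card) * ((k : ℝ) ^ q.primeFactors.card * M q) := by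
          apply mul_le_mul_of_nonneg_right _ (mul_nonneg (by positivity) (hM q))
          exact_mod_cast hcard
      _ = _ := by
          push_cast
          rw [mul_pow, ← pow_mul]
          ring
  · intro y hy
    rw [mem_product, mem_filter, mem_powerset] at hy
    obtain ⟨b1, b2, b3, b4, b5⟩ := hG y.2 hy.2
    exact modulus_mem hz hR hy.1.1 hy.1.2 b1 b2 b3 b4 b5

end Pool.Agent.L0h42.TB
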