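import Mathlib
import Pool.Agent.L0h42.TB.B9
import Pool.Agent.H373R2.T7.Lin
import Pool.Agent.H373R2.T7.Minor
import Pool.Agent.H373R2.T7.LamZ2
import Pool.Agent.H442R2.KF.BvY
import Pool.Agent.H373R2.T7.SupE2
import Pool.Agent.H373R2.T7.Cnt
import Pool.Agent.R311.DEH.A1
import Pool.Agent.Helper256.KM.Mertens
import Pool.Agent.W23.UBb
import Pool.Agent.H373R2.T7.Crt

/-! The weighted sums: expansion of the square, truncation of the sieve. -/

set_option autoImplicit false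
set_option linter.unusedSectionVars false

namespace Pool.Agent.L0h42.TB
open Finset
open Pool.Agent.H807R2.Dav
open Pool.Agent.H373R2.T7

variable {κ : Type*} [Fintype κ] [DecidableEq κ]

open Classical in
/-- the divisor sum -/
noncomputable def SS (z R : ℕ) (Λ : (κ → ℕ) → ℝ) (c : κ → ℤ) (a : ℕ) : ℝ :=
  ∑ d ∈ PD κ z R, Λ d * (if Hit c d a then 1 else 0)

open Classical in
/-- the indicator function of the integers for which the forms have no small prime factors -/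
noncomputable def Gr (z : ℕ) (c : κ → ℤ) (a : ℕ) : ℝ := if Rgh z c a then 1 else 0

open Classical in
noncomputable def ind (c : κ → ℤ) (S : Finset ℕ) (a : ℕ) : ℝ := if ∀ p ∈ S, Som c p a then 1 else 0

lemma hit_lcm (c : κ → ℤ) (x : (κ → ℕ) × (κ → ℕ)) (a : ℕ) : Hit c (lc x) a ↔ Hit c x.1 a ∧ Hit c x.2 a := by
  unfold Hit lc
  rw [← forall_and]
  apply forall_congr'
  intro l
  rw [Int.natCast_dvd, Int.natCast_dvd, Int.natCast_dvd, Nat.lcm_dvd_iff]

lemma Gr_nonneg (z : ℕ) (c : κ → ℤ) (a : ℕ) : 0 ≤ Gr z c a := by unfold Gr; split_ifs <;> norm_num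
lemma Gr_le_one (z : ℕ) (c : κ → ℤ) (a : ℕ) : Gr z c a ≤ 1 := by unfold Gr; split_ifs <;> norm_num
lemma ind_nonneg (c : κ → ℤ) (S : Finset ℕ) (a : ℕ) : 0 ≤ ind c S a := by unfold ind; split_ifs <;> norm_num

open Classical in
/-- the expansion of the square -/
lemma SS_sq (z R : ℕ) (Λ : (κ → ℕ) → ℝ) (c : κ → ℤ) (a : ℕ) :
    SS z R Λ c a ^ 2 = ∑ x ∈ PD κ z R ×ˢ PD κ z R, Λ x.1 * Λ x.2 * (if Hit c (lc x) a then 1 else 0) := by
  unfold SS
  rw [sq, sum_mul_sum, sum_product]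
  apply sum_congr rfl
  intro d _
  apply sum_congr rfl
  intro e _
  by_cases h1 : Hit c d a <;> by_cases h2 : Hit c e a <;> simp [hit_lcm, h1, h2]

open Classical in
lemma expand {E : Type*} [AddCommGroup E] [Module ℝ E] (z R : ℕ) (Λ : (κ → ℕ) → ℝ) (c : κ → ℤ) (S : Finset ℕ) (I : Finset ℕ) (w : ℕ → E) :
    ∑ a ∈ I, (ind c S a * SS z R Λ c a ^ 2) • w a =
      ∑ x ∈ PD κ z R ×ˢ PD κ z R, (Λ x.1 * Λ x.2) • ∑ a ∈ I.filter (fun a => Hit c (lc x) a ∧ ∀ p ∈ S, Som c p a), w a := by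
  have h1 : ∀ a ∈ I, (ind c S a * SS z R Λ c a ^ 2) • w a =
      ∑ x ∈ PD κ z R ×ˢ PD κ z R, (Λ x.1 * Λ x.2) • (if Hit c (lc x) a ∧ ∀ p ∈ S, Som c p a then w a else 0) := by
    intro a _
    rw [SS_sq, mul_sum, sum_smul]
    apply sum_congr rfl
    intro x _
    unfold ind
    by_cases h1 : Hit c (lc x) a
    · by_cases h2 : ∀ p ∈ S, Som c p a
      · rw [if_pos h1, if_pos h2, if_pos (⟨h1, h2⟩ : Hit c (lc x) a ∧ ∀ p ∈ S, Som c p a), one_mul, mul_one]
      · have h3 : ¬ (Hit c (lc x) a ∧ ∀ p ∈ S, Som c p a) := fun h => h2 h.2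
        rw [if_neg h2, if_neg h3, zero_mul, zero_smul, smul_zero]
    · have h3 : ¬ (Hit c (lc x) a ∧ ∀ p ∈ S, Som c p a) := fun h => h1 h.1
      rw [if_neg h1, if_neg h3, mul_zero, mul_zero, zero_smul, smul_zero]
  rw [sum_congr rfl h1, sum_comm]
  apply sum_congr rfl
  intro x _
  rw [← smul_sum, sum_filter]

/-- truncation of the sieve -/
lemma bonf_Gr (z : ℕ) (c : κ → ℤ) (r a : ℕ) :
    |Gr z c a - ∑ j ∈ range r, (-1 : ℝ) ^ j * ∑ S ∈ (pz z).powersetCard j, ind c S a| ≤ ∑ S ∈ (pz z).powersetCard r, ind c S a := by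
  classical
  have h := bonf_ind (fun p (a : ℕ) => Som c p a) (pz z) r a
  unfold Gr ind Rgh
  convert h

lemma sum_card_lt (T : Finset ℕ) (r : ℕ) (f : Finset ℕ → ℝ) :
    ∑ j ∈ range r, ∑ S ∈ T.powersetCard j, f S = ∑ S ∈ T.powerset.filter (fun S => S.card < r), f S := by
  rw [← sum_fiberwise_of_maps_to (t := range r) (g := fun S : Finset ℕ => S.card) (s := T.powerset.filter (fun S => S.card < r))]
  · apply sum_congr rfl
    intro j hj
    rw [mem_range] at hj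
    apply sum_congr _ fun _ _ => rfl
    ext S
    rw [mem_powersetCard, mem_filter, mem_filter, mem_powerset]
    constructor
    · rintro ⟨h1, h2⟩
      exact ⟨⟨h1, by omega⟩, h2⟩
    · rintro ⟨⟨h1, _⟩, h2⟩
      exact ⟨h1, h2⟩
  · intro S hS
    rw [mem_filter] at hS
    exact mem_range.2 hS.2

/-- the weighted sum, truncated -/
lemma trunc (z R r : ℕ) (Λ : (κ → ℕ) → ℝ) (c : κ → ℤ) (I : Finset ℕ) (w : ℕ → ℂ) (W : ℝ) (hw : ∀ a ∈ I, ‖w a‖ ≤ W) :
    ‖∑ a ∈ I, (Gr z c a * SS z R Λ c a ^ 2) • w a‖ ≤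
      ∑ S ∈ (pz z).powerset.filter (fun S => S.card < r), ‖∑ a ∈ I, (ind c S a * SS z R Λ c a ^ 2) • w a‖ +
      W * ∑ S ∈ (pz z).powersetCard r, ∑ a ∈ I, ind c S a * SS z R Λ c a ^ 2 := by
  have h1 : ∑ a ∈ I, (Gr z c a * SS z R Λ c a ^ 2) • w a =
      ∑ j ∈ range r, ∑ S ∈ (pz z).powersetCard j, ((-1 : ℝ) ^ j) • ∑ a ∈ I, (ind c S a * SS z R Λ c a ^ 2) • w a +
      ∑ a ∈ I, ((Gr z c a - ∑ j ∈ range r, (-1 : ℝ) ^ j * ∑ S ∈ (pz z).powersetCard j, ind c S a) * SS z R Λ c a ^ 2) • w a := by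
    have e1 : ∑ j ∈ range r, ∑ S ∈ (pz z).powersetCard j, ((-1 : ℝ) ^ j) • ∑ a ∈ I, (ind c S a * SS z R Λ c a ^ 2) • w a =
        ∑ a ∈ I, ((∑ j ∈ range r, (-1 : ℝ) ^ j * ∑ S ∈ (pz z).powersetCard j, ind c S a) * SS z R Λ c a ^ 2) • w a := by
      have e2 : ∀ j ∈ range r, ∑ S ∈ (pz z).powersetCard j, ((-1 : ℝ) ^ j) • ∑ a ∈ I, (ind c S a * SS z R Λ c a ^ 2) • w a =
          ∑ a ∈ I, ((-1 : ℝ) ^ j * (∑ S ∈ (pz z).powersetCard j, ind c S a) * SS z R Λ c a ^ 2) • w a := by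
        intro j _
        simp only [smul_sum]
        rw [sum_comm]
        apply sum_congr rfl
        intro a _
        rw [mul_sum, sum_mul, sum_smul]
        apply sum_congr rfl
        intro S _
        rw [smul_smul]
        congr 1
        ring
      rw [sum_congr rfl e2, sum_comm]
      apply sum_congr rfl
      intro a _
      rw [sum_mul, sum_smul]
    rw [e1, ← sum_add_distrib]
    apply sum_congr rfl
    intro a _
    rw [← add_smul]
    congr 1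
    ring
  rw [h1]
  refine (norm_add_le _ _).trans (add_le_add ?_ ?_)
  · rw [← sum_card_lt]
    refine (norm_sum_le _ _).trans (sum_le_sum fun j _ => ?_)
    refine (norm_sum_le _ _).trans (sum_le_sum fun S _ => ?_)
    rw [norm_smul, norm_pow, norm_neg, norm_one, one_pow, one_mul]
  · refine (norm_sum_le _ _).trans ?_
    have h2 : ∀ a ∈ I, ‖((Gr z c a - ∑ j ∈ range r, (-1 : ℝ) ^ j * ∑ S ∈ (pz z).powersetCard j, ind c S a) * SS z R Λ c a ^ 2) • w a‖ ≤
        W * ∑ S ∈ (pz z).powersetCard r, ind c S a * SS z R Λ c a ^ 2 := by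
      intro a ha
      rw [norm_smul, norm_mul, Real.norm_eq_abs, Real.norm_eq_abs, abs_of_nonneg (sq_nonneg (SS z R Λ c a)), ← sum_mul]
      have h3 := bonf_Gr z c r a
      have h4 := hw a ha
      have h5 : 0 ≤ ∑ S ∈ (pz z).powersetCard r, ind c S a := sum_nonneg fun S _ => ind_nonneg c S a
      calc _ ≤ (∑ S ∈ (pz z).powersetCard r, ind c S a) * SS z R Λ c a ^ 2 * W := by
            apply mul_le_mul _ h4 (norm_nonneg _) (mul_nonneg h5 (sq_nonneg _))
            exact mul_le_mul_of_nonneg_right h3 (sq_nonneg _)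
        _ = _ := by ring
    refine (sum_le_sum h2).trans (le_of_eq ?_)
    rw [← mul_sum, sum_comm]

end Pool.Agent.L0h42.TB
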