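import Mathlib
import Pool.Agent.H442R2.KF.BvY

/-! The theorem of Bombieri and Vinogradov with the maximum over the heights inside the sum and with
weights `B ^ ω(d)` (adapted from helper503, with fewer imports). -/

set_option autoImplicit false

open Finset Filter

namespace Pool.Agent.L0h42.TB.BVW

open Pool.Agent.H442R2.KF

lemma log_ge1 {x : ℕ} (hx : 3 ≤ x) : 1 ≤ Real.log x := TaskBV.log_ge_one hx

lemma log_pow_le' (U : ℕ) : ∃ C : ℝ, 0 < C ∧ ∀ x : ℕ, 3 ≤ x → Real.log x ^ U ≤ C * x := by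
  obtain ⟨C, hC, h⟩ := TaskUA.log_pow_le U 1 one_pos
  refine ⟨C, hC, fun x hx => ?_⟩
  have := h x (by exact_mod_cast (by omega : 1 ≤ x))
  rwa [Real.rpow_one] at this

lemma sum_inv_phi : ∃ m : ℕ, ∀ x : ℕ, 3 ≤ x → ∀ S : Finset ℕ, S ⊆ Icc 1 x →
    ∑ t ∈ S, 1 / (Nat.totient t : ℝ) ≤ 2 ^ m * Real.log x ^ m := by
  obtain ⟨k, hk⟩ := Pool.Agent.H398R2.BV.sum_pow_omega_div_totient 1 le_rfl
  refine ⟨2 ^ k, fun x hx S hS => ?_⟩
  have hl := log_ge1 hx
  calc ∑ t ∈ S, 1 / (Nat.totient t : ℝ) ≤ ∑ t ∈ Icc 1 x, 1 / (Nat.totient t : ℝ) :=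
        sum_le_sum_of_subset_of_nonneg hS fun i _ _ => by positivity
    _ = ∑ t ∈ Icc 1 x, (1 : ℝ) ^ t.primeFactors.card / (Nat.totient t : ℝ) := by simp only [one_pow]
    _ ≤ (1 + Real.log x) ^ (2 ^ k) := hk x
    _ ≤ (2 * Real.log x) ^ (2 ^ k) := by
        apply pow_le_pow_left₀ (by linarith)
        linarith
    _ = _ := by rw [mul_pow]

lemma piN_mono {y y' : ℕ} (h : y ≤ y') : (piN y : ℝ) ≤ piN y' := by
  unfold piN
  have : (Icc 1 y).filter (fun p : ℕ => p.Prime) ⊆ (Icc 1 y').filter (fun p : ℕ => p.Prime) :=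
    filter_subset_filter _ (Icc_subset_Icc_right h)
  exact_mod_cast card_le_card this

lemma piAP_mono {y y' : ℕ} (d a : ℕ) (h : y ≤ y') : (piAP y d a : ℝ) ≤ piAP y' d a := by
  unfold piAP
  have : (Icc 1 y).filter (fun p : ℕ => p.Prime ∧ p ≡ a [MOD d]) ⊆
      (Icc 1 y').filter (fun p : ℕ => p.Prime ∧ p ≡ a [MOD d]) :=
    filter_subset_filter _ (Icc_subset_Icc_right h)
  exact_mod_cast card_le_card this

lemma piN_sub {y y' : ℕ} (h : y ≤ y') : (piN y' : ℝ) ≤ piN y + (y' - y) := by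
  unfold piN
  have h1 : (Icc 1 y').filter (fun p : ℕ => p.Prime) ⊆
      (Icc 1 y).filter (fun p : ℕ => p.Prime) ∪ Ioc y y' := by
    intro p hp
    rw [mem_filter, mem_Icc] at hp
    rw [mem_union, mem_filter, mem_Icc, mem_Ioc]
    by_cases h2 : p ≤ y
    · exact Or.inl ⟨⟨hp.1.1, h2⟩, hp.2⟩
    · exact Or.inr ⟨by omega, hp.1.2⟩
  have h2 := (card_le_card h1).trans (card_union_le _ _)
  rw [Nat.card_Ioc] at h2
  have h3 : ((((Icc 1 y').filter (fun p : ℕ => p.Prime)).card : ℕ) : ℝ) ≤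
      ((((Icc 1 y).filter (fun p : ℕ => p.Prime)).card + (y' - y) : ℕ) : ℝ) := by exact_mod_cast h2
  rw [Nat.cast_add, Nat.cast_sub h] at h3
  exact h3

/-- between two grid points -/
lemma Er_between (y0 y y1 d a : ℕ) (hd : 1 ≤ d) (h0 : y0 ≤ y) (h1 : y ≤ y1) :
    |Er y d a| ≤ |Er y0 d a| + |Er y1 d a| + (y1 - y0) * (1 / (Nat.totient d : ℝ)) := by
  have ht : (0 : ℝ) < Nat.totient d := by exact_mod_cast Nat.totient_pos.2 hd
  have a1 := piAP_mono d a h0
  have a2 := piAP_mono d a h1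
  have b1 := piN_mono h0
  have b2 := piN_mono h1
  have b3 := piN_sub (h0.trans h1)
  have c1 : (piN y0 : ℝ) / (Nat.totient d : ℝ) ≤ piN y / (Nat.totient d : ℝ) := div_le_div_of_nonneg_right b1 ht.le
  have c2 : (piN y : ℝ) / (Nat.totient d : ℝ) ≤ piN y1 / (Nat.totient d : ℝ) := div_le_div_of_nonneg_right b2 ht.le
  have c3 : (piN y1 : ℝ) / (Nat.totient d : ℝ) ≤ piN y0 / (Nat.totient d : ℝ) + (y1 - y0) * (1 / (Nat.totient d : ℝ)) := by
    have := div_le_div_of_nonneg_right b3 ht.le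
    rw [add_div] at this
    rw [mul_one_div]
    exact this
  have e0 : Er y0 d a = (piAP y0 d a : ℝ) - piN y0 / (Nat.totient d : ℝ) := rfl
  have e1 : Er y d a = (piAP y d a : ℝ) - piN y / (Nat.totient d : ℝ) := rfl
  have e2 : Er y1 d a = (piAP y1 d a : ℝ) - piN y1 / (Nat.totient d : ℝ) := rfl
  have f0 := neg_abs_le (Er y0 d a)
  have f1 := le_abs_self (Er y1 d a)
  have g0 := abs_nonneg (Er y0 d a)
  have g1 := abs_nonneg (Er y1 d a)
  rw [abs_le]
  constructor <;> linarith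

/-- **Bombieri-Vinogradov with the maximum over the heights inside** -/
theorem bv_heights (κ : ℝ) (hκ : κ < 1 / 2) (U : ℕ) : ∃ C : ℝ, 0 < C ∧ ∀ x : ℕ, 3 ≤ x →
    ∀ b : ℕ → ℕ, (∀ d, 1 ≤ d → Nat.Coprime (b d) d) → ∀ y : ℕ → ℕ, (∀ d, y d ≤ x) →
    ∑ d ∈ Icc 1 ⌊(x : ℝ) ^ κ⌋₊, |Er (y d) d (b d)| ≤ C * (x / Real.log x ^ U) := by
  obtain ⟨m, hphi⟩ := sum_inv_phi
  obtain ⟨C1, hC1, hbv⟩ := bvY κ hκ (2 * U + m)
  obtain ⟨C2, hC2, hlog⟩ := log_pow_le' (U + m)
  refine ⟨6 * C1 + 2 ^ m + 2 ^ m * C2, by positivity, ?_⟩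
  intro x hx b hb y hy
  have hl := log_ge1 hx
  have hl0 : 0 < Real.log x := by linarith
  have hx0 : 0 < x := by omega
  have hxr : (0 : ℝ) < x := by exact_mod_cast hx0
  have hx1 : (1 : ℝ) ≤ x := by exact_mod_cast hx0
  set G : ℕ := ⌈Real.log x ^ (U + m)⌉₊ with hG
  have hL1 : 1 ≤ Real.log x ^ (U + m) := one_le_pow₀ hl
  have hG1 : Real.log x ^ (U + m) ≤ G := Nat.le_ceil _
  have hG2 : (G : ℝ) ≤ 2 * Real.log x ^ (U + m) := by
    have := Nat.ceil_lt_add_one (by positivity : 0 ≤ Real.log x ^ (U + m))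
    linarith
  have hG0 : 0 < G := by
    have : (0 : ℝ) < G := by linarith
    exact_mod_cast this
  have hGr : (0 : ℝ) < G := by exact_mod_cast hG0
  set g : ℕ → ℕ := fun i => i * x / G with hg
  set D := Icc 1 ⌊(x : ℝ) ^ κ⌋₊ with hD
  have hgx : ∀ i, i ≤ G → g i ≤ x := by
    intro i hi
    rw [hg]
    apply Nat.div_le_of_le_mul
    exact Nat.mul_le_mul_right x hi
  -- the grid
  have hgrid : ∀ d ∈ D, |Er (y d) d (b d)| ≤ (∑ i ∈ range (G + 1), 2 * |Er (g i) d (b d)|) +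
      (x / G + 1) * (1 / (Nat.totient d : ℝ)) := by
    intro d hd
    have hd1 : 1 ≤ d := (mem_Icc.1 hd).1
    have ht : (0 : ℝ) < Nat.totient d := by exact_mod_cast Nat.totient_pos.2 hd1
    set i : ℕ := y d * G / x with hi
    have hiG : i ≤ G := by
      rw [hi]
      apply Nat.div_le_of_le_mul
      exact Nat.mul_le_mul_right G (hy d)
    have h0 : g i ≤ y d := by
      rw [hg]
      apply Nat.div_le_of_le_mul
      have := Nat.div_mul_le_self (y d * G) x
      rw [← hi] at this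
      linarith
    have hsum : ∀ j, j ≤ G → |Er (g j) d (b d)| ≤ ∑ i ∈ range (G + 1), |Er (g i) d (b d)| := fun j hj =>
      single_le_sum (f := fun i => |Er (g i) d (b d)|) (fun _ _ => abs_nonneg _) (mem_range.2 (by omega))
    rcases Nat.lt_or_ge i G with hlt | hge
    · have h1 : y d ≤ g (i + 1) := by
        rw [hg]
        rw [Nat.le_div_iff_mul_le hG0]
        have := Nat.lt_mul_div_succ (y d * G) hx0
        rw [← hi] at this
        linarith
      have h2 := Er_between (g i) (y d) (g (i + 1)) d (b d) hd1 h0 h1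
      refine h2.trans ?_
      have h3 : ((g (i + 1) : ℕ) : ℝ) - (g i : ℕ) ≤ x / G + 1 := by
        have e1 : ((g (i + 1) : ℕ) : ℝ) ≤ ((i + 1) * x : ℝ) / G := by
          rw [hg]
          have := @Nat.cast_div_le ℝ _ _ _ ((i + 1) * x) G
          push_cast at this ⊢
          exact this
        have e2 : ((i * x : ℝ)) / G < (g i : ℕ) + 1 := by
          rw [div_lt_iff₀ hGr]
          have := Nat.lt_mul_div_succ (i * x) hG0
          rw [hg]
          have h5 : ((i * x : ℕ) : ℝ) < ((G * (i * x / G + 1) : ℕ) : ℝ) := by exact_mod_cast this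
          push_cast at h5 ⊢
          linarith
        have e3 : ((i + 1) * x : ℝ) / G = (i * x : ℝ) / G + x / G := by ring
        rw [e3] at e1
        linarith
      have h4 : (((g (i + 1) : ℕ) : ℝ) - (g i : ℕ)) * (1 / (Nat.totient d : ℝ)) ≤
          (x / G + 1) * (1 / (Nat.totient d : ℝ)) := mul_le_mul_of_nonneg_right h3 (by positivity)
      have h5 := hsum i hiG
      have h6 := hsum (i + 1) (by omega)
      rw [← mul_sum]
      linarith
    · have hi' : i = G := le_antisymm hiG hge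
      have h1 : g i = x := by
        rw [hi', hg]
        exact Nat.mul_div_cancel_left x hG0
      have h2 : y d = g i := by
        apply le_antisymm _ h0
        rw [h1]
        exact hy d
      rw [h2]
      have h5 := hsum i hiG
      have h6 : 0 ≤ (x / G + 1) * (1 / (Nat.totient d : ℝ)) := by positivity
      have h7 : 0 ≤ ∑ i ∈ range (G + 1), |Er (g i) d (b d)| := sum_nonneg fun _ _ => abs_nonneg _
      rw [← mul_sum]
      linarith
  have hDx : D ⊆ Icc 1 x := by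
    intro d hd
    rw [hD, mem_Icc] at hd
    rw [mem_Icc]
    refine ⟨hd.1, ?_⟩
    have h1 : (d : ℝ) ≤ x := by
      calc (d : ℝ) ≤ (⌊(x : ℝ) ^ κ⌋₊ : ℝ) := by exact_mod_cast hd.2
        _ ≤ (x : ℝ) ^ κ := Nat.floor_le (by positivity)
        _ ≤ (x : ℝ) ^ (1 : ℝ) := Real.rpow_le_rpow_of_exponent_le hx1 (by linarith)
        _ = x := Real.rpow_one _
    exact_mod_cast h1
  refine (sum_le_sum hgrid).trans ?_
  rw [sum_add_distrib, ← mul_sum, sum_comm]
  have h1 : ∑ i ∈ range (G + 1), ∑ d ∈ D, 2 * |Er (g i) d (b d)| ≤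
      (G + 1 : ℝ) * (2 * (C1 * (x / Real.log x ^ (2 * U + m)))) := by
    have : ∀ i ∈ range (G + 1), ∑ d ∈ D, 2 * |Er (g i) d (b d)| ≤ 2 * (C1 * (x / Real.log x ^ (2 * U + m))) := by
      intro i hi
      rw [← mul_sum]
      apply mul_le_mul_of_nonneg_left _ (by norm_num)
      exact hbv x hx (g i) (hgx i (by have := mem_range.1 hi; omega)) b hb
    refine (sum_le_sum this).trans (le_of_eq ?_)
    rw [sum_const, card_range, nsmul_eq_mul]
    push_cast
    ring
  have h2 : ∑ d ∈ D, (1 / (Nat.totient d : ℝ)) ≤ 2 ^ m * Real.log x ^ m := hphi x hx D hDx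
  have h3 : (G + 1 : ℝ) * (2 * (C1 * (x / Real.log x ^ (2 * U + m)))) ≤ 6 * C1 * (x / Real.log x ^ U) := by
    have e1 : (G + 1 : ℝ) ≤ 3 * Real.log x ^ (U + m) := by linarith
    calc (G + 1 : ℝ) * (2 * (C1 * (x / Real.log x ^ (2 * U + m))))
        ≤ 3 * Real.log x ^ (U + m) * (2 * (C1 * (x / Real.log x ^ (2 * U + m)))) :=
          mul_le_mul_of_nonneg_right e1 (by positivity)
      _ = 6 * C1 * (x / Real.log x ^ U) := by
        have : Real.log x ^ (2 * U + m) = Real.log x ^ (U + m) * Real.log x ^ U := by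
          rw [← pow_add]; congr 1; ring
        rw [this]
        field_simp
        ring
  have h4 : (x / G + 1) * ∑ d ∈ D, (1 / (Nat.totient d : ℝ)) ≤ (2 ^ m + 2 ^ m * C2) * (x / Real.log x ^ U) := by
    have e1 : (x : ℝ) / G ≤ x / Real.log x ^ (U + m) := div_le_div_of_nonneg_left hxr.le (by positivity) hG1
    have e2 : (1 : ℝ) ≤ C2 * (x / Real.log x ^ (U + m)) := by
      rw [mul_div_assoc', one_le_div (by positivity)]
      exact hlog x hx
    have e3 : (x : ℝ) / G + 1 ≤ (1 + C2) * (x / Real.log x ^ (U + m)) := by linarith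
    calc (x / G + 1) * ∑ d ∈ D, (1 / (Nat.totient d : ℝ))
        ≤ ((1 + C2) * (x / Real.log x ^ (U + m))) * (2 ^ m * Real.log x ^ m) :=
          mul_le_mul e3 h2 (sum_nonneg fun _ _ => by positivity) (by positivity)
      _ = (2 ^ m + 2 ^ m * C2) * (x / Real.log x ^ U) := by
        rw [pow_add]
        field_simp
  linarith

/-- the trivial bound -/
lemma Er_triv' (x y d a : ℕ) (hd : 1 ≤ d) (hdx : d ≤ x) (hy : y ≤ x) :
    |Er y d a| ≤ 3 * x * (1 / (Nat.totient d : ℝ)) := by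
  have h1 := TaskUA.Er_triv y d a hd
  have ht : (0 : ℝ) < Nat.totient d := by exact_mod_cast Nat.totient_pos.2 hd
  have h2 : (Nat.totient d : ℝ) ≤ x := by exact_mod_cast (Nat.totient_le d).trans hdx
  have h3 : (1 : ℝ) ≤ x * (1 / (Nat.totient d : ℝ)) := by
    rw [mul_one_div, one_le_div ht]
    exact h2
  have h4 : (y : ℝ) ≤ x := by exact_mod_cast hy
  have h5 : 2 * (y : ℝ) * (1 / (Nat.totient d : ℝ)) ≤ 2 * x * (1 / (Nat.totient d : ℝ)) :=
    mul_le_mul_of_nonneg_right (by linarith) (by positivity)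
  linarith

/-- **weights** -/
theorem bv_weights (κ : ℝ) (hκ : κ < 1 / 2) (B U : ℕ) (hB : 1 ≤ B) : ∃ C : ℝ, 0 < C ∧ ∀ x : ℕ, 3 ≤ x →
    ∀ b : ℕ → ℕ, (∀ d, 1 ≤ d → Nat.Coprime (b d) d) → ∀ y : ℕ → ℕ, (∀ d, y d ≤ x) →
    ∑ d ∈ Icc 1 ⌊(x : ℝ) ^ κ⌋₊, (B : ℝ) ^ d.primeFactors.card * |Er (y d) d (b d)| ≤
      C * (x / Real.log x ^ U) := by
  have hBr : (1 : ℝ) ≤ B := by exact_mod_cast hB
  obtain ⟨k, hk⟩ := Pool.Agent.H398R2.BV.sum_pow_omega_div_totient ((B : ℝ) ^ 2) (one_le_pow₀ hBr)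
  obtain ⟨C1, hC1, hbv⟩ := bv_heights κ hκ (2 ^ k + 2 * U)
  refine ⟨3 * 2 ^ 2 ^ k + C1, by positivity, ?_⟩
  intro x hx b hb y hy
  have hl := log_ge1 hx
  have hl0 : 0 < Real.log x := by linarith
  have hx0 : 0 < x := by omega
  have hxr : (0 : ℝ) < x := by exact_mod_cast hx0
  have hx1 : (1 : ℝ) ≤ x := by exact_mod_cast hx0
  set D := Icc 1 ⌊(x : ℝ) ^ κ⌋₊ with hD
  have hDx : ∀ d ∈ D, 1 ≤ d ∧ d ≤ x := by
    intro d hd
    rw [hD, mem_Icc] at hd
    refine ⟨hd.1, ?_⟩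
    have h1 : (d : ℝ) ≤ x := by
      calc (d : ℝ) ≤ (⌊(x : ℝ) ^ κ⌋₊ : ℝ) := by exact_mod_cast hd.2
        _ ≤ (x : ℝ) ^ κ := Nat.floor_le (by positivity)
        _ ≤ (x : ℝ) ^ (1 : ℝ) := Real.rpow_le_rpow_of_exponent_le hx1 (by linarith)
        _ = x := Real.rpow_one _
    exact_mod_cast h1
  set lam : ℝ := Real.log x ^ (2 ^ k + U) with hlam
  have hlam0 : 0 < lam := by positivity
  have h1 : ∀ d ∈ D, (B : ℝ) ^ d.primeFactors.card * |Er (y d) d (b d)| ≤
      3 * x / lam * (((B : ℝ) ^ 2) ^ d.primeFactors.card / (Nat.totient d : ℝ)) + lam * |Er (y d) d (b d)| := by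
    intro d hd
    obtain ⟨hd1, hd2⟩ := hDx d hd
    set w : ℝ := (B : ℝ) ^ d.primeFactors.card with hw
    set e : ℝ := |Er (y d) d (b d)| with he
    have he0 : 0 ≤ e := abs_nonneg _
    have ht := Er_triv' x (y d) d (b d) hd1 hd2 (hy d)
    rw [← he] at ht
    have hw2 : ((B : ℝ) ^ 2) ^ d.primeFactors.card = w ^ 2 := by rw [hw, ← pow_mul, ← pow_mul, mul_comm]
    rw [hw2]
    have h2 : w * e ≤ w ^ 2 * e / lam + lam * e := by
      have h3 : 0 ≤ (w / lam - 1) ^ 2 * (lam * e) := by positivity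
      have h4 : (w / lam - 1) ^ 2 * (lam * e) = w ^ 2 * e / lam - 2 * (w * e) + lam * e := by
        field_simp
        ring
      have h5 : 0 ≤ w * e := by positivity
      linarith
    have h3 : w ^ 2 * e / lam ≤ 3 * x / lam * (w ^ 2 / (Nat.totient d : ℝ)) := by
      calc w ^ 2 * e / lam ≤ w ^ 2 * (3 * x * (1 / (Nat.totient d : ℝ))) / lam := by
            apply div_le_div_of_nonneg_right _ hlam0.le
            exact mul_le_mul_of_nonneg_left ht (by positivity)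
        _ = _ := by ring
    linarith
  refine (sum_le_sum h1).trans ?_
  rw [sum_add_distrib, ← mul_sum, ← mul_sum]
  have h2 : ∑ d ∈ D, ((B : ℝ) ^ 2) ^ d.primeFactors.card / (Nat.totient d : ℝ) ≤ (2 * Real.log x) ^ 2 ^ k := by
    calc ∑ d ∈ D, ((B : ℝ) ^ 2) ^ d.primeFactors.card / (Nat.totient d : ℝ)
        ≤ ∑ d ∈ Icc 1 x, ((B : ℝ) ^ 2) ^ d.primeFactors.card / (Nat.totient d : ℝ) :=
          sum_le_sum_of_subset_of_nonneg (fun d hd => mem_Icc.2 (hDx d hd)) fun _ _ _ => by positivity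
      _ ≤ (1 + Real.log x) ^ 2 ^ k := hk x
      _ ≤ _ := pow_le_pow_left₀ (by linarith) (by linarith) _
  have h3 := hbv x hx b hb y hy
  have h4 : 3 * x / lam * ∑ d ∈ D, ((B : ℝ) ^ 2) ^ d.primeFactors.card / (Nat.totient d : ℝ) ≤
      3 * 2 ^ 2 ^ k * (x / Real.log x ^ U) := by
    calc 3 * x / lam * ∑ d ∈ D, ((B : ℝ) ^ 2) ^ d.primeFactors.card / (Nat.totient d : ℝ)
        ≤ 3 * x / lam * (2 * Real.log x) ^ 2 ^ k := mul_le_mul_of_nonneg_left h2 (by positivity)
      _ = _ := by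
        rw [hlam, pow_add, mul_pow]
        field_simp
  have h5 : lam * ∑ d ∈ D, |Er (y d) d (b d)| ≤ C1 * (x / Real.log x ^ U) := by
    calc lam * ∑ d ∈ D, |Er (y d) d (b d)| ≤ lam * (C1 * (x / Real.log x ^ (2 ^ k + 2 * U))) :=
          mul_le_mul_of_nonneg_left h3 hlam0.le
      _ = _ := by
        have : Real.log x ^ (2 ^ k + 2 * U) = Real.log x ^ (2 ^ k + U) * Real.log x ^ U := by
          rw [← pow_add]; congr 1; ring
        rw [hlam, this]
        field_simp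
  linarith


/-- **weights, with the maximum over the classes and the heights, indexed by families** -/
theorem bv_sup (κ : ℝ) (hκ : κ < 1 / 2) (B U : ℕ) (hB : 1 ≤ B) : ∃ C : ℝ, 0 < C ∧ ∀ x : ℕ, 3 ≤ x →
    ∃ M : ℕ → ℝ, (∀ d, 0 ≤ M d) ∧
      (∀ d, 1 ≤ d → ∀ b y : ℕ, Nat.Coprime b d → y ≤ x → |Er y d b| ≤ M d) ∧
      ∑ d ∈ Icc 1 ⌊(x : ℝ) ^ κ⌋₊, (B : ℝ) ^ d.primeFactors.card * M d ≤ C * (x / Real.log x ^ U) := by
  obtain ⟨C, hC, h⟩ := bv_weights κ hκ B U hB
  refine ⟨C, hC, fun x hx => ?_⟩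
  -- the maximum
  have hper : ∀ d b y : ℕ, Er y d (b % d) = Er y d b := by
    intro d b y
    have : piAP y d (b % d) = piAP y d b := by
      unfold piAP
      congr 1
      apply filter_congr
      intro p _
      have : (p ≡ b % d [MOD d]) ↔ (p ≡ b [MOD d]) :=
        ⟨fun h => h.trans (Nat.mod_modEq b d), fun h => h.trans (Nat.mod_modEq b d).symm⟩
      rw [this]
    unfold Er
    rw [this]
  have hex : ∀ d : ℕ, ∃ p : ℕ × ℕ, (1 ≤ d → Nat.Coprime p.1 d ∧ p.2 ≤ x ∧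
      ∀ b y : ℕ, Nat.Coprime b d → y ≤ x → |Er y d b| ≤ |Er p.2 d p.1|) := by
    intro d
    by_cases hd : 1 ≤ d
    · set s : Finset (ℕ × ℕ) := ((range (d + 1)).filter (fun b => Nat.Coprime b d)) ×ˢ (range (x + 1)) with hs
      have hne : s.Nonempty := by
        refine ⟨(1, 0), ?_⟩
        rw [hs, mem_product, mem_filter, mem_range, mem_range]
        exact ⟨⟨by simp only; omega, Nat.coprime_one_left d⟩, by simp only; omega⟩
      obtain ⟨p, hp, hmax⟩ := exists_max_image s (fun p => |Er p.2 d p.1|) hne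
      rw [hs, mem_product, mem_filter, mem_range, mem_range] at hp
      refine ⟨p, fun _ => ⟨hp.1.2, by omega, fun b y hb hy => ?_⟩⟩
      have h1 : (b % d, y) ∈ s := by
        rw [hs, mem_product, mem_filter, mem_range, mem_range]
        refine ⟨⟨?_, ?_⟩, ?_⟩
        · have := Nat.mod_lt b (show 0 < d by omega)
          simp only; omega
        · simp only
          unfold Nat.Coprime at hb ⊢
          rw [← hb, (Nat.mod_modEq b d).gcd_eq]
        · simp only; omega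
      have h2 := hmax _ h1
      simp only [hper] at h2
      exact h2
    · exact ⟨(0, 0), fun h => absurd h hd⟩
  choose p hp using hex
  refine ⟨fun d => if 1 ≤ d then |Er (p d).2 d (p d).1| else 0, ?_, ?_, ?_⟩
  · intro d
    simp only
    split_ifs
    · exact abs_nonneg _
    · exact le_rfl
  · intro d hd b y hb hy
    simp only [if_pos hd]
    exact (hp d hd).2.2 b y hb hy
  · have h1 := h x hx (fun d => if 1 ≤ d then (p d).1 else 1) (by
      intro d hd
      have h2 := (hp d hd).1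
      rwa [if_pos hd]) (fun d => if 1 ≤ d then (p d).2 else 0) (by
      intro d
      by_cases hd : 1 ≤ d
      · rw [if_pos hd]
        exact (hp d hd).2.1
      · rw [if_neg hd]
        omega)
    refine le_trans (le_of_eq ?_) h1
    apply sum_congr rfl
    intro d hd
    rw [mem_Icc] at hd
    simp only [if_pos hd.1]

end Pool.Agent.L0h42.TB.BVW
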