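import Mathlib
import Pool.Agent.L0h42.TB.A7
import Pool.Agent.H373R2.T7.Lin
import Pool.Agent.H373R2.T7.Minor
import Pool.Agent.H373R2.T7.LamZ2
import Pool.Agent.H442R2.KF.BvY
import Pool.Agent.H373R2.T7.SupE2
import Pool.Agent.H373R2.T7.Cnt

/-! Major arcs: one modulus. -/

set_option autoImplicit false

namespace Pool.Agent.L0h42.TB
open Finset
open Pool.Agent.H807R2.Dav
open Pool.Agent.H373R2.T7
open Pool.Agent.H442R2.KF (Er piAP piN)

/-- the sieve model in one class -/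
theorem lamz_mod (E U : ℕ) : ∃ N0 : ℕ, ∀ N : ℕ, N0 ≤ N → ∀ t : ℝ, 0 ≤ t → t ^ 40 = N → ∀ z : ℕ, 1 ≤ z →
    (z : ℝ) ≤ Real.log N ^ E → ∀ m c : ℕ, 1 ≤ m → m ≤ N → c.Coprime m → ∀ y : ℕ, y ≤ N →
    |∑ n ∈ (Icc 1 y).filter (fun n => n ≡ c [MOD m]), lamz z n - (y : ℝ) / (Nat.totient m : ℝ)| ≤
      N / (Nat.totient m : ℝ) * (1 / Real.log N ^ U + 4 * Real.log N / z) + t ^ 3 := by
  obtain ⟨n0, h0⟩ := choice 1 E (U + 2) 20
  obtain ⟨n1, h1⟩ := log_le_t 1
  obtain ⟨n2, h2⟩ := ev_L' 4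
  obtain ⟨n3, h3⟩ := Vz_inv_small E
  refine ⟨max (max n0 n1) (max n2 (max n3 1)), ?_⟩
  intro N hN t ht0 ht40 z hz hzE m c hm hmN hcm y hy
  have a0 := h0 N (le_trans (le_trans (le_max_left _ _) (le_max_left _ _)) hN) z hzE
  have hL := h2 N (le_trans (le_trans (le_max_left _ _) (le_max_right _ _)) hN)
  have hV := h3 N (le_trans (le_trans (le_trans (le_max_left _ _) (le_max_right _ _)) (le_max_right _ _)) hN) z hz hzE
  have hN1 : 1 ≤ N := le_trans (le_trans (le_trans (le_max_right _ _) (le_max_right _ _)) (le_max_right _ _)) hN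
  have hsq : √(N : ℝ) = t ^ 20 := by
    rw [← ht40, show t ^ 40 = (t ^ 20) ^ 2 by ring, Real.sqrt_sq (by positivity)]
  have hLt := h1 N (le_trans (le_trans (le_max_right _ _) (le_max_left _ _)) hN) t ht0 ht40 hsq
  rw [pow_one] at hLt
  have hN0 : (0 : ℝ) < N := by exact_mod_cast hN1
  set L := Real.log N with hLd
  have hL1 : 1 ≤ L := by linarith
  have hL0 : 0 < L := by linarith
  obtain ⟨r, hr1, hr2, _⟩ := a0
  have hm0 : (0 : ℝ) < m := by exact_mod_cast hm
  have htot0 : (0 : ℝ) < Nat.totient m := by exact_mod_cast Nat.totient_pos.2 hm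
  have htotm : (Nat.totient m : ℝ) ≤ m := by exact_mod_cast Nat.totient_le m
  have hyr : (y : ℝ) ≤ N := by exact_mod_cast hy
  have hy0 : (0 : ℝ) ≤ y := Nat.cast_nonneg _
  have hV0 : 0 < (Vz z)⁻¹ := inv_pos.2 (Vz_pos z)
  have hzr : (0 : ℝ) < z := by exact_mod_cast hz
  have hlogm : Real.log m ≤ L := Real.log_le_log hm0 (by exact_mod_cast hmN)
  -- the sum as a count
  have e1 : ∑ n ∈ (Icc 1 y).filter (fun n => n ≡ c [MOD m]), lamz z n =
      (Vz z)⁻¹ * (((Icc 1 y).filter (fun n => n ≡ c [MOD m] ∧ ∀ p ∈ pz z, ¬ p ∣ n)).card : ℝ) := by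
    rw [← filter_filter, card_eq_sum_ones]
    push_cast
    rw [mul_sum, sum_filter (fun n => ∀ p ∈ pz z, ¬ p ∣ n)]
    apply sum_congr rfl
    intro n _
    unfold lamz
    split_ifs <;> ring
  have h4 := rough_count m c z y r hm hcm
  have h5 := tot_ratio m z hm hz L hlogm
  set P := ∏ p ∈ (pz z).filter (fun p => ¬ p ∣ m), (1 - 1 / (p : ℝ)) with hP
  set C : ℝ := (((Icc 1 y).filter (fun n => n ≡ c [MOD m] ∧ ∀ p ∈ pz z, ¬ p ∣ n)).card : ℝ) with hC
  rw [e1]
  have e2 : (Vz z)⁻¹ * C - (y : ℝ) / (Nat.totient m : ℝ) = (Vz z)⁻¹ * (C - (y : ℝ) / m * P) +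
      y * ((Vz z)⁻¹ * (1 / (m : ℝ) * P) - 1 / (Nat.totient m : ℝ)) := by ring
  rw [e2]
  refine (abs_add_le _ _).trans ?_
  rw [abs_mul, abs_of_pos hV0, abs_mul, abs_of_nonneg hy0]
  have h6 : (Vz z)⁻¹ * |C - (y : ℝ) / m * P| ≤ L * (t ^ 2 + 2 * (N / (Nat.totient m : ℝ)) * (1 / L ^ (U + 2))) := by
    apply mul_le_mul hV _ (abs_nonneg _) hL0.le
    refine h4.trans (add_le_add ?_ ?_)
    · apply le_of_pow_le_pow_left₀ (n := 20) (by norm_num) (by positivity)
      rw [← pow_mul t, show 2 * 20 = 40 by norm_num, ht40]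
      exact hr2
    · have g1 : (y : ℝ) / m ≤ N / (Nat.totient m : ℝ) := div_le_div₀ hN0.le hyr htot0 htotm
      have g2 : Real.exp (3 * (1 + Real.log z) - r) ≤ 1 / L ^ (U + 2) := by
        refine le_trans (le_of_eq ?_) hr1
        push_cast
        ring_nf
      gcongr
  have h7 : (y : ℝ) * |(Vz z)⁻¹ * (1 / (m : ℝ) * P) - 1 / (Nat.totient m : ℝ)| ≤
      N * (1 / (Nat.totient m : ℝ) * (4 * L / z)) := mul_le_mul hyr h5 (abs_nonneg _) hN0.le
  refine (add_le_add h6 h7).trans ?_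
  have h8 : L * t ^ 2 ≤ t ^ 3 := by
    calc L * t ^ 2 ≤ t * t ^ 2 := mul_le_mul_of_nonneg_right hLt (by positivity)
      _ = t ^ 3 := by ring
  have h9 : L * (2 * (N / (Nat.totient m : ℝ)) * (1 / L ^ (U + 2))) ≤ N / (Nat.totient m : ℝ) * (1 / L ^ U) := by
    have e3 : L * (2 * (N / (Nat.totient m : ℝ)) * (1 / L ^ (U + 2))) = 2 / L * (N / (Nat.totient m : ℝ) * (1 / L ^ U)) := by
      rw [pow_add]; field_simp
    rw [e3]
    have h10 : 2 / L ≤ 1 := by rw [div_le_one hL0]; linarith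
    calc _ ≤ 1 * (N / (Nat.totient m : ℝ) * (1 / L ^ U)) := mul_le_mul_of_nonneg_right h10 (by positivity)
      _ = _ := one_mul _
  calc L * (t ^ 2 + 2 * (N / (Nat.totient m : ℝ)) * (1 / L ^ (U + 2))) + N * (1 / (Nat.totient m : ℝ) * (4 * L / z))
      = L * t ^ 2 + L * (2 * (N / (Nat.totient m : ℝ)) * (1 / L ^ (U + 2))) + N / (Nat.totient m : ℝ) * (4 * L / z) := by ring
    _ ≤ t ^ 3 + N / (Nat.totient m : ℝ) * (1 / L ^ U) + N / (Nat.totient m : ℝ) * (4 * L / z) := by linarith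
    _ = _ := by ring

/-- the primes in one class -/
lemma pl_mod (N m c y : ℕ) (hm : 1 ≤ m) (M : ℝ) (hy : y ≤ N)
    (hM : ∀ y : ℕ, y ≤ N → |Er y m c| ≤ M) :
    |∑ n ∈ (Icc 1 y).filter (fun n => n ≡ c [MOD m]), pl n - (∑ n ∈ Icc 1 y, pl n) / (Nat.totient m : ℝ)| ≤
      2 * Real.log N * M := by
  classical
  have htot0 : (0 : ℝ) < Nat.totient m := by exact_mod_cast Nat.totient_pos.2 hm
  have hM0 : 0 ≤ M := (abs_nonneg _).trans (hM 0 (Nat.zero_le _))
  set cc : ℕ → ℝ := fun n => if n.Prime then ((if n ≡ c [MOD m] then 1 else 0) - 1 / (Nat.totient m : ℝ)) else 0 with hcc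
  set w : ℕ → ℝ := fun n => Real.log n with hw
  have hpart : ∀ y' : ℕ, y' ≤ y → |∑ n ∈ Icc 1 y', cc n| ≤ M := by
    intro y' hy'
    have h1 : ∑ n ∈ Icc 1 y', cc n = Er y' m c := by
      unfold Er piAP piN
      rw [hcc]
      have h2 : ∀ n : ℕ, (if n.Prime then ((if n ≡ c [MOD m] then (1 : ℝ) else 0) - 1 / (Nat.totient m : ℝ)) else 0) =
          (if n.Prime ∧ n ≡ c [MOD m] then 1 else 0) - (1 / (Nat.totient m : ℝ)) * (if n.Prime then 1 else 0) := by
        intro n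
        by_cases h3 : n.Prime
        · by_cases h4 : n ≡ c [MOD m] <;> simp [h3, h4]
        · simp [h3]
      simp only [h2]
      rw [sum_sub_distrib, ← mul_sum, ← sum_filter, ← sum_filter, sum_const, sum_const]
      simp only [nsmul_eq_mul, mul_one]
      ring
    rw [h1]
    exact hM y' (hy'.trans hy)
  have hwm : Monotone w := by
    intro a b hab
    rw [hw]
    simp only
    rcases Nat.eq_zero_or_pos a with h | h
    · rw [h]
      simp only [Nat.cast_zero, Real.log_zero]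
      exact Real.log_natCast_nonneg b
    · exact Real.log_le_log (by exact_mod_cast h) (by exact_mod_cast hab)
  have h1 := abel_mono cc w M y (fun n => Real.log_natCast_nonneg n) hwm hpart
  have h2 : ∑ n ∈ Icc 1 y, cc n * w n = ∑ n ∈ (Icc 1 y).filter (fun n => n ≡ c [MOD m]), pl n -
      (∑ n ∈ Icc 1 y, pl n) / (Nat.totient m : ℝ) := by
    rw [sum_filter, sum_div, ← sum_sub_distrib]
    apply sum_congr rfl
    intro n _
    rw [hcc, hw]
    unfold pl
    simp only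
    by_cases h3 : n.Prime
    · by_cases h4 : n ≡ c [MOD m]
      · simp only [if_pos h3, if_pos h4]; ring
      · simp only [if_pos h3, if_neg h4]; ring
    · simp only [if_neg h3]
      simp
  rw [h2] at h1
  refine h1.trans ?_
  have h3 : w y ≤ Real.log N := by
    have := hwm hy
    exact this
  nlinarith

/-- the class of the integers congruent to `n0` modulo both `q` and `r` -/
lemma modEq_lcm (q r n n0 : ℕ) : (n ≡ n0 [MOD q] ∧ n ≡ n0 [MOD r]) ↔ n ≡ n0 [MOD (Nat.lcm q r)] := by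
  constructor
  · rintro ⟨h1, h2⟩
    rw [Nat.modEq_iff_dvd] at h1 h2 ⊢
    exact_mod_cast Int.coe_lcm_dvd h1 h2
  · intro h
    exact ⟨h.of_dvd (Nat.dvd_lcm_left q r), h.of_dvd (Nat.dvd_lcm_right q r)⟩

theorem major_q (E U : ℕ) : ∃ N0 : ℕ, ∀ N : ℕ, N0 ≤ N → ∀ t : ℝ, 0 ≤ t → t ^ 40 = N → ∀ z : ℕ, 1 ≤ z →
    (z : ℝ) ≤ Real.log N ^ E → ∀ q u r : ℕ, 1 ≤ q → 1 ≤ r → u.Coprime q → q * r ≤ N → r ≤ z → ∀ M : ℝ,
    (∀ b : ℕ, Nat.Coprime b (Nat.lcm q r) → ∀ y ≤ N, |Er y (Nat.lcm q r) b| ≤ M) → 0 ≤ M → ∀ (a : ℤ) (γ : ℝ),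
    ∀ y : ℕ, y ≤ N →
    ‖∑ n ∈ Icc 1 y, (((pl n - lamz z n : ℝ)) : ℂ) * (if n ≡ u [MOD q] then ee (n * ((a : ℝ) / r + γ)) else 0)‖ ≤
      r * (2 * Real.log N * M + N / (Nat.totient (Nat.lcm q r) : ℝ) * (2 / Real.log N ^ U + 4 * Real.log N / z) + 2 * t ^ 3) *
        (1 + N * ‖ee γ - 1‖) := by
  obtain ⟨n0, h0⟩ := lamz_mod E U
  obtain ⟨n1, h1⟩ := log_le_t 1
  obtain ⟨n2, h2⟩ := ev_L' 4
  obtain ⟨n3, h3⟩ := theta_pnt U
  refine ⟨max (max n0 n1) (max n2 (max n3 1)), ?_⟩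
  intro N hN t ht0 ht40 z hz hzE q u r hq hr huq hqr hrz M hM hM0 a γ y hy
  have a0 := h0 N (le_trans (le_trans (le_max_left _ _) (le_max_left _ _)) hN) t ht0 ht40 z hz hzE
  have hL := h2 N (le_trans (le_trans (le_max_left _ _) (le_max_right _ _)) hN)
  have a3 := h3 N (le_trans (le_trans (le_trans (le_max_left _ _) (le_max_right _ _)) (le_max_right _ _)) hN)
  have hN1 : 1 ≤ N := le_trans (le_trans (le_trans (le_max_right _ _) (le_max_right _ _)) (le_max_right _ _)) hN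
  have hsq : √(N : ℝ) = t ^ 20 := by
    rw [← ht40, show t ^ 40 = (t ^ 20) ^ 2 by ring, Real.sqrt_sq (by positivity)]
  have hLt := h1 N (le_trans (le_trans (le_max_right _ _) (le_max_left _ _)) hN) t ht0 ht40 hsq
  rw [pow_one] at hLt
  have hN0 : (0 : ℝ) < N := by exact_mod_cast hN1
  set L := Real.log N with hLd
  have hL1 : 1 ≤ L := by linarith
  have hL0 : 0 < L := by linarith
  have ht1 : 1 ≤ t := by linarith
  set m := Nat.lcm q r with hm
  have hm1 : 1 ≤ m := Nat.lcm_pos hq hr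
  have hmN : m ≤ N := le_trans (Nat.le_of_dvd (Nat.mul_pos hq hr) (Nat.lcm_dvd_mul q r)) hqr
  have htot0 : (0 : ℝ) < Nat.totient m := by exact_mod_cast Nat.totient_pos.2 hm1
  have hzr : (0 : ℝ) < z := by exact_mod_cast hz
  set δ : ℝ := 2 * L * M + N / (Nat.totient m : ℝ) * (2 / L ^ U + 4 * L / z) + 2 * t ^ 3 with hδ
  have hδ0 : 0 ≤ δ := by positivity
  set F : ℕ → ℝ := fun n => if n ≡ u [MOD q] then pl n - lamz z n else 0 with hF
  -- sums of `F` in classes
  have hcls : ∀ y : ℕ, y ≤ N → ∀ c : ℕ, |∑ n ∈ (Icc 1 y).filter (fun n => n ≡ c [MOD r]), F n| ≤ δ := by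
    intro y hy c
    have e1 : ∑ n ∈ (Icc 1 y).filter (fun n => n ≡ c [MOD r]), F n =
        ∑ n ∈ (Icc 1 y).filter (fun n => n ≡ u [MOD q] ∧ n ≡ c [MOD r]), (pl n - lamz z n) := by
      rw [hF, ← sum_filter, filter_filter]
      congr 1
      apply filter_congr
      intro n _
      exact and_comm
    rw [e1]
    by_cases hex : ∃ n0 : ℕ, n0 ≡ u [MOD q] ∧ n0 ≡ c [MOD r]
    · obtain ⟨n0, g1, g2⟩ := hex
      have e2 : (Icc 1 y).filter (fun n => n ≡ u [MOD q] ∧ n ≡ c [MOD r]) =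
          (Icc 1 y).filter (fun n => n ≡ n0 [MOD m]) := by
        apply filter_congr
        intro n _
        rw [hm, ← modEq_lcm]
        exact ⟨fun h => ⟨h.1.trans g1.symm, h.2.trans g2.symm⟩, fun h => ⟨h.1.trans g1, h.2.trans g2⟩⟩
      rw [e2]
      by_cases hcop : n0.Coprime m
      · rw [sum_sub_distrib]
        have k1 := pl_mod N m n0 y hm1 M hy (fun y' hy' => hM n0 hcop y' hy')
        have k2 := a0 m n0 hm1 hmN hcop y hy
        have k3 := a3 y hy
        have k4 : |(∑ n ∈ Icc 1 y, pl n) / (Nat.totient m : ℝ) - (y : ℝ) / (Nat.totient m : ℝ)| ≤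
            N / (Nat.totient m : ℝ) * (1 / L ^ U) := by
          rw [← sub_div, abs_div, abs_of_pos htot0, div_le_iff₀ htot0]
          refine k3.trans (le_of_eq ?_)
          field_simp
        rw [← hLd] at k1
        have k5 := abs_le.1 k1
        have k6 := abs_le.1 k2
        have k7 := abs_le.1 k4
        have ht3 : 0 ≤ t ^ 3 := by positivity
        have k8 : N / (Nat.totient m : ℝ) * (2 / L ^ U + 4 * L / z) =
          N / (Nat.totient m : ℝ) * (1 / L ^ U + 4 * L / z) + N / (Nat.totient m : ℝ) * (1 / L ^ U) := by ring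
        rw [abs_le, hδ, k8]
        constructor <;> linarith [k5.1, k5.2, k6.1, k6.2, k7.1, k7.2]
      · -- a common prime factor
        obtain ⟨p, hp, hpn, hpm⟩ := Nat.Prime.not_coprime_iff_dvd.1 hcop
        have hpr : p ∣ r := by
          rcases (hp.dvd_lcm).1 hpm with h | h
          · exfalso
            have h1 : n0.Coprime q := by
              unfold Nat.Coprime
              rw [g1.gcd_eq]
              exact huq
            have h2 := Nat.dvd_gcd hpn h
            rw [h1] at h2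
            exact hp.one_lt.ne' (Nat.dvd_one.1 h2)
          · exact h
        have hpz : p ∈ pz z := mem_pz.2 ⟨(Nat.le_of_dvd (by omega) hpr).trans hrz, hp⟩
        have hdvd : ∀ n ∈ (Icc 1 y).filter (fun n => n ≡ n0 [MOD m]), p ∣ n := by
          intro n hn
          have h1 := (mem_filter.1 hn).2
          exact (h1.of_dvd hpm).dvd_iff (dvd_refl p) |>.2 hpn
        have hval : ∀ n ∈ (Icc 1 y).filter (fun n => n ≡ n0 [MOD m]), pl n - lamz z n = if n = p then Real.log p else 0 := by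
          intro n hn
          have h1 := hdvd n hn
          have h2 : lamz z n = 0 := by
            unfold lamz
            rw [if_neg]
            push Not
            exact ⟨p, hpz, h1⟩
          rw [h2, sub_zero]
          unfold pl
          split_ifs with h3 h4 h4
          · rw [h4]
          · exfalso
            exact h4 ((Nat.prime_dvd_prime_iff_eq hp h3).1 h1).symm
          · exact absurd (h4 ▸ hp) h3
          · rfl
        rw [sum_congr rfl hval, sum_ite_eq']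
        have hlogp : 0 ≤ Real.log p := Real.log_natCast_nonneg p
        have h4 : |if p ∈ (Icc 1 y).filter (fun n => n ≡ n0 [MOD m]) then Real.log (p : ℝ) else 0| ≤ L := by
          split_ifs with h5
          · rw [abs_of_nonneg hlogp]
            rw [mem_filter, mem_Icc] at h5
            exact Real.log_le_log (by exact_mod_cast hp.pos) (by exact_mod_cast h5.1.2.trans hy)
          · rw [abs_zero]; exact hL0.le
        refine h4.trans ?_
        have h5 : L ≤ t ^ 3 := hLt.trans (le_self_pow₀ ht1 (by norm_num))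
        have h6 : 0 ≤ 2 * L * M + N / (Nat.totient m : ℝ) * (2 / L ^ U + 4 * L / z) := by positivity
        rw [hδ]
        have h7 : 0 ≤ t ^ 3 := by positivity
        linarith
    · have hemp : (Icc 1 y).filter (fun n => n ≡ u [MOD q] ∧ n ≡ c [MOD r]) = ∅ := by
        apply filter_eq_empty_iff.2
        intro n _ h
        exact hex ⟨n, h⟩
      rw [hemp, sum_empty, abs_zero]
      exact hδ0
  have hrat : ∀ y : ℕ, y ≤ N → ‖∑ n ∈ Icc 1 y, ((F n : ℝ) : ℂ) * ee (n * ((a : ℝ) / r))‖ ≤ r * δ := fun y hy =>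
    rat_twist F y r hr a δ (hcls y hy)
  have hab := abel_ee (fun n => ((F n : ℝ) : ℂ) * ee (n * ((a : ℝ) / r))) γ (r * δ) y (fun y' hy' => hrat y' (hy'.trans hy))
  have e3 : ∑ n ∈ Icc 1 y, (((pl n - lamz z n : ℝ)) : ℂ) * (if n ≡ u [MOD q] then ee (n * ((a : ℝ) / r + γ)) else 0) =
      ∑ n ∈ Icc 1 y, (((F n : ℝ) : ℂ) * ee (n * ((a : ℝ) / r))) * ee (n * γ) := by
    apply sum_congr rfl
    intro n _
    rw [hF]
    simp only
    split_ifs
    · rw [mul_assoc, ← ee_add]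
      congr 2
      ring
    · simp
  rw [e3]
  refine hab.trans ?_
  apply mul_le_mul_of_nonneg_left _ (by positivity)
  have h5 : (y : ℝ) ≤ N := by exact_mod_cast hy
  have := mul_le_mul_of_nonneg_right h5 (norm_nonneg (ee γ - 1))
  linarith

end Pool.Agent.L0h42.TB
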