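import Mathlib
import Pool.Agent.L0h42.TB.A6
import Pool.Agent.L0h42.TB.A8
import Pool.Agent.L0h42.TB.A9
import Pool.Agent.H373R2.T7.Lin
import Pool.Agent.H373R2.T7.Minor
import Pool.Agent.H373R2.T7.LamZ2
import Pool.Agent.H442R2.KF.BvY
import Pool.Agent.H373R2.T7.SupE2
import Pool.Agent.H373R2.T7.Cnt

/-! Exponential sums over primes minus the sieve model in progressions: the average over the moduli at
one point. -/

set_option autoImplicit false

namespace Pool.Agent.L0h42.TB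
open Finset
open Pool.Agent.H807R2.Dav
open Pool.Agent.H373R2.T7
open Pool.Agent.H442R2.KF (Er piAP piN)

/-- the major arc case -/
theorem major_sum (c A B : ℕ) (hc : 1 ≤ c) : ∃ E0 : ℕ, ∀ E : ℕ, ∃ N0 : ℕ, ∀ N : ℕ, N0 ≤ N → ∀ z : ℕ,
    Real.log N ^ E0 ≤ z → (z : ℝ) ≤ Real.log N ^ E → ∀ (r : ℕ) (a : ℤ) (γ : ℝ), 1 ≤ r → (r : ℝ) ≤ Real.log N ^ B →
    |γ| ≤ Real.log N ^ B / N → ∀ u y : ℕ → ℕ, (∀ q, 1 ≤ q → (u q).Coprime q) → (∀ q, y q ≤ N) →
    ∑ q ∈ QQ N, (c : ℝ) ^ q.primeFactors.card * ‖ES z q (u q) (y q) ((a : ℝ) / r + γ)‖ ≤ N / Real.log N ^ A := by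
  obtain ⟨k, hk⟩ := Pool.Agent.H398R2.BV.sum_pow_omega_div_totient (c : ℝ) (by exact_mod_cast hc)
  obtain ⟨κ, hκ⟩ : ∃ κ : ℕ, κ = 2 ^ k := ⟨_, rfl⟩
  rw [← hκ] at hk
  obtain ⟨W, hW⟩ : ∃ W : ℕ, W = A + 2 * B + κ + 5 := ⟨_, rfl⟩
  obtain ⟨C, hC, hbv⟩ := BVW.bv_sup (1 / 4) (by norm_num) (2 * c) W (by omega)
  refine ⟨W, fun E => ?_⟩
  obtain ⟨m1, h1⟩ := major_q E W
  obtain ⟨m2, h2⟩ := ev_L' (64 * (2 ^ κ * 8 + 2 * C + 4))
  obtain ⟨m3, h3⟩ := log_le_t (W + E + 2)
  obtain ⟨m4, h4⟩ := ev_L' (2 ^ κ * 4 + 8)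
  refine ⟨max (max m1 m2) (max m3 (max m4 3)), ?_⟩
  intro N hN z hz1 hz2 r a γ hr hrB hγ u y hu hy
  have hN3 : 3 ≤ N := le_trans (le_trans (le_trans (le_max_right _ _) (le_max_right _ _)) (le_max_right _ _)) hN
  have hN1 : 1 ≤ N := by omega
  have hN0 : (0 : ℝ) < N := by exact_mod_cast hN1
  obtain ⟨t, ht0, ht40, hsq⟩ := exists_t N hN1
  have hLm := h3 N (le_trans (le_trans (le_max_left _ _) (le_max_right _ _)) hN) t ht0 ht40 hsq
  have hL := h2 N (le_trans (le_trans (le_max_right _ _) (le_max_left _ _)) hN)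
  have hL4 := h4 N (le_trans (le_trans (le_trans (le_max_left _ _) (le_max_right _ _)) (le_max_right _ _)) hN)
  have a1 := h1 N (le_trans (le_trans (le_max_left _ _) (le_max_left _ _)) hN) t ht0 ht40 z
  set L := Real.log N with hLd
  have hp2 : (0 : ℝ) < 2 ^ κ := by positivity
  have hL8 : 8 ≤ L := by linarith
  have hL1 : 1 ≤ L := by linarith
  have hL0 : 0 < L := by linarith
  have hLt : L ≤ t := le_trans (le_self_pow₀ hL1 (by omega)) hLm
  have ht1 : 1 ≤ t := by linarith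
  have hLB : L ^ B ≤ t := le_trans (pow_le_pow_right₀ hL1 (by omega)) hLm
  have hzW1 : 1 ≤ L ^ W := one_le_pow₀ hL1
  have hz : 1 ≤ z := by
    have : (1 : ℝ) ≤ z := hzW1.trans hz1
    exact_mod_cast this
  have hrz : r ≤ z := by
    have : (r : ℝ) ≤ z := hrB.trans ((pow_le_pow_right₀ hL1 (by omega)).trans hz1)
    exact_mod_cast this
  have hr0 : (0 : ℝ) < r := by exact_mod_cast hr
  have hrt : (r : ℝ) ≤ t := hrB.trans hLB
  have hz0 : (0 : ℝ) < z := by exact_mod_cast hz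
  obtain ⟨M, hM0, hM1, hM2⟩ := hbv N hN3
  -- the size of the moduli
  have hqt : ∀ q ∈ QQ N, (q : ℝ) ≤ t ^ 2 := by
    intro q hq
    have := (mem_QQ.1 hq).2.2
    apply le_of_pow_le_pow_left₀ (n := 20) (by norm_num) (by positivity)
    rw [← pow_mul, show 2 * 20 = 40 by norm_num, ht40]
    exact_mod_cast this
  have hphase : 1 + N * ‖ee γ - 1‖ ≤ 8 * L ^ B := by
    have e1 : ‖ee γ - 1‖ = dd γ := by
      unfold dd
      rw [norm_sub_rev]
    have e2 := dd_le γ
    have e3 : 2 * Real.pi * |γ| ≤ 7 * (L ^ B / N) := by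
      have := Real.pi_lt_d2
      calc 2 * Real.pi * |γ| ≤ 7 * |γ| := mul_le_mul_of_nonneg_right (by linarith) (abs_nonneg _)
        _ ≤ _ := mul_le_mul_of_nonneg_left hγ (by norm_num)
    rw [e1]
    have e4 : (N : ℝ) * dd γ ≤ N * (7 * (L ^ B / N)) := mul_le_mul_of_nonneg_left (e2.trans e3) hN0.le
    have e5 : (N : ℝ) * (7 * (L ^ B / N)) = 7 * L ^ B := by field_simp
    have e6 : 1 ≤ L ^ B := one_le_pow₀ hL1
    linarith
  -- one modulus
  have hone : ∀ q ∈ QQ N, ‖ES z q (u q) (y q) ((a : ℝ) / r + γ)‖ ≤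
      L ^ B * (2 * L * M (Nat.lcm q r) + N / (Nat.totient q : ℝ) * (6 / L ^ (W - 1)) + 2 * t ^ 3) * (8 * L ^ B) := by
    intro q hq
    obtain ⟨hq1, hq2, hq3⟩ := mem_QQ.1 hq
    have hlcm1 : 1 ≤ Nat.lcm q r := Nat.lcm_pos hq1 hr
    have hqr : q * r ≤ N := by
      have : (q : ℝ) * r ≤ N := by
        calc (q : ℝ) * r ≤ t ^ 2 * t := mul_le_mul (hqt q hq) hrt hr0.le (by positivity)
          _ = t ^ 3 := by ring
          _ ≤ t ^ 40 := pow_le_pow_right₀ ht1 (by norm_num)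
          _ = N := ht40
      exact_mod_cast this
    have b1 := a1 hz hz2 q (u q) r hq1 hr (hu q hq1) hqr hrz (M (Nat.lcm q r))
      (fun b hb y hy => hM1 _ hlcm1 b y hb hy) (hM0 _) a γ (y q) (hy q)
    unfold ES
    refine b1.trans ?_
    have hq0 : (0 : ℝ) < Nat.totient q := by exact_mod_cast Nat.totient_pos.2 hq1
    have hφ : (Nat.totient q : ℝ) ≤ (Nat.totient (Nat.lcm q r) : ℝ) := by
      exact_mod_cast Nat.le_of_dvd (Nat.totient_pos.2 hlcm1) (Nat.totient_dvd_of_dvd (Nat.dvd_lcm_left q r))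
    have e1 : (N : ℝ) / (Nat.totient (Nat.lcm q r) : ℝ) ≤ N / (Nat.totient q : ℝ) :=
      div_le_div_of_nonneg_left hN0.le hq0 hφ
    have e2 : 2 / L ^ W + 4 * L / z ≤ 6 / L ^ (W - 1) := by
      have f1 : 4 * L / z ≤ 4 * L / L ^ W := div_le_div_of_nonneg_left (by positivity) (by positivity) hz1
      have f2 : L ^ W = L ^ (W - 1) * L := by rw [← pow_succ]; congr 1; omega
      have f3 : 4 * L / L ^ W = 4 / L ^ (W - 1) := by rw [f2]; field_simp
      have f4 : 2 / L ^ W ≤ 2 / L ^ (W - 1) := by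
        apply div_le_div_of_nonneg_left (by norm_num) (by positivity)
        exact pow_le_pow_right₀ hL1 (by omega)
      have f5 : 6 / L ^ (W - 1) = 2 / L ^ (W - 1) + 4 / L ^ (W - 1) := by ring
      linarith
    have e3 : 0 ≤ 2 / L ^ W + 4 * L / (z : ℝ) := by positivity
    have e4 : 0 ≤ M (Nat.lcm q r) := hM0 _
    gcongr
  -- sums of the parts
  have hS1 : ∑ q ∈ QQ N, (c : ℝ) ^ q.primeFactors.card * M (Nat.lcm q r) ≤ C * (N / L ^ W) := by
    refine le_trans ?_ hM2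
    -- group by the value of the lcm
    have hmaps : ∀ q ∈ QQ N, Nat.lcm q r ∈ Icc 1 ⌊(N : ℝ) ^ ((1 : ℝ) / 4)⌋₊ := by
      intro q hq
      obtain ⟨hq1, hq2, hq3⟩ := mem_QQ.1 hq
      rw [mem_Icc]
      refine ⟨Nat.lcm_pos hq1 hr, Nat.le_floor ?_⟩
      have h5 : ((Nat.lcm q r : ℕ) : ℝ) ≤ q * r := by
        exact_mod_cast Nat.le_of_dvd (Nat.mul_pos hq1 hr) (Nat.lcm_dvd_mul q r)
      have h6 : (N : ℝ) ^ ((1 : ℝ) / 4) = t ^ 10 := by
        rw [← ht40, ← Real.rpow_natCast t 40, ← Real.rpow_mul ht0, ← Real.rpow_natCast t 10]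
        norm_num
      rw [h6]
      calc ((Nat.lcm q r : ℕ) : ℝ) ≤ q * r := h5
        _ ≤ t ^ 2 * t := mul_le_mul (hqt q hq) hrt hr0.le (by positivity)
        _ = t ^ 3 := by ring
        _ ≤ t ^ 10 := pow_le_pow_right₀ ht1 (by norm_num)
    rw [← sum_fiberwise_of_maps_to hmaps]
    apply sum_le_sum
    intro d hd
    have hd1 := (mem_Icc.1 hd).1
    have hcr : (1 : ℝ) ≤ c := by exact_mod_cast hc
    calc ∑ q ∈ (QQ N).filter (fun q => Nat.lcm q r = d), (c : ℝ) ^ q.primeFactors.card * M (Nat.lcm q r)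
        ≤ ∑ q ∈ (QQ N).filter (fun q => Nat.lcm q r = d), (c : ℝ) ^ d.primeFactors.card * M d := by
          apply sum_le_sum
          intro q hq
          rw [mem_filter] at hq
          rw [hq.2]
          apply mul_le_mul_of_nonneg_right _ (hM0 d)
          apply pow_le_pow_right₀ hcr
          apply card_le_card
          apply Nat.primeFactors_mono _ (by omega)
          rw [← hq.2]
          exact Nat.dvd_lcm_left q r
      _ = (((QQ N).filter (fun q => Nat.lcm q r = d)).card : ℝ) * ((c : ℝ) ^ d.primeFactors.card * M d) := by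
          rw [sum_const, nsmul_eq_mul]
      _ ≤ 2 ^ d.primeFactors.card * ((c : ℝ) ^ d.primeFactors.card * M d) := by
          apply mul_le_mul_of_nonneg_right _ (mul_nonneg (by positivity) (hM0 d))
          have h5 : ((QQ N).filter (fun q => Nat.lcm q r = d)).card ≤ (d.primeFactors.powerset).card := by
            apply card_le_card_of_injOn (fun q => q.primeFactors)
            · intro q hq
              rw [mem_coe, mem_filter] at hq
              rw [mem_coe, mem_powerset]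
              apply Nat.primeFactors_mono _ (by omega)
              rw [← hq.2]
              exact Nat.dvd_lcm_left q r
            · intro q hq q' hq' h
              rw [mem_coe, mem_filter] at hq hq'
              have g1 := Nat.prod_primeFactors_of_squarefree (mem_QQ.1 hq.1).2.1
              have g2 := Nat.prod_primeFactors_of_squarefree (mem_QQ.1 hq'.1).2.1
              simp only at h
              rw [← g1, ← g2, h]
          rw [card_powerset] at h5
          exact_mod_cast h5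
      _ = _ := by
          push_cast
          rw [mul_pow]
          ring
  have hsumphi : ∑ q ∈ QQ N, (c : ℝ) ^ q.primeFactors.card / (Nat.totient q : ℝ) ≤ 2 ^ κ * L ^ κ := by
    calc ∑ q ∈ QQ N, (c : ℝ) ^ q.primeFactors.card / (Nat.totient q : ℝ)
        ≤ ∑ q ∈ Icc 1 N, (c : ℝ) ^ q.primeFactors.card / (Nat.totient q : ℝ) :=
          sum_le_sum_of_subset_of_nonneg (filter_subset _ _) fun _ _ _ => by positivity
      _ ≤ (1 + L) ^ κ := hk N
      _ ≤ (2 * L) ^ κ := pow_le_pow_left₀ (by linarith) (by linarith) _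
      _ = _ := by rw [mul_pow]
  have hsum1 : ∑ q ∈ QQ N, (c : ℝ) ^ q.primeFactors.card ≤ t ^ 2 * (2 ^ κ * L ^ κ) := by
    have : ∀ q ∈ QQ N, (c : ℝ) ^ q.primeFactors.card ≤ t ^ 2 * ((c : ℝ) ^ q.primeFactors.card / (Nat.totient q : ℝ)) := by
      intro q hq
      obtain ⟨hq1, hq2, hq3⟩ := mem_QQ.1 hq
      have hq0 : (0 : ℝ) < Nat.totient q := by exact_mod_cast Nat.totient_pos.2 hq1
      have h5 : (Nat.totient q : ℝ) ≤ t ^ 2 := le_trans (by exact_mod_cast Nat.totient_le q) (hqt q hq)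
      rw [mul_div_assoc', le_div_iff₀ hq0, mul_comm]
      exact mul_le_mul_of_nonneg_right h5 (by positivity)
    refine (sum_le_sum this).trans ?_
    rw [← mul_sum]
    exact mul_le_mul_of_nonneg_left hsumphi (by positivity)
  calc ∑ q ∈ QQ N, (c : ℝ) ^ q.primeFactors.card * ‖ES z q (u q) (y q) ((a : ℝ) / r + γ)‖
      ≤ ∑ q ∈ QQ N, (c : ℝ) ^ q.primeFactors.card * (L ^ B * (2 * L * M (Nat.lcm q r) +
          N / (Nat.totient q : ℝ) * (6 / L ^ (W - 1)) + 2 * t ^ 3) * (8 * L ^ B)) :=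
        sum_le_sum fun q hq => mul_le_mul_of_nonneg_left (hone q hq) (by positivity)
    _ = 8 * L ^ (2 * B) * (2 * L * ∑ q ∈ QQ N, (c : ℝ) ^ q.primeFactors.card * M (Nat.lcm q r) +
          6 / L ^ (W - 1) * N * ∑ q ∈ QQ N, (c : ℝ) ^ q.primeFactors.card / (Nat.totient q : ℝ) +
          2 * t ^ 3 * ∑ q ∈ QQ N, (c : ℝ) ^ q.primeFactors.card) := by
        rw [mul_sum, mul_sum, mul_sum, ← sum_add_distrib, ← sum_add_distrib, mul_sum]
        apply sum_congr rfl
        intro q _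
        rw [show L ^ (2 * B) = L ^ B * L ^ B by rw [← pow_add]; congr 1; ring]
        ring
    _ ≤ 8 * L ^ (2 * B) * (2 * L * (C * (N / L ^ W)) + 6 / L ^ (W - 1) * N * (2 ^ κ * L ^ κ) +
          2 * t ^ 3 * (t ^ 2 * (2 ^ κ * L ^ κ))) := by gcongr
    _ ≤ N / L ^ A := by
        have f0 : L ^ W = L ^ A * L ^ (2 * B) * L ^ κ * L ^ 5 := by rw [hW, ← pow_add, ← pow_add, ← pow_add]
        have f1 : L ^ (W - 1) = L ^ A * L ^ (2 * B) * L ^ κ * L ^ 4 := by
          rw [← pow_add, ← pow_add, ← pow_add]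
          congr 1
          omega
        have hLκ : 1 ≤ L ^ κ := one_le_pow₀ hL1
        have g1 : 8 * L ^ (2 * B) * (2 * L * (C * (N / L ^ W))) ≤ 16 * C / L * (N / L ^ A) := by
          rw [f0]
          have e : 8 * L ^ (2 * B) * (2 * L * (C * (N / (L ^ A * L ^ (2 * B) * L ^ κ * L ^ 5)))) =
              16 * C / (L ^ κ * L ^ 4) * (N / L ^ A) := by field_simp; ring
          rw [e]
          apply mul_le_mul_of_nonneg_right _ (by positivity)
          apply div_le_div_of_nonneg_left (by positivity) hL0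
          have : L ≤ L ^ 4 := le_self_pow₀ hL1 (by norm_num)
          nlinarith
        have g2 : 8 * L ^ (2 * B) * (6 / L ^ (W - 1) * N * (2 ^ κ * L ^ κ)) ≤ 48 * 2 ^ κ / L * (N / L ^ A) := by
          rw [f1]
          have e : 8 * L ^ (2 * B) * (6 / (L ^ A * L ^ (2 * B) * L ^ κ * L ^ 4) * N * (2 ^ κ * L ^ κ)) =
              48 * 2 ^ κ / L ^ 4 * (N / L ^ A) := by field_simp; ring
          rw [e]
          apply mul_le_mul_of_nonneg_right _ (by positivity)
          apply div_le_div_of_nonneg_left (by positivity) hL0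
          exact le_self_pow₀ hL1 (by norm_num)
        have g3 : 8 * L ^ (2 * B) * (2 * t ^ 3 * (t ^ 2 * (2 ^ κ * L ^ κ))) ≤ 16 * 2 ^ κ / L * (N / L ^ A) := by
          have e : 8 * L ^ (2 * B) * (2 * t ^ 3 * (t ^ 2 * (2 ^ κ * L ^ κ))) = 16 * 2 ^ κ * (t ^ 5 * (L ^ (2 * B) * L ^ κ)) := by ring
          have e2 : 16 * 2 ^ κ / L * (N / L ^ A) = 16 * 2 ^ κ * (N / (L * L ^ A)) := by field_simp
          rw [e, e2]
          apply mul_le_mul_of_nonneg_left _ (by positivity)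
          rw [le_div_iff₀ (by positivity)]
          have e3 : L ^ (2 * B) * L ^ κ * (L * L ^ A) ≤ t := by
            refine le_trans ?_ hLm
            rw [← pow_succ', ← pow_add, ← pow_add]
            exact pow_le_pow_right₀ hL1 (by omega)
          calc t ^ 5 * (L ^ (2 * B) * L ^ κ) * (L * L ^ A) = t ^ 5 * (L ^ (2 * B) * L ^ κ * (L * L ^ A)) := by ring
            _ ≤ t ^ 5 * t := mul_le_mul_of_nonneg_left e3 (by positivity)
            _ = t ^ 6 := by ring
            _ ≤ t ^ 40 := pow_le_pow_right₀ ht1 (by norm_num)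
            _ = N := ht40
        have g4 : (16 * C + 48 * 2 ^ κ + 16 * 2 ^ κ) / L ≤ 1 := by
          rw [div_le_one hL0]
          linarith
        calc 8 * L ^ (2 * B) * (2 * L * (C * (N / L ^ W)) + 6 / L ^ (W - 1) * N * (2 ^ κ * L ^ κ) +
          2 * t ^ 3 * (t ^ 2 * (2 ^ κ * L ^ κ))) = 8 * L ^ (2 * B) * (2 * L * (C * (N / L ^ W))) +
            8 * L ^ (2 * B) * (6 / L ^ (W - 1) * N * (2 ^ κ * L ^ κ)) +
            8 * L ^ (2 * B) * (2 * t ^ 3 * (t ^ 2 * (2 ^ κ * L ^ κ))) := by ring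
          _ ≤ 16 * C / L * (N / L ^ A) + 48 * 2 ^ κ / L * (N / L ^ A) + 16 * 2 ^ κ / L * (N / L ^ A) := by linarith
          _ = (16 * C + 48 * 2 ^ κ + 16 * 2 ^ κ) / L * (N / L ^ A) := by ring
          _ ≤ 1 * (N / L ^ A) := mul_le_mul_of_nonneg_right g4 (by positivity)
          _ = _ := one_mul _

end Pool.Agent.L0h42.TB
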