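import Mathlib
import Pool.Agent.L0h42.TB.A10
import Pool.Agent.H373R2.T7.Lin
import Pool.Agent.H373R2.T7.Minor
import Pool.Agent.H373R2.T7.LamZ2
import Pool.Agent.H442R2.KF.BvY
import Pool.Agent.H373R2.T7.SupE2
import Pool.Agent.H373R2.T7.Cnt

/-! Exponential sums over primes minus the sieve model in progressions: the average over the moduli at
an arbitrary point. -/

set_option autoImplicit false

namespace Pool.Agent.L0h42.TB
open Finset
open Pool.Agent.H807R2.Dav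
open Pool.Agent.H373R2.T7
open Pool.Agent.H442R2.KF (Er piAP piN)

lemma dvd_part {r b Q : ℕ} (hr : 1 ≤ r) (h : r ∣ b * Q) : r / Nat.gcd r b ∣ Q := by
  have hg : 0 < Nat.gcd r b := Nat.gcd_pos_of_pos_left b hr
  have h1 : Nat.gcd r b * (r / Nat.gcd r b) ∣ Nat.gcd r b * ((b / Nat.gcd r b) * Q) := by
    rw [Nat.mul_div_cancel' (Nat.gcd_dvd_left r b), ← mul_assoc, Nat.mul_div_cancel' (Nat.gcd_dvd_right r b)]
    exact h
  have h2 := Nat.dvd_of_mul_dvd_mul_left hg h1
  exact (Nat.coprime_div_gcd_div_gcd hg).dvd_of_dvd_mul_left h2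

lemma rad_dvd_self {s : ℕ} : rad s ∣ s := Nat.prod_primeFactors_dvd s

set_option maxHeartbeats 4000000 in
theorem tbv (c A : ℕ) (hc : 1 ≤ c) : ∃ E0 : ℕ, ∀ E : ℕ, ∃ N0 : ℕ, ∀ N : ℕ, N0 ≤ N → ∀ z : ℕ,
    Real.log N ^ E0 ≤ z → (z : ℝ) ≤ Real.log N ^ E → ∀ (α : ℝ) (u y : ℕ → ℕ),
    (∀ q, 1 ≤ q → (u q).Coprime q) → (∀ q, y q ≤ N) →
    ∑ q ∈ QQ N, (c : ℝ) ^ q.primeFactors.card * ‖ES z q (u q) (y q) α‖ ≤ N / Real.log N ^ A := by
  classical
  obtain ⟨k, hk⟩ := Pool.Agent.H398R2.BV.sum_pow_omega_div_totient (c : ℝ) (by exact_mod_cast hc)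
  obtain ⟨κ, hκ⟩ : ∃ κ : ℕ, κ = 2 ^ k := ⟨_, rfl⟩
  rw [← hκ] at hk
  obtain ⟨W, hW⟩ : ∃ W : ℕ, W = A + κ + 4 := ⟨_, rfl⟩
  obtain ⟨B, hBU, hgood⟩ := good_one (A + κ + 3)
  obtain ⟨Bm, hBm⟩ : ∃ Bm : ℕ, Bm = 5 * B + 4 * W := ⟨_, rfl⟩
  obtain ⟨E0, hmaj⟩ := major_sum c A Bm hc
  refine ⟨E0, fun E => ?_⟩
  obtain ⟨m1, h1⟩ := hgood E
  obtain ⟨m2, h2⟩ := hmaj E
  obtain ⟨m3, h3⟩ := log_le_t (Bm + E + A + W + 2)
  obtain ⟨m4, h4⟩ := ev_L' (3 * 2 ^ κ + 2 * 2 ^ κ * (c : ℝ) ^ (c ^ 2) + 8)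
  obtain ⟨m5, h5⟩ := Vz_inv_small E
  refine ⟨max (max m1 m2) (max m3 (max m4 (max m5 3))), ?_⟩
  intro N hN z hz1 hz2 α u y hu hy
  have n1 : m1 ≤ N := le_trans (le_trans (le_max_left _ _) (le_max_left _ _)) hN
  have n2 : m2 ≤ N := le_trans (le_trans (le_max_right _ _) (le_max_left _ _)) hN
  have n3 : m3 ≤ N := le_trans (le_trans (le_max_left _ _) (le_max_right _ _)) hN
  have nn := le_trans (le_max_right m3 _) (le_trans (le_max_right _ _) hN)
  have n4 : m4 ≤ N := le_trans (le_max_left _ _) nn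
  have n5 : m5 ≤ N := le_trans (le_trans (le_max_left _ _) (le_max_right _ _)) nn
  have hN3 : 3 ≤ N := le_trans (le_trans (le_max_right _ _) (le_max_right _ _)) nn
  have hN1 : 1 ≤ N := by omega
  have hN0 : (0 : ℝ) < N := by exact_mod_cast hN1
  obtain ⟨t, ht0, ht40, hsq⟩ := exists_t N hN1
  have hLm := h3 N n3 t ht0 ht40 hsq
  have hL4 := h4 N n4
  have a2 := h2 N n2 z hz1 hz2
  have hcr : (1 : ℝ) ≤ c := by exact_mod_cast hc
  have hp2 : (0 : ℝ) < 2 ^ κ := by positivity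
  have hcc : (0 : ℝ) < (c : ℝ) ^ (c ^ 2) := by positivity
  have hpc : (0 : ℝ) < 2 * 2 ^ κ * (c : ℝ) ^ (c ^ 2) := by positivity
  set L := Real.log N with hLd
  have hL8 : 8 ≤ L := by linarith
  have hL1 : 1 ≤ L := by linarith
  have hL0 : 0 < L := by linarith
  have hzW1 : 1 ≤ L ^ E0 := one_le_pow₀ hL1
  have hz : 1 ≤ z := by
    have : (1 : ℝ) ≤ z := hzW1.trans hz1
    exact_mod_cast this
  have a1 := h1 N n1 z hz hz2
  have hV := h5 N n5 z hz hz2
  have hLt : L ≤ t := le_trans (le_self_pow₀ hL1 (by omega)) hLm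
  have ht8 : 8 ≤ t := by linarith
  have ht1 : 1 ≤ t := by linarith
  have hKt : L ^ B ≤ t := le_trans (pow_le_pow_right₀ hL1 (by omega)) hLm
  set K := L ^ B with hK
  have hK1 : 1 ≤ K := one_le_pow₀ hL1
  have hK0 : 0 < K := by linarith
  have hqt : ∀ q ∈ QQ N, (q : ℝ) ≤ t ^ 2 := by
    intro q hq
    have := (mem_QQ.1 hq).2.2
    apply le_of_pow_le_pow_left₀ (n := 20) (by norm_num) (by positivity)
    rw [← pow_mul, show 2 * 20 = 40 by norm_num, ht40]
    exact_mod_cast this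
  -- Dirichlet's approximations
  have hdir : ∀ q : ℕ, ∃ (b : ℕ) (cc : ℤ), q ∈ QQ N → (1 ≤ b ∧ IsCoprime cc (b : ℤ) ∧
      (b : ℝ) ≤ N / (q ^ 2 * K) ∧ |(q : ℝ) ^ 2 * α - cc / b| ≤ 1 / (N / (q ^ 2 * K) * b)) := by
    intro q
    by_cases hq : q ∈ QQ N
    · have hq1 : (1 : ℝ) ≤ q := by exact_mod_cast (mem_QQ.1 hq).1
      have hM1 : 1 ≤ (N : ℝ) / (q ^ 2 * K) := by
        rw [one_le_div (by positivity)]
        calc (q : ℝ) ^ 2 * K ≤ (t ^ 2) ^ 2 * t := by
              apply mul_le_mul _ hKt hK0.le (by positivity)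
              exact pow_le_pow_left₀ (by positivity) (hqt q hq) 2
          _ = t ^ 5 := by ring
          _ ≤ t ^ 40 := pow_le_pow_right₀ ht1 (by norm_num)
          _ = N := ht40
      obtain ⟨b, cc, g1, g2, g3, g4⟩ := dirichlet ((q : ℝ) ^ 2 * α) _ hM1
      exact ⟨b, cc, fun _ => ⟨g1, g2, g3, g4⟩⟩
    · exact ⟨1, 0, fun h => absurd h hq⟩
  choose b cc hb using hdir
  set ρ : ℕ → ℚ := fun q => (cc q : ℚ) / ((b q * q ^ 2 : ℕ) : ℤ) with hρ
  have hρα : ∀ q ∈ QQ N, |α - ((ρ q : ℚ) : ℝ)| ≤ K / N := by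
    intro q hq
    obtain ⟨g1, g2, g3, g4⟩ := hb q hq
    have hq1 : (1 : ℝ) ≤ q := by exact_mod_cast (mem_QQ.1 hq).1
    have hb1 : (1 : ℝ) ≤ b q := by exact_mod_cast g1
    have e1 : α - ((ρ q : ℚ) : ℝ) = ((q : ℝ) ^ 2 * α - cc q / b q) / q ^ 2 := by
      rw [hρ]
      push_cast
      field_simp
    rw [e1, abs_div, abs_of_pos (by positivity : (0 : ℝ) < (q : ℝ) ^ 2), div_le_iff₀ (by positivity)]
    refine g4.trans ?_
    have e2 : 1 / ((N : ℝ) / (q ^ 2 * K) * b q) = K / N * q ^ 2 / b q := by field_simp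
    rw [e2]
    exact div_le_self (by positivity) hb1
  have hden : ∀ q ∈ QQ N, (ρ q).den ∣ b q * q ^ 2 := by
    intro q hq
    have := Rat.den_dvd (cc q) ((b q * q ^ 2 : ℕ) : ℤ)
    rw [hρ]
    exact_mod_cast this
  -- the bad moduli
  set bad : Finset ℕ := (QQ N).filter (fun q => (b q : ℝ) ≤ K) with hbad
  have hbadQ : ∀ q ∈ bad, q ∈ QQ N := fun q hq => (mem_filter.1 hq).1
  have hdent : ∀ q ∈ bad, ((ρ q).den : ℝ) ≤ t ^ 5 := by
    intro q hq
    have hqQ := hbadQ q hq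
    have h6 : (ρ q).den ≤ b q * q ^ 2 := Nat.le_of_dvd
      (Nat.mul_pos (hb q hqQ).1 (pow_pos (mem_QQ.1 hqQ).1 2)) (hden q hqQ)
    calc ((ρ q).den : ℝ) ≤ b q * q ^ 2 := by exact_mod_cast h6
      _ ≤ t * (t ^ 2) ^ 2 := by
          apply mul_le_mul ((mem_filter.1 hq).2.trans hKt) _ (by positivity) ht0
          exact pow_le_pow_left₀ (by positivity) (hqt q hqQ) 2
      _ = t ^ 5 := by ring
  have hcommon : ∀ q ∈ bad, ∀ q' ∈ bad, ρ q = ρ q' := by
    intro q hq q' hq'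
    by_contra hne
    have g1 : ((ρ q : ℚ) : ℝ) = ((ρ q).num : ℝ) / (ρ q).den := by exact_mod_cast (Rat.num_div_den (ρ q)).symm
    have g2 : ((ρ q' : ℚ) : ℝ) = ((ρ q').num : ℝ) / (ρ q').den := by exact_mod_cast (Rat.num_div_den (ρ q')).symm
    have hne' : ((ρ q).num : ℝ) / (ρ q).den ≠ ((ρ q').num : ℝ) / (ρ q').den := by
      rw [← g1, ← g2]
      exact_mod_cast hne
    have g3 := frac_gap (ρ q).den_pos (ρ q').den_pos (ρ q).num (ρ q').num hne'
    rw [← g1, ← g2] at g3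
    have g4 : |((ρ q : ℚ) : ℝ) - ((ρ q' : ℚ) : ℝ)| ≤ 2 * (K / N) := by
      have e : ((ρ q : ℚ) : ℝ) - ((ρ q' : ℚ) : ℝ) = (α - ((ρ q' : ℚ) : ℝ)) - (α - ((ρ q : ℚ) : ℝ)) := by ring
      rw [e]
      refine (abs_sub _ _).trans ?_
      have := hρα q (hbadQ q hq)
      have := hρα q' (hbadQ q' hq')
      linarith
    have g5 : 1 / (t ^ 5 * t ^ 5) ≤ 1 / (((ρ q).den : ℝ) * (ρ q').den) := by
      have d1 : (0 : ℝ) < (ρ q).den := by exact_mod_cast (ρ q).den_pos
      have d2 : (0 : ℝ) < (ρ q').den := by exact_mod_cast (ρ q').den_pos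
      apply one_div_le_one_div_of_le (by positivity)
      exact mul_le_mul (hdent q hq) (hdent q' hq') d2.le (by positivity)
    have g6 : 2 * (K / N) < 1 / (t ^ 5 * t ^ 5) := by
      rw [← ht40, mul_div_assoc', div_lt_div_iff₀ (by positivity) (by positivity), one_mul]
      calc 2 * K * (t ^ 5 * t ^ 5) ≤ t * t * (t ^ 5 * t ^ 5) := by
            apply mul_le_mul_of_nonneg_right _ (by positivity)
            exact mul_le_mul (by linarith) hKt hK0.le (by linarith)
        _ = t ^ 12 := by ring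
        _ < t ^ 40 := pow_lt_pow_right₀ (by linarith) (by norm_num)
    linarith
  by_cases hcase : ∃ q0 ∈ bad, ((ρ q0).den : ℝ) ≤ L ^ Bm
  · obtain ⟨q0, hq0, hq0den⟩ := hcase
    have g1 : ((ρ q0 : ℚ) : ℝ) = ((ρ q0).num : ℝ) / (ρ q0).den := by exact_mod_cast (Rat.num_div_den (ρ q0)).symm
    have h6 := a2 (ρ q0).den (ρ q0).num (α - ((ρ q0).num : ℝ) / (ρ q0).den) (ρ q0).den_pos hq0den (by
      rw [← g1]
      refine (hρα q0 (hbadQ q0 hq0)).trans ?_
      apply div_le_div_of_nonneg_right _ hN0.le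
      exact pow_le_pow_right₀ hL1 (by omega)) u y hu hy
    have e : ((ρ q0).num : ℝ) / (ρ q0).den + (α - ((ρ q0).num : ℝ) / (ρ q0).den) = α := by ring
    rw [e] at h6
    exact h6
  · push Not at hcase
    have hS : ∑ q ∈ Icc 1 N, (c : ℝ) ^ q.primeFactors.card / q ≤ 2 ^ κ * L ^ κ := by
      calc ∑ q ∈ Icc 1 N, (c : ℝ) ^ q.primeFactors.card / q
          ≤ ∑ q ∈ Icc 1 N, (c : ℝ) ^ q.primeFactors.card / (Nat.totient q : ℝ) := by
            apply sum_le_sum
            intro q hq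
            have hq1 := (mem_Icc.1 hq).1
            apply div_le_div_of_nonneg_left (by positivity)
            · exact_mod_cast Nat.totient_pos.2 hq1
            · exact_mod_cast Nat.totient_le q
        _ ≤ (1 + L) ^ κ := hk N
        _ ≤ (2 * L) ^ κ := pow_le_pow_left₀ (by linarith) (by linarith) _
        _ = _ := by rw [mul_pow]
    -- good moduli
    have hG : ∑ q ∈ (QQ N).filter (fun q => ¬ (b q : ℝ) ≤ K), (c : ℝ) ^ q.primeFactors.card * ‖ES z q (u q) (y q) α‖ ≤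
        3 * 2 ^ κ / L ^ 3 * (N / L ^ A) := by
      calc ∑ q ∈ (QQ N).filter (fun q => ¬ (b q : ℝ) ≤ K), (c : ℝ) ^ q.primeFactors.card * ‖ES z q (u q) (y q) α‖
          ≤ ∑ q ∈ (QQ N).filter (fun q => ¬ (b q : ℝ) ≤ K),
              3 * (N / L ^ (A + κ + 3)) * ((c : ℝ) ^ q.primeFactors.card / q) := by
            apply sum_le_sum
            intro q hq
            rw [mem_filter] at hq
            obtain ⟨hq1, hq2⟩ := hq
            obtain ⟨g1, g2, g3, g4⟩ := hb q hq1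
            obtain ⟨r1, r2, r3⟩ := mem_QQ.1 hq1
            have hq0 : (0 : ℝ) < q := by exact_mod_cast r1
            have h6 := a1 q (u q) r1 r3 (hu q r1) α (b q) (cc q) g1 g2 (not_le.1 hq2) g3 g4 (y q) (hy q)
            calc (c : ℝ) ^ q.primeFactors.card * ‖ES z q (u q) (y q) α‖
                ≤ (c : ℝ) ^ q.primeFactors.card * (3 * (N / (q * L ^ (A + κ + 3)))) :=
                  mul_le_mul_of_nonneg_left h6 (by positivity)
              _ = _ := by field_simp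
        _ ≤ ∑ q ∈ Icc 1 N, 3 * (N / L ^ (A + κ + 3)) * ((c : ℝ) ^ q.primeFactors.card / q) := by
            apply sum_le_sum_of_subset_of_nonneg _ (fun _ _ _ => by positivity)
            exact (filter_subset _ _).trans (filter_subset _ _)
        _ = 3 * (N / L ^ (A + κ + 3)) * ∑ q ∈ Icc 1 N, (c : ℝ) ^ q.primeFactors.card / q := by rw [mul_sum]
        _ ≤ 3 * (N / L ^ (A + κ + 3)) * (2 ^ κ * L ^ κ) := mul_le_mul_of_nonneg_left hS (by positivity)
        _ = _ := by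
          rw [pow_add, pow_add]
          field_simp
    -- bad moduli
    have hBd : ∑ q ∈ bad, (c : ℝ) ^ q.primeFactors.card * ‖ES z q (u q) (y q) α‖ ≤
        2 * 2 ^ κ * (c : ℝ) ^ (c ^ 2) / L ^ 3 * (N / L ^ A) := by
      rcases bad.eq_empty_or_nonempty with he | ⟨q0, hq0⟩
      · rw [he, sum_empty]; positivity
      set r := (ρ q0).den with hr
      have hr1 : 1 ≤ r := (ρ q0).den_pos
      have hrL := hcase q0 hq0
      rw [← hr] at hrL
      have hrdvd : ∀ q ∈ bad, r ∣ b q * q ^ 2 := by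
        intro q hq
        rw [hr, hcommon q0 hq0 q hq]
        exact hden q (hbadQ q hq)
      set s : ℕ → ℕ := fun v => rad (r / Nat.gcd r v) with hs
      set V := bad.image b with hV'
      have hsq' : ∀ q ∈ bad, s (b q) ∣ q := fun q hq => rad_dvd (dvd_part hr1 (hrdvd q hq))
      have hcardV : (V.card : ℝ) ≤ K := by
        have h6 : V ⊆ Icc 1 ⌊K⌋₊ := by
          intro v hv
          rw [hV', mem_image] at hv
          obtain ⟨q, hq, rfl⟩ := hv
          rw [mem_Icc]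
          exact ⟨(hb q (hbadQ q hq)).1, Nat.le_floor (mem_filter.1 hq).2⟩
        have h7 := card_le_card h6
        rw [Nat.card_Icc] at h7
        have h8 : (V.card : ℝ) ≤ (⌊K⌋₊ : ℝ) := by exact_mod_cast (by omega : V.card ≤ ⌊K⌋₊)
        exact h8.trans (Nat.floor_le hK0.le)
      have hsbig : ∀ v ∈ V, L ^ (B + W) ≤ √(s v : ℝ) := by
        intro v hv
        rw [hV', mem_image] at hv
        obtain ⟨q, hq, rfl⟩ := hv
        have hqQ := hbadQ q hq
        have hbq := (hb q hqQ).1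
        have hg : 0 < Nat.gcd r (b q) := Nat.gcd_pos_of_pos_left _ hr1
        have he0 : r / Nat.gcd r (b q) ≠ 0 := by
          have := Nat.div_pos (Nat.le_of_dvd hr1 (Nat.gcd_dvd_left r (b q))) hg
          omega
        have h6 : r / Nat.gcd r (b q) ≤ s (b q) ^ 2 := le_rad_sq (dvd_part hr1 (hrdvd q hq)) (mem_QQ.1 hqQ).2.1 he0
        have h7 : (r : ℝ) ≤ K * s (b q) ^ 2 := by
          have h8 : Nat.gcd r (b q) * (r / Nat.gcd r (b q)) = r := Nat.mul_div_cancel' (Nat.gcd_dvd_left _ _)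
          have h9 : ((Nat.gcd r (b q) : ℕ) : ℝ) ≤ K := by
            refine le_trans ?_ (mem_filter.1 hq).2
            exact_mod_cast Nat.le_of_dvd hbq (Nat.gcd_dvd_right _ _)
          have h10 : ((r / Nat.gcd r (b q) : ℕ) : ℝ) ≤ (s (b q) : ℝ) ^ 2 := by exact_mod_cast h6
          calc (r : ℝ) = ((Nat.gcd r (b q) : ℕ) : ℝ) * ((r / Nat.gcd r (b q) : ℕ) : ℝ) := by exact_mod_cast h8.symm
            _ ≤ K * (s (b q) : ℝ) ^ 2 := mul_le_mul h9 h10 (by positivity) hK0.le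
        have h8 : L ^ Bm ≤ K * s (b q) ^ 2 := hrL.le.trans h7
        have h9 : L ^ Bm = K * (L ^ (2 * (B + W))) ^ 2 := by
          rw [hK, ← pow_mul, ← pow_add, hBm]
          congr 1
          ring
        rw [h9] at h8
        have h10 : (L ^ (2 * (B + W))) ^ 2 ≤ (s (b q) : ℝ) ^ 2 := le_of_mul_le_mul_left h8 hK0
        have h11 : L ^ (2 * (B + W)) ≤ (s (b q) : ℝ) := le_of_pow_le_pow_left₀ (by norm_num) (by positivity) h10
        apply Real.le_sqrt_of_sq_le
        rw [← pow_mul, mul_comm]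
        exact h11
      calc ∑ q ∈ bad, (c : ℝ) ^ q.primeFactors.card * ‖ES z q (u q) (y q) α‖
          ≤ ∑ q ∈ bad, 2 * L * N * ((c : ℝ) ^ q.primeFactors.card / q) := by
            apply sum_le_sum
            intro q hq
            have hqQ := hbadQ q hq
            obtain ⟨r1, r2, r3⟩ := mem_QQ.1 hqQ
            have hqN : q ≤ N := le_trans (Nat.le_self_pow (by norm_num) q) r3
            have h6 := ES_triv N z q (u q) (y q) α hN1 r1 (hy q) hqN hV
            have hq0 : (0 : ℝ) < q := by exact_mod_cast r1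
            calc (c : ℝ) ^ q.primeFactors.card * ‖ES z q (u q) (y q) α‖
                ≤ (c : ℝ) ^ q.primeFactors.card * (2 * L * (N / q)) := mul_le_mul_of_nonneg_left h6 (by positivity)
              _ = _ := by ring
        _ = 2 * L * N * ∑ q ∈ bad, (c : ℝ) ^ q.primeFactors.card / q := by rw [mul_sum]
        _ ≤ 2 * L * N * ∑ v ∈ V, ∑ q ∈ (QQ N).filter (fun q => s v ∣ q), (c : ℝ) ^ q.primeFactors.card / q := by
            apply mul_le_mul_of_nonneg_left _ (by positivity)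
            rw [← sum_fiberwise_of_maps_to (s := bad) (t := V) (g := b) (fun q hq => mem_image_of_mem b hq)]
            apply sum_le_sum
            intro v _
            apply sum_le_sum_of_subset_of_nonneg _ (fun _ _ _ => by positivity)
            intro q hq
            rw [mem_filter] at hq ⊢
            refine ⟨hbadQ q hq.1, ?_⟩
            rw [← hq.2]
            exact hsq' q hq.1
        _ ≤ 2 * L * N * ∑ v ∈ V, (c : ℝ) ^ (c ^ 2) / L ^ (B + W) * (2 ^ κ * L ^ κ) := by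
            apply mul_le_mul_of_nonneg_left _ (by positivity)
            apply sum_le_sum
            intro v hv
            have hs1 : 1 ≤ s v := rad_pos _
            have hsr : (0 : ℝ) < s v := by exact_mod_cast hs1
            refine (sum_multiples N (s v) c hs1 hc).trans ?_
            apply mul_le_mul _ hS (sum_nonneg fun _ _ => by positivity) (by positivity)
            have h6 : (c : ℝ) ^ (s v).primeFactors.card ≤ (c : ℝ) ^ (c ^ 2) * √(s v : ℝ) := by
              refine (pow_omega_le c (s v) hc).trans ?_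
              apply mul_le_mul_of_nonneg_left _ hcc.le
              apply Real.sqrt_le_sqrt
              exact_mod_cast Nat.le_of_dvd hs1 rad_dvd_self
            have h7 := hsbig v hv
            have h8 : 0 < √(s v : ℝ) := Real.sqrt_pos.2 hsr
            have h9 : √(s v : ℝ) * √(s v : ℝ) = s v := Real.mul_self_sqrt hsr.le
            calc (c : ℝ) ^ (s v).primeFactors.card / (s v) ≤ (c : ℝ) ^ (c ^ 2) * √(s v : ℝ) / (s v) :=
                  div_le_div_of_nonneg_right h6 hsr.le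
              _ = (c : ℝ) ^ (c ^ 2) / √(s v : ℝ) := by
                  rw [div_eq_div_iff hsr.ne' h8.ne', mul_assoc, h9]
              _ ≤ (c : ℝ) ^ (c ^ 2) / L ^ (B + W) := div_le_div_of_nonneg_left hcc.le (by positivity) h7
        _ = 2 * L * N * (V.card * ((c : ℝ) ^ (c ^ 2) / L ^ (B + W) * (2 ^ κ * L ^ κ))) := by
            rw [sum_const, nsmul_eq_mul]
        _ ≤ 2 * L * N * (K * ((c : ℝ) ^ (c ^ 2) / L ^ (B + W) * (2 ^ κ * L ^ κ))) := by
            apply mul_le_mul_of_nonneg_left _ (by positivity)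
            exact mul_le_mul_of_nonneg_right hcardV (by positivity)
        _ = _ := by
            rw [hK, hW, show B + (A + κ + 4) = B + A + κ + 4 by ring, pow_add, pow_add, pow_add]
            field_simp
    have hsplit : ∑ q ∈ QQ N, (c : ℝ) ^ q.primeFactors.card * ‖ES z q (u q) (y q) α‖ =
        ∑ q ∈ bad, (c : ℝ) ^ q.primeFactors.card * ‖ES z q (u q) (y q) α‖ +
        ∑ q ∈ (QQ N).filter (fun q => ¬ (b q : ℝ) ≤ K), (c : ℝ) ^ q.primeFactors.card * ‖ES z q (u q) (y q) α‖ :=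
      (sum_filter_add_sum_filter_not _ _ _).symm
    rw [hsplit]
    refine (add_le_add hBd hG).trans ?_
    have h6 : (2 * 2 ^ κ * (c : ℝ) ^ (c ^ 2) + 3 * 2 ^ κ) / L ^ 3 ≤ 1 := by
      rw [div_le_one (by positivity)]
      have : L ≤ L ^ 3 := le_self_pow₀ hL1 (by norm_num)
      linarith
    calc 2 * 2 ^ κ * (c : ℝ) ^ (c ^ 2) / L ^ 3 * (N / L ^ A) + 3 * 2 ^ κ / L ^ 3 * (N / L ^ A)
        = (2 * 2 ^ κ * (c : ℝ) ^ (c ^ 2) + 3 * 2 ^ κ) / L ^ 3 * (N / L ^ A) := by ring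
      _ ≤ 1 * (N / L ^ A) := mul_le_mul_of_nonneg_right h6 (by positivity)
      _ = _ := one_mul _

end Pool.Agent.L0h42.TB
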