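import Mathlib
import Pool.Agent.L0h42.TB.A11
import Pool.Agent.L0h42.TB.B2
import Pool.Agent.H373R2.T7.Lin
import Pool.Agent.H373R2.T7.Minor
import Pool.Agent.H373R2.T7.LamZ2
import Pool.Agent.H442R2.KF.BvY
import Pool.Agent.H373R2.T7.SupE2
import Pool.Agent.H373R2.T7.Cnt
import Pool.Agent.R311.DEH.A1
import Pool.Agent.Helper256.KM.Mertens
import Pool.Agent.W23.UBb
import Pool.Agent.H373R2.T7.Crt

/-! Uniform version of the mean value theorem; exponential sums over the primes for which finitely many forms are divisible by given numbers. -/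

set_option autoImplicit false
set_option linter.unusedSectionVars false

namespace Pool.Agent.L0h42.TB
open Finset
open Pool.Agent.H807R2.Dav
open Pool.Agent.H373R2.T7

lemma ES_mod (z q u y : ℕ) (α : ℝ) : ES z q (u % q) y α = ES z q u y α := by
  unfold ES
  apply sum_congr rfl
  intro n _
  have : (n ≡ u % q [MOD q]) ↔ (n ≡ u [MOD q]) := by
    unfold Nat.ModEq
    rw [Nat.mod_mod]
  simp only [this]

theorem tbv_sup (c A : ℕ) (hc : 1 ≤ c) : ∃ E0 : ℕ, ∀ E : ℕ, ∃ N0 : ℕ, ∀ N : ℕ, N0 ≤ N → ∀ z : ℕ,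
    Real.log N ^ E0 ≤ z → (z : ℝ) ≤ Real.log N ^ E → ∀ α : ℝ, ∃ M : ℕ → ℝ, (∀ q, 0 ≤ M q) ∧
    (∀ q, 1 ≤ q → ∀ u y : ℕ, u.Coprime q → y ≤ N → ‖ES z q u y α‖ ≤ M q) ∧
    ∑ q ∈ QQ N, (c : ℝ) ^ q.primeFactors.card * M q ≤ N / Real.log N ^ A := by
  classical
  obtain ⟨E0, h0⟩ := tbv c A hc
  refine ⟨E0, fun E => ?_⟩
  obtain ⟨N0, h1⟩ := h0 E
  refine ⟨N0, fun N hN z hz1 hz2 α => ?_⟩
  have hex : ∀ q : ℕ, ∃ x : ℕ × ℕ, (1 ≤ q → x.1.Coprime q) ∧ x.2 ≤ N ∧ (1 ≤ q → ∀ u y : ℕ, u.Coprime q → y ≤ N →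
      ‖ES z q u y α‖ ≤ ‖ES z q x.1 x.2 α‖) := by
    intro q
    by_cases hq : 1 ≤ q
    · obtain ⟨x, hx, hmax⟩ := exists_max_image (((range q).filter (fun u => u.Coprime q)) ×ˢ (range (N + 1)))
        (fun x => ‖ES z q x.1 x.2 α‖) ⟨(1 % q, 0), by
          rw [mem_product, mem_filter, mem_range, mem_range]
          refine ⟨⟨Nat.mod_lt _ hq, ?_⟩, by simp⟩
          simp only
          unfold Nat.Coprime
          rw [← Nat.gcd_rec, Nat.gcd_one_right]⟩
      rw [mem_product, mem_filter, mem_range, mem_range] at hx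
      refine ⟨x, fun _ => hx.1.2, by omega, fun _ u y hu hy => ?_⟩
      rw [← ES_mod z q u y α]
      apply hmax (u % q, y)
      rw [mem_product, mem_filter, mem_range, mem_range]
      refine ⟨⟨Nat.mod_lt _ hq, ?_⟩, by simp only; omega⟩
      simp only
      unfold Nat.Coprime at hu ⊢
      rw [← Nat.gcd_rec, Nat.gcd_comm]
      exact hu
    · exact ⟨(0, 0), fun h => absurd h hq, Nat.zero_le _, fun h => absurd h hq⟩
  choose x hx1 hx2 hx3 using hex
  refine ⟨fun q => ‖ES z q (x q).1 (x q).2 α‖, fun q => norm_nonneg _, fun q hq u y hu hy => hx3 q hq u y hu hy, ?_⟩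
  exact h1 N hN z hz1 hz2 α (fun q => (x q).1) (fun q => (x q).2) (fun q hq => hx1 q hq) hx2

section inner
variable {k : ℕ}

/-- the roots of the forms `a + h` -/
def cneg (h : Fin k → ℕ) : Fin k → ℤ := fun l => -(h l : ℤ)

lemma dvd_cneg (h : Fin k → ℕ) (d a : ℕ) (l : Fin k) : (d : ℤ) ∣ (a : ℤ) - cneg h l ↔ d ∣ a + h l := by
  unfold cneg
  rw [sub_neg_eq_add]
  exact_mod_cast Iff.rfl

open Classical in
/-- the sum over one class -/
lemma class_sum (z q u y1 y2 hh : ℕ) (hy : y1 ≤ y2) (α : ℝ) :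
    ∑ a ∈ (Ioc y1 y2).filter (fun a => a ≡ u [MOD q]), (((pl (a + hh) - lamz z (a + hh) : ℝ)) : ℂ) * ee (a * α) =
      ee (-(hh * α)) * (ES z q (u + hh) (y2 + hh) α - ES z q (u + hh) (y1 + hh) α) := by
  have h1 : ∀ y : ℕ, ES z q (u + hh) y α = ∑ n ∈ (Icc 1 y).filter (fun n => n ≡ u + hh [MOD q]), (((pl n - lamz z n : ℝ)) : ℂ) * ee (n * α) := by
    intro y
    unfold ES
    rw [sum_filter]
    apply sum_congr rfl
    intro n _
    split_ifs <;> simp
  have h2 : (Icc 1 (y2 + hh)).filter (fun n => n ≡ u + hh [MOD q]) =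
      (Icc 1 (y1 + hh)).filter (fun n => n ≡ u + hh [MOD q]) ∪ (Ioc (y1 + hh) (y2 + hh)).filter (fun n => n ≡ u + hh [MOD q]) := by
    ext n
    simp only [mem_filter, mem_union, mem_Icc, mem_Ioc]
    constructor
    · rintro ⟨⟨h3, h4⟩, h5⟩
      by_cases h6 : n ≤ y1 + hh
      · exact Or.inl ⟨⟨h3, h6⟩, h5⟩
      · exact Or.inr ⟨⟨by omega, h4⟩, h5⟩
    · rintro (⟨⟨h3, h4⟩, h5⟩ | ⟨⟨h3, h4⟩, h5⟩)
      · exact ⟨⟨h3, by omega⟩, h5⟩
      · exact ⟨⟨by omega, h4⟩, h5⟩
  have h3 : Disjoint ((Icc 1 (y1 + hh)).filter (fun n => n ≡ u + hh [MOD q])) ((Ioc (y1 + hh) (y2 + hh)).filter (fun n => n ≡ u + hh [MOD q])) := by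
    rw [disjoint_left]
    intro n h4 h5
    rw [mem_filter, mem_Icc] at h4
    rw [mem_filter, mem_Ioc] at h5
    omega
  rw [h1, h1, h2, sum_union h3, add_sub_cancel_left, mul_sum]
  apply sum_bij (fun a _ => a + hh)
  · intro a ha
    rw [mem_filter, mem_Ioc] at ha ⊢
    exact ⟨by omega, Nat.ModEq.add_right hh ha.2⟩
  · intro a _ b _ hab
    omega
  · intro b hb
    rw [mem_filter, mem_Ioc] at hb
    refine ⟨b - hh, ?_, by omega⟩
    rw [mem_filter, mem_Ioc]
    refine ⟨by omega, ?_⟩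
    have h4 : b - hh + hh = b := by omega
    apply Nat.ModEq.add_right_cancel' hh
    rw [h4]
    exact hb.2
  · intro a _
    have : ee (a * α) = ee (-(hh * α)) * ee (((a + hh : ℕ) : ℝ) * α) := by
      rw [← ee_add]
      congr 1
      push_cast
      ring
    rw [this]
    ring

lemma pl_zero {p z n : ℕ} (hp : p ∈ pz z) (hn : z < n) (hd : p ∣ n) : pl n - lamz z n = 0 := by
  have h1 := mem_pz.1 hp
  have h2 : ¬ n.Prime := by
    intro h
    rcases (Nat.dvd_prime h).1 hd with h3 | h3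
    · exact h1.2.one_lt.ne' h3
    · omega
  have h3 : ¬ (∀ p ∈ pz z, ¬ p ∣ n) := fun h => h p hp hd
  unfold pl lamz
  rw [if_neg h2, if_neg h3, sub_zero]

/-- divisibility of two forms -/
lemma two_forms {z : ℕ} {h : Fin k → ℕ} (hinj : Function.Injective h) (hz : ∀ l, h l ≤ z) {p a : ℕ} (hp : z < p) {l m : Fin k}
    (h1 : p ∣ a + h l) (h2 : p ∣ a + h m) : l = m := by
  by_contra hne
  have h3 : h l ≠ h m := fun h => hne (hinj h)
  have h4 := hz l
  have h5 := hz m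
  rcases Nat.lt_or_gt_of_ne h3 with h6 | h6
  · have h7 := Nat.dvd_sub h2 h1
    have h8 : a + h m - (a + h l) = h m - h l := by omega
    rw [h8] at h7
    have := Nat.le_of_dvd (by omega) h7
    omega
  · have h7 := Nat.dvd_sub h1 h2
    have h8 : a + h l - (a + h m) = h l - h m := by omega
    rw [h8] at h7
    have := Nat.le_of_dvd (by omega) h7
    omega

open Classical in
/-- the exponential sum over the integers satisfying the system -/
lemma inner_bound (z N y1 y2 : ℕ) (h : Fin k → ℕ) (hinj : Function.Injective h) (hz : ∀ l, h l ≤ z) (i : Fin k)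
    (S : Finset ℕ) (hS : S ⊆ pz z) (D : Fin k → ℕ) (hD : ∀ l, 1 ≤ D l) (hr : ∀ l, ∀ p ∈ pz z, ¬ p ∣ D l)
    (hcop : ∀ l m, l ≠ m → (D l).Coprime (D m)) (hDi : D i = 1) (hy1 : z ≤ y1) (hy : y1 ≤ y2) (hyN : y2 + z ≤ N) (α : ℝ) (M : ℕ → ℝ)
    (hM0 : ∀ q, 0 ≤ M q) (hM : ∀ q, 1 ≤ q → ∀ u y : ℕ, u.Coprime q → y ≤ N → ‖ES z q u y α‖ ≤ M q) :
    ‖∑ a ∈ (Ioc y1 y2).filter (fun a => Hit (cneg h) D a ∧ ∀ p ∈ S, Som (cneg h) p a),
      (((pl (a + h i) - lamz z (a + h i) : ℝ)) : ℂ) * ee (a * α)‖ ≤ (k : ℝ) ^ S.card * (2 * M ((∏ p ∈ S, p) * ∏ l, D l)) := by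
  obtain ⟨u0, hu0⟩ := hit_class (cneg h) D hD hcop
  have hSp : ∀ p ∈ S, p.Prime := fun p hp => (mem_pz.1 (hS hp)).2
  obtain ⟨q0, hq0⟩ : ∃ q0, q0 = ∏ l, D l := ⟨_, rfl⟩
  rw [← hq0] at hu0 ⊢
  have hq01 : 1 ≤ q0 := by rw [hq0]; exact Nat.pos_of_ne_zero (prod_ne_zero_iff.2 fun l _ => by have := hD l; omega)
  have hcard := crt_aux (fun p a => Som (cneg h) p a) S hSp q0 hq01 (fun p hp => by rw [hq0]; exact prime_ndvd_prod D p (hSp p hp) (fun l => hr l p (hS hp))) u0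
  obtain ⟨q, hq⟩ : ∃ q, q = (∏ p ∈ S, p) * q0 := ⟨_, rfl⟩
  have hS1 : 1 ≤ ∏ p ∈ S, p := Nat.pos_of_ne_zero (prod_ne_zero_iff.2 fun p hp => (hSp p hp).ne_zero)
  have hq1 : 1 ≤ q := by rw [hq]; exact Nat.mul_pos hS1 hq01
  rw [← hq]
  set C := (range (q0 * ∏ p ∈ S, p)).filter (fun n => n ≡ u0 [MOD q0] ∧ ∀ p ∈ S, Som (cneg h) p (n % p)) with hC
  have hCcard : (C.card : ℝ) ≤ (k : ℝ) ^ S.card := by
    have h1 : C.card ≤ k ^ S.card := by
      rw [hcard]
      calc ∏ p ∈ S, ((range p).filter (fun a => Som (cneg h) p a)).card ≤ ∏ _p ∈ S, k := by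
            apply prod_le_prod' 
            intro p _
            have := nu_le_card (cneg h) p
            rw [Fintype.card_fin] at this
            exact this
        _ = k ^ S.card := by rw [prod_const]
    exact_mod_cast h1
  have hqq : q0 * ∏ p ∈ S, p = q := by rw [hq, mul_comm]
  rw [hqq] at hC
  have hpq : ∀ p ∈ S, p ∣ q := fun p hp => by rw [hq]; exact (dvd_prod_of_mem (fun p => p) hp).mul_right _
  -- fibres
  have h1 : ∑ a ∈ (Ioc y1 y2).filter (fun a => Hit (cneg h) D a ∧ ∀ p ∈ S, Som (cneg h) p a),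
      (((pl (a + h i) - lamz z (a + h i) : ℝ)) : ℂ) * ee (a * α) =
      ∑ u ∈ C, ∑ a ∈ (Ioc y1 y2).filter (fun a => a ≡ u [MOD q]), (((pl (a + h i) - lamz z (a + h i) : ℝ)) : ℂ) * ee (a * α) := by
    rw [← sum_fiberwise_of_maps_to (t := C) (g := fun a => a % q)]
    · apply sum_congr rfl
      intro u hu
      rw [hC, mem_filter, mem_range] at hu
      apply sum_congr _ fun _ _ => rfl
      ext a
      rw [mem_filter, mem_filter, mem_filter]
      have e1 : a % q = u ↔ a ≡ u [MOD q] := by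
        unfold Nat.ModEq
        rw [Nat.mod_eq_of_lt hu.1]
      rw [e1]
      constructor
      · rintro ⟨⟨h2, _⟩, h3⟩
        exact ⟨h2, h3⟩
      · rintro ⟨h2, h3⟩
        refine ⟨⟨h2, ?_, ?_⟩, h3⟩
        · rw [hu0]
          exact (h3.of_dvd (by rw [hq]; exact Dvd.intro_left _ rfl)).trans hu.2.1
        · intro p hp
          rw [← som_mod]
          have h4 : a % p = u % p := h3.of_dvd (hpq p hp)
          rw [h4]
          exact hu.2.2 p hp
    · intro a ha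
      rw [mem_filter] at ha
      rw [hC, mem_filter, mem_range]
      refine ⟨Nat.mod_lt _ hq1, ?_, ?_⟩
      · have h4 : a ≡ u0 [MOD q0] := (hu0 a).1 ha.2.1
        exact ((Nat.mod_modEq a q).of_dvd (by rw [hq]; exact Dvd.intro_left _ rfl)).trans h4
      · intro p hp
        rw [Nat.mod_mod_of_dvd _ (hpq p hp), som_mod]
        exact ha.2.2 p hp
  rw [h1]
  refine (norm_sum_le _ _).trans ?_
  have h2 : ∀ u ∈ C, ‖∑ a ∈ (Ioc y1 y2).filter (fun a => a ≡ u [MOD q]), (((pl (a + h i) - lamz z (a + h i) : ℝ)) : ℂ) * ee (a * α)‖ ≤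
      2 * M q := by
    intro u hu
    rw [hC, mem_filter, mem_range] at hu
    by_cases hcu : (u + h i).Coprime q
    · rw [class_sum z q u y1 y2 (h i) hy α, norm_mul, norm_ee, one_mul]
      have hi := hz i
      have k1 := hM q hq1 (u + h i) (y2 + h i) hcu (by omega)
      have k2 := hM q hq1 (u + h i) (y1 + h i) hcu (by omega)
      have := norm_sub_le (ES z q (u + h i) (y2 + h i) α) (ES z q (u + h i) (y1 + h i) α)
      linarith
    · rw [sum_eq_zero, norm_zero]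
      · have := hM0 q; linarith
      · intro a ha
        rw [mem_filter, mem_Ioc] at ha
        -- a prime dividing both
        obtain ⟨p, hp, hp1, hp2⟩ : ∃ p, p.Prime ∧ p ∣ u + h i ∧ p ∣ q := by
          have h3 : Nat.gcd (u + h i) q ≠ 1 := hcu
          obtain ⟨p, hp, hpd⟩ := Nat.exists_prime_and_dvd h3
          exact ⟨p, hp, hpd.trans (Nat.gcd_dvd_left _ _), hpd.trans (Nat.gcd_dvd_right _ _)⟩
        have hpa : p ∣ a + h i := by
          have h4 : a + h i ≡ u + h i [MOD p] := (Nat.ModEq.add_right (h i) ha.2).of_dvd hp2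
          exact (h4.dvd_iff dvd_rfl).2 hp1
        by_cases hpz : p ≤ z
        · rw [pl_zero (mem_pz.2 ⟨hpz, hp⟩) (by omega) hpa]; simp
        · exfalso
          -- `p` divides some `D l`
          rw [hq] at hp2
          rcases (Nat.Prime.dvd_mul hp).1 hp2 with h4 | h4
          · obtain ⟨p', hp', hd⟩ := (Prime.dvd_finsetProd_iff hp.prime (fun p => p)).1 h4
            rw [Nat.prime_dvd_prime_iff_eq hp (hSp p' hp')] at hd
            have := (mem_pz.1 (hS hp')).1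
            omega
          · rw [hq0] at h4
            obtain ⟨l, _, hl⟩ := (Prime.dvd_finsetProd_iff hp.prime D).1 h4
            have h5 : Hit (cneg h) D u := (hu0 u).2 hu.2.1
            have h6 : p ∣ u + h l := hl.trans ((dvd_cneg h (D l) u l).1 (h5 l))
            have h7 := two_forms hinj hz (by omega : z < p) hp1 h6
            rw [← h7, hDi] at hl
            exact hp.one_lt.ne' (Nat.dvd_one.1 hl)
  refine (sum_le_sum h2).trans ?_
  rw [sum_const, nsmul_eq_mul]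
  exact mul_le_mul_of_nonneg_right hCcard (by have := hM0 q; linarith)

end inner

end Pool.Agent.L0h42.TB
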