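import Mathlib
import Pool.Agent.L0h42.TB.B8
import Pool.Agent.L0h42.TB.B10
import Pool.Agent.H373R2.T7.Lin
import Pool.Agent.H373R2.T7.Minor
import Pool.Agent.H373R2.T7.LamZ2
import Pool.Agent.H442R2.KF.BvY
import Pool.Agent.H373R2.T7.SupE2
import Pool.Agent.H373R2.T7.Cnt
import Pool.Agent.R311.DEH.A1
import Pool.Agent.Helper256.KM.Mertens
import Pool.Agent.W23.UBb
import Pool.Agent.H373R2.T7.Crt

/-! The joint system of forms. -/

set_option autoImplicit false
set_option linter.unusedSectionVars false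

namespace Pool.Agent.L0h42.TB
open Finset
open Pool.Agent.H807R2.Dav
open Pool.Agent.H373R2.T7

section gen
variable {κ : Type*} [Fintype κ] [DecidableEq κ]

/-- a common factor of two of the numbers -/
def Conf (x : (κ → ℕ) × (κ → ℕ)) : Prop := ¬ ∀ u v, u ≠ v → (lc x u).Coprime (lc x v)

open Classical in
/-- the conflicts contribute little -/
lemma conf_sum (z R : ℕ) (hz : 1 ≤ z) (hR : 1 ≤ R) :
    ∑ x ∈ (PD κ z R ×ˢ PD κ z R).filter (fun x => Conf x), (1 : ℝ) / (∏ l, lc x l : ℕ) ≤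
      (Fintype.card κ : ℝ) ^ 2 * (9 / z) * ((1 + Real.log R) ^ 3) ^ (Fintype.card κ) := by
  have hlR : 0 ≤ Real.log R := Real.log_natCast_nonneg R
  set T := (1 + Real.log R) ^ 3 with hT
  have hT0 : 0 ≤ T := by positivity
  set P := (Ioc z R).filter Nat.Prime with hP
  -- one pair and one prime
  have h1 : ∀ u v : κ, u ≠ v → ∀ p ∈ P, ∑ x ∈ PD κ z R ×ˢ PD κ z R, (if p ∣ lc x u ∧ p ∣ lc x v then (1 : ℝ) / (∏ l, lc x l : ℕ) else 0) ≤
      T ^ (Fintype.card κ) * (3 / p * (3 / p)) := by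
    intro u v huv p hp
    rw [hP, mem_filter] at hp
    have hp0 : (0 : ℝ) < p := by exact_mod_cast hp.2.pos
    have e1 : ∀ x : (κ → ℕ) × (κ → ℕ), (if p ∣ lc x u ∧ p ∣ lc x v then (1 : ℝ) / (∏ l, lc x l : ℕ) else 0) =
        ∏ w, (1 / (Nat.lcm (x.1 w) (x.2 w) : ℝ) * ((if w = u then (if p ∣ Nat.lcm (x.1 w) (x.2 w) then 1 else 0) else 1) *
          (if w = v then (if p ∣ Nat.lcm (x.1 w) (x.2 w) then 1 else 0) else 1))) := by
      intro x
      rw [prod_mul_distrib, prod_mul_distrib, prod_ite_eq' univ u, prod_ite_eq' univ v, if_pos (mem_univ u), if_pos (mem_univ v)]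
      have e2 : ∏ w, 1 / (Nat.lcm (x.1 w) (x.2 w) : ℝ) = (1 : ℝ) / (∏ l, lc x l : ℕ) := by
        unfold lc
        push_cast
        rw [one_div, ← prod_inv_distrib]
        exact prod_congr rfl fun w _ => one_div _
      rw [e2]
      unfold lc
      by_cases h1 : p ∣ Nat.lcm (x.1 u) (x.2 u) <;> by_cases h2 : p ∣ Nat.lcm (x.1 v) (x.2 v) <;> simp [h1, h2]
    rw [sum_congr rfl fun x _ => e1 x, sum_product]
    rw [pi2 z R (fun w d e => 1 / (Nat.lcm d e : ℝ) * ((if w = u then (if p ∣ Nat.lcm d e then 1 else 0) else 1) *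
          (if w = v then (if p ∣ Nat.lcm d e then 1 else 0) else 1)))]
    have e3 : ∏ w : κ, (T * ((if w = u then 3 / (p : ℝ) else 1) * (if w = v then 3 / (p : ℝ) else 1))) = T ^ (Fintype.card κ) * (3 / p * (3 / p)) := by
      rw [prod_mul_distrib, prod_mul_distrib, prod_ite_eq' univ u, prod_ite_eq' univ v, if_pos (mem_univ u), if_pos (mem_univ v),
        prod_const, card_univ]
    rw [← e3]
    have hsub : RR z R ⊆ Icc 1 R := filter_subset _ _
    apply prod_le_prod
    · intro w _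
      apply sum_nonneg; intro d _
      apply sum_nonneg; intro e _
      apply mul_nonneg (by positivity)
      apply mul_nonneg <;> split_ifs <;> norm_num
    · intro w _
      rw [← sum_product']
      have g1 : ∑ x ∈ RR z R ×ˢ RR z R, (1 / (Nat.lcm x.1 x.2 : ℝ) * ((if w = u then (if p ∣ Nat.lcm x.1 x.2 then 1 else 0) else 1) *
          (if w = v then (if p ∣ Nat.lcm x.1 x.2 then 1 else 0) else 1))) ≤
          ∑ x ∈ Icc 1 R ×ˢ Icc 1 R, (1 / (Nat.lcm x.1 x.2 : ℝ) * ((if w = u then (if p ∣ Nat.lcm x.1 x.2 then 1 else 0) else 1) *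
          (if w = v then (if p ∣ Nat.lcm x.1 x.2 then 1 else 0) else 1))) := by
        apply sum_le_sum_of_subset_of_nonneg (product_subset_product hsub hsub)
        intro x _ _
        apply mul_nonneg (by positivity)
        apply mul_nonneg <;> split_ifs <;> norm_num
      refine g1.trans ?_
      by_cases hwu : w = u
      · have hwv : w ≠ v := fun h => huv (hwu.symm.trans h)
        simp only [if_pos hwu, if_neg hwv, mul_one]
        have g2 := lcm_sum_p R p hp.2
        rw [sum_filter] at g2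
        calc _ = ∑ x ∈ Icc 1 R ×ˢ Icc 1 R, (if p ∣ Nat.lcm x.1 x.2 then (1 : ℝ) / (Nat.lcm x.1 x.2) else 0) := by
              apply sum_congr rfl
              intro x _
              split_ifs <;> simp
          _ ≤ 3 / p * T := g2
          _ = _ := by ring
      · by_cases hwv : w = v
        · simp only [if_neg hwu, if_pos hwv, one_mul]
          have g2 := lcm_sum_p R p hp.2
          rw [sum_filter] at g2
          calc _ = ∑ x ∈ Icc 1 R ×ˢ Icc 1 R, (if p ∣ Nat.lcm x.1 x.2 then (1 : ℝ) / (Nat.lcm x.1 x.2) else 0) := by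
                apply sum_congr rfl
                intro x _
                split_ifs <;> simp
            _ ≤ 3 / p * T := g2
            _ = _ := by ring
        · simp only [if_neg hwu, if_neg hwv, mul_one]
          exact lcm_sum R
  -- the union
  have h2 : ∑ x ∈ (PD κ z R ×ˢ PD κ z R).filter (fun x => Conf x), (1 : ℝ) / (∏ l, lc x l : ℕ) ≤
      ∑ x ∈ PD κ z R ×ˢ PD κ z R, ∑ u : κ, ∑ v ∈ univ.filter (fun v => u ≠ v), ∑ p ∈ P, (if p ∣ lc x u ∧ p ∣ lc x v then (1 : ℝ) / (∏ l, lc x l : ℕ) else 0) := by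
    rw [sum_filter]
    apply sum_le_sum
    intro x hx
    rw [mem_product] at hx
    have hn : ∀ u v : κ, ∀ p : ℕ, 0 ≤ (if p ∣ lc x u ∧ p ∣ lc x v then (1 : ℝ) / (∏ l, lc x l : ℕ) else 0) := by
      intro u v p
      split_ifs
      · positivity
      · exact le_rfl
    split_ifs with hc
    · unfold Conf at hc
      push Not at hc
      obtain ⟨u, v, huv, hne⟩ := hc
      obtain ⟨p, hp, hpd⟩ := Nat.exists_prime_and_dvd hne
      have h3 : p ∣ lc x u := hpd.trans (Nat.gcd_dvd_left _ _)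
      have h4 : p ∣ lc x v := hpd.trans (Nat.gcd_dvd_right _ _)
      have hpP : p ∈ P := by
        rw [hP, mem_filter, mem_Ioc]
        refine ⟨⟨?_, ?_⟩, hp⟩
        · by_contra hcon
          exact (lc_rough hx.1 hx.2).2.1 u p (mem_pz.2 ⟨by omega, hp⟩) h3
        · unfold lc at h3
          rcases (Nat.Prime.dvd_lcm hp).1 h3 with h | h
          · have := mem_RR.1 (mem_PD.1 hx.1 u)
            exact (Nat.le_of_dvd (by omega) h).trans this.1.2
          · have := mem_RR.1 (mem_PD.1 hx.2 u)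
            exact (Nat.le_of_dvd (by omega) h).trans this.1.2
      calc (1 : ℝ) / (∏ l, lc x l : ℕ) = (if p ∣ lc x u ∧ p ∣ lc x v then (1 : ℝ) / (∏ l, lc x l : ℕ) else 0) := by rw [if_pos ⟨h3, h4⟩]
        _ ≤ ∑ p ∈ P, (if p ∣ lc x u ∧ p ∣ lc x v then (1 : ℝ) / (∏ l, lc x l : ℕ) else 0) :=
            single_le_sum (f := fun p => (if p ∣ lc x u ∧ p ∣ lc x v then (1 : ℝ) / (∏ l, lc x l : ℕ) else 0)) (fun p _ => hn u v p) hpP
        _ ≤ ∑ v ∈ univ.filter (fun v => u ≠ v), ∑ p ∈ P, (if p ∣ lc x u ∧ p ∣ lc x v then (1 : ℝ) / (∏ l, lc x l : ℕ) else 0) :=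
            single_le_sum (f := fun v => ∑ p ∈ P, (if p ∣ lc x u ∧ p ∣ lc x v then (1 : ℝ) / (∏ l, lc x l : ℕ) else 0))
              (fun v _ => sum_nonneg fun p _ => hn u v p) (mem_filter.2 ⟨mem_univ v, huv⟩)
        _ ≤ _ := single_le_sum (f := fun u => ∑ v ∈ univ.filter (fun v => u ≠ v), ∑ p ∈ P, (if p ∣ lc x u ∧ p ∣ lc x v then (1 : ℝ) / (∏ l, lc x l : ℕ) else 0))
              (fun u _ => sum_nonneg fun v _ => sum_nonneg fun p _ => hn u v p) (mem_univ u)
    · exact sum_nonneg fun u _ => sum_nonneg fun v _ => sum_nonneg fun p _ => hn u v p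
  refine h2.trans ?_
  rw [sum_comm]
  have h3 : ∀ u ∈ (univ : Finset κ), ∑ x ∈ PD κ z R ×ˢ PD κ z R, ∑ v ∈ univ.filter (fun v => u ≠ v), ∑ p ∈ P, (if p ∣ lc x u ∧ p ∣ lc x v then (1 : ℝ) / (∏ l, lc x l : ℕ) else 0) ≤
      Fintype.card κ * (9 / z * T ^ (Fintype.card κ)) := by
    intro u _
    rw [sum_comm]
    have h4 : ∀ v ∈ univ.filter (fun v => u ≠ v), ∑ x ∈ PD κ z R ×ˢ PD κ z R, ∑ p ∈ P, (if p ∣ lc x u ∧ p ∣ lc x v then (1 : ℝ) / (∏ l, lc x l : ℕ) else 0) ≤
        9 / z * T ^ (Fintype.card κ) := by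
      intro v hv
      rw [mem_filter] at hv
      rw [sum_comm]
      refine (sum_le_sum fun p hp => h1 u v hv.2 p hp).trans ?_
      rw [← mul_sum, mul_comm]
      apply mul_le_mul_of_nonneg_right _ (by positivity)
      by_cases hzR : z ≤ R
      · calc ∑ p ∈ P, 3 / (p : ℝ) * (3 / p) = 9 * ∑ p ∈ P, ((p : ℝ) ^ 2)⁻¹ := by
              rw [mul_sum]
              apply sum_congr rfl
              intro p _
              ring
          _ ≤ 9 * ∑ m ∈ Ioc z R, ((m : ℝ) ^ 2)⁻¹ := by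
              apply mul_le_mul_of_nonneg_left _ (by norm_num)
              exact sum_le_sum_of_subset_of_nonneg (filter_subset _ _) fun _ _ _ => by positivity
          _ ≤ 9 * ((z : ℝ)⁻¹ - (R : ℝ)⁻¹) := by
              apply mul_le_mul_of_nonneg_left _ (by norm_num)
              exact sum_Ioc_inv_sq_le_sub (by omega) hzR
          _ ≤ 9 / z := by
              have : (0 : ℝ) ≤ (R : ℝ)⁻¹ := by positivity
              rw [div_eq_mul_inv]
              linarith
      · have : P = ∅ := by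
          rw [hP, filter_eq_empty_iff]
          intro p hp
          rw [mem_Ioc] at hp
          omega
        rw [this, sum_empty]
        positivity
    refine (sum_le_sum h4).trans ?_
    rw [sum_const, nsmul_eq_mul]
    apply mul_le_mul_of_nonneg_right _ (by positivity)
    have : (univ.filter (fun v => u ≠ v)).card ≤ Fintype.card κ := card_le_univ _
    exact_mod_cast this
  refine (sum_le_sum h3).trans (le_of_eq ?_)
  rw [sum_const, card_univ, nsmul_eq_mul]
  ring

end gen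

section joint
variable {k : ℕ}

/-- the roots of the forms `a + h` and `n - a + h'` -/
def cj (h h' : Fin k → ℕ) (n : ℕ) : Fin k ⊕ Fin k → ℤ := Sum.elim (cneg h) (fun l => (n : ℤ) + h' l)

/-- the product weight -/
def Lj (Λ Λ' : (Fin k → ℕ) → ℝ) (δ : Fin k ⊕ Fin k → ℕ) : ℝ := Λ (fun l => δ (Sum.inl l)) * Λ' (fun l => δ (Sum.inr l))

lemma refl_dvd (d a n hh : ℕ) (han : a ≤ n) : (d : ℤ) ∣ (a : ℤ) - ((n : ℤ) + hh) ↔ (d : ℤ) ∣ ((n - a : ℕ) : ℤ) - (-(hh : ℤ)) := by
  rw [← dvd_neg]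
  have : -((a : ℤ) - ((n : ℤ) + hh)) = ((n - a : ℕ) : ℤ) - (-(hh : ℤ)) := by
    rw [Nat.cast_sub han]; ring
  rw [this]

lemma hit_joint (h h' : Fin k → ℕ) (n a : ℕ) (han : a ≤ n) (δ : Fin k ⊕ Fin k → ℕ) :
    Hit (cj h h' n) δ a ↔ Hit (cneg h) (fun l => δ (Sum.inl l)) a ∧ Hit (cneg h') (fun l => δ (Sum.inr l)) (n - a) := by
  unfold Hit
  rw [Sum.forall]
  apply and_congr
  · exact Iff.rfl
  · apply forall_congr'
    intro l
    exact refl_dvd _ _ _ _ han

lemma som_joint (h h' : Fin k → ℕ) (n a : ℕ) (han : a ≤ n) (p : ℕ) :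
    Som (cj h h' n) p a ↔ Som (cneg h) p a ∨ Som (cneg h') p (n - a) := by
  unfold Som
  rw [Sum.exists]
  apply or_congr
  · exact Iff.rfl
  · apply exists_congr
    intro l
    exact refl_dvd _ _ _ _ han

lemma sum_PD_sum (z R : ℕ) (f : (Fin k ⊕ Fin k → ℕ) → ℝ) :
    ∑ δ ∈ PD (Fin k ⊕ Fin k) z R, f δ = ∑ d ∈ PD (Fin k) z R, ∑ e ∈ PD (Fin k) z R, f (Sum.elim d e) := by
  rw [← sum_product']
  apply sum_nbij' (fun δ => ((fun l => δ (Sum.inl l)), (fun l => δ (Sum.inr l)))) (fun x => Sum.elim x.1 x.2)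
  · intro δ hδ
    rw [mem_product]
    exact ⟨mem_PD.2 fun l => mem_PD.1 hδ _, mem_PD.2 fun l => mem_PD.1 hδ _⟩
  · intro x hx
    rw [mem_product] at hx
    rw [mem_PD]
    rintro (l | l)
    · exact mem_PD.1 hx.1 l
    · exact mem_PD.1 hx.2 l
  · intro δ _
    funext l
    rcases l with l | l <;> rfl
  · intro x _
    rfl
  · intro δ _
    congr 1
    funext l
    rcases l with l | l <;> rfl

lemma SS_joint (z R : ℕ) (Λ Λ' : (Fin k → ℕ) → ℝ) (h h' : Fin k → ℕ) (n a : ℕ) (han : a ≤ n) :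
    SS z R (Lj Λ Λ') (cj h h' n) a = SS z R Λ (cneg h) a * SS z R Λ' (cneg h') (n - a) := by
  classical
  unfold SS
  rw [sum_PD_sum, sum_mul_sum]
  apply sum_congr rfl
  intro d _
  apply sum_congr rfl
  intro e _
  unfold Lj
  have h1 : Hit (cj h h' n) (Sum.elim d e) a ↔ Hit (cneg h) d a ∧ Hit (cneg h') e (n - a) := hit_joint h h' n a han _
  simp only [Sum.elim_inl, Sum.elim_inr]
  by_cases h2 : Hit (cneg h) d a <;> by_cases h3 : Hit (cneg h') e (n - a) <;> simp [h1, h2, h3]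

lemma Gr_joint (z : ℕ) (h h' : Fin k → ℕ) (n a : ℕ) (han : a ≤ n) :
    Gr z (cj h h' n) a = Gr z (cneg h) a * Gr z (cneg h') (n - a) := by
  classical
  unfold Gr
  have h1 : Rgh z (cj h h' n) a ↔ Rgh z (cneg h) a ∧ Rgh z (cneg h') (n - a) := by
    unfold Rgh
    rw [← forall_and]
    apply forall_congr'
    intro p
    rw [← imp_and]
    apply imp_congr_right
    intro _
    rw [som_joint h h' n a han p, not_or]
  by_cases h2 : Rgh z (cneg h) a <;> by_cases h3 : Rgh z (cneg h') (n - a) <;> simp [h1, h2, h3]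

lemma Qf_joint (z R : ℕ) (Λ Λ' : (Fin k → ℕ) → ℝ) : Qf z R (Lj Λ Λ') = Qf z R Λ * Qf z R Λ' := by
  unfold Qf
  rw [sum_PD_sum, sum_mul_sum]
  apply sum_congr rfl
  intro d _
  apply sum_congr rfl
  intro d' _
  rw [sum_PD_sum, sum_mul_sum]
  apply sum_congr rfl
  intro e _
  apply sum_congr rfl
  intro e' _
  unfold Lj
  rw [Fintype.prod_sum_type]
  simp only [Sum.elim_inl, Sum.elim_inr]
  ring

end joint

end Pool.Agent.L0h42.TB
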