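import Mathlib
import Pool.Agent.L0h42.TB.B15
import Pool.Agent.H373R2.T7.Lin
import Pool.Agent.H373R2.T7.Minor
import Pool.Agent.H373R2.T7.LamZ2
import Pool.Agent.H442R2.KF.BvY
import Pool.Agent.H373R2.T7.SupE2
import Pool.Agent.H373R2.T7.Cnt
import Pool.Agent.R311.DEH.A1
import Pool.Agent.Helper256.KM.Mertens
import Pool.Agent.W23.UBb
import Pool.Agent.H373R2.T7.Crt

/-! The lower bound for the local product. -/

set_option autoImplicit false
set_option linter.unusedSectionVars false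

namespace Pool.Agent.L0h42.TB
open Finset
open Pool.Agent.H373R2.T7

section low
variable {k : ℕ}

/-- small primes exclude at most two classes -/
lemma nu_small (hk : 1 ≤ k) (h h' : Fin k → ℕ) (n p : ℕ) (hp : p.Prime) (hd : ∀ l, p ∣ h l) (hd' : ∀ l, p ∣ h' l) :
    nu (cj h h' n) p ≤ 2 ∧ (p ∣ n → nu (cj h h' n) p ≤ 1) := by
  classical
  have hp0 := hp.pos
  have key : ∀ r, r < p → Som (cj h h' n) p r → r = 0 ∨ r = n % p := by
    intro r hr hS
    obtain ⟨x, hx⟩ := hS
    rcases x with l | l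
    · left
      have h1 : p ∣ r + h l := (dvd_cneg h p r l).1 hx
      have h2 : p ∣ r := (Nat.dvd_add_left (hd l)).1 h1
      exact Nat.eq_zero_of_dvd_of_lt h2 hr
    · right
      have h1 : (p : ℤ) ∣ (r : ℤ) - ((n : ℤ) + h' l) := hx
      have h2 : (p : ℤ) ∣ (h' l : ℤ) := by exact_mod_cast hd' l
      have h3 : (p : ℤ) ∣ (r : ℤ) - n := by
        have := dvd_add h1 h2
        have e : (r : ℤ) - ((n : ℤ) + h' l) + h' l = r - n := by ring
        rwa [e] at this
      have h4 : n ≡ r [MOD p] := (Nat.modEq_iff_dvd).2 h3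
      have h5 : n % p = r % p := h4
      rw [Nat.mod_eq_of_lt hr] at h5
      exact h5.symm
  unfold nu
  constructor
  · have hsub : (range p).filter (fun r : ℕ => Som (cj h h' n) p r) ⊆ {0, n % p} := by
      intro r hr
      rw [mem_filter, mem_range] at hr
      rw [mem_insert, mem_singleton]
      exact key r hr.1 hr.2
    refine le_trans (le_of_eq ?_) ((card_le_card hsub).trans card_le_two)
    congr
  · intro hpn
    have hsub : (range p).filter (fun r : ℕ => Som (cj h h' n) p r) ⊆ {0} := by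
      intro r hr
      rw [mem_filter, mem_range] at hr
      rw [mem_singleton]
      rcases key r hr.1 hr.2 with h1 | h1
      · exact h1
      · rw [h1]; exact Nat.mod_eq_zero_of_dvd hpn
    refine le_trans (le_of_eq ?_) ((card_le_card hsub).trans (by simp))
    congr

lemma exp_ineq {x : ℝ} (h0 : 0 ≤ x) (h1 : x ≤ 1 / 2) : Real.exp (-(2 * x)) ≤ 1 - x := by
  have h2 : 1 + 2 * x ≤ Real.exp (2 * x) := by have := Real.add_one_le_exp (2 * x); linarith
  rw [Real.exp_neg]
  have h3 : 0 < 1 + 2 * x := by linarith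
  calc (Real.exp (2 * x))⁻¹ ≤ (1 + 2 * x)⁻¹ := inv_anti₀ h3 h2
    _ ≤ 1 - x := by
        rw [inv_le_iff_one_le_mul₀ h3]
        nlinarith

/-- the lower bound for one factor -/
lemma factor_low (hk : 1 ≤ k) (h h' : Fin k → ℕ) (n p : ℕ) (hp : p.Prime) (hn : Even n) (hd : p ≤ 2 * k → ∀ l, p ∣ h l) (hd' : p ≤ 2 * k → ∀ l, p ∣ h' l) :
    (if p < 4 * k then 1 / (4 * (k : ℝ)) else 1) * (1 - 1 / (p : ℝ)) ^ (4 * k) ≤ 1 - (nu (cj h h' n) p : ℝ) / p := by
  have hk0 : (1 : ℝ) ≤ k := by exact_mod_cast hk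
  have hp2 : (2 : ℝ) ≤ p := by exact_mod_cast hp.two_le
  have hp0 : (0 : ℝ) < p := by linarith
  have hq0 := one_sub_pos hp
  have hq1 : 1 - 1 / (p : ℝ) ≤ 1 := by
    have : (0 : ℝ) ≤ 1 / (p : ℝ) := by positivity
    linarith
  have hqp : (1 - 1 / (p : ℝ)) ^ (4 * k) ≤ 1 := pow_le_one₀ hq0.le hq1
  have hcard : nu (cj h h' n) p ≤ 2 * k := by
    have := nu_le_card (cj h h' n) p
    have e : Fintype.card (Fin k ⊕ Fin k) = 2 * k := by simp; omega
    rwa [e] at this
  split_ifs with h4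
  · -- `p < 4 k`: the factor is at least `1 / (4k)`
    have h5 : 1 / (4 * (k : ℝ)) ≤ 1 - (nu (cj h h' n) p : ℝ) / p := by
      have h6 : nu (cj h h' n) p + 1 ≤ p := by
        by_cases hp2k : p ≤ 2 * k
        · have h7 := nu_small hk h h' n p hp (hd hp2k) (hd' hp2k)
          rcases Nat.eq_or_lt_of_le hp.two_le with h8 | h8
          · have := h7.2 (by rw [← h8]; exact hn.two_dvd)
            omega
          · have := h7.1
            omega
        · omega
      have h7 : ((nu (cj h h' n) p : ℝ)) + 1 ≤ p := by exact_mod_cast h6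
      have h8 : (p : ℝ) ≤ 4 * k := by exact_mod_cast h4.le
      calc 1 / (4 * (k : ℝ)) ≤ 1 / p := one_div_le_one_div_of_le hp0 h8
        _ ≤ 1 - (nu (cj h h' n) p : ℝ) / p := by
            rw [div_le_iff₀ hp0, sub_mul, one_mul, div_mul_cancel₀ _ hp0.ne']
            linarith
    calc 1 / (4 * (k : ℝ)) * (1 - 1 / (p : ℝ)) ^ (4 * k) ≤ 1 / (4 * (k : ℝ)) * 1 := mul_le_mul_of_nonneg_left hqp (by positivity)
      _ = 1 / (4 * (k : ℝ)) := mul_one _
      _ ≤ _ := h5
  · rw [one_mul]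
    have h5 : 4 * (k : ℝ) ≤ p := by exact_mod_cast (show 4 * k ≤ p by omega)
    have h6 : (nu (cj h h' n) p : ℝ) ≤ 2 * k := by exact_mod_cast hcard
    have h7 : 2 * (k : ℝ) / p ≤ 1 / 2 := by
      rw [div_le_iff₀ hp0]; linarith
    have h8 := exp_ineq (x := 2 * (k : ℝ) / p) (by positivity) h7
    have h9 : (1 - 1 / (p : ℝ)) ^ (4 * k) ≤ Real.exp (-(2 * (2 * (k : ℝ) / p))) := by
      have g1 : 1 - 1 / (p : ℝ) ≤ Real.exp (-(1 / (p : ℝ))) := by have := Real.add_one_le_exp (-(1 / (p : ℝ))); linarith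
      calc (1 - 1 / (p : ℝ)) ^ (4 * k) ≤ Real.exp (-(1 / (p : ℝ))) ^ (4 * k) := pow_le_pow_left₀ hq0.le g1 _
        _ = Real.exp (-(2 * (2 * (k : ℝ) / p))) := by
            rw [← Real.exp_nat_mul]
            congr 1
            push_cast
            ring
    have h10 : (nu (cj h h' n) p : ℝ) / p ≤ 2 * k / p := div_le_div_of_nonneg_right h6 hp0.le
    linarith

/-- the lower bound for the product -/
lemma VV_low (hk : 1 ≤ k) (z : ℕ) (h h' : Fin k → ℕ) (n : ℕ) (hn : Even n) (hd : ∀ p, p.Prime → p ≤ 2 * k → ∀ l, p ∣ h l)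
    (hd' : ∀ p, p.Prime → p ≤ 2 * k → ∀ l, p ∣ h' l) :
    (1 / (4 * (k : ℝ))) ^ (4 * k) * Vz z ^ (4 * k) ≤ VV z (cj h h' n) := by
  have hk0 : (1 : ℝ) ≤ k := by exact_mod_cast hk
  unfold VV
  have h1 : (1 / (4 * (k : ℝ))) ^ (4 * k) ≤ ∏ p ∈ pz z, (if p < 4 * k then 1 / (4 * (k : ℝ)) else 1) := by
    rw [← prod_filter, prod_const]
    apply pow_le_pow_of_le_one (by positivity)
    · rw [div_le_one (by positivity)]; linarith
    · have : (pz z).filter (fun p => p < 4 * k) ⊆ range (4 * k) := by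
        intro p hp
        rw [mem_filter] at hp
        exact mem_range.2 hp.2
      exact (card_le_card this).trans (by simp)
  calc (1 / (4 * (k : ℝ))) ^ (4 * k) * Vz z ^ (4 * k) ≤
        (∏ p ∈ pz z, (if p < 4 * k then 1 / (4 * (k : ℝ)) else 1)) * Vz z ^ (4 * k) :=
          mul_le_mul_of_nonneg_right h1 (pow_nonneg (Vz_pos z).le _)
    _ = ∏ p ∈ pz z, ((if p < 4 * k then 1 / (4 * (k : ℝ)) else 1) * (1 - 1 / (p : ℝ)) ^ (4 * k)) := by
        unfold Vz
        rw [← prod_pow, ← prod_mul_distrib]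
    _ ≤ _ := by
        apply prod_le_prod
        · intro p hp
          have := one_sub_pos (mem_pz.1 hp).2
          apply mul_nonneg
          · split_ifs <;> positivity
          · positivity
        · intro p hp
          have hpp := (mem_pz.1 hp).2
          exact factor_low hk h h' n p hpp hn (hd p hpp) (hd' p hpp)

end low

end Pool.Agent.L0h42.TB
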