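import Mathlib
import Pool.Agent.L0h42.TB.B8
import Pool.Agent.L0h42.TB.B10
import Pool.Agent.H373R2.T7.Lin
import Pool.Agent.H373R2.T7.Minor
import Pool.Agent.H373R2.T7.LamZ2
import Pool.Agent.H442R2.KF.BvY
import Pool.Agent.H373R2.T7.SupE2
import Pool.Agent.H373R2.T7.Cnt
import Pool.Agent.R311.DEH.A1
import Pool.Agent.Helper256.KM.Mertens
import Pool.Agent.W23.UBb
import Pool.Agent.H373R2.T7.Crt

/-! The Fourier transform of the weighted difference between the primes and their model. -/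

set_option autoImplicit false
set_option linter.unusedSectionVars false

namespace Pool.Agent.L0h42.TB
open Finset
open Pool.Agent.H807R2.Dav
open Pool.Agent.H373R2.T7

section D
variable {k : ℕ}

/-- the divisors hit by distinct forms are coprime -/
lemma hit_coprime {z R : ℕ} {h : Fin k → ℕ} (hinj : Function.Injective h) (hz : ∀ l, h l ≤ z)
    {x : (Fin k → ℕ) × (Fin k → ℕ)} (h1 : x.1 ∈ PD (Fin k) z R) (h2 : x.2 ∈ PD (Fin k) z R) {a : ℕ} (ha : Hit (cneg h) (lc x) a) :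
    ∀ l m, l ≠ m → (lc x l).Coprime (lc x m) := by
  intro l m hlm
  rw [Nat.coprime_iff_gcd_eq_one]
  by_contra hne
  obtain ⟨p, hp, hpd⟩ := Nat.exists_prime_and_dvd hne
  have h3 : p ∣ lc x l := hpd.trans (Nat.gcd_dvd_left _ _)
  have h4 : p ∣ lc x m := hpd.trans (Nat.gcd_dvd_right _ _)
  have h5 : z < p := by
    by_contra hcon
    exact (lc_rough h1 h2).2.1 l p (mem_pz.2 ⟨by omega, hp⟩) h3
  exact hlm (two_forms hinj hz h5 (h3.trans ((dvd_cneg h _ a l).1 (ha l))) (h4.trans ((dvd_cneg h _ a m).1 (ha m))))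

/-- the sum over pairs of tuples of the reciprocals of the least common multiples -/
lemma sum_lc (z R : ℕ) : ∑ x ∈ PD (Fin k) z R ×ˢ PD (Fin k) z R, (1 : ℝ) / (∏ l, lc x l : ℕ) ≤ ((1 + Real.log R) ^ 3) ^ k := by
  have h1 : ∑ x ∈ PD (Fin k) z R ×ˢ PD (Fin k) z R, (1 : ℝ) / (∏ l, lc x l : ℕ) =
      ∏ _l : Fin k, ∑ d ∈ RR z R, ∑ e ∈ RR z R, (1 : ℝ) / (Nat.lcm d e) := by
    rw [← pi2 z R (fun (_ : Fin k) d e => (1 : ℝ) / (Nat.lcm d e)), sum_product]
    apply sum_congr rfl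
    intro d _
    apply sum_congr rfl
    intro e _
    unfold lc
    push_cast
    rw [one_div, ← prod_inv_distrib]
    apply prod_congr rfl
    intro l _
    rw [one_div]
  rw [h1, prod_const, card_univ, Fintype.card_fin]
  apply pow_le_pow_left₀ (sum_nonneg fun _ _ => sum_nonneg fun _ _ => by positivity)
  refine le_trans ?_ (lcm_sum R)
  rw [sum_product]
  have hsub : RR z R ⊆ Icc 1 R := filter_subset _ _
  calc _ ≤ ∑ d ∈ RR z R, ∑ e ∈ Icc 1 R, (1 : ℝ) / (Nat.lcm d e) := by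
        apply sum_le_sum
        intro d _
        exact sum_le_sum_of_subset_of_nonneg hsub fun _ _ _ => by positivity
    _ ≤ _ := sum_le_sum_of_subset_of_nonneg hsub fun _ _ _ => sum_nonneg fun _ _ => by positivity

open Classical in
/-- the error of the truncation -/
lemma trunc_err (z R r N y1 y2 : ℕ) (h : Fin k → ℕ) (hk : 1 ≤ k) (hinj : Function.Injective h) (hz : ∀ l, h l ≤ z) (Λ : (Fin k → ℕ) → ℝ)
    (V : ℝ) (hV : 0 ≤ V) (hΛ : ∀ d ∈ PD (Fin k) z R, |Λ d| ≤ V) (hs : ∀ d, Λ d ≠ 0 → ∏ l, d l ≤ R) (hyN : y2 ≤ N) :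
    ∑ S ∈ (pz z).powersetCard r, ∑ a ∈ Ioc y1 y2, ind (cneg h) S a * SS z R Λ (cneg h) a ^ 2 ≤
      V ^ 2 * ((1 + Real.log R) ^ 3) ^ k * (N * Real.exp (3 * (k * (1 + Real.log z)) - r) + ((z : ℝ) + 1) ^ r * (k : ℝ) ^ r * (R * R)) := by
  have hkr : (1 : ℝ) ≤ k := by exact_mod_cast hk
  have h1 : ∀ S ∈ (pz z).powersetCard r, ∑ a ∈ Ioc y1 y2, ind (cneg h) S a * SS z R Λ (cneg h) a ^ 2 ≤
      V ^ 2 * ∑ x ∈ PD (Fin k) z R ×ˢ PD (Fin k) z R, (1 : ℝ) / (∏ l, lc x l : ℕ) * (N * ∏ p ∈ S, ((nu (cneg h) p : ℝ) / p) + (k : ℝ) ^ r * (R * R)) := by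
    intro S hS
    rw [mem_powersetCard] at hS
    have e := expand (E := ℝ) z R Λ (cneg h) S (Ioc y1 y2) (fun _ => (1 : ℝ))
    simp only [smul_eq_mul, mul_one] at e
    rw [e, mul_sum]
    apply sum_le_sum
    intro x hx
    rw [mem_product] at hx
    obtain ⟨hx1, hx2⟩ := hx
    have hP0 : (0 : ℝ) ≤ ∏ p ∈ S, ((nu (cneg h) p : ℝ) / p) := prod_nonneg fun _ _ => by positivity
    have hrhs : 0 ≤ V ^ 2 * ((1 : ℝ) / (∏ l, lc x l : ℕ) * (N * ∏ p ∈ S, ((nu (cneg h) p : ℝ) / p) + (k : ℝ) ^ r * (R * R))) := by positivity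
    by_cases hz1 : Λ x.1 = 0
    · rw [hz1, zero_mul, zero_mul]; exact hrhs
    by_cases hz2 : Λ x.2 = 0
    · rw [hz2, mul_zero, zero_mul]; exact hrhs
    by_cases hc : ∀ l m, l ≠ m → (lc x l).Coprime (lc x m)
    · obtain ⟨a1, a2, a3⟩ := lc_rough hx1 hx2
      have h2 := count_raw (cneg h) (lc x) z N a1 a2 hc S hS.1
      have h3 := (abs_le.1 h2).2
      have hD0 : (0 : ℝ) < (∏ l, lc x l : ℕ) := by
        have : 0 < ∏ l, lc x l := Nat.pos_of_ne_zero (prod_ne_zero_iff.2 fun l _ => by have := a1 l; omega)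
        exact_mod_cast this
      have h4 : ∏ p ∈ S, (nu (cneg h) p : ℝ) ≤ (k : ℝ) ^ r := by
        calc ∏ p ∈ S, (nu (cneg h) p : ℝ) ≤ ∏ _p ∈ S, (k : ℝ) := by
              apply prod_le_prod (fun _ _ => Nat.cast_nonneg _)
              intro p _
              have := nu_le_card (cneg h) p
              rw [Fintype.card_fin] at this
              exact_mod_cast this
          _ = (k : ℝ) ^ r := by rw [prod_const, hS.2]
      have h5 : (1 : ℝ) ≤ 1 / (∏ l, lc x l : ℕ) * (R * R) := by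
        rw [one_div_mul_eq_div, one_le_div hD0]
        have : ∏ l, lc x l ≤ R * R := (lc_prod_le x).trans (Nat.mul_le_mul (hs _ hz1) (hs _ hz2))
        exact_mod_cast this
      have h6 : ((((Ioc y1 y2).filter (fun a => Hit (cneg h) (lc x) a ∧ ∀ p ∈ S, Som (cneg h) p a)).card : ℕ) : ℝ) ≤
          1 / (∏ l, lc x l : ℕ) * (N * ∏ p ∈ S, ((nu (cneg h) p : ℝ) / p) + (k : ℝ) ^ r * (R * R)) := by
        have h7 : ((((Ioc y1 y2).filter (fun a => Hit (cneg h) (lc x) a ∧ ∀ p ∈ S, Som (cneg h) p a)).card : ℕ) : ℝ) ≤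
            ((((Icc 1 N).filter (fun a => Hit (cneg h) (lc x) a ∧ ∀ p ∈ S, Som (cneg h) p a)).card : ℕ) : ℝ) := by
          have : (Ioc y1 y2).filter (fun a => Hit (cneg h) (lc x) a ∧ ∀ p ∈ S, Som (cneg h) p a) ⊆
              (Icc 1 N).filter (fun a => Hit (cneg h) (lc x) a ∧ ∀ p ∈ S, Som (cneg h) p a) := by
            apply filter_subset_filter
            intro a ha
            rw [mem_Ioc] at ha
            rw [mem_Icc]
            omega
          exact_mod_cast card_le_card this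
        have h8 : (k : ℝ) ^ r ≤ (k : ℝ) ^ r * (1 / (∏ l, lc x l : ℕ) * (R * R)) := le_mul_of_one_le_right (by positivity) h5
        calc _ ≤ (N : ℝ) / (∏ l, lc x l : ℕ) * ∏ p ∈ S, ((nu (cneg h) p : ℝ) / p) + (k : ℝ) ^ r := by linarith
          _ ≤ (N : ℝ) / (∏ l, lc x l : ℕ) * ∏ p ∈ S, ((nu (cneg h) p : ℝ) / p) + (k : ℝ) ^ r * (1 / (∏ l, lc x l : ℕ) * (R * R)) := by linarith
          _ = _ := by ring
      rw [sum_const, nsmul_eq_mul, mul_one]
      have h9 : |Λ x.1 * Λ x.2| ≤ V ^ 2 := by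
        rw [abs_mul, sq]
        exact mul_le_mul (hΛ _ hx1) (hΛ _ hx2) (abs_nonneg _) hV
      calc Λ x.1 * Λ x.2 * _ ≤ |Λ x.1 * Λ x.2| * _ := mul_le_mul_of_nonneg_right (le_abs_self _) (Nat.cast_nonneg _)
        _ ≤ V ^ 2 * _ := mul_le_mul h9 h6 (Nat.cast_nonneg _) (by positivity)
    · have h2 : (Ioc y1 y2).filter (fun a => Hit (cneg h) (lc x) a ∧ ∀ p ∈ S, Som (cneg h) p a) = ∅ := by
        rw [filter_eq_empty_iff]
        intro a _ ha
        exact hc (hit_coprime hinj hz hx1 hx2 ha.1)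
      rw [h2, sum_empty, mul_zero]
      exact hrhs
  refine (sum_le_sum h1).trans ?_
  rw [← mul_sum, mul_assoc]
  apply mul_le_mul_of_nonneg_left _ (by positivity)
  have h2 : ∀ S ∈ (pz z).powersetCard r, ∑ x ∈ PD (Fin k) z R ×ˢ PD (Fin k) z R, (1 : ℝ) / (∏ l, lc x l : ℕ) * (N * ∏ p ∈ S, ((nu (cneg h) p : ℝ) / p) + (k : ℝ) ^ r * (R * R)) ≤
      ((1 + Real.log R) ^ 3) ^ k * (N * ∏ p ∈ S, ((nu (cneg h) p : ℝ) / p) + (k : ℝ) ^ r * (R * R)) := by
    intro S _
    have hP0 : (0 : ℝ) ≤ ∏ p ∈ S, ((nu (cneg h) p : ℝ) / p) := prod_nonneg fun _ _ => by positivity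
    rw [← sum_mul]
    exact mul_le_mul_of_nonneg_right (sum_lc z R) (by positivity)
  refine (sum_le_sum h2).trans ?_
  rw [← mul_sum]
  have hl : 0 ≤ Real.log R := Real.log_natCast_nonneg R
  apply mul_le_mul_of_nonneg_left _ (by positivity)
  rw [sum_add_distrib, ← mul_sum, sum_const, nsmul_eq_mul]
  apply add_le_add
  · apply mul_le_mul_of_nonneg_left _ (Nat.cast_nonneg _)
    have h3 := es_le (x := fun p => (nu (cneg h) p : ℝ) / p) (T := pz z) (fun p _ => by positivity) r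
    unfold es at h3
    refine h3.trans (Real.exp_le_exp.2 ?_)
    have h4 : ∑ p ∈ pz z, (nu (cneg h) p : ℝ) / p ≤ k * (1 + Real.log z) := by
      calc ∑ p ∈ pz z, (nu (cneg h) p : ℝ) / p ≤ ∑ p ∈ pz z, k * (1 / (p : ℝ)) := by
            apply sum_le_sum
            intro p _
            rw [mul_one_div]
            apply div_le_div_of_nonneg_right _ (Nat.cast_nonneg _)
            have := nu_le_card (cneg h) p
            rw [Fintype.card_fin] at this
            exact_mod_cast this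
        _ = k * ∑ p ∈ pz z, 1 / (p : ℝ) := by rw [mul_sum]
        _ ≤ _ := mul_le_mul_of_nonneg_left (sum_pz_le z) (by positivity)
    linarith
  · rw [← mul_assoc]
    apply mul_le_mul_of_nonneg_right _ (by positivity)
    apply mul_le_mul_of_nonneg_right _ (by positivity)
    have h3 := card_small (pz z) r
    have h4 : (((pz z).powersetCard r).card : ℝ) ≤ ((∑ j ∈ range (r + 1), ((pz z).powersetCard j).card : ℕ) : ℝ) := by
      have := single_le_sum (f := fun j => ((pz z).powersetCard j).card) (s := range (r + 1)) (fun _ _ => Nat.zero_le _) (mem_range.2 (Nat.lt_succ_self r))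
      exact_mod_cast this
    refine h4.trans (h3.trans (pow_le_pow_left₀ (by positivity) ?_ r))
    have : ((pz z).card : ℝ) ≤ z := by exact_mod_cast card_pz_le z
    linarith

end D

end Pool.Agent.L0h42.TB
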