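import Mathlib
import Pool.Agent.L0h42.TB.B11
import Pool.Agent.H373R2.T7.Lin
import Pool.Agent.H373R2.T7.Minor
import Pool.Agent.H373R2.T7.LamZ2
import Pool.Agent.H442R2.KF.BvY
import Pool.Agent.H373R2.T7.SupE2
import Pool.Agent.H373R2.T7.Cnt
import Pool.Agent.R311.DEH.A1
import Pool.Agent.Helper256.KM.Mertens
import Pool.Agent.W23.UBb
import Pool.Agent.H373R2.T7.Crt

/-! The Fourier transform of the weighted difference between the primes and their model is small. -/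

set_option autoImplicit false
set_option linter.unusedSectionVars false

namespace Pool.Agent.L0h42.TB
open Finset
open Pool.Agent.H807R2.Dav
open Pool.Agent.H373R2.T7

set_option maxHeartbeats 4000000 in
open Classical in
/-- **the Fourier transform.** -/
theorem fourier_small (k A B : ℕ) (hk : 1 ≤ k) : ∃ E0 : ℕ, ∀ E : ℕ, ∃ N0 : ℕ, ∀ N : ℕ, N0 ≤ N → ∀ z R : ℕ,
    Real.log N ^ E0 ≤ z → (z : ℝ) ≤ Real.log N ^ E → 1 ≤ R → R ^ 80 ≤ N →
    ∀ h : Fin k → ℕ, Function.Injective h → (∀ l, h l ≤ z) → ∀ (i : Fin k) (Λ : (Fin k → ℕ) → ℝ),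
    (∀ d ∈ PD (Fin k) z R, |Λ d| ≤ Real.log N ^ B) → (∀ d, Λ d ≠ 0 → ∏ l, d l ≤ R ∧ d i = 1) →
    ∀ y1 y2 : ℕ, z ≤ y1 → y1 ≤ y2 → y2 + z ≤ N → ∀ α : ℝ,
    ‖∑ a ∈ Ioc y1 y2, (Gr z (cneg h) a * SS z R Λ (cneg h) a ^ 2) •
      ((((pl (a + h i) - lamz z (a + h i) : ℝ)) : ℂ) * ee (a * α))‖ ≤ N / Real.log N ^ A := by
  obtain ⟨c0, hc0⟩ : ∃ c0, c0 = k * 2 ^ (2 * k + 1) := ⟨_, rfl⟩
  have hc01 : 1 ≤ c0 := by rw [hc0]; exact Nat.mul_pos hk (by positivity)
  obtain ⟨E0, h0⟩ := tbv_sup c0 (A + 2 * B + 1) hc01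
  refine ⟨E0, fun E => ?_⟩
  obtain ⟨m1, h1⟩ := h0 E
  obtain ⟨U, hU⟩ : ∃ U, U = A + 2 * B + 3 * k + 2 := ⟨_, rfl⟩
  obtain ⟨m2, h2⟩ := choice k E U 40
  obtain ⟨m3, h3⟩ := log_le_t (U + (3 * (k * (1 + E)) + U + 1) * k)
  obtain ⟨m4, h4⟩ := ev_L' 8
  obtain ⟨m5, h5⟩ := Vz_inv_small E
  refine ⟨max (max m1 m2) (max m3 (max m4 (max m5 3))), ?_⟩
  intro N hN z R hz1 hz2 hR1 hR h hinj hhz i Λ hΛ hsupp y1 y2 hy1 hy12 hyN α
  have n1 : m1 ≤ N := le_trans (le_trans (le_max_left _ _) (le_max_left _ _)) hN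
  have n2 : m2 ≤ N := le_trans (le_trans (le_max_right _ _) (le_max_left _ _)) hN
  have n3 : m3 ≤ N := le_trans (le_trans (le_max_left _ _) (le_max_right _ _)) hN
  have nn := le_trans (le_max_right m3 _) (le_trans (le_max_right _ _) hN)
  have n4 : m4 ≤ N := le_trans (le_max_left _ _) nn
  have n5 : m5 ≤ N := le_trans (le_trans (le_max_left _ _) (le_max_right _ _)) nn
  have hN3 : 3 ≤ N := le_trans (le_trans (le_max_right _ _) (le_max_right _ _)) nn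
  have hN1 : 1 ≤ N := by omega
  have hN0 : (0 : ℝ) < N := by exact_mod_cast hN1
  obtain ⟨t, ht0, ht40, hsq⟩ := exists_t N hN1
  have hLm := h3 N n3 t ht0 ht40 hsq
  have hL8 := h4 N n4
  obtain ⟨r, hr1, hr2, hr3⟩ := h2 N n2 z hz2
  obtain ⟨M, hM0, hM1, hM2⟩ := h1 N n1 z hz1 hz2 α
  set L := Real.log N with hLd
  have hL1 : 1 ≤ L := by linarith
  have hL0 : 0 < L := by linarith
  have hz : 1 ≤ z := by
    have h6 : (1 : ℝ) ≤ z := (one_le_pow₀ hL1).trans hz1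
    exact_mod_cast h6
  have hV := h5 N n5 z hz hz2
  have hB0 : (0 : ℝ) ≤ L ^ B := by positivity
  have hkr : (1 : ℝ) ≤ k := by exact_mod_cast hk
  -- size of the weight
  have hw : ∀ a ∈ Ioc y1 y2, ‖(((pl (a + h i) - lamz z (a + h i) : ℝ)) : ℂ) * ee (a * α)‖ ≤ L := by
    intro a ha
    rw [mem_Ioc] at ha
    have hi := hhz i
    rw [norm_mul, norm_ee, mul_one, Complex.norm_real, Real.norm_eq_abs, abs_le]
    have g2 := pl_nonneg (a + h i)
    have g3 := pl_le_log (show a + h i ≤ N by omega) hN1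
    have g4 := lamz_nonneg z (a + h i)
    have g5 : lamz z (a + h i) ≤ L := by
      unfold lamz
      split_ifs
      · exact hV
      · exact hL0.le
    constructor <;> linarith
  refine (trunc z R r Λ (cneg h) (Ioc y1 y2) _ L hw).trans ?_
  -- second part
  have hpart2 := trunc_err z R r N y1 y2 h hk hinj hhz Λ (L ^ B) hB0 hΛ (fun d hd => (hsupp d hd).1) (by omega)
  have hRr : (1 : ℝ) ≤ R := by exact_mod_cast hR1
  have hlogR : 1 + Real.log R ≤ L := by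
    have e1 : Real.log ((R : ℝ) ^ 80) ≤ L := Real.log_le_log (by positivity) (by exact_mod_cast hR)
    rw [Real.log_pow] at e1
    have e2 : 0 ≤ Real.log R := Real.log_nonneg hRr
    push_cast at e1
    nlinarith
  have hlogR0 : 0 ≤ 1 + Real.log R := by
    have := Real.log_nonneg hRr
    linarith
  have hLt : L ≤ t := le_trans (le_self_pow₀ hL1 (by omega)) hLm
  have ht1 : 1 ≤ t := by linarith
  have hzt : ((z : ℝ) + 1) ^ r ≤ t := by
    apply le_of_pow_le_pow_left₀ (n := 40) (by norm_num) ht0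
    rw [ht40]
    exact hr2
  have hRt : (R : ℝ) * R ≤ t := by
    apply le_of_pow_le_pow_left₀ (n := 40) (by norm_num) ht0
    rw [ht40]
    have e1 : ((R : ℝ) * R) ^ 40 = (R : ℝ) ^ 80 := by ring
    rw [e1]
    exact_mod_cast hR
  have hkr2 : (k : ℝ) ^ r * L ^ U ≤ t := by
    calc (k : ℝ) ^ r * L ^ U ≤ L ^ ((3 * (k * (1 + E)) + U + 1) * k) * L ^ U := mul_le_mul_of_nonneg_right (hr3 k) (by positivity)
      _ = L ^ (U + (3 * (k * (1 + E)) + U + 1) * k) := by rw [← pow_add, add_comm]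
      _ ≤ t := hLm
  have hsec : ((z : ℝ) + 1) ^ r * (k : ℝ) ^ r * (R * R) ≤ N / L ^ U := by
    rw [le_div_iff₀ (by positivity)]
    calc ((z : ℝ) + 1) ^ r * (k : ℝ) ^ r * (R * R) * L ^ U = ((z : ℝ) + 1) ^ r * ((k : ℝ) ^ r * L ^ U) * (R * R) := by ring
      _ ≤ t * t * t := by gcongr
      _ = t ^ 3 := by ring
      _ ≤ t ^ 40 := pow_le_pow_right₀ ht1 (by norm_num)
      _ = N := ht40
  have hexp : (N : ℝ) * Real.exp (3 * (k * (1 + Real.log z)) - r) ≤ N / L ^ U := by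
    calc (N : ℝ) * Real.exp (3 * (k * (1 + Real.log z)) - r) ≤ N * (1 / L ^ U) := mul_le_mul_of_nonneg_left hr1 hN0.le
      _ = _ := by ring
  have hp2 : L * ∑ S ∈ (pz z).powersetCard r, ∑ a ∈ Ioc y1 y2, ind (cneg h) S a * SS z R Λ (cneg h) a ^ 2 ≤ 2 / L * (N / L ^ A) := by
    calc L * ∑ S ∈ (pz z).powersetCard r, ∑ a ∈ Ioc y1 y2, ind (cneg h) S a * SS z R Λ (cneg h) a ^ 2 ≤
          L * ((L ^ B) ^ 2 * (L ^ 3) ^ k * (N / L ^ U + N / L ^ U)) := by
          apply mul_le_mul_of_nonneg_left _ hL0.le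
          refine hpart2.trans ?_
          have e1 : (1 + Real.log R) ^ 3 ≤ L ^ 3 := pow_le_pow_left₀ hlogR0 hlogR 3
          have e2 : ((1 + Real.log R) ^ 3) ^ k ≤ (L ^ 3) ^ k := pow_le_pow_left₀ (by positivity) e1 k
          apply mul_le_mul (mul_le_mul_of_nonneg_left e2 (by positivity)) (add_le_add hexp hsec) (by positivity) (by positivity)
      _ = 2 / L * (N / L ^ A) := by
          rw [hU]
          have e3 : L ^ (A + 2 * B + 3 * k + 2) = L ^ A * (L ^ B) ^ 2 * (L ^ 3) ^ k * L ^ 2 := by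
            ring
          rw [e3]
          field_simp
          ring
  -- first part
  obtain ⟨G, hG⟩ : ∃ G : Finset ((Fin k → ℕ) × (Fin k → ℕ)), G = (PD (Fin k) z R ×ˢ PD (Fin k) z R).filter
      (fun x => (Λ x.1 ≠ 0 ∧ Λ x.2 ≠ 0) ∧ ∀ l m, l ≠ m → (lc x l).Coprime (lc x m)) := ⟨_, rfl⟩
  have hp1 : ∀ S ∈ (pz z).powerset.filter (fun S => S.card < r),
      ‖∑ a ∈ Ioc y1 y2, (ind (cneg h) S a * SS z R Λ (cneg h) a ^ 2) • ((((pl (a + h i) - lamz z (a + h i) : ℝ)) : ℂ) * ee (a * α))‖ ≤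
      ∑ x ∈ G, (L ^ B) ^ 2 * 2 * ((k : ℝ) ^ S.card * M ((∏ p ∈ S, p) * ∏ l, lc x l)) := by
    intro S hS
    rw [mem_filter, mem_powerset] at hS
    rw [expand]
    refine (norm_sum_le _ _).trans ?_
    have g1 : ∀ x ∈ PD (Fin k) z R ×ˢ PD (Fin k) z R,
        ‖(Λ x.1 * Λ x.2) • ∑ a ∈ (Ioc y1 y2).filter (fun a => Hit (cneg h) (lc x) a ∧ ∀ p ∈ S, Som (cneg h) p a),
          (((pl (a + h i) - lamz z (a + h i) : ℝ)) : ℂ) * ee (a * α)‖ ≤
        if (Λ x.1 ≠ 0 ∧ Λ x.2 ≠ 0) ∧ ∀ l m, l ≠ m → (lc x l).Coprime (lc x m) then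
          (L ^ B) ^ 2 * 2 * ((k : ℝ) ^ S.card * M ((∏ p ∈ S, p) * ∏ l, lc x l)) else 0 := by
      intro x hx
      rw [mem_product] at hx
      obtain ⟨hx1, hx2⟩ := hx
      rw [norm_smul, Real.norm_eq_abs, abs_mul]
      by_cases hc : (Λ x.1 ≠ 0 ∧ Λ x.2 ≠ 0) ∧ ∀ l m, l ≠ m → (lc x l).Coprime (lc x m)
      · rw [if_pos hc]
        obtain ⟨a1, a2, a3⟩ := lc_rough hx1 hx2
        have hDi : lc x i = 1 := by
          unfold lc
          rw [(hsupp _ hc.1.1).2, (hsupp _ hc.1.2).2]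
          simp
        have g2 := inner_bound z N y1 y2 h hinj hhz i S hS.1 (lc x) a1 a2 hc.2 hDi hy1 hy12 hyN α M hM0 hM1
        calc _ ≤ (L ^ B * L ^ B) * ((k : ℝ) ^ S.card * (2 * M ((∏ p ∈ S, p) * ∏ l, lc x l))) := by
              apply mul_le_mul _ g2 (norm_nonneg _) (by positivity)
              exact mul_le_mul (hΛ _ hx1) (hΛ _ hx2) (abs_nonneg _) hB0
          _ = _ := by ring
      · rw [if_neg hc]
        by_cases hz1 : Λ x.1 = 0
        · rw [hz1, abs_zero, zero_mul, zero_mul]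
        by_cases hz2 : Λ x.2 = 0
        · rw [hz2, abs_zero, mul_zero, zero_mul]
        have hc2 : ¬ ∀ l m, l ≠ m → (lc x l).Coprime (lc x m) := fun hcc => hc ⟨⟨hz1, hz2⟩, hcc⟩
        have g3 : (Ioc y1 y2).filter (fun a => Hit (cneg h) (lc x) a ∧ ∀ p ∈ S, Som (cneg h) p a) = ∅ := by
          rw [filter_eq_empty_iff]
          intro a _ ha
          exact hc2 (hit_coprime hinj hhz hx1 hx2 ha.1)
        rw [g3, sum_empty, norm_zero, mul_zero]
    refine (sum_le_sum g1).trans (le_of_eq ?_)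
    rw [← sum_filter, hG]
  have hp1' : ∑ S ∈ (pz z).powerset.filter (fun S => S.card < r),
      ‖∑ a ∈ Ioc y1 y2, (ind (cneg h) S a * SS z R Λ (cneg h) a ^ 2) • ((((pl (a + h i) - lamz z (a + h i) : ℝ)) : ℂ) * ee (a * α))‖ ≤
      2 / L * (N / L ^ A) := by
    refine (sum_le_sum hp1).trans ?_
    rw [← sum_product']
    rw [← mul_sum]
    have hzN : ((z + 1) ^ r) ^ 40 ≤ N := by
      have : (((z : ℝ) + 1) ^ r) ^ 40 ≤ N := hr2
      exact_mod_cast this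
    have g4 := fibre_bound hk z N R r hzN hR G (fun x hx => by
      rw [hG, mem_filter, mem_product] at hx
      exact ⟨hx.1.1, hx.1.2, (hsupp _ hx.2.1.1).1, (hsupp _ hx.2.1.2).1, hx.2.2⟩) M hM0
    rw [← hc0] at g4
    calc _ ≤ (L ^ B) ^ 2 * 2 * (N / L ^ (A + 2 * B + 1)) := mul_le_mul_of_nonneg_left (g4.trans hM2) (by positivity)
      _ = _ := by
          have e3 : L ^ (A + 2 * B + 1) = L ^ A * (L ^ B) ^ 2 * L := by
            ring
          rw [e3]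
          field_simp
  calc _ ≤ 2 / L * (N / L ^ A) + 2 / L * (N / L ^ A) := add_le_add hp1' hp2
    _ = 4 / L * (N / L ^ A) := by ring
    _ ≤ 1 * (N / L ^ A) := by
        apply mul_le_mul_of_nonneg_right _ (by positivity)
        rw [div_le_one hL0]
        linarith
    _ = _ := one_mul _

end Pool.Agent.L0h42.TB
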