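import Mathlib
import Pool.Agent.L0h42.TB.B8
import Pool.Agent.L0h42.TB.B10
import Pool.Agent.H373R2.T7.Lin
import Pool.Agent.H373R2.T7.Minor
import Pool.Agent.H373R2.T7.LamZ2
import Pool.Agent.H442R2.KF.BvY
import Pool.Agent.H373R2.T7.SupE2
import Pool.Agent.H373R2.T7.Cnt
import Pool.Agent.R311.DEH.A1
import Pool.Agent.Helper256.KM.Mertens
import Pool.Agent.W23.UBb
import Pool.Agent.H373R2.T7.Crt

/-! Fourth moments of the divisor sums; convolutions. -/

set_option autoImplicit false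
set_option linter.unusedSectionVars false

namespace Pool.Agent.L0h42.TB
open Finset
open Pool.Agent.H807R2.Dav
open Pool.Agent.H373R2.T7

section mom
variable {k : ℕ}

lemma prod_le_sum_pow (hk : 1 ≤ k) (x : Fin k → ℝ) (hx : ∀ l, 0 ≤ x l) : ∏ l, x l ≤ ∑ l, x l ^ k := by
  haveI : Nonempty (Fin k) := ⟨⟨0, hk⟩⟩
  obtain ⟨m, _, hm⟩ := exists_max_image (univ : Finset (Fin k)) x univ_nonempty
  calc ∏ l, x l ≤ ∏ _l : Fin k, x m := prod_le_prod (fun l _ => hx l) (fun l _ => hm l (mem_univ l))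
    _ = x m ^ k := by rw [prod_const, card_univ, Fintype.card_fin]
    _ ≤ ∑ l, x l ^ k := single_le_sum (f := fun l => x l ^ k) (fun l _ => pow_nonneg (hx l) k) (mem_univ m)

open Classical in
lemma SS_abs (z R : ℕ) (Λ : (Fin k → ℕ) → ℝ) (V : ℝ) (hV : 0 ≤ V) (hΛ : ∀ d ∈ PD (Fin k) z R, |Λ d| ≤ V) (h : Fin k → ℕ) (b : ℕ) (hb : 1 ≤ b) :
    |SS z R Λ (cneg h) b| ≤ V * ∏ l, ((b + h l).divisors.card : ℝ) := by
  unfold SS
  refine (abs_sum_le_sum_abs _ _).trans ?_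
  have h1 : ∀ d ∈ PD (Fin k) z R, |Λ d * (if Hit (cneg h) d b then 1 else 0)| ≤ if Hit (cneg h) d b then V else 0 := by
    intro d hd
    split_ifs
    · rw [mul_one]; exact hΛ d hd
    · rw [mul_zero, abs_zero]
  refine (sum_le_sum h1).trans ?_
  rw [← sum_filter, sum_const, nsmul_eq_mul, mul_comm]
  apply mul_le_mul_of_nonneg_left _ hV
  have h2 : (PD (Fin k) z R).filter (fun d => Hit (cneg h) d b) ⊆ Fintype.piFinset (fun l => (b + h l).divisors) := by
    intro d hd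
    rw [mem_filter] at hd
    rw [Fintype.mem_piFinset]
    intro l
    rw [Nat.mem_divisors]
    exact ⟨(dvd_cneg h _ b l).1 (hd.2 l), by omega⟩
  have h3 := card_le_card h2
  rw [Fintype.card_piFinset] at h3
  exact_mod_cast h3

/-- the fourth moment -/
lemma mom4 (hk : 1 ≤ k) (z R X N : ℕ) (Λ : (Fin k → ℕ) → ℝ) (V : ℝ) (hV : 0 ≤ V) (hΛ : ∀ d ∈ PD (Fin k) z R, |Λ d| ≤ V) (h : Fin k → ℕ)
    (hz : ∀ l, h l ≤ z) (hX : X + z ≤ N) :
    ∑ b ∈ Icc 1 X, SS z R Λ (cneg h) b ^ 4 ≤ V ^ 4 * (k * (N * (1 + Real.log N) ^ (2 ^ (4 * k)))) := by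
  have h1 : ∀ b ∈ Icc 1 X, SS z R Λ (cneg h) b ^ 4 ≤ V ^ 4 * ∑ l, ((b + h l).divisors.card : ℝ) ^ (4 * k) := by
    intro b hb
    rw [mem_Icc] at hb
    have h2 := SS_abs z R Λ V hV hΛ h b hb.1
    calc SS z R Λ (cneg h) b ^ 4 = |SS z R Λ (cneg h) b| ^ 4 := (Even.pow_abs (by decide) _).symm
      _ ≤ (V * ∏ l, ((b + h l).divisors.card : ℝ)) ^ 4 := pow_le_pow_left₀ (abs_nonneg _) h2 4
      _ = V ^ 4 * ∏ l, ((b + h l).divisors.card : ℝ) ^ 4 := by rw [mul_pow, ← prod_pow]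
      _ ≤ V ^ 4 * ∑ l, (((b + h l).divisors.card : ℝ) ^ 4) ^ k :=
          mul_le_mul_of_nonneg_left (prod_le_sum_pow hk _ (fun l => by positivity)) (by positivity)
      _ = _ := by simp only [← pow_mul]
  refine (sum_le_sum h1).trans ?_
  rw [← mul_sum, sum_comm]
  apply mul_le_mul_of_nonneg_left _ (by positivity)
  have h2 : ∀ l ∈ (univ : Finset (Fin k)), ∑ b ∈ Icc 1 X, ((b + h l).divisors.card : ℝ) ^ (4 * k) ≤ N * (1 + Real.log N) ^ (2 ^ (4 * k)) := by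
    intro l _
    refine le_trans ?_ (tau_pow (4 * k) N)
    have hl := hz l
    apply sum_inj_le _ _ (fun b => b + h l)
    · intro b hb
      rw [mem_Icc] at hb ⊢
      omega
    · intro b _ b' _ hbb
      simp only at hbb
      omega
    · intro y _; positivity
    · intro b _; exact le_rfl
  refine (sum_le_sum h2).trans (le_of_eq ?_)
  rw [sum_const, card_univ, Fintype.card_fin, nsmul_eq_mul]

/-- convolution, the difference in the first factor -/
lemma conv1 (X Y : ℕ) (hX : 12 * Y ≤ X) (D G : ℕ → ℂ) (δ : ℝ) (hδ : 0 ≤ δ)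
    (hD : ∀ α : ℝ, ‖∑ a ∈ Ioc Y (2 * Y), D a * ee (a * α)‖ ≤ δ) :
    ∑ n ∈ Ioc (4 * Y) (12 * Y), ‖∑ a ∈ Ioc Y (2 * Y), D a * G (n - a)‖ ≤ δ * √(X * ∑ b ∈ Icc 1 X, ‖G b‖ ^ 2) := by
  classical
  have h1 := Pool.Agent.R311.DEH.mean_abs X (fun a => if a ∈ Ioc Y (2 * Y) then D a else 0) G δ hδ (by
    intro α
    refine le_trans (le_of_eq ?_) (hD α)
    congr 1
    have h2 : ∀ m ∈ Icc 1 X, (if m ∈ Ioc Y (2 * Y) then D m else 0) * ee ((m : ℝ) * α) = if m ∈ Ioc Y (2 * Y) then D m * ee ((m : ℝ) * α) else 0 := by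
      intro m _
      split_ifs <;> simp
    rw [sum_congr rfl h2, ← sum_filter]
    apply sum_congr _ fun _ _ => rfl
    ext m
    rw [mem_filter, mem_Icc, mem_Ioc]
    constructor
    · exact fun h => h.2
    · intro h; exact ⟨by omega, h⟩)
  refine le_trans ?_ h1
  have hsub : Ioc (4 * Y) (12 * Y) ⊆ Icc 1 X := by
    intro n hn
    rw [mem_Ioc] at hn
    rw [mem_Icc]
    omega
  refine le_trans (le_of_eq ?_) (sum_le_sum_of_subset_of_nonneg hsub (fun _ _ _ => norm_nonneg _))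
  apply sum_congr rfl
  intro n hn
  rw [mem_Ioc] at hn
  congr 1
  have h2 : ∀ m ∈ Ico 1 n, G m * (if n - m ∈ Ioc Y (2 * Y) then D (n - m) else 0) = if n - m ∈ Ioc Y (2 * Y) then D (n - m) * G m else 0 := by
    intro m _
    split_ifs
    · ring
    · simp
  rw [sum_congr rfl h2, ← sum_filter]
  apply sum_bij' (fun a _ => n - a) (fun m _ => n - m)
  · intro a ha
    rw [mem_Ioc] at ha
    rw [mem_filter, mem_Ico, mem_Ioc]
    omega
  · intro m hm
    rw [mem_filter, mem_Ico, mem_Ioc] at hm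
    rw [mem_Ioc]
    omega
  · intro a ha
    rw [mem_Ioc] at ha
    omega
  · intro m hm
    rw [mem_filter, mem_Ico, mem_Ioc] at hm
    omega
  · intro a ha
    rw [mem_Ioc] at ha
    have : n - (n - a) = a := by omega
    rw [this]

/-- convolution, the difference in the second factor -/
lemma conv2 (X Y : ℕ) (hX : 12 * Y ≤ X) (D G : ℕ → ℂ) (δ : ℝ) (hδ : 0 ≤ δ)
    (hD : ∀ α : ℝ, ‖∑ b ∈ Ioc (2 * Y) (12 * Y), D b * ee (b * α)‖ ≤ δ) :
    ∑ n ∈ Ioc (4 * Y) (12 * Y), ‖∑ a ∈ Ioc Y (2 * Y), G a * D (n - a)‖ ≤ δ * √(X * ∑ b ∈ Icc 1 X, ‖G b‖ ^ 2) := by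
  classical
  have h1 := Pool.Agent.R311.DEH.mean_abs X (fun b => if b ∈ Ioc (2 * Y) (12 * Y) then D b else 0)
    (fun a => if a ∈ Ioc Y (2 * Y) then G a else 0) δ hδ (by
    intro α
    refine le_trans (le_of_eq ?_) (hD α)
    congr 1
    have h2 : ∀ m ∈ Icc 1 X, (if m ∈ Ioc (2 * Y) (12 * Y) then D m else 0) * ee ((m : ℝ) * α) = if m ∈ Ioc (2 * Y) (12 * Y) then D m * ee ((m : ℝ) * α) else 0 := by
      intro m _
      split_ifs <;> simp
    rw [sum_congr rfl h2, ← sum_filter]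
    apply sum_congr _ fun _ _ => rfl
    ext m
    rw [mem_filter, mem_Icc, mem_Ioc]
    constructor
    · exact fun h => h.2
    · intro h; exact ⟨by omega, h⟩)
  have hsub : Ioc (4 * Y) (12 * Y) ⊆ Icc 1 X := by
    intro n hn
    rw [mem_Ioc] at hn
    rw [mem_Icc]
    omega
  refine le_trans ?_ (h1.trans ?_)
  · refine le_trans (le_of_eq ?_) (sum_le_sum_of_subset_of_nonneg hsub (fun _ _ _ => norm_nonneg _))
    apply sum_congr rfl
    intro n hn
    rw [mem_Ioc] at hn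
    congr 1
    have h2 : ∀ m ∈ Ico 1 n, (if m ∈ Ioc Y (2 * Y) then G m else 0) * (if n - m ∈ Ioc (2 * Y) (12 * Y) then D (n - m) else 0) =
        if m ∈ Ioc Y (2 * Y) then G m * D (n - m) else 0 := by
      intro m hm
      rw [mem_Ico] at hm
      by_cases h3 : m ∈ Ioc Y (2 * Y)
      · rw [if_pos h3, if_pos h3, if_pos]
        rw [mem_Ioc] at h3 ⊢
        omega
      · rw [if_neg h3, if_neg h3, zero_mul]
    rw [sum_congr rfl h2, ← sum_filter]
    apply sum_congr _ fun _ _ => rfl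
    ext m
    rw [mem_filter, mem_Ico, mem_Ioc]
    omega
  · apply mul_le_mul_of_nonneg_left _ hδ
    apply Real.sqrt_le_sqrt
    apply mul_le_mul_of_nonneg_left _ (Nat.cast_nonneg _)
    apply sum_le_sum
    intro b _
    split_ifs
    · exact le_rfl
    · simp

end mom

end Pool.Agent.L0h42.TB
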