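import Mathlib
import Pool.Agent.L0h42.TB.B12
import Pool.Agent.L0h42.TB.B13
import Pool.Agent.H373R2.T7.Lin
import Pool.Agent.H373R2.T7.Minor
import Pool.Agent.H373R2.T7.LamZ2
import Pool.Agent.H442R2.KF.BvY
import Pool.Agent.H373R2.T7.SupE2
import Pool.Agent.H373R2.T7.Cnt
import Pool.Agent.R311.DEH.A1
import Pool.Agent.Helper256.KM.Mertens
import Pool.Agent.W23.UBb
import Pool.Agent.H373R2.T7.Crt

/-! The primes may be replaced by their model in the convolutions. -/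

set_option autoImplicit false
set_option linter.unusedSectionVars false

namespace Pool.Agent.L0h42.TB
open Finset
open Pool.Agent.H807R2.Dav
open Pool.Agent.H373R2.T7

/-- the weighted difference -/
noncomputable def Df {k : ℕ} (z R : ℕ) (h : Fin k → ℕ) (i : Fin k) (Λ : (Fin k → ℕ) → ℝ) (a : ℕ) : ℝ :=
  Gr z (cneg h) a * SS z R Λ (cneg h) a ^ 2 * (pl (a + h i) - lamz z (a + h i))

set_option maxHeartbeats 4000000 in
theorem diff_small (k A B : ℕ) (hk : 1 ≤ k) : ∃ E0 : ℕ, ∀ E : ℕ, ∃ N0 : ℕ, ∀ N : ℕ, N0 ≤ N → ∀ z R Y : ℕ,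
    Real.log N ^ E0 ≤ z → (z : ℝ) ≤ Real.log N ^ E → 1 ≤ R → R ^ 80 ≤ N → 13 * Y ≤ N → z ≤ Y →
    ∀ (h h' : Fin k → ℕ), Function.Injective h → (∀ l, h l ≤ z) → (∀ l, h' l ≤ z) → ∀ (i : Fin k) (Λ Λ' : (Fin k → ℕ) → ℝ),
    (∀ d ∈ PD (Fin k) z R, |Λ d| ≤ Real.log N ^ B) → (∀ d, Λ d ≠ 0 → ∏ l, d l ≤ R ∧ d i = 1) →
    (∀ d ∈ PD (Fin k) z R, |Λ' d| ≤ Real.log N ^ B) →
    ∀ G : ℕ → ℝ, (∀ b, |G b| ≤ Real.log N * SS z R Λ' (cneg h') b ^ 2) →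
    ∑ n ∈ Ioc (4 * Y) (12 * Y), |∑ a ∈ Ioc Y (2 * Y), Df z R h i Λ a * G (n - a)| ≤ N ^ 2 / Real.log N ^ A ∧
    ∑ n ∈ Ioc (4 * Y) (12 * Y), |∑ a ∈ Ioc Y (2 * Y), G a * Df z R h i Λ (n - a)| ≤ N ^ 2 / Real.log N ^ A := by
  obtain ⟨e, he⟩ : ∃ e, e = 2 + 2 * B + 2 ^ (4 * k) := ⟨_, rfl⟩
  obtain ⟨E0, h0⟩ := fourier_small k (A + e) B hk
  refine ⟨E0, fun E => ?_⟩
  obtain ⟨m1, h1⟩ := h0 E
  obtain ⟨m2, h2⟩ := ev_L' (k + 2)
  refine ⟨max m1 (max m2 3), ?_⟩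
  intro N hN z R Y hz1 hz2 hR1 hR hY hzY h h' hinj hhz hhz' i Λ Λ' hΛ hsupp hΛ' G hG
  have n1 : m1 ≤ N := le_trans (le_max_left _ _) hN
  have n2 : m2 ≤ N := le_trans (le_trans (le_max_left _ _) (le_max_right _ _)) hN
  have hN3 : 3 ≤ N := le_trans (le_trans (le_max_right _ _) (le_max_right _ _)) hN
  have hN0 : (0 : ℝ) < N := by exact_mod_cast (show 0 < N by omega)
  have hLk := h2 N n2
  have hF := h1 N n1 z R hz1 hz2 hR1 hR h hinj hhz i Λ hΛ hsupp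
  set L := Real.log N with hL
  have hkr : (0 : ℝ) ≤ k := Nat.cast_nonneg _
  have hL1 : 1 ≤ L := by linarith
  have hL0 : 0 < L := by linarith
  have hB0 : (0 : ℝ) ≤ L ^ B := by positivity
  have hmom := mom4 hk z R (12 * Y) N Λ' (L ^ B) hB0 hΛ' h' hhz' (by omega)
  -- the mean square of `G`
  have hG2 : √(((12 * Y : ℕ) : ℝ) * ∑ b ∈ Icc 1 (12 * Y), ‖((G b : ℝ) : ℂ)‖ ^ 2) ≤ N * L ^ e := by
    have e1 : ∑ b ∈ Icc 1 (12 * Y), ‖((G b : ℝ) : ℂ)‖ ^ 2 ≤ L ^ 2 * ∑ b ∈ Icc 1 (12 * Y), SS z R Λ' (cneg h') b ^ 4 := by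
      rw [mul_sum]
      apply sum_le_sum
      intro b _
      rw [Complex.norm_real, Real.norm_eq_abs]
      calc |G b| ^ 2 ≤ (L * SS z R Λ' (cneg h') b ^ 2) ^ 2 := pow_le_pow_left₀ (abs_nonneg _) (hG b) 2
        _ = _ := by ring
    have e2 : ∑ b ∈ Icc 1 (12 * Y), ‖((G b : ℝ) : ℂ)‖ ^ 2 ≤ N * (L ^ e) ^ 2 := by
      have e3 : (1 + L) ≤ L ^ 2 := by nlinarith
      have e4 : (1 + L) ^ (2 ^ (4 * k)) ≤ (L ^ 2) ^ (2 ^ (4 * k)) := pow_le_pow_left₀ (by positivity) e3 _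
      have e5 : (k : ℝ) ≤ L ^ 2 := by nlinarith
      calc _ ≤ L ^ 2 * ((L ^ B) ^ 4 * (k * (N * (1 + L) ^ (2 ^ (4 * k))))) := e1.trans (mul_le_mul_of_nonneg_left hmom (by positivity))
        _ ≤ L ^ 2 * ((L ^ B) ^ 4 * (L ^ 2 * (N * (L ^ 2) ^ (2 ^ (4 * k))))) := by gcongr
        _ = N * (L ^ e) ^ 2 := by
            rw [he]
            ring
    have e6 : ((12 * Y : ℕ) : ℝ) ≤ N := by exact_mod_cast (show 12 * Y ≤ N by omega)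
    have e7 : ((12 * Y : ℕ) : ℝ) * ∑ b ∈ Icc 1 (12 * Y), ‖((G b : ℝ) : ℂ)‖ ^ 2 ≤ (N * L ^ e) ^ 2 := by
      calc _ ≤ (N : ℝ) * (N * (L ^ e) ^ 2) := mul_le_mul e6 e2 (sum_nonneg fun _ _ => by positivity) hN0.le
        _ = _ := by ring
    calc _ ≤ √((N * L ^ e) ^ 2) := Real.sqrt_le_sqrt e7
      _ = _ := Real.sqrt_sq (by positivity)
  have hδ : (0 : ℝ) ≤ N / L ^ (A + e) := by positivity
  have hfin : (N : ℝ) / L ^ (A + e) * (N * L ^ e) = N ^ 2 / L ^ A := by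
    rw [pow_add]
    field_simp
  have hDf : ∀ a (α : ℝ), ((Df z R h i Λ a : ℝ) : ℂ) * ee (a * α) = (Gr z (cneg h) a * SS z R Λ (cneg h) a ^ 2) •
      ((((pl (a + h i) - lamz z (a + h i) : ℝ)) : ℂ) * ee (a * α)) := by
    intro a α
    unfold Df
    rw [Complex.real_smul]
    push_cast
    ring
  constructor
  · have g1 := conv1 (12 * Y) Y le_rfl (fun a => ((Df z R h i Λ a : ℝ) : ℂ)) (fun b => ((G b : ℝ) : ℂ)) (N / L ^ (A + e)) hδ (by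
      intro α
      rw [sum_congr rfl fun a _ => hDf a α]
      exact hF Y (2 * Y) hzY (by omega) (by omega) α)
    have g2 : ∀ n ∈ Ioc (4 * Y) (12 * Y), |∑ a ∈ Ioc Y (2 * Y), Df z R h i Λ a * G (n - a)| =
        ‖∑ a ∈ Ioc Y (2 * Y), ((Df z R h i Λ a : ℝ) : ℂ) * ((G (n - a) : ℝ) : ℂ)‖ := by
      intro n _
      rw [← Real.norm_eq_abs, ← Complex.norm_real]
      push_cast
      rfl
    rw [sum_congr rfl g2]
    refine g1.trans ?_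
    rw [← hfin]
    exact mul_le_mul_of_nonneg_left hG2 hδ
  · have g1 := conv2 (12 * Y) Y le_rfl (fun a => ((Df z R h i Λ a : ℝ) : ℂ)) (fun b => ((G b : ℝ) : ℂ)) (N / L ^ (A + e)) hδ (by
      intro α
      rw [sum_congr rfl fun a _ => hDf a α]
      exact hF (2 * Y) (12 * Y) (by omega) (by omega) (by omega) α)
    have g2 : ∀ n ∈ Ioc (4 * Y) (12 * Y), |∑ a ∈ Ioc Y (2 * Y), G a * Df z R h i Λ (n - a)| =
        ‖∑ a ∈ Ioc Y (2 * Y), ((G a : ℝ) : ℂ) * ((Df z R h i Λ (n - a) : ℝ) : ℂ)‖ := by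
      intro n _
      rw [← Real.norm_eq_abs, ← Complex.norm_real]
      push_cast
      rfl
    rw [sum_congr rfl g2]
    refine g1.trans ?_
    rw [← hfin]
    exact mul_le_mul_of_nonneg_left hG2 hδ

end Pool.Agent.L0h42.TB
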