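import Mathlib
import Pool.Agent.L0h42.TB.B11
import Pool.Agent.L0h42.TB.B15
import Pool.Agent.H373R2.T7.Lin
import Pool.Agent.H373R2.T7.Minor
import Pool.Agent.H373R2.T7.LamZ2
import Pool.Agent.H442R2.KF.BvY
import Pool.Agent.H373R2.T7.SupE2
import Pool.Agent.H373R2.T7.Cnt
import Pool.Agent.R311.DEH.A1
import Pool.Agent.Helper256.KM.Mertens
import Pool.Agent.W23.UBb
import Pool.Agent.H373R2.T7.Crt

/-! The mean over `n` of the error in the main term. -/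

set_option autoImplicit false
set_option linter.unusedSectionVars false

namespace Pool.Agent.L0h42.TB
open Finset
open Pool.Agent.H807R2.Dav
open Pool.Agent.H373R2.T7

section cnt
variable {k : ℕ}

open Classical in
lemma hit_count (z R X N : ℕ) (h : Fin k → ℕ) (hinj : Function.Injective h) (hz : ∀ l, h l ≤ z)
    (x : (Fin k → ℕ) × (Fin k → ℕ)) (h1 : x.1 ∈ PD (Fin k) z R) (h2 : x.2 ∈ PD (Fin k) z R) (hX : X ≤ N) (hD : ∏ l, lc x l ≤ N) :
    (((Icc 1 X).filter (fun a => Hit (cneg h) (lc x) a)).card : ℝ) ≤ 2 * N * (1 / (∏ l, lc x l : ℕ)) := by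
  obtain ⟨a1, a2, a3⟩ := lc_rough h1 h2
  by_cases hc : ∀ l m, l ≠ m → (lc x l).Coprime (lc x m)
  · obtain ⟨u, hu⟩ := hit_class (cneg h) (lc x) a1 hc
    have hq1 : 1 ≤ ∏ l, lc x l := Nat.pos_of_ne_zero (prod_ne_zero_iff.2 fun l _ => by have := a1 l; omega)
    have hq0 : (0 : ℝ) < (∏ l, lc x l : ℕ) := by exact_mod_cast hq1
    have h3 := (abs_le.1 (count_class X (∏ l, lc x l) u hq1)).2
    have e1 : (Icc 1 X).filter (fun a => Hit (cneg h) (lc x) a) = (Icc 1 X).filter (fun a => a ≡ u [MOD ∏ l, lc x l]) := by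
      apply filter_congr
      intro a _
      exact hu a
    rw [e1]
    have h4 : (X : ℝ) / (∏ l, lc x l : ℕ) ≤ N / (∏ l, lc x l : ℕ) := div_le_div_of_nonneg_right (by exact_mod_cast hX) hq0.le
    have h5 : (1 : ℝ) ≤ N / (∏ l, lc x l : ℕ) := by
      rw [one_le_div hq0]
      exact_mod_cast hD
    calc _ ≤ (X : ℝ) / (∏ l, lc x l : ℕ) + 1 := by linarith
      _ ≤ N / (∏ l, lc x l : ℕ) + N / (∏ l, lc x l : ℕ) := by linarith
      _ = _ := by ring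
  · rw [filter_eq_empty_iff.2, card_empty]
    · push_cast; positivity
    · intro a _ ha
      exact hc (hit_coprime hinj hz h1 h2 ha)

/-- the two halves -/
def xl (x : (Fin k ⊕ Fin k → ℕ) × (Fin k ⊕ Fin k → ℕ)) : (Fin k → ℕ) × (Fin k → ℕ) := (fun l => x.1 (Sum.inl l), fun l => x.2 (Sum.inl l))
def xr (x : (Fin k ⊕ Fin k → ℕ) × (Fin k ⊕ Fin k → ℕ)) : (Fin k → ℕ) × (Fin k → ℕ) := (fun l => x.1 (Sum.inr l), fun l => x.2 (Sum.inr l))

lemma lc_prod (x : (Fin k ⊕ Fin k → ℕ) × (Fin k ⊕ Fin k → ℕ)) :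
    (∏ l, lc x l) = (∏ l, lc (xl x) l) * ∏ l, lc (xr x) l := by
  rw [Fintype.prod_sum_type]
  rfl

open Classical in
lemma pair_count (z R N Y : ℕ) (h h' : Fin k → ℕ) (hinj : Function.Injective h) (hinj' : Function.Injective h')
    (hz : ∀ l, h l ≤ z) (hz' : ∀ l, h' l ≤ z)
    (x : (Fin k ⊕ Fin k → ℕ) × (Fin k ⊕ Fin k → ℕ)) (h1 : x.1 ∈ PD (Fin k ⊕ Fin k) z R) (h2 : x.2 ∈ PD (Fin k ⊕ Fin k) z R)
    (hY : 12 * Y ≤ N) (hDl : ∏ l, lc (xl x) l ≤ N) (hDr : ∏ l, lc (xr x) l ≤ N) :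
    ∑ n ∈ Ioc (4 * Y) (12 * Y), (((Ioc Y (2 * Y)).filter (fun a => Hit (cj h h' n) (lc x) a ∧ Rgh z (cj h h' n) a)).card : ℝ) ≤
      4 * N ^ 2 * (1 / (∏ l, lc x l : ℕ)) := by
  have hl1 : (xl x).1 ∈ PD (Fin k) z R := mem_PD.2 fun l => mem_PD.1 h1 _
  have hl2 : (xl x).2 ∈ PD (Fin k) z R := mem_PD.2 fun l => mem_PD.1 h2 _
  have hr1 : (xr x).1 ∈ PD (Fin k) z R := mem_PD.2 fun l => mem_PD.1 h1 _
  have hr2 : (xr x).2 ∈ PD (Fin k) z R := mem_PD.2 fun l => mem_PD.1 h2 _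
  have c1 := hit_count z R (2 * Y) N h hinj hz (xl x) hl1 hl2 (by omega) hDl
  have c2 := hit_count z R (12 * Y) N h' hinj' hz' (xr x) hr1 hr2 hY hDr
  have e1 : ∀ n ∈ Ioc (4 * Y) (12 * Y), (((Ioc Y (2 * Y)).filter (fun a => Hit (cj h h' n) (lc x) a ∧ Rgh z (cj h h' n) a)).card : ℝ) ≤
      ∑ a ∈ (Icc 1 (2 * Y)).filter (fun a => Hit (cneg h) (lc (xl x)) a), (if Hit (cneg h') (lc (xr x)) (n - a) then (1 : ℝ) else 0) := by
    intro n hn
    rw [mem_Ioc] at hn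
    rw [← sum_filter, sum_const, nsmul_eq_mul, mul_one]
    have : (Ioc Y (2 * Y)).filter (fun a => Hit (cj h h' n) (lc x) a ∧ Rgh z (cj h h' n) a) ⊆
        ((Icc 1 (2 * Y)).filter (fun a => Hit (cneg h) (lc (xl x)) a)).filter (fun a => Hit (cneg h') (lc (xr x)) (n - a)) := by
      intro a ha
      rw [mem_filter, mem_Ioc] at ha
      rw [mem_filter, mem_filter, mem_Icc]
      have h3 := (hit_joint h h' n a (by omega) (lc x)).1 ha.2.1
      exact ⟨⟨by omega, h3.1⟩, h3.2⟩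
    exact_mod_cast card_le_card this
  refine (sum_le_sum e1).trans ?_
  rw [sum_comm]
  have e2 : ∀ a ∈ (Icc 1 (2 * Y)).filter (fun a => Hit (cneg h) (lc (xl x)) a),
      ∑ n ∈ Ioc (4 * Y) (12 * Y), (if Hit (cneg h') (lc (xr x)) (n - a) then (1 : ℝ) else 0) ≤
      (((Icc 1 (12 * Y)).filter (fun a => Hit (cneg h') (lc (xr x)) a)).card : ℝ) := by
    intro a ha
    rw [mem_filter, mem_Icc] at ha
    rw [← sum_filter, sum_const, nsmul_eq_mul, mul_one]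
    have : ((Ioc (4 * Y) (12 * Y)).filter (fun n => Hit (cneg h') (lc (xr x)) (n - a))).card ≤
        ((Icc 1 (12 * Y)).filter (fun a => Hit (cneg h') (lc (xr x)) a)).card := by
      apply card_le_card_of_injOn (fun n => n - a)
      · intro n hn
        rw [mem_coe, mem_filter, mem_Ioc] at hn
        rw [mem_coe, mem_filter, mem_Icc]
        refine ⟨?_, hn.2⟩
        change 1 ≤ n - a ∧ n - a ≤ 12 * Y
        omega
      · intro n hn m hm hnm
        rw [mem_coe, mem_filter, mem_Ioc] at hn hm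
        simp only at hnm
        omega
    exact_mod_cast this
  refine (sum_le_sum e2).trans ?_
  rw [sum_const, nsmul_eq_mul, lc_prod]
  push_cast
  have c1' := c1
  have c2' := c2
  push_cast at c1' c2'
  calc _ ≤ (2 * N * (1 / ∏ l, (lc (xl x) l : ℝ))) * (2 * N * (1 / ∏ l, (lc (xr x) l : ℝ))) :=
        mul_le_mul c1' c2' (Nat.cast_nonneg _) (by positivity)
    _ = _ := by
        rw [one_div, one_div, one_div, mul_inv]
        ring

open Classical in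
/-- the count for a single `n` -/
lemma single_count (z Y r : ℕ) (hk : 1 ≤ k) (c : Fin k ⊕ Fin k → ℤ) (D : Fin k ⊕ Fin k → ℕ)
    (hD : ∀ x, 1 ≤ D x) (hr : ∀ x, ∀ p ∈ pz z, ¬ p ∣ D x) (hcop : ∀ x y, x ≠ y → (D x).Coprime (D y)) :
    |(((Ioc Y (2 * Y)).filter (fun a => Hit c D a ∧ Rgh z c a)).card : ℝ) - (Y : ℝ) / (∏ x, D x : ℕ) * VV z c| ≤
      2 * (((z : ℝ) + 1) ^ r * (((2 * k : ℕ) : ℝ)) ^ r) + 6 * ((Y : ℝ) / (∏ x, D x : ℕ)) * Real.exp (3 * (((2 * k : ℕ) : ℝ) * (1 + Real.log z)) - r) := by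
  have hcard : Fintype.card (Fin k ⊕ Fin k) ≤ 2 * k := by simp; omega
  have g1 := count_gen c D z (2 * Y) r (2 * k) hcard (by omega) hD hr hcop
  have g2 := count_gen c D z Y r (2 * k) hcard (by omega) hD hr hcop
  have e1 : (((Icc 1 (2 * Y)).filter (fun a => Hit c D a ∧ Rgh z c a)).card : ℝ) =
      (((Icc 1 Y).filter (fun a => Hit c D a ∧ Rgh z c a)).card : ℝ) + (((Ioc Y (2 * Y)).filter (fun a => Hit c D a ∧ Rgh z c a)).card : ℝ) := by
    rw [← Nat.cast_add, ← card_union_of_disjoint]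
    · congr 2
      ext a
      simp only [mem_filter, mem_union, mem_Icc, mem_Ioc]
      constructor
      · rintro ⟨h1, h2⟩
        by_cases h3 : a ≤ Y
        · exact Or.inl ⟨⟨h1.1, h3⟩, h2⟩
        · exact Or.inr ⟨⟨by omega, h1.2⟩, h2⟩
      · rintro (⟨h1, h2⟩ | ⟨h1, h2⟩)
        · exact ⟨by omega, h2⟩
        · exact ⟨by omega, h2⟩
    · rw [disjoint_left]
      intro a ha hb
      rw [mem_filter, mem_Icc] at ha
      rw [mem_filter, mem_Ioc] at hb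
      omega
  have hV : (((2 * Y : ℕ) : ℝ)) = 2 * Y := by push_cast; ring
  rw [hV] at g1
  have g3 : (((Ioc Y (2 * Y)).filter (fun a => Hit c D a ∧ Rgh z c a)).card : ℝ) - (Y : ℝ) / (∏ x, D x : ℕ) * VV z c =
      ((((Icc 1 (2 * Y)).filter (fun a => Hit c D a ∧ Rgh z c a)).card : ℝ) - 2 * (Y : ℝ) / (∏ x, D x : ℕ) * VV z c) -
      ((((Icc 1 Y).filter (fun a => Hit c D a ∧ Rgh z c a)).card : ℝ) - (Y : ℝ) / (∏ x, D x : ℕ) * VV z c) := by
    rw [e1]; ring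
  rw [g3]
  refine (abs_sub _ _).trans ?_
  calc _ ≤ (((z : ℝ) + 1) ^ r * (((2 * k : ℕ) : ℝ)) ^ r + 2 * (2 * (Y : ℝ) / (∏ x, D x : ℕ)) * Real.exp (3 * (((2 * k : ℕ) : ℝ) * (1 + Real.log z)) - r)) +
      (((z : ℝ) + 1) ^ r * (((2 * k : ℕ) : ℝ)) ^ r + 2 * ((Y : ℝ) / (∏ x, D x : ℕ)) * Real.exp (3 * (((2 * k : ℕ) : ℝ) * (1 + Real.log z)) - r)) := add_le_add g1 g2
    _ = _ := by ring

end cnt

end Pool.Agent.L0h42.TB
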