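import Mathlib
import Pool.Agent.L0h42.TB.B16
import Pool.Agent.H373R2.T7.Lin
import Pool.Agent.H373R2.T7.Minor
import Pool.Agent.H373R2.T7.LamZ2
import Pool.Agent.H442R2.KF.BvY
import Pool.Agent.H373R2.T7.SupE2
import Pool.Agent.H373R2.T7.Cnt
import Pool.Agent.R311.DEH.A1
import Pool.Agent.Helper256.KM.Mertens
import Pool.Agent.W23.UBb
import Pool.Agent.H373R2.T7.Crt

/-! The mean over `n` of the error in the main term. -/

set_option autoImplicit false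
set_option linter.unusedSectionVars false

namespace Pool.Agent.L0h42.TB
open Finset
open Pool.Agent.H807R2.Dav
open Pool.Agent.H373R2.T7

section gen
variable {κ : Type*} [Fintype κ] [DecidableEq κ]

open Classical in
lemma expandG (z R : ℕ) (Λ : (κ → ℕ) → ℝ) (c : κ → ℤ) (I : Finset ℕ) :
    ∑ a ∈ I, Gr z c a * SS z R Λ c a ^ 2 =
      ∑ x ∈ PD κ z R ×ˢ PD κ z R, Λ x.1 * Λ x.2 * ((I.filter (fun a => Hit c (lc x) a ∧ Rgh z c a)).card : ℝ) := by
  have h1 : ∀ a ∈ I, Gr z c a * SS z R Λ c a ^ 2 =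
      ∑ x ∈ PD κ z R ×ˢ PD κ z R, Λ x.1 * Λ x.2 * (if Hit c (lc x) a ∧ Rgh z c a then 1 else 0) := by
    intro a _
    rw [SS_sq, mul_sum]
    apply sum_congr rfl
    intro x _
    unfold Gr
    by_cases h1 : Hit c (lc x) a
    · by_cases h2 : Rgh z c a
      · rw [if_pos h1, if_pos h2, if_pos (⟨h1, h2⟩ : Hit c (lc x) a ∧ Rgh z c a), one_mul]
      · have h3 : ¬ (Hit c (lc x) a ∧ Rgh z c a) := fun h => h2 h.2
        rw [if_neg h2, if_neg h3, zero_mul, mul_zero]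
    · have h3 : ¬ (Hit c (lc x) a ∧ Rgh z c a) := fun h => h1 h.1
      rw [if_neg h1, if_neg h3, mul_zero, mul_zero]
  rw [sum_congr rfl h1, sum_comm]
  apply sum_congr rfl
  intro x _
  rw [← mul_sum, ← sum_filter, sum_const, nsmul_eq_mul, mul_one]

lemma Qf_lc (z R : ℕ) (Λ : (κ → ℕ) → ℝ) :
    Qf z R Λ = ∑ x ∈ PD κ z R ×ˢ PD κ z R, Λ x.1 * Λ x.2 * (1 / (∏ l, lc x l : ℕ)) := by
  unfold Qf
  rw [sum_product]
  apply sum_congr rfl
  intro d _
  apply sum_congr rfl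
  intro e _
  congr 1
  unfold lc
  push_cast
  rw [one_div, ← prod_inv_distrib]
  exact prod_congr rfl fun w _ => one_div _

lemma VV_nonneg (z : ℕ) (c : κ → ℤ) : 0 ≤ VV z c := by
  unfold VV
  apply prod_nonneg
  intro p hp
  have hp0 : (0 : ℝ) < p := by exact_mod_cast (mem_pz.1 hp).2.pos
  have : (nu c p : ℝ) / p ≤ 1 := by
    rw [div_le_one hp0]
    exact_mod_cast nu_le_self c p
  linarith

lemma VV_le_one (z : ℕ) (c : κ → ℤ) : VV z c ≤ 1 := by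
  unfold VV
  apply prod_le_one
  · intro p hp
    have hp0 : (0 : ℝ) < p := by exact_mod_cast (mem_pz.1 hp).2.pos
    have : (nu c p : ℝ) / p ≤ 1 := by
      rw [div_le_one hp0]
      exact_mod_cast nu_le_self c p
    linarith
  · intro p _
    have : (0 : ℝ) ≤ (nu c p : ℝ) / p := by positivity
    linarith

lemma sum_lc_gen (z R : ℕ) : ∑ x ∈ PD κ z R ×ˢ PD κ z R, (1 : ℝ) / (∏ l, lc x l : ℕ) ≤ ((1 + Real.log R) ^ 3) ^ (Fintype.card κ) := by
  have h1 : ∑ x ∈ PD κ z R ×ˢ PD κ z R, (1 : ℝ) / (∏ l, lc x l : ℕ) =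
      ∏ _l : κ, ∑ d ∈ RR z R, ∑ e ∈ RR z R, (1 : ℝ) / (Nat.lcm d e) := by
    rw [← pi2 z R (fun (_ : κ) d e => (1 : ℝ) / (Nat.lcm d e)), sum_product]
    apply sum_congr rfl
    intro d _
    apply sum_congr rfl
    intro e _
    unfold lc
    push_cast
    rw [one_div, ← prod_inv_distrib]
    apply prod_congr rfl
    intro l _
    rw [one_div]
  rw [h1, prod_const, card_univ]
  apply pow_le_pow_left₀ (sum_nonneg fun _ _ => sum_nonneg fun _ _ => by positivity)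
  refine le_trans ?_ (lcm_sum R)
  rw [sum_product]
  have hsub : RR z R ⊆ Icc 1 R := filter_subset _ _
  calc _ ≤ ∑ d ∈ RR z R, ∑ e ∈ Icc 1 R, (1 : ℝ) / (Nat.lcm d e) := by
        apply sum_le_sum
        intro d _
        exact sum_le_sum_of_subset_of_nonneg hsub fun _ _ _ => by positivity
    _ ≤ _ := sum_le_sum_of_subset_of_nonneg hsub fun _ _ _ => sum_nonneg fun _ _ => by positivity

end gen

/-- the main sum -/
noncomputable def MM {k : ℕ} (z R Y : ℕ) (h h' : Fin k → ℕ) (Λ Λ' : (Fin k → ℕ) → ℝ) (n : ℕ) : ℝ :=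
  ∑ a ∈ Ioc Y (2 * Y), (Gr z (cneg h) a * SS z R Λ (cneg h) a ^ 2) * (Gr z (cneg h') (n - a) * SS z R Λ' (cneg h') (n - a) ^ 2)

set_option maxHeartbeats 4000000 in
open Classical in
theorem main_L1 (k A B : ℕ) (hk : 1 ≤ k) : ∃ E0 : ℕ, ∀ E : ℕ, ∃ N0 : ℕ, ∀ N : ℕ, N0 ≤ N → ∀ z R Y : ℕ,
    Real.log N ^ E0 ≤ z → (z : ℝ) ≤ Real.log N ^ E → 1 ≤ R → R ^ 80 ≤ N → 13 * Y ≤ N →
    ∀ (h h' : Fin k → ℕ), Function.Injective h → Function.Injective h' → (∀ l, h l ≤ z) → (∀ l, h' l ≤ z) →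
    ∀ (Λ Λ' : (Fin k → ℕ) → ℝ),
    (∀ d ∈ PD (Fin k) z R, |Λ d| ≤ Real.log N ^ B) → (∀ d, Λ d ≠ 0 → ∏ l, d l ≤ R) →
    (∀ d ∈ PD (Fin k) z R, |Λ' d| ≤ Real.log N ^ B) → (∀ d, Λ' d ≠ 0 → ∏ l, d l ≤ R) →
    ∑ n ∈ Ioc (4 * Y) (12 * Y), |MM z R Y h h' Λ Λ' n - Y * VV z (cj h h' n) * (Qf z R Λ * Qf z R Λ')| ≤ N ^ 2 / Real.log N ^ A := by
  obtain ⟨U, hU⟩ : ∃ U, U = A + 4 * B + 6 * k + 4 := ⟨_, rfl⟩
  refine ⟨U, fun E => ?_⟩
  obtain ⟨m2, h2⟩ := choice (2 * k) E U 40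
  obtain ⟨m3, h3⟩ := log_le_t (U + (3 * (2 * k * (1 + E)) + U + 1) * (2 * k))
  obtain ⟨m4, h4⟩ := ev_L' (180 * k ^ 2 + 8)
  refine ⟨max m2 (max m3 (max m4 3)), ?_⟩
  intro N hN z R Y hz1 hz2 hR1 hR hY h h' hinj hinj' hhz hhz' Λ Λ' hΛ hs hΛ' hs'
  have n2 : m2 ≤ N := le_trans (le_max_left _ _) hN
  have nn := le_trans (le_max_right m2 _) hN
  have n3 : m3 ≤ N := le_trans (le_max_left _ _) nn
  have n4 : m4 ≤ N := le_trans (le_trans (le_max_left _ _) (le_max_right _ _)) nn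
  have hN3 : 3 ≤ N := le_trans (le_trans (le_max_right _ _) (le_max_right _ _)) nn
  have hN1 : 1 ≤ N := by omega
  have hN0 : (0 : ℝ) < N := by exact_mod_cast hN1
  obtain ⟨t, ht0, ht40, hsq⟩ := exists_t N hN1
  have hLm := h3 N n3 t ht0 ht40 hsq
  have hL8 := h4 N n4
  obtain ⟨r, hr1, hr2, hr3⟩ := h2 N n2 z hz2
  set L := Real.log N with hLd
  have hkk : (0 : ℝ) ≤ 180 * (k : ℝ) ^ 2 := by positivity
  have hL1 : 1 ≤ L := by linarith
  have hL0 : 0 < L := by linarith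
  have hz0 : (0 : ℝ) < z := lt_of_lt_of_le (by positivity) hz1
  have hz : 1 ≤ z := by exact_mod_cast hz0
  have hRr : (1 : ℝ) ≤ R := by exact_mod_cast hR1
  have hlR0 : 0 ≤ Real.log R := Real.log_nonneg hRr
  have hlogR : 1 + Real.log R ≤ L := by
    have e1 : Real.log ((R : ℝ) ^ 80) ≤ L := Real.log_le_log (by positivity) (by exact_mod_cast hR)
    rw [Real.log_pow] at e1
    push_cast at e1
    nlinarith
  have ht1 : 1 ≤ t := by
    have : L ≤ t := le_trans (le_self_pow₀ hL1 (by omega)) hLm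
    linarith
  have hzt : ((z : ℝ) + 1) ^ r ≤ t := by
    apply le_of_pow_le_pow_left₀ (n := 40) (by norm_num) ht0
    rw [ht40]
    exact hr2
  have hRt : (R : ℝ) * R ≤ t := by
    apply le_of_pow_le_pow_left₀ (n := 40) (by norm_num) ht0
    rw [ht40]
    have e1 : ((R : ℝ) * R) ^ 40 = (R : ℝ) ^ 80 := by ring
    rw [e1]
    exact_mod_cast hR
  have hkr2 : ((2 * k : ℕ) : ℝ) ^ r * L ^ U ≤ t := by
    calc ((2 * k : ℕ) : ℝ) ^ r * L ^ U ≤ L ^ ((3 * (2 * k * (1 + E)) + U + 1) * (2 * k)) * L ^ U := mul_le_mul_of_nonneg_right (hr3 (2 * k)) (by positivity)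
      _ = L ^ (U + (3 * (2 * k * (1 + E)) + U + 1) * (2 * k)) := by rw [← pow_add, add_comm]
      _ ≤ t := hLm
  have hR2N : R * R ≤ N := by
    have : (R : ℝ) * R ≤ N := by
      calc (R : ℝ) * R ≤ t := hRt
        _ ≤ t ^ 40 := le_self_pow₀ ht1 (by norm_num)
        _ = N := ht40
    exact_mod_cast this
  have hYN : (Y : ℝ) ≤ N := by exact_mod_cast (show Y ≤ N by omega)
  have h8Y : 8 * (Y : ℝ) ≤ N := by exact_mod_cast (show 8 * Y ≤ N by omega)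
  have hB0 : (0 : ℝ) ≤ L ^ B := by positivity
  -- the weights of the joint system
  obtain ⟨Λj, hΛj⟩ : ∃ Λj, Λj = Lj Λ Λ' := ⟨_, rfl⟩
  have hj1 : ∀ δ ∈ PD (Fin k ⊕ Fin k) z R, |Λj δ| ≤ L ^ B * L ^ B := by
    intro δ hδ
    rw [hΛj]
    unfold Lj
    rw [abs_mul]
    exact mul_le_mul (hΛ _ (mem_PD.2 fun l => mem_PD.1 hδ _)) (hΛ' _ (mem_PD.2 fun l => mem_PD.1 hδ _)) (abs_nonneg _) hB0
  have hj2 : ∀ δ, Λj δ ≠ 0 → ∏ l, δ (Sum.inl l) ≤ R ∧ ∏ l, δ (Sum.inr l) ≤ R := by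
    intro δ hδ
    rw [hΛj] at hδ
    unfold Lj at hδ
    exact ⟨hs _ (left_ne_zero_of_mul hδ), hs' _ (right_ne_zero_of_mul hδ)⟩
  obtain ⟨PP, hPP⟩ : ∃ PP, PP = PD (Fin k ⊕ Fin k) z R ×ˢ PD (Fin k ⊕ Fin k) z R := ⟨_, rfl⟩
  -- the difference for one `n`
  have g1 : ∀ n ∈ Ioc (4 * Y) (12 * Y), |MM z R Y h h' Λ Λ' n - Y * VV z (cj h h' n) * (Qf z R Λ * Qf z R Λ')| ≤
      ∑ x ∈ PP, |Λj x.1 * Λj x.2| * |(((Ioc Y (2 * Y)).filter (fun a => Hit (cj h h' n) (lc x) a ∧ Rgh z (cj h h' n) a)).card : ℝ) -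
        (Y : ℝ) / (∏ l, lc x l : ℕ) * VV z (cj h h' n)| := by
    intro n hn
    rw [mem_Ioc] at hn
    have e1 : MM z R Y h h' Λ Λ' n = ∑ x ∈ PP, Λj x.1 * Λj x.2 *
        (((Ioc Y (2 * Y)).filter (fun a => Hit (cj h h' n) (lc x) a ∧ Rgh z (cj h h' n) a)).card : ℝ) := by
      rw [hPP, ← expandG z R Λj (cj h h' n) (Ioc Y (2 * Y))]
      unfold MM
      apply sum_congr rfl
      intro a ha
      rw [mem_Ioc] at ha
      rw [hΛj, SS_joint z R Λ Λ' h h' n a (by omega), Gr_joint z h h' n a (by omega)]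
      ring
    have e2 : Y * VV z (cj h h' n) * (Qf z R Λ * Qf z R Λ') = ∑ x ∈ PP, Λj x.1 * Λj x.2 * ((Y : ℝ) / (∏ l, lc x l : ℕ) * VV z (cj h h' n)) := by
      rw [← Qf_joint, Qf_lc, ← hΛj, ← hPP, mul_sum]
      apply sum_congr rfl
      intro x _
      ring
    rw [e1, e2, ← sum_sub_distrib]
    refine (abs_sum_le_sum_abs _ _).trans (le_of_eq ?_)
    apply sum_congr rfl
    intro x _
    rw [← mul_sub, abs_mul]
  refine (sum_le_sum g1).trans ?_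
  rw [sum_comm]
  obtain ⟨εr, hεr⟩ : ∃ εr : ℝ, εr = 2 * (((z : ℝ) + 1) ^ r * (((2 * k : ℕ) : ℝ)) ^ r * ((R * R) * (R * R))) +
      6 * (Y : ℝ) * Real.exp (3 * (((2 * k : ℕ) : ℝ) * (1 + Real.log z)) - r) := ⟨_, rfl⟩
  have hεr0 : 0 ≤ εr := by rw [hεr]; positivity
  -- the bound for one `x`
  have g2 : ∀ x ∈ PP, ∑ n ∈ Ioc (4 * Y) (12 * Y), |Λj x.1 * Λj x.2| *
      |(((Ioc Y (2 * Y)).filter (fun a => Hit (cj h h' n) (lc x) a ∧ Rgh z (cj h h' n) a)).card : ℝ) - (Y : ℝ) / (∏ l, lc x l : ℕ) * VV z (cj h h' n)| ≤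
      (L ^ B * L ^ B) * (L ^ B * L ^ B) * (8 * Y * εr) * (1 / (∏ l, lc x l : ℕ)) +
      (if Conf x then (L ^ B * L ^ B) * (L ^ B * L ^ B) * (5 * N ^ 2) * (1 / (∏ l, lc x l : ℕ)) else 0) := by
    intro x hx
    rw [hPP, mem_product] at hx
    have hrhs : 0 ≤ (L ^ B * L ^ B) * (L ^ B * L ^ B) * (8 * Y * εr) * (1 / (∏ l, lc x l : ℕ)) +
      (if Conf x then (L ^ B * L ^ B) * (L ^ B * L ^ B) * (5 * N ^ 2) * (1 / (∏ l, lc x l : ℕ)) else 0) := by
      apply add_nonneg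
      · positivity
      · split_ifs
        · positivity
        · exact le_rfl
    rw [← mul_sum]
    by_cases hz1 : Λj x.1 = 0
    · rw [hz1, zero_mul, abs_zero, zero_mul]; exact hrhs
    by_cases hz2 : Λj x.2 = 0
    · rw [hz2, mul_zero, abs_zero, zero_mul]; exact hrhs
    obtain ⟨a1, a2, a3⟩ := lc_rough hx.1 hx.2
    have hD1 : 1 ≤ ∏ l, lc x l := Nat.pos_of_ne_zero (prod_ne_zero_iff.2 fun l _ => by have := a1 l; omega)
    have hD0 : (0 : ℝ) < (∏ l, lc x l : ℕ) := by exact_mod_cast hD1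
    have hLL : |Λj x.1 * Λj x.2| ≤ (L ^ B * L ^ B) * (L ^ B * L ^ B) := by
      rw [abs_mul]
      exact mul_le_mul (hj1 _ hx.1) (hj1 _ hx.2) (abs_nonneg _) (by positivity)
    have hdl : ∏ l, lc (xl x) l ≤ R * R := (lc_prod_le (xl x)).trans (Nat.mul_le_mul (hj2 _ hz1).1 (hj2 _ hz2).1)
    have hdr : ∏ l, lc (xr x) l ≤ R * R := (lc_prod_le (xr x)).trans (Nat.mul_le_mul (hj2 _ hz1).2 (hj2 _ hz2).2)
    have hd : ∏ l, lc x l ≤ (R * R) * (R * R) := by rw [lc_prod]; exact Nat.mul_le_mul hdl hdr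
    by_cases hc : Conf x
    · rw [if_pos hc]
      have p1 := pair_count z R N Y h h' hinj hinj' hhz hhz' x hx.1 hx.2 (by omega) (hdl.trans hR2N) (hdr.trans hR2N)
      have p2 : ∑ n ∈ Ioc (4 * Y) (12 * Y), |(((Ioc Y (2 * Y)).filter (fun a => Hit (cj h h' n) (lc x) a ∧ Rgh z (cj h h' n) a)).card : ℝ) - (Y : ℝ) / (∏ l, lc x l : ℕ) * VV z (cj h h' n)| ≤
          5 * N ^ 2 * (1 / (∏ l, lc x l : ℕ)) := by
        calc _ ≤ ∑ n ∈ Ioc (4 * Y) (12 * Y), ((((Ioc Y (2 * Y)).filter (fun a => Hit (cj h h' n) (lc x) a ∧ Rgh z (cj h h' n) a)).card : ℝ) + (Y : ℝ) / (∏ l, lc x l : ℕ)) := by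
              apply sum_le_sum
              intro n _
              have q1 := VV_nonneg z (cj h h' n)
              have q2 := VV_le_one z (cj h h' n)
              have q3 : (0 : ℝ) ≤ (Y : ℝ) / (∏ l, lc x l : ℕ) := by positivity
              refine (abs_sub _ _).trans ?_
              rw [Nat.abs_cast, abs_of_nonneg (mul_nonneg q3 q1)]
              have := mul_le_mul_of_nonneg_left q2 q3
              linarith
          _ ≤ 4 * N ^ 2 * (1 / (∏ l, lc x l : ℕ)) + (8 * Y) * ((Y : ℝ) / (∏ l, lc x l : ℕ)) := by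
              rw [sum_add_distrib]
              apply add_le_add p1
              rw [sum_const, Nat.card_Ioc, nsmul_eq_mul]
              have : 12 * Y - 4 * Y = 8 * Y := by omega
              rw [this]
              push_cast
              exact le_rfl
          _ = (4 * N ^ 2 + (8 * Y) * Y) * (1 / (∏ l, lc x l : ℕ)) := by ring
          _ ≤ 5 * N ^ 2 * (1 / (∏ l, lc x l : ℕ)) := by
              apply mul_le_mul_of_nonneg_right _ (by positivity)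
              nlinarith
      have p3 : 0 ≤ (L ^ B * L ^ B) * (L ^ B * L ^ B) * (8 * Y * εr) * (1 / (∏ l, lc x l : ℕ)) := by positivity
      calc _ ≤ (L ^ B * L ^ B) * (L ^ B * L ^ B) * (5 * N ^ 2 * (1 / (∏ l, lc x l : ℕ))) :=
            mul_le_mul hLL p2 (sum_nonneg fun _ _ => abs_nonneg _) (by positivity)
        _ = (L ^ B * L ^ B) * (L ^ B * L ^ B) * (5 * N ^ 2) * (1 / (∏ l, lc x l : ℕ)) := by ring
        _ ≤ _ := by linarith
    · rw [if_neg hc, add_zero]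
      unfold Conf at hc
      push Not at hc
      have p1 : ∀ n ∈ Ioc (4 * Y) (12 * Y), |(((Ioc Y (2 * Y)).filter (fun a => Hit (cj h h' n) (lc x) a ∧ Rgh z (cj h h' n) a)).card : ℝ) - (Y : ℝ) / (∏ l, lc x l : ℕ) * VV z (cj h h' n)| ≤
          εr * (1 / (∏ l, lc x l : ℕ)) := by
        intro n _
        refine (single_count z Y r hk (cj h h' n) (lc x) a1 a2 hc).trans ?_
        have q1 : (1 : ℝ) ≤ (R * R) * (R * R) * (1 / (∏ l, lc x l : ℕ)) := by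
          rw [mul_one_div, one_le_div hD0]
          exact_mod_cast hd
        have q2 : ((z : ℝ) + 1) ^ r * (((2 * k : ℕ) : ℝ)) ^ r ≤ ((z : ℝ) + 1) ^ r * (((2 * k : ℕ) : ℝ)) ^ r * ((R * R) * (R * R) * (1 / (∏ l, lc x l : ℕ))) :=
          le_mul_of_one_le_right (by positivity) q1
        rw [hεr]
        calc _ ≤ 2 * (((z : ℝ) + 1) ^ r * (((2 * k : ℕ) : ℝ)) ^ r * ((R * R) * (R * R) * (1 / (∏ l, lc x l : ℕ)))) +
              6 * ((Y : ℝ) / (∏ l, lc x l : ℕ)) * Real.exp (3 * (((2 * k : ℕ) : ℝ) * (1 + Real.log z)) - r) := by linarith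
          _ = _ := by ring
      have p2 : ∑ n ∈ Ioc (4 * Y) (12 * Y), |(((Ioc Y (2 * Y)).filter (fun a => Hit (cj h h' n) (lc x) a ∧ Rgh z (cj h h' n) a)).card : ℝ) - (Y : ℝ) / (∏ l, lc x l : ℕ) * VV z (cj h h' n)| ≤
          8 * Y * (εr * (1 / (∏ l, lc x l : ℕ))) := by
        refine (sum_le_sum p1).trans (le_of_eq ?_)
        rw [sum_const, Nat.card_Ioc, nsmul_eq_mul]
        have : 12 * Y - 4 * Y = 8 * Y := by omega
        rw [this]
        push_cast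
        ring
      calc _ ≤ (L ^ B * L ^ B) * (L ^ B * L ^ B) * (8 * Y * (εr * (1 / (∏ l, lc x l : ℕ)))) :=
            mul_le_mul hLL p2 (sum_nonneg fun _ _ => abs_nonneg _) (by positivity)
        _ = _ := by ring
  refine (sum_le_sum g2).trans ?_
  rw [sum_add_distrib, ← mul_sum, ← sum_filter, ← mul_sum]
  have hcard : Fintype.card (Fin k ⊕ Fin k) = 2 * k := by simp; omega
  have s1 := sum_lc_gen (κ := Fin k ⊕ Fin k) z R
  have s2 := conf_sum (κ := Fin k ⊕ Fin k) z R hz hR1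
  rw [hcard] at s1 s2
  have hT : ((1 + Real.log R) ^ 3) ^ (2 * k) ≤ L ^ (6 * k) := by
    calc ((1 + Real.log R) ^ 3) ^ (2 * k) ≤ (L ^ 3) ^ (2 * k) :=
          pow_le_pow_left₀ (by positivity) (pow_le_pow_left₀ (by positivity) hlogR 3) _
      _ = L ^ (6 * k) := by rw [← pow_mul]; congr 1; ring
  have hεN : εr ≤ 8 * (N / L ^ U) := by
    rw [hεr]
    have q1 : ((z : ℝ) + 1) ^ r * (((2 * k : ℕ) : ℝ)) ^ r * ((R * R) * (R * R)) ≤ N / L ^ U := by
      rw [le_div_iff₀ (by positivity)]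
      calc ((z : ℝ) + 1) ^ r * (((2 * k : ℕ) : ℝ)) ^ r * ((R * R) * (R * R)) * L ^ U =
            ((z : ℝ) + 1) ^ r * ((((2 * k : ℕ) : ℝ)) ^ r * L ^ U) * ((R * R) * (R * R)) := by ring
        _ ≤ t * t * (t * t) := by gcongr
        _ = t ^ 4 := by ring
        _ ≤ t ^ 40 := pow_le_pow_right₀ ht1 (by norm_num)
        _ = N := ht40
    have q2 : (Y : ℝ) * Real.exp (3 * (((2 * k : ℕ) : ℝ) * (1 + Real.log z)) - r) ≤ N / L ^ U := by
      calc (Y : ℝ) * Real.exp (3 * (((2 * k : ℕ) : ℝ) * (1 + Real.log z)) - r) ≤ N * (1 / L ^ U) := by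
            apply mul_le_mul hYN hr1 (Real.exp_pos _).le hN0.le
        _ = _ := by ring
    linarith
  have f1 : (L ^ B * L ^ B) * (L ^ B * L ^ B) * (8 * Y * εr) * ∑ x ∈ PP, (1 : ℝ) / (∏ l, lc x l : ℕ) ≤
      8 / L ^ 4 * (N ^ 2 / L ^ A) := by
    rw [hPP]
    calc _ ≤ (L ^ B * L ^ B) * (L ^ B * L ^ B) * (N * (8 * (N / L ^ U))) * L ^ (6 * k) := by
          apply mul_le_mul _ (s1.trans hT) (sum_nonneg fun _ _ => by positivity) (by positivity)
          apply mul_le_mul_of_nonneg_left _ (by positivity)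
          exact mul_le_mul h8Y hεN hεr0 hN0.le
      _ = _ := by
          rw [hU]
          have e3 : L ^ (A + 4 * B + 6 * k + 4) = L ^ A * ((L ^ B * L ^ B) * (L ^ B * L ^ B)) * L ^ (6 * k) * L ^ 4 := by ring
          rw [e3]
          field_simp
  have f2 : (L ^ B * L ^ B) * (L ^ B * L ^ B) * (5 * N ^ 2) * ∑ x ∈ PP.filter (fun x => Conf x), (1 : ℝ) / (∏ l, lc x l : ℕ) ≤
      180 * k ^ 2 / L ^ 4 * (N ^ 2 / L ^ A) := by
    rw [hPP]
    have q1 : (9 : ℝ) / z ≤ 9 / L ^ U := div_le_div_of_nonneg_left (by norm_num) (by positivity) hz1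
    calc _ ≤ (L ^ B * L ^ B) * (L ^ B * L ^ B) * (5 * N ^ 2) * ((((2 * k : ℕ) : ℝ)) ^ 2 * (9 / L ^ U) * L ^ (6 * k)) := by
          apply mul_le_mul_of_nonneg_left _ (by positivity)
          refine s2.trans ?_
          apply mul_le_mul _ hT (by positivity) (by positivity)
          exact mul_le_mul_of_nonneg_left q1 (by positivity)
      _ = _ := by
          rw [hU]
          have e3 : L ^ (A + 4 * B + 6 * k + 4) = L ^ A * ((L ^ B * L ^ B) * (L ^ B * L ^ B)) * L ^ (6 * k) * L ^ 4 := by ring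
          rw [e3]
          push_cast
          field_simp
          ring
  calc _ ≤ 8 / L ^ 4 * (N ^ 2 / L ^ A) + 180 * k ^ 2 / L ^ 4 * (N ^ 2 / L ^ A) := add_le_add f1 f2
    _ = (180 * k ^ 2 + 8) / L ^ 4 * (N ^ 2 / L ^ A) := by ring
    _ ≤ 1 * (N ^ 2 / L ^ A) := by
        apply mul_le_mul_of_nonneg_right _ (by positivity)
        rw [div_le_one (by positivity)]
        calc 180 * (k : ℝ) ^ 2 + 8 ≤ L := hL8
          _ ≤ L ^ 4 := le_self_pow₀ hL1 (by norm_num)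
    _ = _ := one_mul _

end Pool.Agent.L0h42.TB
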