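import Mathlib
import Pool.Agent.L0h42.TB.B3
import Pool.Agent.H373R2.T7.Lin
import Pool.Agent.H373R2.T7.Minor
import Pool.Agent.H373R2.T7.LamZ2
import Pool.Agent.H442R2.KF.BvY
import Pool.Agent.H373R2.T7.SupE2
import Pool.Agent.H373R2.T7.Cnt
import Pool.Agent.R311.DEH.A1
import Pool.Agent.Helper256.KM.Mertens
import Pool.Agent.W23.UBb
import Pool.Agent.H373R2.T7.Crt

/-! The weights: sums of the step function. -/

set_option autoImplicit false
set_option linter.unusedSectionVars false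

namespace Pool.Agent.L0h42.TB
open Finset
open Pool.Agent.H373R2.T7

lemma step_sq (n : ℕ) : ∀ (b : ℕ → ℝ), (∀ j, b j = 0 ∨ b j = 1) → (∀ i j, i ≤ j → b i ≤ b j) →
    (∑ j ∈ range n, (1 / 2 : ℝ) ^ j * b j) ^ 2 ≤ 4 * ∑ j ∈ range n, (1 / 4 : ℝ) ^ j * b j := by
  induction n with
  | zero => intro b _ _; simp
  | succ n ih =>
    intro b hb hm
    rw [sum_range_succ', sum_range_succ' (fun j => (1 / 4 : ℝ) ^ j * b j)]
    have e1 : ∑ j ∈ range n, (1 / 2 : ℝ) ^ (j + 1) * b (j + 1) = 1 / 2 * ∑ j ∈ range n, (1 / 2 : ℝ) ^ j * b (j + 1) := by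
      rw [mul_sum]; apply sum_congr rfl; intro j _; ring
    have e2 : ∑ j ∈ range n, (1 / 4 : ℝ) ^ (j + 1) * b (j + 1) = 1 / 4 * ∑ j ∈ range n, (1 / 4 : ℝ) ^ j * b (j + 1) := by
      rw [mul_sum]; apply sum_congr rfl; intro j _; ring
    have h1 := ih (fun j => b (j + 1)) (fun j => hb (j + 1)) (fun i j hij => hm _ _ (by omega))
    rw [e1, e2]
    have h0 : 0 ≤ ∑ j ∈ range n, (1 / 4 : ℝ) ^ j * b (j + 1) :=
      sum_nonneg fun j _ => mul_nonneg (by positivity) (by rcases hb (j + 1) with h | h <;> rw [h] <;> norm_num)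
    have h3 : 0 ≤ ∑ j ∈ range n, (1 / 2 : ℝ) ^ j * b (j + 1) :=
      sum_nonneg fun j _ => mul_nonneg (by positivity) (by rcases hb (j + 1) with h | h <;> rw [h] <;> norm_num)
    have h4 : ∑ j ∈ range n, (1 / 2 : ℝ) ^ j * b (j + 1) ≤ 2 := by
      calc ∑ j ∈ range n, (1 / 2 : ℝ) ^ j * b (j + 1) ≤ ∑ j ∈ range n, (1 / 2 : ℝ) ^ j := by
            apply sum_le_sum
            intro j _
            rcases hb (j + 1) with h | h <;> rw [h]
            · rw [mul_zero]; positivity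
            · rw [mul_one]
        _ ≤ 2 := by
            have := geom_sum_eq (show (1 / 2 : ℝ) ≠ 1 by norm_num) n
            rw [this]
            have : (0 : ℝ) ≤ (1 / 2) ^ n := by positivity
            rw [div_le_iff_of_neg (by norm_num)]
            linarith
    rcases hb 0 with h | h
    · rw [h]
      simp only [mul_zero, add_zero]
      rw [mul_pow]
      linarith
    · rw [h]
      simp only [pow_zero, mul_one]
      nlinarith

/-- the step function -/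
noncomputable def gw (x J r : ℕ) : ℝ := ∑ j ∈ range (J + 1), (1 / 2 : ℝ) ^ j * (if r ≤ x ^ (2 ^ j) then 1 else 0)

lemma gw_nonneg (x J r : ℕ) : 0 ≤ gw x J r := by
  unfold gw
  apply sum_nonneg
  intro j _
  apply mul_nonneg (by positivity)
  split_ifs <;> norm_num

lemma gw_le_two (x J r : ℕ) : gw x J r ≤ 2 := by
  unfold gw
  calc _ ≤ ∑ j ∈ range (J + 1), (1 / 2 : ℝ) ^ j := by
        apply sum_le_sum
        intro j _
        split_ifs
        · rw [mul_one]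
        · rw [mul_zero]; positivity
    _ ≤ 2 := by
        rw [geom_sum_eq (show (1 / 2 : ℝ) ≠ 1 by norm_num) (J + 1)]
        have : (0 : ℝ) ≤ (1 / 2) ^ (J + 1) := by positivity
        rw [div_le_iff_of_neg (by norm_num)]
        linarith

lemma gw_one_le {x J r : ℕ} (h : r ≤ x) : 1 ≤ gw x J r := by
  unfold gw
  have h1 : (1 / 2 : ℝ) ^ 0 * (if r ≤ x ^ (2 ^ 0) then 1 else 0) ≤ ∑ j ∈ range (J + 1), (1 / 2 : ℝ) ^ j * (if r ≤ x ^ (2 ^ j) then 1 else 0) := by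
    apply single_le_sum (f := fun j => (1 / 2 : ℝ) ^ j * (if r ≤ x ^ (2 ^ j) then (1 : ℝ) else 0))
    · intro j _
      apply mul_nonneg (by positivity)
      split_ifs <;> norm_num
    · rw [mem_range]; omega
  rw [if_pos (by simpa using h)] at h1
  simpa using h1

lemma gw_zero {x J r : ℕ} (hx : 1 ≤ x) (h : x ^ (2 ^ J) < r) : gw x J r = 0 := by
  unfold gw
  apply sum_eq_zero
  intro j hj
  rw [mem_range] at hj
  rw [if_neg, mul_zero]
  have h1 : x ^ (2 ^ j) ≤ x ^ (2 ^ J) := Nat.pow_le_pow_right hx (Nat.pow_le_pow_right (by norm_num) (by omega))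
  omega

lemma gw_sq (x J r : ℕ) (hx : 1 ≤ x) : gw x J r ^ 2 ≤ 4 * ∑ j ∈ range (J + 1), (1 / 4 : ℝ) ^ j * (if r ≤ x ^ (2 ^ j) then 1 else 0) := by
  apply step_sq (J + 1) (fun j => if r ≤ x ^ (2 ^ j) then (1 : ℝ) else 0)
  · intro j
    split_ifs <;> simp
  · intro i j hij
    have h1 : x ^ (2 ^ i) ≤ x ^ (2 ^ j) := Nat.pow_le_pow_right hx (Nat.pow_le_pow_right (by norm_num) hij)
    by_cases h : r ≤ x ^ (2 ^ i)
    · rw [if_pos h, if_pos (h.trans h1)]
    · rw [if_neg h]; split_ifs <;> norm_num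

lemma sum_RR_le (z R X : ℕ) (hX : X ≤ R) (f : ℕ → ℝ) :
    ∑ r ∈ RR z R, f r * (if r ≤ X then 1 else 0) = ∑ r ∈ RR z X, f r := by
  have h1 : ∀ r ∈ RR z R, f r * (if r ≤ X then 1 else 0) = if r ≤ X then f r else 0 := by
    intro r _
    split_ifs <;> simp
  rw [sum_congr rfl h1, ← sum_filter]
  apply sum_congr _ fun _ _ => rfl
  ext r
  rw [mem_filter, mem_RR, mem_RR]
  constructor
  · rintro ⟨⟨⟨h1, _⟩, h2⟩, h3⟩
    exact ⟨⟨h1, h3⟩, h2⟩
  · rintro ⟨⟨h1, h3⟩, h2⟩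
    exact ⟨⟨⟨h1, h3.trans hX⟩, h2⟩, h3⟩

section bounds
variable (C z R x J : ℕ)

noncomputable def BB : ℝ := ∑ r ∈ RR z R, gw x J r * (1 / (Nat.totient r : ℝ))
noncomputable def AA : ℝ := ∑ r ∈ RR z R, gw x J r ^ 2 * (1 / (Nat.totient r : ℝ))
noncomputable def AL : ℝ := ∑ r ∈ RR z R, gw x J r ^ 2 * (1 / (Nat.totient r : ℝ)) * Real.log r

lemma pow2_le {x J R j : ℕ} (hx : 1 ≤ x) (hR : x ^ (2 ^ J) ≤ R) (hj : j ∈ range (J + 1)) : x ^ (2 ^ j) ≤ R := by
  rw [mem_range] at hj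
  exact (Nat.pow_le_pow_right hx (Nat.pow_le_pow_right (by norm_num) (by omega))).trans hR

lemma log_pow2 (x j : ℕ) : Real.log ((x ^ (2 ^ j) : ℕ) : ℝ) = 2 ^ j * Real.log x := by
  push_cast
  rw [Real.log_pow]
  push_cast
  rfl

lemma BB_low (hx : 1 ≤ x) (hR : x ^ (2 ^ J) ≤ R) : Vz z * Real.log x * (J + 1) ≤ BB z R x J := by
  unfold BB gw
  have h1 : ∑ r ∈ RR z R, (∑ j ∈ range (J + 1), (1 / 2 : ℝ) ^ j * (if r ≤ x ^ (2 ^ j) then 1 else 0)) * (1 / (Nat.totient r : ℝ)) =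
      ∑ j ∈ range (J + 1), (1 / 2 : ℝ) ^ j * ∑ r ∈ RR z (x ^ (2 ^ j)), 1 / (Nat.totient r : ℝ) := by
    have : ∀ j ∈ range (J + 1), (1 / 2 : ℝ) ^ j * ∑ r ∈ RR z (x ^ (2 ^ j)), 1 / (Nat.totient r : ℝ) =
        ∑ r ∈ RR z R, (1 / 2 : ℝ) ^ j * (if r ≤ x ^ (2 ^ j) then 1 else 0) * (1 / (Nat.totient r : ℝ)) := by
      intro j hj
      rw [← sum_RR_le z R _ (pow2_le hx hR hj), mul_sum]
      apply sum_congr rfl
      intro r _
      ring
    rw [sum_congr rfl this, sum_comm]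
    apply sum_congr rfl
    intro r _
    rw [sum_mul]
  rw [h1]
  calc Vz z * Real.log x * (J + 1) = ∑ j ∈ range (J + 1), Vz z * Real.log x := by
        rw [sum_const, card_range, nsmul_eq_mul]; push_cast; ring
    _ ≤ _ := by
        apply sum_le_sum
        intro j hj
        have h2 := phi_low z (x ^ (2 ^ j))
        rw [log_pow2] at h2
        have h3 : (1 / 2 : ℝ) ^ j * 2 ^ j = 1 := by rw [← mul_pow]; norm_num
        calc Vz z * Real.log x = (1 / 2 : ℝ) ^ j * (Vz z * (2 ^ j * Real.log x)) := by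
              rw [show (1 / 2 : ℝ) ^ j * (Vz z * (2 ^ j * Real.log x)) = ((1 / 2 : ℝ) ^ j * 2 ^ j) * (Vz z * Real.log x) by ring, h3, one_mul]
          _ ≤ _ := mul_le_mul_of_nonneg_left h2 (by positivity)

lemma sum_up (hC : ∀ N : ℕ, 3 ≤ N → (Vz N)⁻¹ ≤ C * Real.log N) {X : ℕ} (hX3 : 3 ≤ X) (hzX : z ≤ X) :
    ∑ r ∈ RR z X, 1 / (Nat.totient r : ℝ) ≤ C * (Vz z * Real.log X) := by
  refine (phi_up z X hzX).trans ?_
  calc Vz z * (Vz X)⁻¹ ≤ Vz z * (C * Real.log X) := mul_le_mul_of_nonneg_left (hC X hX3) (Vz_pos z).le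
    _ = _ := by ring

lemma AA_up (hC : ∀ N : ℕ, 3 ≤ N → (Vz N)⁻¹ ≤ C * Real.log N) (hx : 3 ≤ x) (hz : z ≤ x) (hR : x ^ (2 ^ J) ≤ R) :
    AA z R x J ≤ 8 * (C * (Vz z * Real.log x)) := by
  have hlx : 0 ≤ Real.log x := Real.log_natCast_nonneg x
  have hV := (Vz_pos z).le
  have hx1 : 1 ≤ x := by omega
  unfold AA
  have h1 : ∑ r ∈ RR z R, gw x J r ^ 2 * (1 / (Nat.totient r : ℝ)) ≤
      ∑ j ∈ range (J + 1), 4 * (1 / 4 : ℝ) ^ j * ∑ r ∈ RR z (x ^ (2 ^ j)), 1 / (Nat.totient r : ℝ) := by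
    have : ∀ j ∈ range (J + 1), 4 * (1 / 4 : ℝ) ^ j * ∑ r ∈ RR z (x ^ (2 ^ j)), 1 / (Nat.totient r : ℝ) =
        ∑ r ∈ RR z R, 4 * ((1 / 4 : ℝ) ^ j * (if r ≤ x ^ (2 ^ j) then 1 else 0)) * (1 / (Nat.totient r : ℝ)) := by
      intro j hj
      rw [← sum_RR_le z R _ (pow2_le hx1 hR hj), mul_sum]
      apply sum_congr rfl
      intro r _
      ring
    rw [sum_congr rfl this, sum_comm]
    apply sum_le_sum
    intro r _
    rw [← sum_mul, ← mul_sum]
    exact mul_le_mul_of_nonneg_right (gw_sq x J r hx1) (by positivity)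
  refine h1.trans ?_
  calc ∑ j ∈ range (J + 1), 4 * (1 / 4 : ℝ) ^ j * ∑ r ∈ RR z (x ^ (2 ^ j)), 1 / (Nat.totient r : ℝ) ≤
        ∑ j ∈ range (J + 1), 4 * (C * (Vz z * Real.log x)) * (1 / 2 : ℝ) ^ j := by
        apply sum_le_sum
        intro j _
        have hxj : x ≤ x ^ (2 ^ j) := Nat.le_self_pow (by positivity) x
        have h2 := sum_up C z hC (X := x ^ (2 ^ j)) (by omega) (by omega)
        rw [log_pow2] at h2
        have h3 : (1 / 4 : ℝ) ^ j * 2 ^ j = (1 / 2) ^ j := by rw [← mul_pow]; norm_num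
        calc 4 * (1 / 4 : ℝ) ^ j * ∑ r ∈ RR z (x ^ (2 ^ j)), 1 / (Nat.totient r : ℝ) ≤
              4 * (1 / 4 : ℝ) ^ j * (C * (Vz z * (2 ^ j * Real.log x))) := mul_le_mul_of_nonneg_left h2 (by positivity)
          _ = 4 * (C * (Vz z * Real.log x)) * ((1 / 4 : ℝ) ^ j * 2 ^ j) := by ring
          _ = _ := by rw [h3]
    _ = 4 * (C * (Vz z * Real.log x)) * ∑ j ∈ range (J + 1), (1 / 2 : ℝ) ^ j := by rw [mul_sum]
    _ ≤ 4 * (C * (Vz z * Real.log x)) * 2 := by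
        apply mul_le_mul_of_nonneg_left _ (by positivity)
        rw [geom_sum_eq (show (1 / 2 : ℝ) ≠ 1 by norm_num) (J + 1)]
        have : (0 : ℝ) ≤ (1 / 2) ^ (J + 1) := by positivity
        rw [div_le_iff_of_neg (by norm_num)]
        linarith
    _ = _ := by ring

lemma AL_up (hC : ∀ N : ℕ, 3 ≤ N → (Vz N)⁻¹ ≤ C * Real.log N) (hx : 3 ≤ x) (hz : z ≤ x) (hR : x ^ (2 ^ J) ≤ R) :
    AL z R x J ≤ 4 * C * (J + 1) * Real.log x * (Vz z * Real.log x) := by
  have hlx : 0 ≤ Real.log x := Real.log_natCast_nonneg x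
  have hV := (Vz_pos z).le
  have hx1 : 1 ≤ x := by omega
  unfold AL
  have h1 : ∑ r ∈ RR z R, gw x J r ^ 2 * (1 / (Nat.totient r : ℝ)) * Real.log r ≤
      ∑ j ∈ range (J + 1), 4 * (1 / 4 : ℝ) ^ j * ∑ r ∈ RR z (x ^ (2 ^ j)), 1 / (Nat.totient r : ℝ) * Real.log r := by
    have : ∀ j ∈ range (J + 1), 4 * (1 / 4 : ℝ) ^ j * ∑ r ∈ RR z (x ^ (2 ^ j)), 1 / (Nat.totient r : ℝ) * Real.log r =
        ∑ r ∈ RR z R, 4 * ((1 / 4 : ℝ) ^ j * (if r ≤ x ^ (2 ^ j) then 1 else 0)) * (1 / (Nat.totient r : ℝ) * Real.log r) := by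
      intro j hj
      rw [← sum_RR_le z R _ (pow2_le hx1 hR hj), mul_sum]
      apply sum_congr rfl
      intro r _
      ring
    rw [sum_congr rfl this, sum_comm]
    apply sum_le_sum
    intro r _
    rw [← sum_mul, ← mul_sum, mul_assoc]
    apply mul_le_mul_of_nonneg_right (gw_sq x J r hx1)
    have := Real.log_natCast_nonneg r
    positivity
  refine h1.trans ?_
  calc ∑ j ∈ range (J + 1), 4 * (1 / 4 : ℝ) ^ j * ∑ r ∈ RR z (x ^ (2 ^ j)), 1 / (Nat.totient r : ℝ) * Real.log r ≤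
        ∑ j ∈ range (J + 1), 4 * C * Real.log x * (Vz z * Real.log x) := by
        apply sum_le_sum
        intro j _
        have hxj : x ≤ x ^ (2 ^ j) := Nat.le_self_pow (by positivity) x
        have h2 := sum_up C z hC (X := x ^ (2 ^ j)) (by omega) (by omega)
        have h4 : ∑ r ∈ RR z (x ^ (2 ^ j)), 1 / (Nat.totient r : ℝ) * Real.log r ≤
            (∑ r ∈ RR z (x ^ (2 ^ j)), 1 / (Nat.totient r : ℝ)) * (2 ^ j * Real.log x) := by
          rw [sum_mul]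
          apply sum_le_sum
          intro r hr
          rw [mem_RR] at hr
          apply mul_le_mul_of_nonneg_left _ (by positivity)
          rw [← log_pow2]
          exact Real.log_le_log (by exact_mod_cast hr.1.1) (by exact_mod_cast hr.1.2)
        rw [log_pow2] at h2
        have h3 : (1 / 4 : ℝ) ^ j * (2 ^ j * 2 ^ j) = 1 := by rw [← mul_pow, ← mul_pow]; norm_num
        calc 4 * (1 / 4 : ℝ) ^ j * ∑ r ∈ RR z (x ^ (2 ^ j)), 1 / (Nat.totient r : ℝ) * Real.log r ≤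
              4 * (1 / 4 : ℝ) ^ j * ((C * (Vz z * (2 ^ j * Real.log x))) * (2 ^ j * Real.log x)) :=
                mul_le_mul_of_nonneg_left (h4.trans (mul_le_mul_of_nonneg_right h2 (by positivity))) (by positivity)
          _ = 4 * C * Real.log x * (Vz z * Real.log x) * ((1 / 4 : ℝ) ^ j * (2 ^ j * 2 ^ j)) := by ring
          _ = _ := by rw [h3, mul_one]
    _ = _ := by rw [sum_const, card_range, nsmul_eq_mul]; push_cast; ring

lemma AA_low (hx : 1 ≤ x) (hR : x ≤ R) : Vz z * Real.log x ≤ AA z R x J := by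
  unfold AA
  refine (phi_low z x).trans ?_
  rw [← sum_RR_le z R x hR (fun r => 1 / (Nat.totient r : ℝ))]
  apply sum_le_sum
  intro r _
  split_ifs with h
  · have h1 := gw_one_le (J := J) h
    have h2 : 1 ≤ gw x J r ^ 2 := one_le_pow₀ h1
    calc 1 / (Nat.totient r : ℝ) * 1 = 1 * (1 / (Nat.totient r : ℝ)) := by ring
      _ ≤ _ := mul_le_mul_of_nonneg_right h2 (by positivity)
  · rw [mul_zero]; positivity

end bounds

end Pool.Agent.L0h42.TB
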