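import Mathlib
import Pool.Agent.L0h42.TB.B4
import Pool.Agent.L0h42.TB.B5
import Pool.Agent.H373R2.T7.Lin
import Pool.Agent.H373R2.T7.Minor
import Pool.Agent.H373R2.T7.LamZ2
import Pool.Agent.H442R2.KF.BvY
import Pool.Agent.H373R2.T7.SupE2
import Pool.Agent.H373R2.T7.Cnt
import Pool.Agent.R311.DEH.A1
import Pool.Agent.Helper256.KM.Mertens
import Pool.Agent.W23.UBb
import Pool.Agent.H373R2.T7.Crt

/-! The weights. -/

set_option autoImplicit false
set_option linter.unusedSectionVars false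

namespace Pool.Agent.L0h42.TB
open Finset
open Pool.Agent.H373R2.T7

section wts
variable {k : ℕ}

noncomputable def yw (R x J : ℕ) (r : Fin k → ℕ) : ℝ := if ∏ i, r i ≤ R then ∏ i, gw x J (r i) else 0

noncomputable def L0 (z R x J : ℕ) (d : Fin k → ℕ) : ℝ := ∑ r ∈ PD (Fin k) z R, yw R x J r * ∏ i, cM (d i) (r i)

noncomputable def Lr (Λ : (Fin k → ℕ) → ℝ) (i : Fin k) (d : Fin k → ℕ) : ℝ := if d i = 1 then Λ d else 0

lemma Lr_eq (z R x J : ℕ) (i : Fin k) (d : Fin k → ℕ) : Lr (L0 z R x J) i d =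
    ∑ r ∈ PD (Fin k) z R, yw R x J r * ∏ l, (if l = i then c1 else cM) (d l) (r l) := by
  unfold Lr L0
  by_cases h : d i = 1
  · rw [if_pos h]
    apply sum_congr rfl
    intro r _
    congr 1
    apply prod_congr rfl
    intro l _
    by_cases hl : l = i
    · rw [if_pos hl, hl, h]
      unfold cM c1
      simp
    · rw [if_neg hl]
  · rw [if_neg h]
    symm
    apply sum_eq_zero
    intro r _
    rw [prod_eq_zero (mem_univ i), mul_zero]
    rw [if_pos rfl]
    unfold c1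
    rw [if_neg h]

/-- the diagonal kernel -/
noncomputable def Kd (r s : ℕ) : ℝ := if r = s then 1 / (Nat.totient r : ℝ) else 0
/-- the product kernel -/
noncomputable def Kp (r s : ℕ) : ℝ := 1 / (Nat.totient r : ℝ) * (1 / (Nat.totient s : ℝ))

lemma Kd_nonneg (r s : ℕ) : 0 ≤ Kd r s := by unfold Kd; split_ifs <;> positivity
lemma Kp_nonneg (r s : ℕ) : 0 ≤ Kp r s := by unfold Kp; positivity

lemma Q0_eq (z R x J : ℕ) : Qf z R (L0 (k := k) z R x J) =
    ∑ r ∈ PD (Fin k) z R, ∑ s ∈ PD (Fin k) z R, yw R x J r * yw R x J s * ∏ l, Kd (r l) (s l) := by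
  rw [Qf_ker z R (fun _ => cM) (yw R x J) (L0 z R x J) (fun d => rfl)]
  apply sum_congr rfl
  intro r hr
  apply sum_congr rfl
  intro s hs
  congr 1
  apply prod_congr rfl
  intro l _
  exact kerM z R (r l) (s l) (mem_PD.1 hr l) (mem_PD.1 hs l)

lemma Qi_eq (z R x J : ℕ) (hR : 1 ≤ R) (i : Fin k) : Qf z R (Lr (L0 z R x J) i) =
    ∑ r ∈ PD (Fin k) z R, ∑ s ∈ PD (Fin k) z R, yw R x J r * yw R x J s * ∏ l, (if l = i then Kp else Kd) (r l) (s l) := by
  rw [Qf_ker z R (fun l => if l = i then c1 else cM) (yw R x J) (Lr (L0 z R x J) i) (Lr_eq z R x J i)]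
  apply sum_congr rfl
  intro r hr
  apply sum_congr rfl
  intro s hs
  congr 1
  apply prod_congr rfl
  intro l _
  by_cases hl : l = i
  · simp only [if_pos hl]
    exact ker1 z R (r l) (s l) hR
  · simp only [if_neg hl]
    exact kerM z R (r l) (s l) (mem_PD.1 hr l) (mem_PD.1 hs l)

lemma yw_nonneg (R x J : ℕ) (r : Fin k → ℕ) : 0 ≤ yw R x J r := by
  unfold yw
  split_ifs
  · exact prod_nonneg fun _ _ => gw_nonneg _ _ _
  · exact le_rfl

lemma yw_le (R x J : ℕ) (r : Fin k → ℕ) : yw R x J r ≤ ∏ i, gw x J (r i) := by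
  unfold yw
  split_ifs
  · exact le_rfl
  · exact prod_nonneg fun _ _ => gw_nonneg _ _ _

lemma sum_diag (z R x J : ℕ) : ∑ r ∈ RR z R, ∑ s ∈ RR z R, gw x J r * gw x J s * Kd r s = AA z R x J := by
  unfold AA Kd
  apply sum_congr rfl
  intro r hr
  have : ∀ s ∈ RR z R, gw x J r * gw x J s * (if r = s then 1 / (Nat.totient r : ℝ) else 0) =
      if r = s then gw x J r ^ 2 * (1 / (Nat.totient r : ℝ)) else 0 := by
    intro s _
    by_cases h : r = s
    · rw [if_pos h, if_pos h, ← h]; ring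
    · rw [if_neg h, if_neg h, mul_zero]
  rw [sum_congr rfl this, sum_ite_eq (RR z R) r, if_pos hr]

lemma sum_diag_log (z R x J : ℕ) : ∑ r ∈ RR z R, ∑ s ∈ RR z R, gw x J r * gw x J s * Kd r s * Real.log r = AL z R x J := by
  unfold AL Kd
  apply sum_congr rfl
  intro r hr
  have : ∀ s ∈ RR z R, gw x J r * gw x J s * (if r = s then 1 / (Nat.totient r : ℝ) else 0) * Real.log r =
      if r = s then gw x J r ^ 2 * (1 / (Nat.totient r : ℝ)) * Real.log r else 0 := by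
    intro s _
    by_cases h : r = s
    · rw [if_pos h, if_pos h, ← h]; ring
    · rw [if_neg h, if_neg h, mul_zero, zero_mul]
  rw [sum_congr rfl this, sum_ite_eq (RR z R) r, if_pos hr]

lemma sum_prod_kp (z R x J : ℕ) : ∑ r ∈ RR z R, ∑ s ∈ RR z R, gw x J r * gw x J s * Kp r s = BB z R x J ^ 2 := by
  unfold BB Kp
  rw [sq, sum_mul_sum]
  apply sum_congr rfl
  intro r _
  apply sum_congr rfl
  intro s _
  ring

lemma Q0_up (z R x J : ℕ) : Qf z R (L0 (k := k) z R x J) ≤ AA z R x J ^ k := by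
  rw [Q0_eq]
  have h1 : ∑ r ∈ PD (Fin k) z R, ∑ s ∈ PD (Fin k) z R, ∏ l, (gw x J (r l) * gw x J (s l) * Kd (r l) (s l)) = AA z R x J ^ k := by
    rw [pi2 z R (fun (_ : Fin k) r s => gw x J r * gw x J s * Kd r s), prod_congr rfl fun _ _ => sum_diag z R x J, prod_const, card_univ,
      Fintype.card_fin]
  rw [← h1]
  apply sum_le_sum
  intro r _
  apply sum_le_sum
  intro s _
  rw [prod_mul_distrib, prod_mul_distrib]
  apply mul_le_mul_of_nonneg_right _ (prod_nonneg fun _ _ => Kd_nonneg _ _)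
  exact mul_le_mul (yw_le R x J r) (yw_le R x J s) (yw_nonneg R x J s) (prod_nonneg fun _ _ => gw_nonneg _ _ _)

lemma one_mem_PD {z R : ℕ} (hR : 1 ≤ R) : (fun _ => 1 : Fin k → ℕ) ∈ PD (Fin k) z R := mem_PD.2 fun _ => one_mem_RR hR

lemma yw_one {R x J : ℕ} (hR : 1 ≤ R) (hx : 1 ≤ x) : 1 ≤ yw R x J (fun _ => 1 : Fin k → ℕ) := by
  unfold yw
  rw [if_pos (by simpa using hR)]
  have := gw_one_le (J := J) hx
  rw [prod_const]
  exact one_le_pow₀ this

lemma Q_one_le (z R x J : ℕ) (hR : 1 ≤ R) (hx : 1 ≤ x) (K : Fin k → ℕ → ℕ → ℝ) (hK : ∀ l r s, 0 ≤ K l r s) (hK1 : ∀ l, K l 1 1 = 1) :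
    1 ≤ ∑ r ∈ PD (Fin k) z R, ∑ s ∈ PD (Fin k) z R, yw R x J r * yw R x J s * ∏ l, K l (r l) (s l) := by
  have hn : ∀ r s : Fin k → ℕ, 0 ≤ yw R x J r * yw R x J s * ∏ l, K l (r l) (s l) := by
    intro r s
    exact mul_nonneg (mul_nonneg (yw_nonneg R x J r) (yw_nonneg R x J s)) (prod_nonneg fun l _ => hK l _ _)
  have h1 := yw_one (k := k) (J := J) hR hx
  calc (1 : ℝ) ≤ yw R x J (fun _ => 1 : Fin k → ℕ) * yw R x J (fun _ => 1 : Fin k → ℕ) * ∏ l, K l 1 1 := by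
        rw [prod_congr rfl fun l _ => hK1 l, prod_const_one, mul_one]
        nlinarith
    _ ≤ ∑ s ∈ PD (Fin k) z R, yw R x J (fun _ => 1 : Fin k → ℕ) * yw R x J s * ∏ l, K l 1 (s l) :=
        single_le_sum (f := fun s => yw R x J (fun _ => 1 : Fin k → ℕ) * yw R x J s * ∏ l, K l 1 (s l))
          (fun s _ => hn (fun _ => 1) s) (one_mem_PD hR)
    _ ≤ _ := single_le_sum (f := fun r => ∑ s ∈ PD (Fin k) z R, yw R x J r * yw R x J s * ∏ l, K l (r l) (s l))
          (fun r _ => sum_nonneg fun s _ => hn r s) (one_mem_PD hR)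

lemma one_le_PD {z R : ℕ} {r : Fin k → ℕ} (hr : r ∈ PD (Fin k) z R) (l : Fin k) : 1 ≤ r l := (mem_RR.1 (mem_PD.1 hr l)).1.1

/-- the pointwise lower bound -/
lemma pointw (z R x J : ℕ) (hx : 1 ≤ x) (hTR : x ^ (2 ^ J) < R) (i : Fin k) (r s : Fin k → ℕ) (hr : r ∈ PD (Fin k) z R)
    (hs : s ∈ PD (Fin k) z R) (h : ∀ l, l ≠ i → r l = s l) :
    (∏ l, (gw x J (r l) * gw x J (s l))) * (1 - (∑ l ∈ univ.erase i, Real.log (r l)) / (Real.log R - Real.log ((x ^ (2 ^ J) : ℕ) : ℝ))) ≤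
      yw R x J r * yw R x J s := by
  have hT0 : (0 : ℝ) < ((x ^ (2 ^ J) : ℕ) : ℝ) := by positivity
  have hR0 : (0 : ℝ) < R := by
    have : 0 < R := by omega
    exact_mod_cast this
  have hLT : 0 < Real.log R - Real.log ((x ^ (2 ^ J) : ℕ) : ℝ) := by
    have := Real.log_lt_log hT0 (show ((x ^ (2 ^ J) : ℕ) : ℝ) < R by exact_mod_cast hTR)
    linarith
  have hS0 : 0 ≤ ∑ l ∈ univ.erase i, Real.log (r l) := sum_nonneg fun l _ => Real.log_natCast_nonneg _
  have hG0 : 0 ≤ ∏ l, (gw x J (r l) * gw x J (s l)) := prod_nonneg fun l _ => mul_nonneg (gw_nonneg _ _ _) (gw_nonneg _ _ _)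
  have hyy : 0 ≤ yw R x J r * yw R x J s := mul_nonneg (yw_nonneg _ _ _ _) (yw_nonneg _ _ _ _)
  have hprod : ∏ l ∈ univ.erase i, r l = ∏ l ∈ univ.erase i, s l := prod_congr rfl fun l hl => h l (ne_of_mem_erase hl)
  by_cases hc : (∏ l ∈ univ.erase i, r l) * x ^ (2 ^ J) ≤ R
  · by_cases hg : gw x J (r i) = 0
    · rw [prod_eq_zero (mem_univ i) (by rw [hg, zero_mul]), zero_mul]; exact hyy
    by_cases hg' : gw x J (s i) = 0
    · rw [prod_eq_zero (mem_univ i) (by rw [hg', mul_zero]), zero_mul]; exact hyy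
    have h1 : r i ≤ x ^ (2 ^ J) := by
      by_contra hcon
      exact hg (gw_zero hx (by omega))
    have h2 : s i ≤ x ^ (2 ^ J) := by
      by_contra hcon
      exact hg' (gw_zero hx (by omega))
    have h3 : ∏ l, r l ≤ R := by
      rw [← prod_erase_mul univ _ (mem_univ i)]
      exact (Nat.mul_le_mul_left _ h1).trans hc
    have h4 : ∏ l, s l ≤ R := by
      rw [← prod_erase_mul univ _ (mem_univ i), ← hprod]
      exact (Nat.mul_le_mul_left _ h2).trans hc
    have h5 : yw R x J r * yw R x J s = ∏ l, (gw x J (r l) * gw x J (s l)) := by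
      unfold yw
      rw [if_pos h3, if_pos h4, prod_mul_distrib]
    rw [h5]
    have h6 : 0 ≤ (∑ l ∈ univ.erase i, Real.log (r l)) / (Real.log R - Real.log ((x ^ (2 ^ J) : ℕ) : ℝ)) := div_nonneg hS0 hLT.le
    calc _ ≤ (∏ l, (gw x J (r l) * gw x J (s l))) * 1 := mul_le_mul_of_nonneg_left (by linarith) hG0
      _ = _ := mul_one _
  · have h1 : Real.log R ≤ (∑ l ∈ univ.erase i, Real.log (r l)) + Real.log ((x ^ (2 ^ J) : ℕ) : ℝ) := by
      rw [← Real.log_prod (fun l hl => by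
        have := one_le_PD hr l
        have h7 : (0 : ℝ) < r l := by exact_mod_cast this
        exact h7.ne')]
      have h8 : (0 : ℝ) < ∏ l ∈ univ.erase i, (r l : ℝ) := prod_pos fun l _ => by
        have := one_le_PD hr l
        exact_mod_cast this
      rw [← Real.log_mul h8.ne' hT0.ne']
      apply Real.log_le_log hR0
      have h9 : R ≤ (∏ l ∈ univ.erase i, r l) * x ^ (2 ^ J) := by omega
      have h10 : (R : ℝ) ≤ (((∏ l ∈ univ.erase i, r l) * x ^ (2 ^ J) : ℕ) : ℝ) := by exact_mod_cast h9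
      refine h10.trans (le_of_eq ?_)
      push_cast
      rfl
    have h2 : 1 ≤ (∑ l ∈ univ.erase i, Real.log (r l)) / (Real.log R - Real.log ((x ^ (2 ^ J) : ℕ) : ℝ)) := by
      rw [le_div_iff₀ hLT]
      linarith
    have h3 : (∏ l, (gw x J (r l) * gw x J (s l))) * (1 - (∑ l ∈ univ.erase i, Real.log (r l)) / (Real.log R - Real.log ((x ^ (2 ^ J) : ℕ) : ℝ))) ≤ 0 :=
      mul_nonpos_of_nonneg_of_nonpos hG0 (by linarith)
    linarith

end wts

end Pool.Agent.L0h42.TB
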