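import Mathlib
import Pool.Agent.L0h42.TB.B6
import Pool.Agent.L0h42.TB.B14
import Pool.Agent.L0h42.TB.B17
import Pool.Agent.H373R2.T7.Lin
import Pool.Agent.H373R2.T7.Minor
import Pool.Agent.H373R2.T7.LamZ2
import Pool.Agent.H442R2.KF.BvY
import Pool.Agent.H373R2.T7.SupE2
import Pool.Agent.H373R2.T7.Cnt
import Pool.Agent.R311.DEH.A1
import Pool.Agent.Helper256.KM.Mertens
import Pool.Agent.W23.UBb
import Pool.Agent.H373R2.T7.Crt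

/-! The comparison of the weighted sums over the primes with the main terms. -/

set_option autoImplicit false
set_option linter.unusedSectionVars false

namespace Pool.Agent.L0h42.TB
open Finset
open Pool.Agent.H373R2.T7

section asm
variable {k : ℕ}

/-- the weight -/
noncomputable def FF (z R : ℕ) (h : Fin k → ℕ) (Λ : (Fin k → ℕ) → ℝ) (a : ℕ) : ℝ := Gr z (cneg h) a * SS z R Λ (cneg h) a ^ 2

lemma FF_nonneg (z R : ℕ) (h : Fin k → ℕ) (Λ : (Fin k → ℕ) → ℝ) (a : ℕ) : 0 ≤ FF z R h Λ a :=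
  mul_nonneg (Gr_nonneg _ _ _) (sq_nonneg _)

lemma FF_le (z R : ℕ) (h : Fin k → ℕ) (Λ : (Fin k → ℕ) → ℝ) (a : ℕ) : FF z R h Λ a ≤ SS z R Λ (cneg h) a ^ 2 := by
  unfold FF
  calc _ ≤ 1 * SS z R Λ (cneg h) a ^ 2 := mul_le_mul_of_nonneg_right (Gr_le_one _ _ _) (sq_nonneg _)
    _ = _ := one_mul _

lemma FF_pl (z R : ℕ) (h : Fin k → ℕ) (Λ : (Fin k → ℕ) → ℝ) (a : ℕ) (i : Fin k) (haR : R < a) :
    FF z R h Λ a * pl (a + h i) = FF z R h (Lr Λ i) a * pl (a + h i) := by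
  classical
  by_cases hp : (a + h i).Prime
  · have h1 : SS z R Λ (cneg h) a = SS z R (Lr Λ i) (cneg h) a := by
      unfold SS
      apply sum_congr rfl
      intro d hd
      by_cases hh : Hit (cneg h) d a
      · rw [if_pos hh]
        have h2 : d i ∣ a + h i := (dvd_cneg h _ a i).1 (hh i)
        have h3 : d i ≤ R := (mem_RR.1 (mem_PD.1 hd i)).1.2
        have h4 : d i = 1 := by
          rcases (Nat.dvd_prime hp).1 h2 with h5 | h5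
          · exact h5
          · omega
        unfold Lr
        rw [if_pos h4]
      · rw [if_neg hh, mul_zero, mul_zero]
    unfold FF
    rw [h1]
  · unfold pl
    rw [if_neg hp, mul_zero, mul_zero]

lemma FF_lamz (z R : ℕ) (h : Fin k → ℕ) (Λ : (Fin k → ℕ) → ℝ) (a : ℕ) (i : Fin k) :
    FF z R h Λ a * lamz z (a + h i) = (Vz z)⁻¹ * FF z R h Λ a := by
  classical
  unfold FF Gr
  by_cases hr : Rgh z (cneg h) a
  · have h1 : ∀ p ∈ pz z, ¬ p ∣ a + h i := by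
      intro p hp hd
      exact hr p hp ⟨i, (dvd_cneg h p a i).2 hd⟩
    unfold lamz
    rw [if_pos h1]
    ring
  · rw [if_neg hr]; ring

lemma Df_eq (z R : ℕ) (h : Fin k → ℕ) (i : Fin k) (Λ : (Fin k → ℕ) → ℝ) (a : ℕ) (haR : R < a) :
    FF z R h Λ a * pl (a + h i) = Df z R h i (Lr Λ i) a + (Vz z)⁻¹ * FF z R h (Lr Λ i) a := by
  rw [FF_pl z R h Λ a i haR, ← FF_lamz z R h (Lr Λ i) a i]
  unfold Df FF
  ring

/-- the second factor with the prime -/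
noncomputable def GP (z R K : ℕ) (h : Fin k → ℕ) (Λ : (Fin k → ℕ) → ℝ) (j : Fin k) (b : ℕ) : ℝ :=
  if b ≤ K then FF z R h Λ b * pl (b + h j) else 0

/-- the total error -/
noncomputable def eT (z R Y : ℕ) (h h' : Fin k → ℕ) (Λ : (Fin k → ℕ) → ℝ) (n : ℕ) : ℝ :=
  ∑ i : Fin k, ∑ j : Fin k, (|∑ a ∈ Ioc Y (2 * Y), Df z R h i (Lr Λ i) a * GP z R (12 * Y) h' (Lr Λ j) j (n - a)| +
    |∑ a ∈ Ioc Y (2 * Y), ((Vz z)⁻¹ * FF z R h (Lr Λ i) a) * Df z R h' j (Lr Λ j) (n - a)| +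
    |MM z R Y h h' (Lr Λ i) (Lr Λ j) n - Y * VV z (cj h h' n) * (Qf z R (Lr Λ i) * Qf z R (Lr Λ j))|) +
  ∑ i : Fin k, (|∑ a ∈ Ioc Y (2 * Y), Df z R h i (Lr Λ i) a * FF z R h' Λ (n - a)| +
    |MM z R Y h h' (Lr Λ i) Λ n - Y * VV z (cj h h' n) * (Qf z R (Lr Λ i) * Qf z R Λ)|) +
  ∑ j : Fin k, (|∑ a ∈ Ioc Y (2 * Y), FF z R h Λ a * Df z R h' j (Lr Λ j) (n - a)| +
    |MM z R Y h h' Λ (Lr Λ j) n - Y * VV z (cj h h' n) * (Qf z R Λ * Qf z R (Lr Λ j))|)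

/-- the weighted sum -/
noncomputable def TW (z R Y : ℕ) (h h' : Fin k → ℕ) (Λ : (Fin k → ℕ) → ℝ) (c : ℝ) (n : ℕ) : ℝ :=
  ∑ a ∈ Ioc Y (2 * Y), FF z R h Λ a * FF z R h' Λ (n - a) *
    ((∑ i, pl (a + h i)) * (∑ j, pl (n - a + h' j)) - c * (∑ i, pl (a + h i) + ∑ j, pl (n - a + h' j)))

lemma T11_eq (z R Y : ℕ) (h h' : Fin k → ℕ) (Λ : (Fin k → ℕ) → ℝ) (n : ℕ) (hR : R ≤ Y) (hn : 4 * Y < n) (hn2 : n ≤ 12 * Y) :
    ∑ a ∈ Ioc Y (2 * Y), FF z R h Λ a * FF z R h' Λ (n - a) * ((∑ i, pl (a + h i)) * (∑ j, pl (n - a + h' j))) =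
    ∑ i : Fin k, ∑ j : Fin k, (∑ a ∈ Ioc Y (2 * Y), Df z R h i (Lr Λ i) a * GP z R (12 * Y) h' (Lr Λ j) j (n - a) +
      ∑ a ∈ Ioc Y (2 * Y), ((Vz z)⁻¹ * FF z R h (Lr Λ i) a) * Df z R h' j (Lr Λ j) (n - a) +
      (Vz z)⁻¹ ^ 2 * MM z R Y h h' (Lr Λ i) (Lr Λ j) n) := by
  have h1 : ∀ i j : Fin k, (∑ a ∈ Ioc Y (2 * Y), Df z R h i (Lr Λ i) a * GP z R (12 * Y) h' (Lr Λ j) j (n - a) +
      ∑ a ∈ Ioc Y (2 * Y), ((Vz z)⁻¹ * FF z R h (Lr Λ i) a) * Df z R h' j (Lr Λ j) (n - a) +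
      (Vz z)⁻¹ ^ 2 * MM z R Y h h' (Lr Λ i) (Lr Λ j) n) =
      ∑ a ∈ Ioc Y (2 * Y), (FF z R h Λ a * pl (a + h i)) * (FF z R h' Λ (n - a) * pl (n - a + h' j)) := by
    intro i j
    unfold MM
    rw [mul_sum, ← sum_add_distrib, ← sum_add_distrib]
    apply sum_congr rfl
    intro a ha
    rw [mem_Ioc] at ha
    have e1 := Df_eq z R h i Λ a (by omega)
    have e2 := Df_eq z R h' j Λ (n - a) (by omega)
    have e3 := FF_pl z R h' Λ (n - a) j (by omega)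
    have e4 : GP z R (12 * Y) h' (Lr Λ j) j (n - a) = FF z R h' (Lr Λ j) (n - a) * pl (n - a + h' j) := by
      unfold GP
      rw [if_pos (by omega)]
    rw [e4, ← e3, e1, e2]
    unfold FF
    ring
  simp only [h1]
  have h2 : ∀ i ∈ (univ : Finset (Fin k)), ∑ j : Fin k, ∑ a ∈ Ioc Y (2 * Y), (FF z R h Λ a * pl (a + h i)) * (FF z R h' Λ (n - a) * pl (n - a + h' j)) =
      ∑ a ∈ Ioc Y (2 * Y), ∑ j : Fin k, (FF z R h Λ a * pl (a + h i)) * (FF z R h' Λ (n - a) * pl (n - a + h' j)) := fun i _ => sum_comm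
  rw [sum_congr rfl h2, sum_comm]
  apply sum_congr rfl
  intro a _
  rw [sum_mul_sum, mul_sum]
  apply sum_congr rfl
  intro i _
  rw [mul_sum]
  apply sum_congr rfl
  intro j _
  ring

lemma T10_eq (z R Y : ℕ) (h h' : Fin k → ℕ) (Λ : (Fin k → ℕ) → ℝ) (n : ℕ) (hR : R ≤ Y) :
    ∑ a ∈ Ioc Y (2 * Y), FF z R h Λ a * FF z R h' Λ (n - a) * (∑ i, pl (a + h i)) =
    ∑ i : Fin k, (∑ a ∈ Ioc Y (2 * Y), Df z R h i (Lr Λ i) a * FF z R h' Λ (n - a) + (Vz z)⁻¹ * MM z R Y h h' (Lr Λ i) Λ n) := by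
  have h1 : ∀ i : Fin k, (∑ a ∈ Ioc Y (2 * Y), Df z R h i (Lr Λ i) a * FF z R h' Λ (n - a) + (Vz z)⁻¹ * MM z R Y h h' (Lr Λ i) Λ n) =
      ∑ a ∈ Ioc Y (2 * Y), (FF z R h Λ a * pl (a + h i)) * FF z R h' Λ (n - a) := by
    intro i
    unfold MM
    rw [mul_sum, ← sum_add_distrib]
    apply sum_congr rfl
    intro a ha
    rw [mem_Ioc] at ha
    have e1 := Df_eq z R h i Λ a (by omega)
    rw [e1]
    unfold FF
    ring
  simp only [h1]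
  rw [sum_comm]
  apply sum_congr rfl
  intro a _
  rw [mul_sum]
  apply sum_congr rfl
  intro i _
  ring

lemma T01_eq (z R Y : ℕ) (h h' : Fin k → ℕ) (Λ : (Fin k → ℕ) → ℝ) (n : ℕ) (hR : R ≤ Y) (hn : 4 * Y < n) :
    ∑ a ∈ Ioc Y (2 * Y), FF z R h Λ a * FF z R h' Λ (n - a) * (∑ j, pl (n - a + h' j)) =
    ∑ j : Fin k, (∑ a ∈ Ioc Y (2 * Y), FF z R h Λ a * Df z R h' j (Lr Λ j) (n - a) + (Vz z)⁻¹ * MM z R Y h h' Λ (Lr Λ j) n) := by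
  have h1 : ∀ j : Fin k, (∑ a ∈ Ioc Y (2 * Y), FF z R h Λ a * Df z R h' j (Lr Λ j) (n - a) + (Vz z)⁻¹ * MM z R Y h h' Λ (Lr Λ j) n) =
      ∑ a ∈ Ioc Y (2 * Y), FF z R h Λ a * (FF z R h' Λ (n - a) * pl (n - a + h' j)) := by
    intro j
    unfold MM
    rw [mul_sum, ← sum_add_distrib]
    apply sum_congr rfl
    intro a ha
    rw [mem_Ioc] at ha
    have e1 := Df_eq z R h' j Λ (n - a) (by omega)
    rw [e1]
    unfold FF
    ring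
  simp only [h1]
  rw [sum_comm]
  apply sum_congr rfl
  intro a _
  rw [mul_sum]
  apply sum_congr rfl
  intro i _
  ring

/-- **positivity up to the error.** -/
lemma TW_low (z R Y m : ℕ) (h h' : Fin k → ℕ) (Λ : (Fin k → ℕ) → ℝ) (n : ℕ) (L : ℝ) (hk : 1 ≤ k) (hm : 1 ≤ m) (hR : R ≤ Y) (hn : 4 * Y < n)
    (hn2 : n ≤ 12 * Y) (hL : 1 ≤ L) (hv : (Vz z)⁻¹ ≤ L) (hQ : 1 ≤ Qf z R Λ) (hP : ∀ i, 1 ≤ Qf z R (Lr Λ i))
    (hratio : 2 * m * L * Qf z R Λ ≤ (Vz z)⁻¹ * ∑ i, Qf z R (Lr Λ i)) :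
    Y * VV z (cj h h' n) ≤ TW z R Y h h' Λ ((m - 1 : ℝ) * L) n + m * L ^ 2 * eT z R Y h h' Λ n := by
  obtain ⟨v, hvd⟩ : ∃ v, v = (Vz z)⁻¹ := ⟨_, rfl⟩
  obtain ⟨V, hVd⟩ : ∃ V : ℝ, V = Y * VV z (cj h h' n) := ⟨_, rfl⟩
  obtain ⟨Q, hQd⟩ : ∃ Q, Q = Qf z R Λ := ⟨_, rfl⟩
  obtain ⟨P, hPd⟩ : ∃ P, P = ∑ i, Qf z R (Lr Λ i) := ⟨_, rfl⟩
  have hV0 : 0 ≤ V := by rw [hVd]; exact mul_nonneg (Nat.cast_nonneg _) (VV_nonneg _ _)
  have hv1 : 1 ≤ v := by rw [hvd]; exact (one_le_inv₀ (Vz_pos z)).2 (Vz_le_one z)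
  have hm1 : (1 : ℝ) ≤ m := by exact_mod_cast hm
  have hP1 : 1 ≤ P := by
    rw [hPd]
    calc (1 : ℝ) ≤ Qf z R (Lr Λ ⟨0, hk⟩) := hP _
      _ ≤ _ := single_le_sum (f := fun i => Qf z R (Lr Λ i)) (fun i _ => zero_le_one.trans (hP i)) (mem_univ _)
  rw [← hvd] at hv hratio
  rw [← hQd] at hQ hratio
  rw [← hPd] at hratio
  have t11 := T11_eq z R Y h h' Λ n hR hn hn2
  have t10 := T10_eq z R Y h h' Λ n hR
  have t01 := T01_eq z R Y h h' Λ n hR hn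
  have eTW : TW z R Y h h' Λ ((m - 1 : ℝ) * L) n =
      ∑ a ∈ Ioc Y (2 * Y), FF z R h Λ a * FF z R h' Λ (n - a) * ((∑ i, pl (a + h i)) * (∑ j, pl (n - a + h' j))) -
      (m - 1) * L * (∑ a ∈ Ioc Y (2 * Y), FF z R h Λ a * FF z R h' Λ (n - a) * (∑ i, pl (a + h i)) +
        ∑ a ∈ Ioc Y (2 * Y), FF z R h Λ a * FF z R h' Λ (n - a) * (∑ j, pl (n - a + h' j))) := by
    unfold TW
    rw [← sum_add_distrib, mul_sum, ← sum_sub_distrib]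
    apply sum_congr rfl
    intro a _
    ring
  rw [eTW, t11, t10, t01, ← hvd, ← hVd]
  unfold eT
  rw [← hvd, ← hVd, ← hQd]
  -- names for the pieces
  obtain ⟨s1, hs1⟩ : ∃ s1 : Fin k → Fin k → ℝ, s1 = fun i j => ∑ a ∈ Ioc Y (2 * Y), Df z R h i (Lr Λ i) a * GP z R (12 * Y) h' (Lr Λ j) j (n - a) := ⟨_, rfl⟩
  obtain ⟨s2, hs2⟩ : ∃ s2 : Fin k → Fin k → ℝ, s2 = fun i j => ∑ a ∈ Ioc Y (2 * Y), (v * FF z R h (Lr Λ i) a) * Df z R h' j (Lr Λ j) (n - a) := ⟨_, rfl⟩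
  obtain ⟨M3, hM3⟩ : ∃ M3 : Fin k → Fin k → ℝ, M3 = fun i j => MM z R Y h h' (Lr Λ i) (Lr Λ j) n := ⟨_, rfl⟩
  obtain ⟨p, hp⟩ : ∃ p : Fin k → ℝ, p = fun i => Qf z R (Lr Λ i) := ⟨_, rfl⟩
  obtain ⟨s4, hs4⟩ : ∃ s4 : Fin k → ℝ, s4 = fun i => ∑ a ∈ Ioc Y (2 * Y), Df z R h i (Lr Λ i) a * FF z R h' Λ (n - a) := ⟨_, rfl⟩
  obtain ⟨M5, hM5⟩ : ∃ M5 : Fin k → ℝ, M5 = fun i => MM z R Y h h' (Lr Λ i) Λ n := ⟨_, rfl⟩
  obtain ⟨s6, hs6⟩ : ∃ s6 : Fin k → ℝ, s6 = fun j => ∑ a ∈ Ioc Y (2 * Y), FF z R h Λ a * Df z R h' j (Lr Λ j) (n - a) := ⟨_, rfl⟩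
  obtain ⟨M7, hM7⟩ : ∃ M7 : Fin k → ℝ, M7 = fun j => MM z R Y h h' Λ (Lr Λ j) n := ⟨_, rfl⟩
  have r1 : ∀ i j, ∑ a ∈ Ioc Y (2 * Y), Df z R h i (Lr Λ i) a * GP z R (12 * Y) h' (Lr Λ j) j (n - a) = s1 i j := fun i j => by rw [hs1]
  have r2 : ∀ i j, ∑ a ∈ Ioc Y (2 * Y), (v * FF z R h (Lr Λ i) a) * Df z R h' j (Lr Λ j) (n - a) = s2 i j := fun i j => by rw [hs2]
  have r3 : ∀ i j, MM z R Y h h' (Lr Λ i) (Lr Λ j) n = M3 i j := fun i j => by rw [hM3]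
  have r4 : ∀ i, ∑ a ∈ Ioc Y (2 * Y), Df z R h i (Lr Λ i) a * FF z R h' Λ (n - a) = s4 i := fun i => by rw [hs4]
  have r5 : ∀ i, MM z R Y h h' (Lr Λ i) Λ n = M5 i := fun i => by rw [hM5]
  have r6 : ∀ j, ∑ a ∈ Ioc Y (2 * Y), FF z R h Λ a * Df z R h' j (Lr Λ j) (n - a) = s6 j := fun j => by rw [hs6]
  have r7 : ∀ j, MM z R Y h h' Λ (Lr Λ j) n = M7 j := fun j => by rw [hM7]
  have r8 : ∀ i, Qf z R (Lr Λ i) = p i := fun i => by rw [hp]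
  simp only [r1, r2, r3, r4, r5, r6, r7, r8]
  have hPp : P = ∑ i, p i := by rw [hPd, hp]
  -- lower bound for T11
  have b11 : v ^ 2 * V * P ^ 2 - L ^ 2 * ∑ i, ∑ j, (|s1 i j| + |s2 i j| + |M3 i j - V * (p i * p j)|) ≤
      ∑ i, ∑ j, (s1 i j + s2 i j + v ^ 2 * M3 i j) := by
    have e1 : v ^ 2 * V * P ^ 2 = ∑ i, ∑ j, v ^ 2 * (V * (p i * p j)) := by
      rw [hPp, sq (∑ i, p i), sum_mul_sum, mul_sum]
      apply sum_congr rfl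
      intro i _
      rw [mul_sum]
      apply sum_congr rfl
      intro j _
      ring
    rw [e1, mul_sum, ← sum_sub_distrib]
    apply sum_le_sum
    intro i _
    rw [mul_sum, ← sum_sub_distrib]
    apply sum_le_sum
    intro j _
    have g1 := neg_abs_le (s1 i j)
    have g2 := neg_abs_le (s2 i j)
    have g3 := neg_abs_le (M3 i j - V * (p i * p j))
    have hL2 : 1 ≤ L ^ 2 := one_le_pow₀ hL
    have hv2 : v ^ 2 ≤ L ^ 2 := pow_le_pow_left₀ (by linarith) hv 2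
    have g4 : |s1 i j| ≤ L ^ 2 * |s1 i j| := le_mul_of_one_le_left (abs_nonneg _) hL2
    have g5 : |s2 i j| ≤ L ^ 2 * |s2 i j| := le_mul_of_one_le_left (abs_nonneg _) hL2
    have g6 : v ^ 2 * |M3 i j - V * (p i * p j)| ≤ L ^ 2 * |M3 i j - V * (p i * p j)| := mul_le_mul_of_nonneg_right hv2 (abs_nonneg _)
    have g7 : -(v ^ 2 * |M3 i j - V * (p i * p j)|) ≤ v ^ 2 * (M3 i j - V * (p i * p j)) := by
      have := mul_le_mul_of_nonneg_left g3 (sq_nonneg v)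
      linarith
    linarith
  -- upper bounds for the others
  have b10 : ∑ i, (s4 i + v * M5 i) ≤ v * V * (P * Q) + L * ∑ i, (|s4 i| + |M5 i - V * (p i * Q)|) := by
    have e1 : v * V * (P * Q) = ∑ i, v * (V * (p i * Q)) := by
      rw [hPp, sum_mul, mul_sum]
      apply sum_congr rfl
      intro i _
      ring
    rw [e1, mul_sum, ← sum_add_distrib]
    apply sum_le_sum
    intro i _
    have g1 := le_abs_self (s4 i)
    have g3 := le_abs_self (M5 i - V * (p i * Q))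
    have g4 : |s4 i| ≤ L * |s4 i| := le_mul_of_one_le_left (abs_nonneg _) hL
    have g6 : v * |M5 i - V * (p i * Q)| ≤ L * |M5 i - V * (p i * Q)| := mul_le_mul_of_nonneg_right hv (abs_nonneg _)
    have g7 : v * (M5 i - V * (p i * Q)) ≤ v * |M5 i - V * (p i * Q)| := mul_le_mul_of_nonneg_left g3 (by linarith)
    linarith
  have b01 : ∑ j, (s6 j + v * M7 j) ≤ v * V * (P * Q) + L * ∑ j, (|s6 j| + |M7 j - V * (Q * p j)|) := by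
    have e1 : v * V * (P * Q) = ∑ i, v * (V * (Q * p i)) := by
      rw [hPp, sum_mul, mul_sum]
      apply sum_congr rfl
      intro i _
      ring
    rw [e1, mul_sum, ← sum_add_distrib]
    apply sum_le_sum
    intro i _
    have g1 := le_abs_self (s6 i)
    have g3 := le_abs_self (M7 i - V * (Q * p i))
    have g4 : |s6 i| ≤ L * |s6 i| := le_mul_of_one_le_left (abs_nonneg _) hL
    have g6 : v * |M7 i - V * (Q * p i)| ≤ L * |M7 i - V * (Q * p i)| := mul_le_mul_of_nonneg_right hv (abs_nonneg _)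
    have g7 : v * (M7 i - V * (Q * p i)) ≤ v * |M7 i - V * (Q * p i)| := mul_le_mul_of_nonneg_left g3 (by linarith)
    linarith
  obtain ⟨E1, hE1⟩ : ∃ E1, E1 = ∑ i, ∑ j, (|s1 i j| + |s2 i j| + |M3 i j - V * (p i * p j)|) := ⟨_, rfl⟩
  obtain ⟨E2, hE2⟩ : ∃ E2, E2 = ∑ i, (|s4 i| + |M5 i - V * (p i * Q)|) := ⟨_, rfl⟩
  obtain ⟨E3, hE3⟩ : ∃ E3, E3 = ∑ j, (|s6 j| + |M7 j - V * (Q * p j)|) := ⟨_, rfl⟩
  have hE10 : 0 ≤ E1 := by rw [hE1]; exact sum_nonneg fun _ _ => sum_nonneg fun _ _ => by positivity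
  have hE20 : 0 ≤ E2 := by rw [hE2]; exact sum_nonneg fun _ _ => by positivity
  have hE30 : 0 ≤ E3 := by rw [hE3]; exact sum_nonneg fun _ _ => by positivity
  rw [← hE1] at b11 ⊢
  rw [← hE2] at b10 ⊢
  rw [← hE3] at b01 ⊢
  obtain ⟨A1, hA1⟩ : ∃ A1, A1 = ∑ i, ∑ j, (s1 i j + s2 i j + v ^ 2 * M3 i j) := ⟨_, rfl⟩
  obtain ⟨A2, hA2⟩ : ∃ A2, A2 = ∑ i, (s4 i + v * M5 i) := ⟨_, rfl⟩
  obtain ⟨A3, hA3⟩ : ∃ A3, A3 = ∑ j, (s6 j + v * M7 j) := ⟨_, rfl⟩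
  rw [← hA1] at b11 ⊢
  rw [← hA2] at b10 ⊢
  rw [← hA3] at b01 ⊢
  have hc0 : 0 ≤ ((m : ℝ) - 1) * L := mul_nonneg (by linarith) (by linarith)
  have b2 := mul_le_mul_of_nonneg_left b10 hc0
  have b3 := mul_le_mul_of_nonneg_left b01 hc0
  -- the main bracket
  have hmain : V ≤ v ^ 2 * V * P ^ 2 - 2 * (((m : ℝ) - 1) * L * (v * V * (P * Q))) := by
    have h1 : 1 ≤ v * P := by nlinarith
    have h2 : 1 ≤ v * P - 2 * (m - 1) * L * Q := by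
      have : 1 ≤ 2 * L * Q := by nlinarith
      have e : 2 * m * L * Q = 2 * (m - 1) * L * Q + 2 * L * Q := by ring
      linarith
    have h3 : 1 ≤ (v * P) * (v * P - 2 * (m - 1) * L * Q) := by nlinarith
    have h4 : v ^ 2 * V * P ^ 2 - 2 * (((m : ℝ) - 1) * L * (v * V * (P * Q))) = V * ((v * P) * (v * P - 2 * (m - 1) * L * Q)) := by ring
    rw [h4]
    exact le_mul_of_one_le_right hV0 h3
  have hL2 : 1 ≤ L ^ 2 := one_le_pow₀ hL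
  have c1 : L ^ 2 * E1 ≤ m * L ^ 2 * E1 := by
    have : 0 ≤ L ^ 2 * E1 := by positivity
    nlinarith
  have c2 : ((m : ℝ) - 1) * L * (L * E2) ≤ m * L ^ 2 * E2 := by
    have : 0 ≤ L ^ 2 * E2 := by positivity
    nlinarith
  have c3 : ((m : ℝ) - 1) * L * (L * E3) ≤ m * L ^ 2 * E3 := by
    have : 0 ≤ L ^ 2 * E3 := by positivity
    nlinarith
  nlinarith

end asm

end Pool.Agent.L0h42.TB
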