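import Mathlib
import Pool.Agent.L0h42.TB.B19
import Pool.Agent.H373R2.T7.Lin
import Pool.Agent.H373R2.T7.Minor
import Pool.Agent.H373R2.T7.LamZ2
import Pool.Agent.H442R2.KF.BvY
import Pool.Agent.H373R2.T7.SupE2
import Pool.Agent.H373R2.T7.Cnt
import Pool.Agent.R311.DEH.A1
import Pool.Agent.Helper256.KM.Mertens
import Pool.Agent.W23.UBb
import Pool.Agent.H373R2.T7.Crt

/-! The number of good shifts. -/

set_option autoImplicit false
set_option linter.unusedSectionVars false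

namespace Pool.Agent.L0h42.TB
open Finset
open Pool.Agent.H373R2.T7

lemma markov {ι : Type*} [DecidableEq ι] (I : Finset ι) (f : ι → ℝ) (hf : ∀ n ∈ I, 0 ≤ f n) (t : ℝ) (ht : 0 < t) (S : ℝ) (hS : ∑ n ∈ I, f n ≤ S)
    (p : ι → Prop) [DecidablePred p] (hp : ∀ n ∈ I, p n → t ≤ f n) :
    ((I.filter p).card : ℝ) ≤ S / t := by
  rw [le_div_iff₀ ht]
  calc ((I.filter p).card : ℝ) * t = ∑ _n ∈ I.filter p, t := by rw [sum_const, nsmul_eq_mul]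
    _ ≤ ∑ n ∈ I.filter p, f n := sum_le_sum fun n hn => hp n (mem_filter.1 hn).1 (mem_filter.1 hn).2
    _ ≤ ∑ n ∈ I, f n := sum_le_sum_of_subset_of_nonneg (filter_subset _ _) fun n hn _ => hf n hn
    _ ≤ S := hS

lemma root_exists (K N : ℕ) (hK : 1 ≤ K) (hN : 1 ≤ N) : ∃ x : ℕ, 1 ≤ x ∧ x ^ K ≤ N ∧ N < (x + 1) ^ K := by
  classical
  have hex : ∃ y : ℕ, N < y ^ K := ⟨N + 1, lt_of_lt_of_le (Nat.lt_succ_self N) (Nat.le_self_pow (by omega) _)⟩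
  have h1 := Nat.find_spec hex
  have h2 : 1 < Nat.find hex := by
    rw [Nat.lt_find_iff]
    intro m hm
    rcases Nat.eq_zero_or_pos m with h | h
    · rw [h, zero_pow (by omega)]; omega
    · have : m = 1 := by omega
      rw [this, one_pow]; omega
  refine ⟨Nat.find hex - 1, by omega, ?_, ?_⟩
  · by_contra hcon
    exact Nat.find_min hex (show Nat.find hex - 1 < Nat.find hex by omega) (by omega)
  · have : Nat.find hex - 1 + 1 = Nat.find hex := by omega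
    rw [this]
    exact h1

section gd
variable {k : ℕ}

/-- the number of primes among `a + h l` -/
def np (h : Fin k → ℕ) (a : ℕ) : ℕ := (univ.filter (fun l => (a + h l).Prime)).card

/-- the good shifts -/
def Good (m Y : ℕ) (h h' : Fin k → ℕ) (n : ℕ) : Finset ℕ :=
  (Ioc Y (2 * Y)).filter (fun a => m ≤ np h a ∧ m ≤ np h' (n - a))

lemma sum_pl_le (h : Fin k → ℕ) (a N : ℕ) (hN : 1 ≤ N) (ha : ∀ l, a + h l ≤ N) : ∑ l, pl (a + h l) ≤ np h a * Real.log N := by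
  unfold np
  have h1 : ∀ l ∈ (univ : Finset (Fin k)), pl (a + h l) ≤ if (a + h l).Prime then Real.log N else 0 := by
    intro l _
    split_ifs with hp
    · exact pl_le_log (ha l) hN
    · unfold pl; rw [if_neg hp]
  refine (sum_le_sum h1).trans (le_of_eq ?_)
  rw [← sum_filter, sum_const, nsmul_eq_mul]

lemma np_le (h : Fin k → ℕ) (a : ℕ) : np h a ≤ k := by
  unfold np
  exact (card_le_univ _).trans (by simp)

lemma TW_up (z R Y m N : ℕ) (h h' : Fin k → ℕ) (Λ : (Fin k → ℕ) → ℝ) (n : ℕ) (hm : 1 ≤ m) (hN : 1 ≤ N)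
    (hn : 4 * Y < n) (hn2 : n ≤ 12 * Y) (hh : ∀ l, 12 * Y + h l ≤ N) (hh' : ∀ l, 12 * Y + h' l ≤ N) :
    TW z R Y h h' Λ ((m - 1 : ℝ) * Real.log N) n ≤ (k * Real.log N) ^ 2 * ∑ a ∈ Good m Y h h' n, FF z R h Λ a * FF z R h' Λ (n - a) := by
  have hL0 : 0 ≤ Real.log N := Real.log_natCast_nonneg N
  have hm1 : (1 : ℝ) ≤ m := by exact_mod_cast hm
  set L := Real.log N with hL
  have key : ∀ a ∈ Ioc Y (2 * Y), FF z R h Λ a * FF z R h' Λ (n - a) *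
      ((∑ i, pl (a + h i)) * (∑ j, pl (n - a + h' j)) - (m - 1 : ℝ) * L * (∑ i, pl (a + h i) + ∑ j, pl (n - a + h' j))) ≤
      if m ≤ np h a ∧ m ≤ np h' (n - a) then (k * L) ^ 2 * (FF z R h Λ a * FF z R h' Λ (n - a)) else 0 := by
    intro a ha
    rw [mem_Ioc] at ha
    have f0 : 0 ≤ FF z R h Λ a * FF z R h' Λ (n - a) := mul_nonneg (FF_nonneg _ _ _ _ _) (FF_nonneg _ _ _ _ _)
    have x1 := sum_pl_le h a N hN (fun l => by have := hh l; omega)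
    have y1 := sum_pl_le h' (n - a) N hN (fun l => by have := hh' l; omega)
    have x0 : 0 ≤ ∑ i, pl (a + h i) := sum_nonneg fun _ _ => pl_nonneg _
    have y0 : 0 ≤ ∑ j, pl (n - a + h' j) := sum_nonneg fun _ _ => pl_nonneg _
    rw [← hL] at x1 y1
    set X0 := ∑ i, pl (a + h i)
    set Y0 := ∑ j, pl (n - a + h' j)
    have hc0 : 0 ≤ ((m : ℝ) - 1) * L := mul_nonneg (by linarith) hL0
    split_ifs with hg
    · have x2 : X0 ≤ k * L := x1.trans (mul_le_mul_of_nonneg_right (by exact_mod_cast np_le h a) hL0)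
      have y2 : Y0 ≤ k * L := y1.trans (mul_le_mul_of_nonneg_right (by exact_mod_cast np_le h' (n - a)) hL0)
      have h3 : X0 * Y0 - (m - 1 : ℝ) * L * (X0 + Y0) ≤ (k * L) ^ 2 := by
        have h4 : X0 * Y0 ≤ (k * L) * (k * L) := mul_le_mul x2 y2 y0 (by positivity)
        have h5 : 0 ≤ (m - 1 : ℝ) * L * (X0 + Y0) := mul_nonneg hc0 (by linarith)
        nlinarith
      calc _ ≤ FF z R h Λ a * FF z R h' Λ (n - a) * (k * L) ^ 2 := mul_le_mul_of_nonneg_left h3 f0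
        _ = _ := by ring
    · apply mul_nonpos_of_nonneg_of_nonpos f0
      rw [not_and_or, not_le, not_le] at hg
      rcases hg with hg | hg
      · have x2 : X0 ≤ (m - 1) * L := by
          refine x1.trans (mul_le_mul_of_nonneg_right ?_ hL0)
          have : np h a + 1 ≤ m := hg
          have h6 : (np h a : ℝ) + 1 ≤ m := by exact_mod_cast this
          linarith
        nlinarith
      · have y2 : Y0 ≤ (m - 1) * L := by
          refine y1.trans (mul_le_mul_of_nonneg_right ?_ hL0)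
          have : np h' (n - a) + 1 ≤ m := hg
          have h6 : (np h' (n - a) : ℝ) + 1 ≤ m := by exact_mod_cast this
          linarith
        nlinarith
  unfold TW
  refine (sum_le_sum key).trans (le_of_eq ?_)
  rw [← sum_filter, mul_sum]
  rfl

/-- the second moment of the weight -/
noncomputable def W2 (z R Y : ℕ) (h h' : Fin k → ℕ) (Λ : (Fin k → ℕ) → ℝ) (n : ℕ) : ℝ :=
  ∑ a ∈ Ioc Y (2 * Y), SS z R Λ (cneg h) a ^ 4 * SS z R Λ (cneg h') (n - a) ^ 4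

lemma W2_nonneg (z R Y : ℕ) (h h' : Fin k → ℕ) (Λ : (Fin k → ℕ) → ℝ) (n : ℕ) : 0 ≤ W2 z R Y h h' Λ n :=
  sum_nonneg fun _ _ => by positivity

lemma Good_cs (z R Y m : ℕ) (h h' : Fin k → ℕ) (Λ : (Fin k → ℕ) → ℝ) (n : ℕ) :
    (∑ a ∈ Good m Y h h' n, FF z R h Λ a * FF z R h' Λ (n - a)) ^ 2 ≤ (Good m Y h h' n).card * W2 z R Y h h' Λ n := by
  have h1 := sq_sum_le_card_mul_sum_sq (s := Good m Y h h' n) (f := fun a => FF z R h Λ a * FF z R h' Λ (n - a))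
  refine h1.trans (mul_le_mul_of_nonneg_left ?_ (Nat.cast_nonneg _))
  unfold W2
  calc ∑ a ∈ Good m Y h h' n, (FF z R h Λ a * FF z R h' Λ (n - a)) ^ 2 ≤
        ∑ a ∈ Ioc Y (2 * Y), (FF z R h Λ a * FF z R h' Λ (n - a)) ^ 2 :=
        sum_le_sum_of_subset_of_nonneg (filter_subset _ _) fun _ _ _ => by positivity
    _ ≤ _ := by
        apply sum_le_sum
        intro a _
        have g1 := FF_le z R h Λ a
        have g2 := FF_le z R h' Λ (n - a)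
        have g3 := FF_nonneg z R h Λ a
        have g4 := FF_nonneg z R h' Λ (n - a)
        calc (FF z R h Λ a * FF z R h' Λ (n - a)) ^ 2 ≤ (SS z R Λ (cneg h) a ^ 2 * SS z R Λ (cneg h') (n - a) ^ 2) ^ 2 :=
              pow_le_pow_left₀ (mul_nonneg g3 g4) (mul_le_mul g1 g2 g4 (sq_nonneg _)) 2
          _ = _ := by ring

lemma W2_sum (z R Y : ℕ) (h h' : Fin k → ℕ) (Λ : (Fin k → ℕ) → ℝ) :
    ∑ n ∈ Ioc (4 * Y) (12 * Y), W2 z R Y h h' Λ n ≤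
      (∑ a ∈ Icc 1 (12 * Y), SS z R Λ (cneg h) a ^ 4) * ∑ b ∈ Icc 1 (12 * Y), SS z R Λ (cneg h') b ^ 4 := by
  unfold W2
  rw [sum_comm, sum_mul]
  calc _ ≤ ∑ a ∈ Ioc Y (2 * Y), SS z R Λ (cneg h) a ^ 4 * ∑ b ∈ Icc 1 (12 * Y), SS z R Λ (cneg h') b ^ 4 := by
        apply sum_le_sum
        intro a ha
        rw [mem_Ioc] at ha
        rw [← mul_sum]
        apply mul_le_mul_of_nonneg_left _ (by positivity)
        apply sum_inj_le _ _ (fun n => n - a)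
        · intro n hn
          rw [mem_Ioc] at hn
          rw [mem_Icc]
          omega
        · intro n hn n' hn' hnn
          rw [mem_coe, mem_Ioc] at hn hn'
          simp only at hnn
          omega
        · intro b _; positivity
        · intro n _; exact le_rfl
    _ ≤ _ := by
        apply sum_le_sum_of_subset_of_nonneg
        · intro a ha
          rw [mem_Ioc] at ha
          rw [mem_Icc]
          omega
        · intro a _ _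
          apply mul_nonneg (by positivity)
          exact sum_nonneg fun _ _ => by positivity

lemma eT_nonneg (z R Y : ℕ) (h h' : Fin k → ℕ) (Λ : (Fin k → ℕ) → ℝ) (n : ℕ) : 0 ≤ eT z R Y h h' Λ n := by
  unfold eT
  apply add_nonneg
  · apply add_nonneg
    · exact sum_nonneg fun _ _ => sum_nonneg fun _ _ => by positivity
    · exact sum_nonneg fun _ _ => by positivity
  · exact sum_nonneg fun _ _ => by positivity

lemma Lr_abs (Λ : (Fin k → ℕ) → ℝ) (i : Fin k) (d : Fin k → ℕ) : |Lr Λ i d| ≤ |Λ d| := by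
  unfold Lr
  split_ifs
  · exact le_rfl
  · rw [abs_zero]; exact abs_nonneg _

lemma Lr_ne (Λ : (Fin k → ℕ) → ℝ) (i : Fin k) (d : Fin k → ℕ) (h : Lr Λ i d ≠ 0) : Λ d ≠ 0 ∧ d i = 1 := by
  unfold Lr at h
  by_cases h1 : d i = 1
  · rw [if_pos h1] at h; exact ⟨h, h1⟩
  · rw [if_neg h1] at h; exact absurd rfl h

end gd

set_option maxHeartbeats 4000000 in
/-- the mean of the total error -/
theorem eT_sum (k A B : ℕ) (hk : 1 ≤ k) : ∃ E0 : ℕ, ∀ E : ℕ, ∃ N0 : ℕ, ∀ N : ℕ, N0 ≤ N → ∀ z R Y : ℕ,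
    Real.log N ^ E0 ≤ z → (z : ℝ) ≤ Real.log N ^ E → 1 ≤ R → R ^ 80 ≤ N → 13 * Y ≤ N → z ≤ Y →
    ∀ (h h' : Fin k → ℕ), Function.Injective h → Function.Injective h' → (∀ l, h l ≤ z) → (∀ l, h' l ≤ z) → ∀ (Λ : (Fin k → ℕ) → ℝ),
    (∀ d ∈ PD (Fin k) z R, |Λ d| ≤ Real.log N ^ B) → (∀ d, Λ d ≠ 0 → ∏ l, d l ≤ R) →
    ∑ n ∈ Ioc (4 * Y) (12 * Y), eT z R Y h h' Λ n ≤ (3 * k ^ 2 + 4 * k) * (N ^ 2 / Real.log N ^ A) := by
  obtain ⟨e1, h1⟩ := diff_small k A B hk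
  obtain ⟨e2, h2⟩ := main_L1 k A B hk
  refine ⟨max e1 e2, fun E => ?_⟩
  obtain ⟨m1, g1⟩ := h1 E
  obtain ⟨m2, g2⟩ := h2 E
  obtain ⟨m3, g3⟩ := Vz_inv_small E
  obtain ⟨m4, g4⟩ := ev_L' 1
  refine ⟨max (max m1 m2) (max m3 (max m4 3)), ?_⟩
  intro N hN z R Y hz1 hz2 hR1 hR hY hzY h h' hinj hinj' hhz hhz' Λ hΛ hs
  have n1 : m1 ≤ N := le_trans (le_trans (le_max_left _ _) (le_max_left _ _)) hN
  have n2 : m2 ≤ N := le_trans (le_trans (le_max_right _ _) (le_max_left _ _)) hN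
  have n3 : m3 ≤ N := le_trans (le_trans (le_max_left _ _) (le_max_right _ _)) hN
  have nn := le_trans (le_max_right m3 _) (le_trans (le_max_right _ _) hN)
  have n4 : m4 ≤ N := le_trans (le_max_left _ _) nn
  have hN3 : 3 ≤ N := le_trans (le_max_right _ _) nn
  have hL1 := g4 N n4
  have D := g1 N n1 z R Y
  have Mn := g2 N n2 z R Y
  have hV0 := g3 N n3 z
  set L := Real.log N with hL
  have hL0 : 0 < L := by linarith
  have q1 : L ^ e1 ≤ z := (pow_le_pow_right₀ hL1 (le_max_left _ _)).trans hz1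
  have q2 : L ^ e2 ≤ z := (pow_le_pow_right₀ hL1 (le_max_right _ _)).trans hz1
  have hz : 1 ≤ z := by
    have : (1 : ℝ) ≤ z := (one_le_pow₀ hL1).trans hz1
    exact_mod_cast this
  have hv := hV0 hz hz2
  have hv0 : 0 ≤ (Vz z)⁻¹ := (inv_pos.2 (Vz_pos z)).le
  have hΛi : ∀ i, ∀ d ∈ PD (Fin k) z R, |Lr Λ i d| ≤ L ^ B := fun i d hd => (Lr_abs Λ i d).trans (hΛ d hd)
  have hsi : ∀ i, ∀ d, Lr Λ i d ≠ 0 → ∏ l, d l ≤ R ∧ d i = 1 := fun i d hd => ⟨hs d (Lr_ne Λ i d hd).1, (Lr_ne Λ i d hd).2⟩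
  have hsi' : ∀ i, ∀ d, Lr Λ i d ≠ 0 → ∏ l, d l ≤ R := fun i d hd => (hsi i d hd).1
  obtain ⟨T, hT⟩ : ∃ T : ℝ, T = N ^ 2 / L ^ A := ⟨_, rfl⟩
  rw [← hT]
  have hFFL : ∀ (h0 : Fin k → ℕ) (Λ0 : (Fin k → ℕ) → ℝ) (b : ℕ), |FF z R h0 Λ0 b| ≤ L * SS z R Λ0 (cneg h0) b ^ 2 := by
    intro h0 Λ0 b
    rw [abs_of_nonneg (FF_nonneg _ _ _ _ _)]
    refine (FF_le z R h0 Λ0 b).trans ?_
    exact le_mul_of_one_le_left (sq_nonneg _) hL1
  -- the six kinds of terms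
  have b1 : ∀ i j : Fin k, ∑ n ∈ Ioc (4 * Y) (12 * Y), |∑ a ∈ Ioc Y (2 * Y), Df z R h i (Lr Λ i) a * GP z R (12 * Y) h' (Lr Λ j) j (n - a)| ≤ T := by
    intro i j
    rw [hT]
    refine (D q1 hz2 hR1 hR hY hzY h h' hinj hhz hhz' i (Lr Λ i) (Lr Λ j) (hΛi i) (hsi i) (hΛi j) (GP z R (12 * Y) h' (Lr Λ j) j) ?_).1
    intro b
    unfold GP
    split_ifs with hb
    · rw [abs_mul, abs_of_nonneg (FF_nonneg _ _ _ _ _), abs_of_nonneg (pl_nonneg _), mul_comm]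
      apply mul_le_mul _ (FF_le _ _ _ _ _) (FF_nonneg _ _ _ _ _) hL0.le
      have hj := hhz' j
      exact pl_le_log (show b + h' j ≤ N by omega) (by omega)
    · rw [abs_zero]
      exact mul_nonneg hL0.le (sq_nonneg _)
  have b2 : ∀ i j : Fin k, ∑ n ∈ Ioc (4 * Y) (12 * Y), |∑ a ∈ Ioc Y (2 * Y), ((Vz z)⁻¹ * FF z R h (Lr Λ i) a) * Df z R h' j (Lr Λ j) (n - a)| ≤ T := by
    intro i j
    rw [hT]
    refine (D q1 hz2 hR1 hR hY hzY h' h hinj' hhz' hhz j (Lr Λ j) (Lr Λ i) (hΛi j) (hsi j) (hΛi i) (fun a => (Vz z)⁻¹ * FF z R h (Lr Λ i) a) ?_).2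
    intro b
    rw [abs_mul, abs_of_nonneg hv0, abs_of_nonneg (FF_nonneg _ _ _ _ _)]
    exact mul_le_mul hv (FF_le _ _ _ _ _) (FF_nonneg _ _ _ _ _) hL0.le
  have b3 : ∀ i j : Fin k, ∑ n ∈ Ioc (4 * Y) (12 * Y), |MM z R Y h h' (Lr Λ i) (Lr Λ j) n - Y * VV z (cj h h' n) * (Qf z R (Lr Λ i) * Qf z R (Lr Λ j))| ≤ T := by
    intro i j
    rw [hT]
    exact Mn q2 hz2 hR1 hR hY h h' hinj hinj' hhz hhz' (Lr Λ i) (Lr Λ j) (hΛi i) (hsi' i) (hΛi j) (hsi' j)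
  have b4 : ∀ i : Fin k, ∑ n ∈ Ioc (4 * Y) (12 * Y), |∑ a ∈ Ioc Y (2 * Y), Df z R h i (Lr Λ i) a * FF z R h' Λ (n - a)| ≤ T := by
    intro i
    rw [hT]
    exact (D q1 hz2 hR1 hR hY hzY h h' hinj hhz hhz' i (Lr Λ i) Λ (hΛi i) (hsi i) hΛ (FF z R h' Λ) (hFFL h' Λ)).1
  have b5 : ∀ i : Fin k, ∑ n ∈ Ioc (4 * Y) (12 * Y), |MM z R Y h h' (Lr Λ i) Λ n - Y * VV z (cj h h' n) * (Qf z R (Lr Λ i) * Qf z R Λ)| ≤ T := by
    intro i
    rw [hT]
    exact Mn q2 hz2 hR1 hR hY h h' hinj hinj' hhz hhz' (Lr Λ i) Λ (hΛi i) (hsi' i) hΛ hs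
  have b6 : ∀ j : Fin k, ∑ n ∈ Ioc (4 * Y) (12 * Y), |∑ a ∈ Ioc Y (2 * Y), FF z R h Λ a * Df z R h' j (Lr Λ j) (n - a)| ≤ T := by
    intro j
    rw [hT]
    exact (D q1 hz2 hR1 hR hY hzY h' h hinj' hhz' hhz j (Lr Λ j) Λ (hΛi j) (hsi j) hΛ (FF z R h Λ) (hFFL h Λ)).2
  have b7 : ∀ j : Fin k, ∑ n ∈ Ioc (4 * Y) (12 * Y), |MM z R Y h h' Λ (Lr Λ j) n - Y * VV z (cj h h' n) * (Qf z R Λ * Qf z R (Lr Λ j))| ≤ T := by
    intro j
    rw [hT]
    exact Mn q2 hz2 hR1 hR hY h h' hinj hinj' hhz hhz' Λ (Lr Λ j) hΛ hs (hΛi j) (hsi' j)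
  unfold eT
  rw [sum_add_distrib, sum_add_distrib]
  have s1 : ∑ n ∈ Ioc (4 * Y) (12 * Y), ∑ i : Fin k, ∑ j : Fin k, (|∑ a ∈ Ioc Y (2 * Y), Df z R h i (Lr Λ i) a * GP z R (12 * Y) h' (Lr Λ j) j (n - a)| +
    |∑ a ∈ Ioc Y (2 * Y), ((Vz z)⁻¹ * FF z R h (Lr Λ i) a) * Df z R h' j (Lr Λ j) (n - a)| +
    |MM z R Y h h' (Lr Λ i) (Lr Λ j) n - Y * VV z (cj h h' n) * (Qf z R (Lr Λ i) * Qf z R (Lr Λ j))|) ≤ k * (k * (3 * T)) := by
    rw [sum_comm]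
    have : ∀ i ∈ (univ : Finset (Fin k)), ∑ n ∈ Ioc (4 * Y) (12 * Y), ∑ j : Fin k, (|∑ a ∈ Ioc Y (2 * Y), Df z R h i (Lr Λ i) a * GP z R (12 * Y) h' (Lr Λ j) j (n - a)| +
        |∑ a ∈ Ioc Y (2 * Y), ((Vz z)⁻¹ * FF z R h (Lr Λ i) a) * Df z R h' j (Lr Λ j) (n - a)| +
        |MM z R Y h h' (Lr Λ i) (Lr Λ j) n - Y * VV z (cj h h' n) * (Qf z R (Lr Λ i) * Qf z R (Lr Λ j))|) ≤ k * (3 * T) := by
      intro i _
      rw [sum_comm]
      have : ∀ j ∈ (univ : Finset (Fin k)), ∑ n ∈ Ioc (4 * Y) (12 * Y), (|∑ a ∈ Ioc Y (2 * Y), Df z R h i (Lr Λ i) a * GP z R (12 * Y) h' (Lr Λ j) j (n - a)| +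
          |∑ a ∈ Ioc Y (2 * Y), ((Vz z)⁻¹ * FF z R h (Lr Λ i) a) * Df z R h' j (Lr Λ j) (n - a)| +
          |MM z R Y h h' (Lr Λ i) (Lr Λ j) n - Y * VV z (cj h h' n) * (Qf z R (Lr Λ i) * Qf z R (Lr Λ j))|) ≤ 3 * T := by
        intro j _
        rw [sum_add_distrib, sum_add_distrib]
        have := b1 i j
        have := b2 i j
        have := b3 i j
        linarith
      refine (sum_le_sum this).trans (le_of_eq ?_)
      rw [sum_const, card_univ, Fintype.card_fin, nsmul_eq_mul]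
    refine (sum_le_sum this).trans (le_of_eq ?_)
    rw [sum_const, card_univ, Fintype.card_fin, nsmul_eq_mul]
  have s2 : ∑ n ∈ Ioc (4 * Y) (12 * Y), ∑ i : Fin k, (|∑ a ∈ Ioc Y (2 * Y), Df z R h i (Lr Λ i) a * FF z R h' Λ (n - a)| +
    |MM z R Y h h' (Lr Λ i) Λ n - Y * VV z (cj h h' n) * (Qf z R (Lr Λ i) * Qf z R Λ)|) ≤ k * (2 * T) := by
    rw [sum_comm]
    have : ∀ i ∈ (univ : Finset (Fin k)), ∑ n ∈ Ioc (4 * Y) (12 * Y), (|∑ a ∈ Ioc Y (2 * Y), Df z R h i (Lr Λ i) a * FF z R h' Λ (n - a)| +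
        |MM z R Y h h' (Lr Λ i) Λ n - Y * VV z (cj h h' n) * (Qf z R (Lr Λ i) * Qf z R Λ)|) ≤ 2 * T := by
      intro i _
      rw [sum_add_distrib]
      have := b4 i
      have := b5 i
      linarith
    refine (sum_le_sum this).trans (le_of_eq ?_)
    rw [sum_const, card_univ, Fintype.card_fin, nsmul_eq_mul]
  have s3 : ∑ n ∈ Ioc (4 * Y) (12 * Y), ∑ j : Fin k, (|∑ a ∈ Ioc Y (2 * Y), FF z R h Λ a * Df z R h' j (Lr Λ j) (n - a)| +
    |MM z R Y h h' Λ (Lr Λ j) n - Y * VV z (cj h h' n) * (Qf z R Λ * Qf z R (Lr Λ j))|) ≤ k * (2 * T) := by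
    rw [sum_comm]
    have : ∀ j ∈ (univ : Finset (Fin k)), ∑ n ∈ Ioc (4 * Y) (12 * Y), (|∑ a ∈ Ioc Y (2 * Y), FF z R h Λ a * Df z R h' j (Lr Λ j) (n - a)| +
        |MM z R Y h h' Λ (Lr Λ j) n - Y * VV z (cj h h' n) * (Qf z R Λ * Qf z R (Lr Λ j))|) ≤ 2 * T := by
      intro j _
      rw [sum_add_distrib]
      have := b6 j
      have := b7 j
      linarith
    refine (sum_le_sum this).trans (le_of_eq ?_)
    rw [sum_const, card_univ, Fintype.card_fin, nsmul_eq_mul]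
  calc _ ≤ k * (k * (3 * T)) + k * (2 * T) + k * (2 * T) := add_le_add (add_le_add s1 s2) s3
    _ = _ := by ring

end Pool.Agent.L0h42.TB
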