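import Mathlib
import Pool.Agent.L0h42.TB.B6
import Pool.Agent.H373R2.T7.Lin
import Pool.Agent.H373R2.T7.Minor
import Pool.Agent.H373R2.T7.LamZ2
import Pool.Agent.H442R2.KF.BvY
import Pool.Agent.H373R2.T7.SupE2
import Pool.Agent.H373R2.T7.Cnt
import Pool.Agent.R311.DEH.A1
import Pool.Agent.Helper256.KM.Mertens
import Pool.Agent.W23.UBb
import Pool.Agent.H373R2.T7.Crt

/-! The ratio of the quadratic forms, the bounds for the weights. -/

set_option autoImplicit false
set_option linter.unusedSectionVars false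

namespace Pool.Agent.L0h42.TB
open Finset
open Pool.Agent.H373R2.T7

section wts
variable {k : ℕ}

/-- the lower bound for the restricted form -/
lemma Qi_low (z R x J : ℕ) (hx : 1 ≤ x) (hTR : x ^ (2 ^ J) < R) (i : Fin k) (hA : 0 < AA z R x J)
    (hL : 2 * k * AL z R x J ≤ AA z R x J * (Real.log R - Real.log ((x ^ (2 ^ J) : ℕ) : ℝ))) :
    BB z R x J ^ 2 * AA z R x J ^ k ≤ 2 * (AA z R x J * Qf z R (Lr (L0 z R x J) i)) := by
  have hR : 1 ≤ R := by
    have : 0 < x ^ (2 ^ J) := by positivity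
    omega
  have hT0 : (0 : ℝ) < ((x ^ (2 ^ J) : ℕ) : ℝ) := by positivity
  set LT := Real.log R - Real.log ((x ^ (2 ^ J) : ℕ) : ℝ) with hLTd
  have hLT : 0 < LT := by
    have := Real.log_lt_log hT0 (show ((x ^ (2 ^ J) : ℕ) : ℝ) < R by exact_mod_cast hTR)
    linarith
  set A := AA z R x J with hAd
  set B := BB z R x J with hBd
  set A' := AL z R x J with hALd
  have hAL0 : 0 ≤ A' := by
    rw [hALd]
    unfold AL
    apply sum_nonneg
    intro r _
    have := Real.log_natCast_nonneg r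
    positivity
  obtain ⟨Kf, hKf⟩ : ∃ Kf : Fin k → ℕ → ℕ → ℝ, Kf = fun l => if l = i then Kp else Kd := ⟨_, rfl⟩
  have hKf0 : ∀ l r s, 0 ≤ Kf l r s := by
    intro l r s
    rw [hKf]
    by_cases hl : l = i
    · simp only [if_pos hl]; exact Kp_nonneg _ _
    · simp only [if_neg hl]; exact Kd_nonneg _ _
  obtain ⟨f, hf⟩ : ∃ f : Fin k → ℕ → ℕ → ℝ, f = fun l r s => gw x J r * gw x J s * Kf l r s := ⟨_, rfl⟩
  obtain ⟨U, hU⟩ : ∃ U : Fin k → ℝ, U = fun l => ∑ r ∈ RR z R, ∑ s ∈ RR z R, f l r s := ⟨_, rfl⟩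
  have hUi : U i = B ^ 2 := by
    rw [hU, hf, hKf]
    simp only [if_true]
    exact sum_prod_kp z R x J
  have hUl : ∀ l, l ≠ i → U l = A := by
    intro l hl
    rw [hU, hf, hKf]
    simp only [if_neg hl]
    exact sum_diag z R x J
  have hprodU : A * ∏ l, U l = B ^ 2 * A ^ k := by
    rw [← mul_prod_erase univ U (mem_univ i), hUi, prod_congr rfl fun l hl => hUl l (ne_of_mem_erase hl), prod_const,
      card_erase_of_mem (mem_univ i), card_univ, Fintype.card_fin]
    have hk : 0 < k := Fin.pos i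
    obtain ⟨k', rfl⟩ : ∃ k', k = k' + 1 := ⟨k - 1, by omega⟩
    rw [Nat.add_sub_cancel, pow_succ]
    ring
  have hU0 : 0 ≤ ∏ l, U l := by
    rw [hU, hf]
    exact prod_nonneg fun l _ => sum_nonneg fun r _ => sum_nonneg fun s _ =>
      mul_nonneg (mul_nonneg (gw_nonneg _ _ _) (gw_nonneg _ _ _)) (hKf0 _ _ _)
  -- the lower bound
  have h1 : ∑ r ∈ PD (Fin k) z R, ∑ s ∈ PD (Fin k) z R, (∏ l, f l (r l) (s l)) * (1 - (∑ j ∈ univ.erase i, Real.log (r j)) / LT) ≤
      Qf z R (Lr (L0 z R x J) i) := by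
    rw [Qi_eq z R x J hR i]
    apply sum_le_sum
    intro r hr
    apply sum_le_sum
    intro s hs
    by_cases hrs : ∀ l, l ≠ i → r l = s l
    · have h2 := pointw z R x J hx hTR i r s hr hs hrs
      have h3 : ∏ l, f l (r l) (s l) = (∏ l, (gw x J (r l) * gw x J (s l))) * ∏ l, Kf l (r l) (s l) := by
        rw [hf]; simp only; rw [prod_mul_distrib]
      rw [h3]
      calc _ = ((∏ l, (gw x J (r l) * gw x J (s l))) * (1 - (∑ j ∈ univ.erase i, Real.log (r j)) / LT)) * ∏ l, Kf l (r l) (s l) := by ring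
        _ ≤ yw R x J r * yw R x J s * ∏ l, Kf l (r l) (s l) := mul_le_mul_of_nonneg_right h2 (prod_nonneg fun l _ => hKf0 l _ _)
        _ = _ := by rw [hKf]
    · push Not at hrs
      obtain ⟨l, hl, hne⟩ := hrs
      have h2 : Kf l (r l) (s l) = 0 := by
        rw [hKf]
        simp only [if_neg hl]
        unfold Kd
        rw [if_neg hne]
      have h3 : ∏ l, f l (r l) (s l) = 0 := prod_eq_zero (mem_univ l) (by rw [hf]; simp only; rw [h2, mul_zero])
      have h4 : ∏ l, (if l = i then Kp else Kd) (r l) (s l) = 0 := prod_eq_zero (mem_univ l) (by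
        rw [hKf] at h2; exact h2)
      rw [h3, h4, zero_mul, mul_zero]
  have h2 : ∑ r ∈ PD (Fin k) z R, ∑ s ∈ PD (Fin k) z R, (∏ l, f l (r l) (s l)) * (1 - (∑ j ∈ univ.erase i, Real.log (r j)) / LT) =
      ∏ l, U l - (∑ j ∈ univ.erase i, ∑ r ∈ PD (Fin k) z R, ∑ s ∈ PD (Fin k) z R, (∏ l, f l (r l) (s l)) * Real.log (r j)) / LT := by
    rw [hU, ← pi2 z R f]
    have e1 : ∑ j ∈ univ.erase i, ∑ r ∈ PD (Fin k) z R, ∑ s ∈ PD (Fin k) z R, (∏ l, f l (r l) (s l)) * Real.log (r j) =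
        ∑ r ∈ PD (Fin k) z R, ∑ s ∈ PD (Fin k) z R, (∏ l, f l (r l) (s l)) * ∑ j ∈ univ.erase i, Real.log (r j) := by
      rw [sum_comm]
      apply sum_congr rfl
      intro r _
      rw [sum_comm]
      apply sum_congr rfl
      intro s _
      rw [mul_sum]
    have e2 : ∀ r s : Fin k → ℕ, (∏ l, f l (r l) (s l)) * (1 - (∑ j ∈ univ.erase i, Real.log (r j)) / LT) =
        (∏ l, f l (r l) (s l)) - ((∏ l, f l (r l) (s l)) * ∑ j ∈ univ.erase i, Real.log (r j)) / LT := by
      intro r s; ring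
    rw [e1]
    simp only [e2, sum_sub_distrib, ← sum_div]
  have h3 : ∀ j ∈ univ.erase i, A * ∑ r ∈ PD (Fin k) z R, ∑ s ∈ PD (Fin k) z R, (∏ l, f l (r l) (s l)) * Real.log (r j) = A' * ∏ l, U l := by
    intro j hj
    have hji := ne_of_mem_erase hj
    have e1 : ∀ r s : Fin k → ℕ, (∏ l, f l (r l) (s l)) * Real.log (r j) = ∏ l, (f l (r l) (s l) * (if l = j then Real.log (r l) else 1)) := by
      intro r s
      rw [prod_mul_distrib, prod_ite_eq' univ j, if_pos (mem_univ j)]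
    simp only [e1]
    rw [pi2 z R (fun l r s => f l r s * (if l = j then Real.log r else 1))]
    rw [← mul_prod_erase univ _ (mem_univ j), ← mul_prod_erase univ U (mem_univ j), hUl j hji]
    have e2 : ∏ l ∈ univ.erase j, ∑ r ∈ RR z R, ∑ s ∈ RR z R, f l r s * (if l = j then Real.log r else 1) = ∏ l ∈ univ.erase j, U l := by
      apply prod_congr rfl
      intro l hl
      simp only [if_neg (ne_of_mem_erase hl), mul_one]
      rw [hU]
    have e3 : ∑ r ∈ RR z R, ∑ s ∈ RR z R, f j r s * (if j = j then Real.log r else 1) = A' := by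
      rw [hALd, ← sum_diag_log]
      simp only [if_true]
      rw [hf, hKf]
      simp only [if_neg hji]
    rw [e2, e3]
    ring
  have h4 : A * ∑ j ∈ univ.erase i, ∑ r ∈ PD (Fin k) z R, ∑ s ∈ PD (Fin k) z R, (∏ l, f l (r l) (s l)) * Real.log (r j) ≤
      k * (A' * ∏ l, U l) := by
    rw [mul_sum, sum_congr rfl h3, sum_const, nsmul_eq_mul]
    apply mul_le_mul_of_nonneg_right _ (mul_nonneg hAL0 hU0)
    have : (univ.erase i : Finset (Fin k)).card ≤ k := (card_le_univ _).trans (by simp)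
    exact_mod_cast this
  rw [h2] at h1
  set TS := ∑ j ∈ univ.erase i, ∑ r ∈ PD (Fin k) z R, ∑ s ∈ PD (Fin k) z R, (∏ l, f l (r l) (s l)) * Real.log (r j)
  have h5 : A * (TS / LT) ≤ (1 / 2) * (A * ∏ l, U l) := by
    rw [mul_div_assoc', div_le_iff₀ hLT]
    have h6 : 2 * (k * (A' * ∏ l, U l)) ≤ A * LT * ∏ l, U l := by
      calc 2 * (k * (A' * ∏ l, U l)) = (2 * k * A') * ∏ l, U l := by ring
        _ ≤ _ := mul_le_mul_of_nonneg_right hL hU0
    nlinarith
  have h6 := mul_le_mul_of_nonneg_left h1 hA.le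
  rw [mul_sub] at h6
  rw [hprodU] at h6 h5
  linarith

lemma cM_abs (d r : ℕ) : |cM d r| ≤ if d ∣ r then (d : ℝ) / Nat.totient r else 0 := by
  unfold cM
  split_ifs
  · rw [abs_div, abs_mul, Nat.abs_cast, Nat.abs_cast]
    have h : |((ArithmeticFunction.moebius d : ℤ) : ℝ)| ≤ 1 := by
      exact_mod_cast ArithmeticFunction.abs_moebius_le_one
    apply div_le_div_of_nonneg_right _ (Nat.cast_nonneg _)
    calc |((ArithmeticFunction.moebius d : ℤ) : ℝ)| * d ≤ 1 * d := mul_le_mul_of_nonneg_right h (Nat.cast_nonneg _)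
      _ = d := one_mul _
  · simp

lemma L0_abs (z R x J : ℕ) (hzR : z ≤ R) (d : Fin k → ℕ) (hd : d ∈ PD (Fin k) z R) :
    |L0 z R x J d| ≤ (2 * ((Vz R)⁻¹ * (Vz R)⁻¹)) ^ k := by
  unfold L0
  refine (abs_sum_le_sum_abs _ _).trans ?_
  have h1 : ∀ r ∈ PD (Fin k) z R, |yw R x J r * ∏ i, cM (d i) (r i)| ≤
      ∏ i, (2 * (if d i ∣ r i then (d i : ℝ) / Nat.totient (r i) else 0)) := by
    intro r _
    rw [abs_mul, abs_of_nonneg (yw_nonneg R x J r), abs_prod, prod_mul_distrib]
    apply mul_le_mul _ _ (prod_nonneg fun _ _ => abs_nonneg _) (prod_nonneg fun _ _ => by norm_num)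
    · refine (yw_le R x J r).trans ?_
      exact prod_le_prod (fun _ _ => gw_nonneg _ _ _) (fun _ _ => gw_le_two _ _ _)
    · exact prod_le_prod (fun _ _ => abs_nonneg _) (fun _ _ => cM_abs _ _)
  refine (sum_le_sum h1).trans ?_
  unfold PD
  rw [sum_prod_piFinset (RR z R) (fun i r => 2 * (if d i ∣ r then (d i : ℝ) / Nat.totient r else 0))]
  calc _ ≤ ∏ _i : Fin k, (2 * ((Vz R)⁻¹ * (Vz R)⁻¹)) := by
        apply prod_le_prod
        · intro i _
          apply sum_nonneg
          intro r _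
          apply mul_nonneg (by norm_num)
          split_ifs
          · positivity
          · exact le_rfl
        · intro i _
          rw [← mul_sum, ← sum_filter]
          exact mul_le_mul_of_nonneg_left (phi_mult z R (d i) hzR (mem_PD.1 hd i)) (by norm_num)
    _ = _ := by rw [prod_const, card_univ, Fintype.card_fin]

lemma L0_supp (z R x J : ℕ) (d : Fin k → ℕ) (hd : L0 z R x J d ≠ 0) : ∏ i, d i ≤ R := by
  unfold L0 at hd
  obtain ⟨r, hr, hne⟩ := exists_ne_zero_of_sum_ne_zero hd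
  have h1 : yw R x J r ≠ 0 := left_ne_zero_of_mul hne
  have h2 : ∏ i, r i ≤ R := by
    by_contra hcon
    apply h1
    unfold yw
    rw [if_neg hcon]
  have h3 : ∀ i, cM (d i) (r i) ≠ 0 := by
    intro i hi
    apply right_ne_zero_of_mul hne
    exact prod_eq_zero (mem_univ i) hi
  refine le_trans ?_ h2
  apply prod_le_prod' 
  intro i _
  apply Nat.le_of_dvd (one_le_PD hr i)
  by_contra hcon
  apply h3 i
  unfold cM
  rw [if_neg hcon]

end wts

/-- **The weights.** -/
theorem weights_spec (C J z R x k W : ℕ) (hC1 : 1 ≤ C) (hC : ∀ N : ℕ, 3 ≤ N → (Vz N)⁻¹ ≤ C * Real.log N) (hx : 3 ≤ x) (hz : z ≤ x)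
    (hk : k = 2 ^ J) (hW : W = k + 8 * k * C * (J + 1)) (h1 : x ^ W ≤ R) (h2 : R < (x + 1) ^ W) :
    ∃ Λ : (Fin k → ℕ) → ℝ, (∀ d ∈ PD (Fin k) z R, |Λ d| ≤ (2 * ((Vz R)⁻¹ * (Vz R)⁻¹)) ^ k) ∧ (∀ d, Λ d ≠ 0 → ∏ i, d i ≤ R) ∧
      1 ≤ Qf z R Λ ∧ (∀ i, 1 ≤ Qf z R (Lr Λ i)) ∧
      (J + 1) / (288 * C ^ 2) * (Vz z * Real.log R) * Qf z R Λ ≤ ∑ i, Qf z R (Lr Λ i) := by
  have hk1 : 1 ≤ k := by rw [hk]; exact Nat.one_le_two_pow
  have hkW : k < W := by
    rw [hW]
    have : 0 < 8 * k * C * (J + 1) := by positivity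
    omega
  have hxk : x ^ (2 ^ J) < R := by
    rw [← hk]
    exact lt_of_lt_of_le (Nat.pow_lt_pow_right (by omega) hkW) h1
  have hx1 : 1 ≤ x := by omega
  have hxR : x ≤ R := by
    have : x ≤ x ^ (2 ^ J) := Nat.le_self_pow (by positivity) x
    omega
  have hR1 : 1 ≤ R := by omega
  have hzR : z ≤ R := hz.trans hxR
  have hx3 : (3 : ℝ) ≤ x := by exact_mod_cast hx
  have hl1 : 1 < Real.log x := by
    have h2 : Real.exp 1 < 3 := by have := Real.exp_one_lt_d9; linarith
    rw [Real.lt_log_iff_exp_lt (by linarith)]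
    linarith
  have hl0 : 0 < Real.log x := by linarith
  have hV := Vz_pos z
  have hCr : (1 : ℝ) ≤ C := by exact_mod_cast hC1
  have hkr : (1 : ℝ) ≤ k := by exact_mod_cast hk1
  have a1 := BB_low z R x J hx1 hxk.le
  have a2 := AA_up C z R x J hC hx hz hxk.le
  have a3 := AL_up C z R x J hC hx hz hxk.le
  have a4 := AA_low z R x J hx1 hxR
  have hA0 : 0 < AA z R x J := lt_of_lt_of_le (by positivity) a4
  have hlogR : W * Real.log x ≤ Real.log R := by
    rw [← Real.log_pow]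
    exact Real.log_le_log (by positivity) (by exact_mod_cast h1)
  have hlogR2 : Real.log R ≤ W * (2 * Real.log x) := by
    have h3 : Real.log R ≤ Real.log (((x : ℝ) + 1) ^ W) := by
      apply Real.log_le_log (by exact_mod_cast hR1)
      have : (R : ℝ) < ((x : ℝ) + 1) ^ W := by exact_mod_cast h2
      exact this.le
    rw [Real.log_pow] at h3
    refine h3.trans (mul_le_mul_of_nonneg_left ?_ (Nat.cast_nonneg _))
    have h4 : Real.log ((x : ℝ) + 1) ≤ Real.log ((x : ℝ) ^ 2) := Real.log_le_log (by positivity) (by nlinarith)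
    rw [Real.log_pow] at h4
    push_cast at h4
    exact h4
  have hlogT : Real.log ((x ^ (2 ^ J) : ℕ) : ℝ) = k * Real.log x := by
    rw [log_pow2, hk]; push_cast; rfl
  have hWr : (W : ℝ) = k + 8 * k * C * (J + 1) := by rw [hW]; push_cast; ring
  have hLcond : 2 * k * AL z R x J ≤ AA z R x J * (Real.log R - Real.log ((x ^ (2 ^ J) : ℕ) : ℝ)) := by
    rw [hlogT]
    have b1 : 8 * k * C * (J + 1) * Real.log x ≤ Real.log R - k * Real.log x := by
      rw [hWr] at hlogR
      linarith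
    calc 2 * k * AL z R x J ≤ 2 * k * (4 * C * (J + 1) * Real.log x * (Vz z * Real.log x)) := by gcongr
      _ = (Vz z * Real.log x) * (8 * k * C * (J + 1) * Real.log x) := by ring
      _ ≤ AA z R x J * (Real.log R - k * Real.log x) := by
          apply mul_le_mul a4 b1 (by positivity) hA0.le
  refine ⟨L0 z R x J, fun d hd => L0_abs z R x J hzR d hd, fun d hd => L0_supp z R x J d hd, ?_, ?_, ?_⟩
  · rw [Q0_eq]
    apply Q_one_le z R x J hR1 hx1 (fun _ => Kd) (fun _ r s => Kd_nonneg r s)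
    intro l
    unfold Kd
    simp
  · intro i
    rw [Qi_eq z R x J hR1 i]
    apply Q_one_le z R x J hR1 hx1 (fun l => if l = i then Kp else Kd)
    · intro l r s
      by_cases hl : l = i
      · simp only [if_pos hl]; exact Kp_nonneg _ _
      · simp only [if_neg hl]; exact Kd_nonneg _ _
    · intro l
      by_cases hl : l = i
      · simp only [if_pos hl]; unfold Kp; simp
      · simp only [if_neg hl]; unfold Kd; simp
  · have b1 : ∀ i : Fin k, BB z R x J ^ 2 * AA z R x J ^ k ≤ 2 * (AA z R x J * Qf z R (Lr (L0 z R x J) i)) :=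
      fun i => Qi_low z R x J hx1 hxk i hA0 hLcond
    have b2 : k * (BB z R x J ^ 2 * AA z R x J ^ k) ≤ 2 * (AA z R x J * ∑ i : Fin k, Qf z R (Lr (L0 z R x J) i)) := by
      calc k * (BB z R x J ^ 2 * AA z R x J ^ k) = ∑ _i : Fin k, BB z R x J ^ 2 * AA z R x J ^ k := by
            rw [sum_const, card_univ, Fintype.card_fin, nsmul_eq_mul]
        _ ≤ ∑ i : Fin k, 2 * (AA z R x J * Qf z R (Lr (L0 z R x J) i)) := sum_le_sum fun i _ => b1 i
        _ = _ := by rw [← mul_sum, ← mul_sum]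
    have b3 := Q0_up (k := k) z R x J
    set Q := Qf z R (L0 (k := k) z R x J) with hQ
    have hQ0 : 0 ≤ Q := by
      rw [hQ, Q0_eq]
      exact sum_nonneg fun r _ => sum_nonneg fun s _ => mul_nonneg (mul_nonneg (yw_nonneg _ _ _ _) (yw_nonneg _ _ _ _))
        (prod_nonneg fun l _ => Kd_nonneg _ _)
    set P := ∑ i : Fin k, Qf z R (Lr (L0 z R x J) i) with hP
    have b4 : Real.log R ≤ 18 * k * C * (J + 1) * Real.log x := by
      refine hlogR2.trans ?_
      rw [hWr]
      have : (k : ℝ) ≤ k * C * (J + 1) := by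
        have h5 : (1 : ℝ) ≤ C * (J + 1) := by
          have : (0 : ℝ) ≤ J := Nat.cast_nonneg _
          nlinarith
        calc (k : ℝ) = k * 1 := by ring
          _ ≤ k * (C * (J + 1)) := mul_le_mul_of_nonneg_left h5 (by positivity)
          _ = _ := by ring
      nlinarith
    have hBn : 0 ≤ Vz z * Real.log x * (J + 1) := by positivity
    have b5 : (Vz z * Real.log x * (J + 1)) ^ 2 ≤ BB z R x J ^ 2 := pow_le_pow_left₀ hBn a1 2
    -- `M Vz log R Q A ≤ (k/2) B² Q`
    have b6 : (J + 1) / (288 * C ^ 2) * (Vz z * Real.log R) * AA z R x J ≤ k / 2 * BB z R x J ^ 2 := by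
      calc (J + 1) / (288 * C ^ 2) * (Vz z * Real.log R) * AA z R x J ≤
            (J + 1) / (288 * C ^ 2) * (Vz z * (18 * k * C * (J + 1) * Real.log x)) * (8 * (C * (Vz z * Real.log x))) := by gcongr
        _ = k / 2 * (Vz z * Real.log x * (J + 1)) ^ 2 := by
            field_simp
            ring
        _ ≤ _ := mul_le_mul_of_nonneg_left b5 (by positivity)
    have b7 : AA z R x J * ((J + 1) / (288 * C ^ 2) * (Vz z * Real.log R) * Q) ≤ AA z R x J * P := by
      calc AA z R x J * ((J + 1) / (288 * C ^ 2) * (Vz z * Real.log R) * Q) =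
            ((J + 1) / (288 * C ^ 2) * (Vz z * Real.log R) * AA z R x J) * Q := by ring
        _ ≤ (k / 2 * BB z R x J ^ 2) * Q := mul_le_mul_of_nonneg_right b6 hQ0
        _ ≤ (k / 2 * BB z R x J ^ 2) * AA z R x J ^ k := mul_le_mul_of_nonneg_left b3 (by positivity)
        _ ≤ AA z R x J * P := by linarith
    exact le_of_mul_le_mul_left b7 hA0

end Pool.Agent.L0h42.TB
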