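import Mathlib
import Pool.Agent.L0h42.TB.B7
import Pool.Agent.L0h42.TB.B18
import Pool.Agent.L0h42.TB.B20
import Pool.Agent.H373R2.T7.Lin
import Pool.Agent.H373R2.T7.Minor
import Pool.Agent.H373R2.T7.LamZ2
import Pool.Agent.H442R2.KF.BvY
import Pool.Agent.H373R2.T7.SupE2
import Pool.Agent.H373R2.T7.Cnt
import Pool.Agent.R311.DEH.A1
import Pool.Agent.Helper256.KM.Mertens
import Pool.Agent.W23.UBb
import Pool.Agent.H373R2.T7.Crt

/-! **The core theorem.** -/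

set_option autoImplicit false
set_option linter.unusedSectionVars false

namespace Pool.Agent.L0h42.TB
open Finset
open Pool.Agent.H373R2.T7

set_option maxHeartbeats 4000000 in
open Classical in
/-- For almost all even `n` there are many `a` such that many of the numbers `a + h` and many of the numbers
`n - a + h'` are primes. -/
theorem core (m : ℕ) (hm : 1 ≤ m) : ∃ k : ℕ, 1 ≤ k ∧ ∀ A : ℕ, ∃ B N0 : ℕ, ∀ N : ℕ, N0 ≤ N → ∀ Y : ℕ, 13 * Y ≤ N → N ≤ 14 * Y →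
    ∀ h h' : Fin k → ℕ, Function.Injective h → Function.Injective h' → (∀ l, (h l : ℝ) ≤ Real.log N) → (∀ l, (h' l : ℝ) ≤ Real.log N) →
    (∀ p, p.Prime → p ≤ 2 * k → ∀ l, p ∣ h l) → (∀ p, p.Prime → p ≤ 2 * k → ∀ l, p ∣ h' l) →
    (((Ioc (4 * Y) (12 * Y)).filter (fun n => Even n ∧ ((Good m Y h h' n).card : ℝ) < N / Real.log N ^ B)).card : ℝ) ≤ N / Real.log N ^ A := by
  obtain ⟨C, hC1, hC⟩ := mertens_up
  obtain ⟨J, hJ⟩ : ∃ J, J = 288 * C ^ 2 * (320 * m) := ⟨_, rfl⟩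
  obtain ⟨k, hk2⟩ : ∃ k, k = 2 ^ J := ⟨_, rfl⟩
  obtain ⟨W, hW⟩ : ∃ W, W = k + 8 * k * C * (J + 1) := ⟨_, rfl⟩
  have hk : 1 ≤ k := by rw [hk2]; exact Nat.one_le_two_pow
  have hW1 : 1 ≤ W := by omega
  refine ⟨k, hk, fun A => ?_⟩
  obtain ⟨A1, hA1⟩ : ∃ A1, A1 = A + 4 * k + 4 := ⟨_, rfl⟩
  obtain ⟨Bw, hBw⟩ : ∃ Bw, Bw = 3 * k := ⟨_, rfl⟩
  obtain ⟨e0, hE0⟩ := eT_sum k A1 Bw hk
  obtain ⟨E0, hE0d⟩ : ∃ E0, E0 = e0 + 1 := ⟨_, rfl⟩
  obtain ⟨m1, h1⟩ := hE0 (E0 + 1)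
  obtain ⟨m2, h2⟩ := Vz_inv_small (E0 + 1)
  obtain ⟨m3, h3⟩ := ev_log' ((E0 + 1) * (W * 80)) 1
  obtain ⟨s, hs⟩ : ∃ s, s = 4 * Bw + 1 + 2 * 2 ^ (4 * k) := ⟨_, rfl⟩
  obtain ⟨C', hC'⟩ : ∃ C', C' = 2 * s + A + 1 := ⟨_, rfl⟩
  obtain ⟨B, hB⟩ : ∃ B, B = 8 * k + 7 + C' := ⟨_, rfl⟩
  obtain ⟨m4, h4⟩ := ev_L' (max (max (2 * C ^ 2 + 8 : ℝ) (k + (4 * k : ℝ) ^ (4 * k))) (max (56 * m * (3 * k ^ 2 + 4 * k) : ℝ) (784 * k ^ 4 + 2 : ℝ)))
  obtain ⟨m5, h5⟩ := ev_log' (E0 + 1) 28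
  refine ⟨B, max (max m1 m2) (max m3 (max m4 (max m5 16))), ?_⟩
  intro N hN Y hY1 hY2 h h' hinj hinj' hh hh' hd hd'
  have n1 : m1 ≤ N := le_trans (le_trans (le_max_left _ _) (le_max_left _ _)) hN
  have n2 : m2 ≤ N := le_trans (le_trans (le_max_right _ _) (le_max_left _ _)) hN
  have n3 : m3 ≤ N := le_trans (le_trans (le_max_left _ _) (le_max_right _ _)) hN
  have nn := le_trans (le_max_right m3 _) (le_trans (le_max_right _ _) hN)
  have n4 : m4 ≤ N := le_trans (le_max_left _ _) nn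
  have n5 : m5 ≤ N := le_trans (le_trans (le_max_left _ _) (le_max_right _ _)) nn
  have hN16 : 16 ≤ N := le_trans (le_trans (le_max_right _ _) (le_max_right _ _)) nn
  have hN0 : (0 : ℝ) < N := by exact_mod_cast (show 0 < N by omega)
  have b3 := h3 N n3
  have b4 := h4 N n4
  have b5 := h5 N n5
  have heT := h1 N n1
  have hVz := h2 N n2
  set L := Real.log N with hL
  have l1 : (2 * C ^ 2 + 8 : ℝ) ≤ L := le_trans (le_trans (le_max_left _ _) (le_max_left _ _)) b4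
  have l2 : (k + (4 * k : ℝ) ^ (4 * k)) ≤ L := le_trans (le_trans (le_max_right _ _) (le_max_left _ _)) b4
  have l3 : (56 * m * (3 * k ^ 2 + 4 * k) : ℝ) ≤ L := le_trans (le_trans (le_max_left _ _) (le_max_right _ _)) b4
  have l4 : (784 * k ^ 4 + 2 : ℝ) ≤ L := le_trans (le_trans (le_max_right _ _) (le_max_right _ _)) b4
  have hkr : (1 : ℝ) ≤ k := by exact_mod_cast hk
  have hmr : (1 : ℝ) ≤ m := by exact_mod_cast hm
  have hCr : (1 : ℝ) ≤ C := by exact_mod_cast hC1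
  have hL8 : 8 ≤ L := by nlinarith [sq_nonneg (C : ℝ)]
  have hL1 : 1 ≤ L := by linarith
  have hL0 : 0 < L := by linarith
  have hkL : (k : ℝ) ≤ L := by
    have : (0 : ℝ) ≤ (4 * k : ℝ) ^ (4 * k) := by positivity
    linarith
  -- the parameter `z`
  obtain ⟨z, hz⟩ : ∃ z, z = ⌈L ^ E0⌉₊ := ⟨_, rfl⟩
  have hz1 : L ^ E0 ≤ z := by rw [hz]; exact Nat.le_ceil _
  have hz1' : L ≤ z := (le_self_pow₀ hL1 (by omega)).trans hz1
  have hz2 : (z : ℝ) + 1 ≤ L ^ (E0 + 1) := by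
    have g1 := (Nat.ceil_lt_add_one (show 0 ≤ L ^ E0 by positivity)).le
    rw [← hz] at g1
    have g2 : 1 ≤ L ^ E0 := one_le_pow₀ hL1
    rw [pow_succ]
    nlinarith
  have hz2' : (z : ℝ) ≤ L ^ (E0 + 1) := by linarith
  have hz8 : 8 ≤ z := by
    have : (8 : ℝ) ≤ z := by linarith
    exact_mod_cast this
  have hL2 : L ^ e0 ≤ z := (pow_le_pow_right₀ hL1 (by omega)).trans hz1
  have hhz : ∀ l, h l ≤ z := fun l => by exact_mod_cast (hh l).trans hz1'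
  have hhz' : ∀ l, h' l ≤ z := fun l => by exact_mod_cast (hh' l).trans hz1'
  -- the parameters `x` and `R`
  obtain ⟨x, hx1, hx2, hx3⟩ := root_exists (W * 80) N (by omega) (by omega)
  have hsq : √(N : ℝ) ≤ N := by
    rw [Real.sqrt_le_left (by positivity)]
    have : (1 : ℝ) ≤ N := by exact_mod_cast (show 1 ≤ N by omega)
    nlinarith
  have hzx : z ≤ x := by
    by_contra hcon
    have g1 : (x + 1) ^ (W * 80) ≤ (z + 1) ^ (W * 80) := Nat.pow_le_pow_left (by omega) _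
    have g2 : ((z : ℝ) + 1) ^ (W * 80) ≤ N := by
      calc ((z : ℝ) + 1) ^ (W * 80) ≤ (L ^ (E0 + 1)) ^ (W * 80) := pow_le_pow_left₀ (by positivity) hz2 _
        _ = 1 * L ^ ((E0 + 1) * (W * 80)) := by rw [one_mul, ← pow_mul]
        _ ≤ √N := b3
        _ ≤ N := hsq
    have g3 : (z + 1) ^ (W * 80) ≤ N := by exact_mod_cast g2
    omega
  have hx3' : 3 ≤ x := by omega
  obtain ⟨R, hRd⟩ : ∃ R, R = x ^ W := ⟨_, rfl⟩
  have hR80 : R ^ 80 ≤ N := by rw [hRd, ← pow_mul]; exact hx2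
  have hxR : x ≤ R := by rw [hRd]; exact Nat.le_self_pow (by omega) x
  have hR1 : 1 ≤ R := by omega
  have hR3 : 3 ≤ R := by omega
  have hRr : (1 : ℝ) ≤ R := by exact_mod_cast hR1
  obtain ⟨Λ, w1, w2, w3, w4, w5⟩ := weights_spec C J z R x k W hC1 hC hx3' hzx hk2 hW (by rw [hRd]) (by
    rw [hRd]
    exact Nat.pow_lt_pow_left (Nat.lt_succ_self x) (by omega))
  have hlR : Real.log R ≤ L := by
    apply Real.log_le_log (by linarith)
    exact_mod_cast (Nat.le_self_pow (by norm_num : (80:ℕ) ≠ 0) R).trans hR80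
  have hlR0 : 0 ≤ Real.log R := Real.log_nonneg hRr
  have hΛB : ∀ d ∈ PD (Fin k) z R, |Λ d| ≤ L ^ Bw := by
    intro d hd
    refine (w1 d hd).trans ?_
    rw [hBw, pow_mul]
    have hVR0 : 0 ≤ (Vz R)⁻¹ := (inv_pos.2 (Vz_pos R)).le
    apply pow_le_pow_left₀ (by positivity)
    have g1 := hC R hR3
    have g2 : (Vz R)⁻¹ ≤ C * L := g1.trans (mul_le_mul_of_nonneg_left hlR (by positivity))
    calc 2 * ((Vz R)⁻¹ * (Vz R)⁻¹) ≤ 2 * ((C * L) * (C * L)) := by gcongr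
      _ = (2 * C ^ 2) * L ^ 2 := by ring
      _ ≤ L * L ^ 2 := by
          apply mul_le_mul_of_nonneg_right _ (by positivity)
          linarith
      _ = L ^ 3 := by ring
  -- `Y`
  have hYr : (N : ℝ) ≤ 14 * Y := by exact_mod_cast hY2
  have hY0 : (0 : ℝ) < Y := by linarith
  have hzY : z ≤ Y := by
    have g1 : (28 : ℝ) * z ≤ N := by
      calc (28 : ℝ) * z ≤ 28 * L ^ (E0 + 1) := by linarith
        _ ≤ √N := b5
        _ ≤ N := hsq
    have g2 : 28 * z ≤ N := by exact_mod_cast g1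
    omega
  have hRY : R ≤ Y := by
    have g1 : R ^ 2 ≤ N := (Nat.pow_le_pow_right hR1 (by norm_num)).trans hR80
    have g0 : 28 ≤ N := by
      have : (28 : ℝ) ≤ N := by
        calc (28 : ℝ) ≤ 28 * L ^ (E0 + 1) := by
              have : 1 ≤ L ^ (E0 + 1) := one_le_pow₀ hL1
              linarith
          _ ≤ √N := b5
          _ ≤ N := hsq
      exact_mod_cast this
    by_contra hcon
    have g2 : Y + 1 ≤ R := by omega
    have g3 : R ^ 80 = R * R ^ 79 := by ring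
    have g4 : 3 ^ 79 ≤ R ^ 79 := Nat.pow_le_pow_left hR3 79
    have g5 : 14 ≤ 3 ^ 79 := by norm_num
    have g6 : R * 14 ≤ R ^ 80 := by rw [g3]; exact Nat.mul_le_mul_left _ (g5.trans g4)
    omega
  have heS := heT z R Y hL2 hz2' hR1 hR80 hY1 hzY h h' hinj hinj' hhz hhz' Λ hΛB w2
  have hv := hVz z (by omega) hz2'
  have hv1 : 1 ≤ (Vz z)⁻¹ := (one_le_inv₀ (Vz_pos z)).2 (Vz_le_one z)
  -- the ratio
  have hratio : 2 * m * L * Qf z R Λ ≤ (Vz z)⁻¹ * ∑ i, Qf z R (Lr Λ i) := by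
    have g1 : L ≤ 160 * Real.log R := by
      have g2 : L ≤ Real.log (((x : ℝ) + 1) ^ (W * 80)) := by
        apply Real.log_le_log hN0
        have : ((N : ℕ) : ℝ) < (((x + 1) ^ (W * 80) : ℕ) : ℝ) := by exact_mod_cast hx3
        push_cast at this
        exact this.le
      rw [Real.log_pow] at g2
      have hx3r : (3 : ℝ) ≤ x := by exact_mod_cast hx3'
      have g3 : Real.log ((x : ℝ) + 1) ≤ 2 * Real.log x := by
        have g4 : Real.log ((x : ℝ) + 1) ≤ Real.log ((x : ℝ) ^ 2) := Real.log_le_log (by positivity) (by nlinarith)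
        rw [Real.log_pow] at g4
        push_cast at g4
        exact g4
      have g5 : Real.log R = W * Real.log x := by rw [hRd]; push_cast; rw [Real.log_pow]
      rw [g5]
      calc L ≤ ((W * 80 : ℕ) : ℝ) * Real.log ((x : ℝ) + 1) := g2
        _ ≤ ((W * 80 : ℕ) : ℝ) * (2 * Real.log x) := mul_le_mul_of_nonneg_left g3 (Nat.cast_nonneg _)
        _ = _ := by push_cast; ring
    have g2 : ((J : ℝ) + 1) / (288 * C ^ 2) ≥ 320 * m := by
      rw [ge_iff_le, le_div_iff₀ (by positivity), hJ]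
      push_cast
      nlinarith
    have hQ0 : 0 ≤ Qf z R Λ := by linarith
    have hVp := Vz_pos z
    have g3 : (Vz z)⁻¹ * (((J : ℝ) + 1) / (288 * C ^ 2) * (Vz z * Real.log R) * Qf z R Λ) ≤ (Vz z)⁻¹ * ∑ i, Qf z R (Lr Λ i) :=
      mul_le_mul_of_nonneg_left w5 (by linarith)
    refine le_trans ?_ g3
    have g4 : (Vz z)⁻¹ * (((J : ℝ) + 1) / (288 * C ^ 2) * (Vz z * Real.log R) * Qf z R Λ) =
        ((J : ℝ) + 1) / (288 * C ^ 2) * Real.log R * Qf z R Λ := by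
      field_simp
    rw [g4]
    apply mul_le_mul_of_nonneg_right _ hQ0
    calc 2 * (m : ℝ) * L ≤ 2 * m * (160 * Real.log R) := by gcongr
      _ = 320 * m * Real.log R := by ring
      _ ≤ _ := mul_le_mul_of_nonneg_right g2 hlR0
  -- the lower bound for the main term
  obtain ⟨y0, hy0⟩ : ∃ y0 : ℝ, y0 = Y / L ^ (4 * k + 1) := ⟨_, rfl⟩
  have hy00 : 0 < y0 := by rw [hy0]; positivity
  have hVlow : ∀ n, Even n → y0 ≤ Y * VV z (cj h h' n) := by
    intro n hn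
    have g1 := VV_low hk z h h' n hn hd hd'
    have g2 : 1 / L ≤ Vz z := by
      rw [one_div]
      exact inv_le_of_inv_le₀ (Vz_pos z) hv
    have g3 : (1 / L) ^ (4 * k) ≤ Vz z ^ (4 * k) := pow_le_pow_left₀ (by positivity) g2 _
    have g4 : 1 / L ≤ (1 / (4 * (k : ℝ))) ^ (4 * k) := by
      rw [div_pow, one_pow]
      apply one_div_le_one_div_of_le (by positivity)
      linarith
    calc y0 = Y * ((1 / L) * (1 / L) ^ (4 * k)) := by
          rw [hy0, pow_succ, one_div_pow]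
          field_simp
      _ ≤ Y * ((1 / (4 * (k : ℝ))) ^ (4 * k) * Vz z ^ (4 * k)) := by
          apply mul_le_mul_of_nonneg_left _ hY0.le
          exact mul_le_mul g4 g3 (by positivity) (by positivity)
      _ ≤ _ := mul_le_mul_of_nonneg_left g1 hY0.le
  -- the moments
  have hmomS : ∀ g : Fin k → ℕ, (∀ l, g l ≤ z) → ∑ b ∈ Icc 1 (12 * Y), SS z R Λ (cneg g) b ^ 4 ≤ N * L ^ s := by
    intro g hg
    have g1 := mom4 hk z R (12 * Y) N Λ (L ^ Bw) (by positivity) hΛB g hg (by omega)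
    rw [← hL] at g1
    have e3 : (1 + L) ≤ L ^ 2 := by nlinarith
    have e4 : (1 + L) ^ (2 ^ (4 * k)) ≤ (L ^ 2) ^ (2 ^ (4 * k)) := pow_le_pow_left₀ (by positivity) e3 _
    calc _ ≤ (L ^ Bw) ^ 4 * (k * (N * (1 + L) ^ (2 ^ (4 * k)))) := g1
      _ ≤ (L ^ Bw) ^ 4 * (L * (N * (L ^ 2) ^ (2 ^ (4 * k)))) := by gcongr
      _ = N * L ^ s := by rw [hs]; ring
  have hW2S : ∑ n ∈ Ioc (4 * Y) (12 * Y), W2 z R Y h h' Λ n ≤ N ^ 2 * L ^ (2 * s) := by
    refine (W2_sum z R Y h h' Λ).trans ?_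
    calc _ ≤ (N * L ^ s) * (N * L ^ s) := mul_le_mul (hmomS h hhz) (hmomS h' hhz') (sum_nonneg fun _ _ => by positivity) (by positivity)
      _ = _ := by ring
  -- the exceptional sets
  obtain ⟨t1, ht1⟩ : ∃ t1 : ℝ, t1 = y0 / (2 * m * L ^ 2) := ⟨_, rfl⟩
  obtain ⟨t2, ht2⟩ : ∃ t2 : ℝ, t2 = N * L ^ C' := ⟨_, rfl⟩
  have ht10 : 0 < t1 := by rw [ht1]; positivity
  have ht20 : 0 < t2 := by rw [ht2]; positivity
  have x1 := markov (Ioc (4 * Y) (12 * Y)) (fun n => eT z R Y h h' Λ n) (fun n _ => eT_nonneg z R Y h h' Λ n) t1 ht10 _ heS (fun n => t1 ≤ eT z R Y h h' Λ n) (fun _ _ h => h)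
  have x2 := markov (Ioc (4 * Y) (12 * Y)) (fun n => W2 z R Y h h' Λ n) (fun n _ => W2_nonneg z R Y h h' Λ n) t2 ht20 _ hW2S (fun n => t2 ≤ W2 z R Y h h' Λ n) (fun _ _ h => h)
  have x1' : (3 * k ^ 2 + 4 * k : ℝ) * (N ^ 2 / L ^ A1) / t1 ≤ 1 / 2 * (N / L ^ A) := by
    rw [div_le_iff₀ ht10, ht1, hy0, hA1]
    have g1 : (N : ℝ) / 14 ≤ Y := by linarith
    have g2 : (1 : ℝ) / 2 * (N / L ^ A) * (N / 14 / L ^ (4 * k + 1) / (2 * m * L ^ 2)) ≤ 1 / 2 * (N / L ^ A) * (Y / L ^ (4 * k + 1) / (2 * m * L ^ 2)) := by gcongr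
    refine le_trans ?_ g2
    have e1 : L ^ (A + 4 * k + 4) = L ^ A * L ^ (4 * k + 1) * L ^ 2 * L := by ring
    rw [e1]
    have g3 : (3 * k ^ 2 + 4 * k : ℝ) * (N ^ 2 / (L ^ A * L ^ (4 * k + 1) * L ^ 2 * L)) =
        (56 * m * (3 * k ^ 2 + 4 * k)) / L * (1 / 2 * (N / L ^ A) * (N / 14 / L ^ (4 * k + 1) / (2 * m * L ^ 2))) := by
      field_simp
      ring
    rw [g3]
    have g4 : (56 * m * (3 * k ^ 2 + 4 * k)) / L ≤ 1 := by rw [div_le_one hL0]; exact l3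
    calc _ ≤ 1 * (1 / 2 * ((N : ℝ) / L ^ A) * (N / 14 / L ^ (4 * k + 1) / (2 * m * L ^ 2))) := mul_le_mul_of_nonneg_right g4 (by positivity)
      _ = _ := one_mul _
  have x2' : (N : ℝ) ^ 2 * L ^ (2 * s) / t2 ≤ 1 / 2 * (N / L ^ A) := by
    rw [ht2, hC']
    have e1 : L ^ (2 * s + A + 1) = L ^ (2 * s) * L ^ A * L := by ring
    rw [e1]
    have g3 : (N : ℝ) ^ 2 * L ^ (2 * s) / (N * (L ^ (2 * s) * L ^ A * L)) = 2 / L * (1 / 2 * (N / L ^ A)) := by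
      field_simp
    rw [g3]
    have g4 : 2 / L ≤ 1 := by rw [div_le_one hL0]; linarith
    calc _ ≤ 1 * (1 / 2 * ((N : ℝ) / L ^ A)) := mul_le_mul_of_nonneg_right g4 (by positivity)
      _ = _ := one_mul _
  -- the bad integers are exceptional
  have hsub : (Ioc (4 * Y) (12 * Y)).filter (fun n => Even n ∧ ((Good m Y h h' n).card : ℝ) < N / L ^ B) ⊆
      (Ioc (4 * Y) (12 * Y)).filter (fun n => t1 ≤ eT z R Y h h' Λ n) ∪ (Ioc (4 * Y) (12 * Y)).filter (fun n => t2 ≤ W2 z R Y h h' Λ n) := by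
    intro n hn
    rw [mem_filter] at hn
    obtain ⟨hnI, hev, hbad⟩ := hn
    rw [mem_union, mem_filter, mem_filter]
    by_contra hcon
    push Not at hcon
    have c1 := hcon.1 hnI
    have c2 := hcon.2 hnI
    rw [mem_Ioc] at hnI
    have p1 := TW_low z R Y m h h' Λ n L hk hm hRY hnI.1 hnI.2 hL1 hv w3 w4 hratio
    have p2 := TW_up z R Y m N h h' Λ n hm (by omega) hnI.1 hnI.2 (fun l => by have := hhz l; omega) (fun l => by have := hhz' l; omega)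
    rw [← hL] at p2
    have p3 := Good_cs z R Y m h h' Λ n
    have p4 := hVlow n hev
    set Sg := ∑ a ∈ Good m Y h h' n, FF z R h Λ a * FF z R h' Λ (n - a) with hSg
    have hSg0 : 0 ≤ Sg := sum_nonneg fun _ _ => mul_nonneg (FF_nonneg _ _ _ _ _) (FF_nonneg _ _ _ _ _)
    have p5 : m * L ^ 2 * eT z R Y h h' Λ n ≤ y0 / 2 := by
      have : m * L ^ 2 * eT z R Y h h' Λ n ≤ m * L ^ 2 * t1 := mul_le_mul_of_nonneg_left c1.le (by positivity)
      refine this.trans (le_of_eq ?_)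
      rw [ht1]
      field_simp
    have p6 : y0 / 2 ≤ (k * L) ^ 2 * Sg := by linarith
    have p7 : (y0 / 2) ^ 2 ≤ ((k * L) ^ 2 * Sg) ^ 2 := pow_le_pow_left₀ (by positivity) p6 2
    have p8 : ((k * L) ^ 2 * Sg) ^ 2 ≤ (k * L) ^ 4 * ((N / L ^ B) * t2) := by
      calc ((k * L) ^ 2 * Sg) ^ 2 = (k * L) ^ 4 * Sg ^ 2 := by ring
        _ ≤ (k * L) ^ 4 * ((N / L ^ B) * t2) := by
            apply mul_le_mul_of_nonneg_left _ (by positivity)
            refine p3.trans ?_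
            exact mul_le_mul hbad.le c2.le (W2_nonneg _ _ _ _ _ _ _) (by positivity)
    have p9 := p7.trans p8
    have p10 : (N : ℝ) / (14 * L ^ (4 * k + 1)) ≤ y0 := by
      rw [hy0, div_le_div_iff₀ (by positivity) (by positivity)]
      have : (N : ℝ) * L ^ (4 * k + 1) ≤ (14 * Y) * L ^ (4 * k + 1) := mul_le_mul_of_nonneg_right hYr (by positivity)
      linarith
    have p11 : ((N : ℝ) / (14 * L ^ (4 * k + 1)) / 2) ^ 2 ≤ (y0 / 2) ^ 2 := pow_le_pow_left₀ (by positivity) (by linarith) 2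
    have p12 := p11.trans p9
    rw [ht2, hB] at p12
    have e1 : L ^ (8 * k + 7 + C') = L ^ (8 * k + 7) * L ^ C' := by ring
    have e2 : (k * L) ^ 4 * (N / L ^ (8 * k + 7 + C') * (N * L ^ C')) = k ^ 4 * N ^ 2 / L ^ (8 * k + 3) := by
      rw [e1]
      have e3 : L ^ (8 * k + 7) = L ^ (8 * k + 3) * L ^ 4 := by ring
      rw [e3]
      field_simp
    have e4 : ((N : ℝ) / (14 * L ^ (4 * k + 1)) / 2) ^ 2 = N ^ 2 / (784 * L ^ (8 * k + 2)) := by
      have e5 : L ^ (8 * k + 2) = (L ^ (4 * k + 1)) ^ 2 := by ring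
      rw [e5]
      field_simp
      ring
    rw [e2, e4, div_le_div_iff₀ (by positivity) (by positivity)] at p12
    have e6 : L ^ (8 * k + 3) = L ^ (8 * k + 2) * L := by ring
    rw [e6] at p12
    have p13 : (N : ℝ) ^ 2 * L ^ (8 * k + 2) * L ≤ (N : ℝ) ^ 2 * L ^ (8 * k + 2) * (784 * k ^ 4) := by linarith
    have p14 := le_of_mul_le_mul_left p13 (by positivity)
    linarith
  calc _ ≤ ((((Ioc (4 * Y) (12 * Y)).filter (fun n => t1 ≤ eT z R Y h h' Λ n)) ∪ ((Ioc (4 * Y) (12 * Y)).filter (fun n => t2 ≤ W2 z R Y h h' Λ n))).card : ℝ) := by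
        exact_mod_cast card_le_card hsub
    _ ≤ ((((Ioc (4 * Y) (12 * Y)).filter (fun n => t1 ≤ eT z R Y h h' Λ n)).card : ℝ) + (((Ioc (4 * Y) (12 * Y)).filter (fun n => t2 ≤ W2 z R Y h h' Λ n)).card : ℝ)) := by
        exact_mod_cast card_union_le _ _
    _ ≤ 1 / 2 * (N / L ^ A) + 1 / 2 * (N / L ^ A) := add_le_add (x1.trans x1') (x2.trans x2')
    _ = _ := by ring

end Pool.Agent.L0h42.TB
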