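import Mathlib
import Pool.Agent.H373R2.T7.Lin
import Pool.Agent.H373R2.T7.Minor
import Pool.Agent.H373R2.T7.LamZ2
import Pool.Agent.H442R2.KF.BvY
import Pool.Agent.H373R2.T7.SupE2
import Pool.Agent.H373R2.T7.Cnt
import Pool.Agent.R311.DEH.A1
import Pool.Agent.Helper256.KM.Mertens
import Pool.Agent.W23.UBb
import Pool.Agent.H373R2.T7.Crt

/-! Grids in dense sets of pairs (the theorem of Kovari, Sos and Turan). -/

set_option autoImplicit false
set_option linter.unusedSectionVars false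

namespace Pool.Agent.L0h42.TB
open Finset

lemma exists_emb (k : ℕ) (S : Finset ℕ) (hS : k ≤ S.card) : ∃ f : Fin k → ℕ, Function.Injective f ∧ ∀ i, f i ∈ S := by
  obtain ⟨S', hS', hc⟩ := exists_subset_card_eq hS
  refine ⟨fun i => (S'.orderEmbOfFin hc) i, fun i j hij => (S'.orderEmbOfFin hc).injective hij, fun i => hS' (S'.orderEmbOfFin_mem hc i)⟩

/-- the theorem of Kovari, Sos and Turan -/
theorem kst (k T : ℕ) (hk : 1 ≤ k) (hT : 1 ≤ T) (D : Finset (ℕ × ℕ)) (hD : D ⊆ Icc 1 T ×ˢ Icc 1 T)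
    (hno : ¬ ∃ f g : Fin k → ℕ, Function.Injective f ∧ Function.Injective g ∧ (∀ i, f i ∈ Icc 1 T) ∧ (∀ i, g i ∈ Icc 1 T) ∧
      ∀ i j, (f i, g j) ∈ D) : ∃ X : ℕ, D.card ≤ X + k * T ∧ (X : ℝ) ^ k * T ≤ k * ((T : ℝ) ^ 2) ^ k := by
  classical
  obtain ⟨row, hrow⟩ : ∃ row : ℕ → Finset ℕ, row = fun s => (Icc 1 T).filter (fun t => (s, t) ∈ D) := ⟨_, rfl⟩
  have hrs : ∀ s, row s ⊆ Icc 1 T := fun s => by rw [hrow]; exact filter_subset _ _
  have hcard : D.card = ∑ s ∈ Icc 1 T, (row s).card := by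
    have h1 : D.card = ∑ s ∈ Icc 1 T, (D.filter (fun x => x.1 = s)).card := by
      apply card_eq_sum_card_fiberwise
      intro x hx
      exact (mem_product.1 (hD hx)).1
    rw [h1]
    apply sum_congr rfl
    intro s _
    apply card_bij (fun x _ => x.2)
    · intro x hx
      rw [mem_filter] at hx
      rw [hrow, mem_filter]
      refine ⟨(mem_product.1 (hD hx.1)).2, ?_⟩
      rw [← hx.2]
      exact hx.1
    · intro x hx y hy hxy
      rw [mem_filter] at hx hy
      ext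
      · rw [hx.2, hy.2]
      · exact hxy
    · intro t ht
      rw [hrow, mem_filter] at ht
      exact ⟨(s, t), mem_filter.2 ⟨ht.2, rfl⟩, rfl⟩
  obtain ⟨x, hx⟩ : ∃ x : ℕ → ℕ, x = fun s => (row s).card + 1 - k := ⟨_, rfl⟩
  refine ⟨∑ s ∈ Icc 1 T, x s, ?_, ?_⟩
  · rw [hcard]
    calc ∑ s ∈ Icc 1 T, (row s).card ≤ ∑ s ∈ Icc 1 T, (x s + k) := by
          apply sum_le_sum
          intro s _
          rw [hx]
          simp only
          omega
      _ = _ := by rw [sum_add_distrib, sum_const, Nat.card_Icc, smul_eq_mul, Nat.add_sub_cancel]; ring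
  · -- the sum of the powers
    have h1 : ∑ s ∈ Icc 1 T, x s ^ k ≤ k * T ^ k := by
      have h2 : ∀ s ∈ Icc 1 T, x s ^ k ≤ k.factorial * ((row s).card.choose k) := by
        intro s _
        rw [hx]
        simp only
        rw [← Nat.descFactorial_eq_factorial_mul_choose]
        exact Nat.pow_sub_le_descFactorial _ _
      have h3 : ∑ s ∈ Icc 1 T, (row s).card.choose k ≤ k * T.choose k := by
        have h4 : ∀ s ∈ Icc 1 T, (row s).card.choose k = ∑ S ∈ (Icc 1 T).powersetCard k, if S ⊆ row s then 1 else 0 := by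
          intro s _
          rw [← card_powersetCard, ← sum_filter, sum_const, smul_eq_mul, mul_one]
          congr 1
          ext S
          rw [mem_powersetCard, mem_filter, mem_powersetCard]
          constructor
          · rintro ⟨h5, h6⟩
            exact ⟨⟨h5.trans (hrs s), h6⟩, h5⟩
          · rintro ⟨⟨_, h6⟩, h5⟩
            exact ⟨h5, h6⟩
        rw [sum_congr rfl h4, sum_comm]
        have h5 : ∀ S ∈ (Icc 1 T).powersetCard k, ∑ s ∈ Icc 1 T, (if S ⊆ row s then 1 else 0) ≤ k := by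
          intro S hS
          rw [mem_powersetCard] at hS
          rw [← sum_filter, sum_const, smul_eq_mul, mul_one]
          by_contra hcon
          push Not at hcon
          obtain ⟨f, hf1, hf2⟩ := exists_emb k _ hcon.le
          obtain ⟨g, hg1, hg2⟩ := exists_emb k S hS.2.symm.le
          apply hno
          refine ⟨f, g, hf1, hg1, fun i => (mem_filter.1 (hf2 i)).1, fun i => hS.1 (hg2 i), fun i j => ?_⟩
          have h6 := (mem_filter.1 (hf2 i)).2 (hg2 j)
          rw [hrow, mem_filter] at h6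
          exact h6.2
        refine (sum_le_sum h5).trans (le_of_eq ?_)
        rw [sum_const, card_powersetCard, Nat.card_Icc, smul_eq_mul, Nat.add_sub_cancel, mul_comm]
      calc ∑ s ∈ Icc 1 T, x s ^ k ≤ ∑ s ∈ Icc 1 T, k.factorial * ((row s).card.choose k) := sum_le_sum h2
        _ = k.factorial * ∑ s ∈ Icc 1 T, (row s).card.choose k := by rw [mul_sum]
        _ ≤ k.factorial * (k * T.choose k) := Nat.mul_le_mul_left _ h3
        _ = k * (k.factorial * T.choose k) := by ring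
        _ = k * T.descFactorial k := by rw [Nat.descFactorial_eq_factorial_mul_choose]
        _ ≤ k * T ^ k := Nat.mul_le_mul_left _ (Nat.descFactorial_le_pow _ _)
    obtain ⟨k', rfl⟩ : ∃ k', k = k' + 1 := ⟨k - 1, by omega⟩
    have hT0 : (0 : ℝ) < T := by exact_mod_cast hT
    have h2 := pow_sum_div_card_le_sum_pow (s := Icc 1 T) (f := fun s => (x s : ℝ)) (n := k') (fun s _ => Nat.cast_nonneg _)
    rw [Nat.card_Icc, Nat.add_sub_cancel, div_le_iff₀ (by positivity)] at h2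
    have h3 : ∑ s ∈ Icc 1 T, (x s : ℝ) ^ (k' + 1) ≤ ((k' + 1 : ℕ) : ℝ) * (T : ℝ) ^ (k' + 1) := by exact_mod_cast h1
    push_cast
    push_cast at h3
    calc (∑ s ∈ Icc 1 T, (x s : ℝ)) ^ (k' + 1) * T ≤ (∑ s ∈ Icc 1 T, (x s : ℝ) ^ (k' + 1)) * (T : ℝ) ^ k' * T :=
          mul_le_mul_of_nonneg_right h2 hT0.le
      _ ≤ (((k' : ℝ) + 1) * (T : ℝ) ^ (k' + 1)) * (T : ℝ) ^ k' * T := by gcongr
      _ = _ := by ring

/-- the bound in a closed form -/
lemma kst_rpow (k T X : ℕ) (hk : 1 ≤ k) (hT : k ≤ T) (h : (X : ℝ) ^ k * T ≤ k * ((T : ℝ) ^ 2) ^ k) :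
    (X : ℝ) + k * T ≤ 2 * (T : ℝ) ^ 2 * ((k : ℝ) / T) ^ (1 / (k : ℝ)) := by
  have hk0 : (0 : ℝ) < k := by exact_mod_cast hk
  have hT0 : (0 : ℝ) < T := by exact_mod_cast (show 0 < T by omega)
  have hq0 : 0 < (k : ℝ) / T := by positivity
  have hq1 : (k : ℝ) / T ≤ 1 := by rw [div_le_one hT0]; exact_mod_cast hT
  obtain ⟨η, hη⟩ : ∃ η : ℝ, η = ((k : ℝ) / T) ^ (1 / (k : ℝ)) := ⟨_, rfl⟩
  have hη0 : 0 < η := by rw [hη]; positivity
  have hηk : η ^ k = (k : ℝ) / T := by
    rw [hη, ← Real.rpow_natCast, ← Real.rpow_mul hq0.le]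
    rw [one_div_mul_cancel hk0.ne', Real.rpow_one]
  rw [← hη]
  have h1 : (X : ℝ) ≤ (T : ℝ) ^ 2 * η := by
    apply le_of_pow_le_pow_left₀ (n := k) (by omega) (by positivity)
    rw [mul_pow, hηk, mul_div_assoc', le_div_iff₀ hT0]
    linarith
  have h2 : (k : ℝ) / T ≤ η := by
    rw [hη]
    have : ((k : ℝ) / T) ^ (1 : ℝ) ≤ ((k : ℝ) / T) ^ (1 / (k : ℝ)) := by
      apply Real.rpow_le_rpow_of_exponent_ge hq0 hq1
      rw [div_le_one hk0]
      exact_mod_cast hk
    rwa [Real.rpow_one] at this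
  have h3 : (k : ℝ) * T ≤ (T : ℝ) ^ 2 * η := by
    calc (k : ℝ) * T = (T : ℝ) ^ 2 * (k / T) := by field_simp
      _ ≤ _ := mul_le_mul_of_nonneg_left h2 (by positivity)
  linarith

end Pool.Agent.L0h42.TB
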