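import Mathlib
import Pool.Agent.L0h42.TB.B20
import Pool.Agent.H373R2.T7.Lin
import Pool.Agent.H373R2.T7.Minor
import Pool.Agent.H373R2.T7.LamZ2
import Pool.Agent.H442R2.KF.BvY
import Pool.Agent.H373R2.T7.SupE2
import Pool.Agent.H373R2.T7.Cnt
import Pool.Agent.R311.DEH.A1
import Pool.Agent.Helper256.KM.Mertens
import Pool.Agent.W23.UBb
import Pool.Agent.H373R2.T7.Crt

/-! Representations by primes from clusters, in one dyadic range. -/

set_option autoImplicit false
set_option linter.unusedSectionVars false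

namespace Pool.Agent.L0h42.TB
open Finset
open Pool.Agent.H373R2.T7

/-- the number of primes in `(x, x + C]` -/
def pr (C x : ℕ) : ℕ := ((Ioc x (x + C)).filter Nat.Prime).card

/-- the number of representations `n = p + q` in primes `p`, `q` with at least `m` primes in each of the intervals
`(p, p + C]` and `(q, q + C]` -/
def rep (m C n : ℕ) : ℕ := ((Icc 1 n).filter (fun p => p.Prime ∧ (n - p).Prime ∧ m ≤ pr C p ∧ m ≤ pr C (n - p))).card

/-- the number of `a ≤ n` such that each of the intervals `(a, a + C]` and `(n - a, n - a + C]` contains at least `m` primes -/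
def win (m C n : ℕ) : ℕ := ((Icc 1 n).filter (fun a => m ≤ pr C a ∧ m ≤ pr C (n - a))).card

section one
variable {k : ℕ}

lemma pr_mono {C C' x : ℕ} (h : C ≤ C') : pr C x ≤ pr C' x := by
  unfold pr
  apply card_le_card
  apply filter_subset_filter
  exact Ioc_subset_Ioc_right (by omega)

lemma rep_mono {m C C' n : ℕ} (h : C ≤ C') : rep m C n ≤ rep m C' n := by
  unfold rep
  apply card_le_card
  intro p hp
  rw [mem_filter] at hp ⊢
  exact ⟨hp.1, hp.2.1, hp.2.2.1, hp.2.2.2.1.trans (pr_mono h), hp.2.2.2.2.trans (pr_mono h)⟩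

/-- the first prime of the cluster -/
lemma first_prime {h : Fin k → ℕ} (hinj : Function.Injective h) {C m a : ℕ} (hC : ∀ l, h l ≤ C) (hm : m + 1 ≤ np h a) :
    ∃ i, (a + h i).Prime ∧ m ≤ pr C (a + h i) := by
  classical
  unfold np at hm
  set S := (univ : Finset (Fin k)).filter (fun l => (a + h l).Prime) with hS
  have hne : S.Nonempty := card_pos.1 (by omega)
  obtain ⟨i, hi, hmin⟩ := exists_min_image S h hne
  refine ⟨i, ?_, ?_⟩
  · rw [hS, mem_filter] at hi
    exact hi.2
  · have h1 : m ≤ (S.erase i).card := by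
      rw [card_erase_of_mem hi]
      omega
    refine h1.trans ?_
    unfold pr
    apply card_le_card_of_injOn (fun l => a + h l)
    · intro l hl
      rw [mem_coe, mem_erase] at hl
      have h2 := hmin l hl.2
      have h3 : h l ≠ h i := fun h4 => hl.1 (hinj h4)
      have h4 : (a + h l).Prime := by
        have := hl.2
        rw [hS, mem_filter] at this
        exact this.2
      have h5 := hC l
      rw [mem_coe, mem_filter, mem_Ioc]
      refine ⟨?_, h4⟩
      change a + h i < a + h l ∧ a + h l ≤ a + h i + C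
      omega
    · intro l _ l' _ hll
      simp only at hll
      exact hinj (by omega)

/-- the good shifts give representations -/
lemma good_rep (hk : 1 ≤ k) (m C Y n0 : ℕ) (h h' : Fin k → ℕ) (hinj : Function.Injective h) (hinj' : Function.Injective h') (hC : ∀ l, h l ≤ C)
    (hC' : ∀ l, h' l ≤ C)
    (hn0 : 2 * Y ≤ n0) : (Good (m + 1) Y h h' n0).card ≤ ∑ x : Fin k × Fin k, rep m C (n0 + h x.1 + h' x.2) := by
  classical
  have hex : ∀ a, ∃ x : Fin k × Fin k, a ∈ Good (m + 1) Y h h' n0 → ((a + h x.1).Prime ∧ m ≤ pr C (a + h x.1)) ∧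
      ((n0 - a + h' x.2).Prime ∧ m ≤ pr C (n0 - a + h' x.2)) := by
    intro a
    by_cases ha : a ∈ Good (m + 1) Y h h' n0
    · have h1 := ha
      unfold Good at h1
      rw [mem_filter] at h1
      obtain ⟨i, hi⟩ := first_prime hinj hC h1.2.1
      obtain ⟨j, hj⟩ := first_prime hinj' hC' h1.2.2
      exact ⟨(i, j), fun _ => ⟨hi, hj⟩⟩
    · exact ⟨(⟨0, hk⟩, ⟨0, hk⟩), fun h => absurd h ha⟩
  choose φ hφ using hex
  rw [card_eq_sum_card_fiberwise (f := φ) (t := univ) (fun _ _ => mem_univ _)]
  apply sum_le_sum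
  intro x _
  unfold rep
  apply card_le_card_of_injOn (fun a => a + h x.1)
  · intro a ha
    rw [mem_coe, mem_filter] at ha
    have h1 := hφ a ha.1
    rw [ha.2] at h1
    have h2 := ha.1
    unfold Good at h2
    rw [mem_filter, mem_Ioc] at h2
    have h3 : n0 + h x.1 + h' x.2 - (a + h x.1) = n0 - a + h' x.2 := by omega
    rw [mem_coe, mem_filter, mem_Icc]
    change (1 ≤ a + h x.1 ∧ a + h x.1 ≤ n0 + h x.1 + h' x.2) ∧ (a + h x.1).Prime ∧ (n0 + h x.1 + h' x.2 - (a + h x.1)).Prime ∧
      m ≤ pr C (a + h x.1) ∧ m ≤ pr C (n0 + h x.1 + h' x.2 - (a + h x.1))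
    rw [h3]
    exact ⟨⟨by omega, by omega⟩, h1.1.1, h1.2.1, h1.1.2, h1.2.2⟩
  · intro a _ b _ hab
    simp only at hab
    omega

/-- the good shifts give windows -/
lemma good_win (m C Y n : ℕ) (h h' : Fin k → ℕ) (hinj : Function.Injective h) (hinj' : Function.Injective h') (h1 : ∀ l, 1 ≤ h l)
    (h1' : ∀ l, 1 ≤ h' l) (hC : ∀ l, h l ≤ C) (hC' : ∀ l, h' l ≤ C)
    (hn : 2 * Y ≤ n) : (Good m Y h h' n).card ≤ win m C n := by
  classical
  have key : ∀ (g : Fin k → ℕ), Function.Injective g → (∀ l, 1 ≤ g l) → (∀ l, g l ≤ C) → ∀ a, np g a ≤ pr C a := by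
    intro g hg hg1 hgC a
    unfold np pr
    apply card_le_card_of_injOn (fun l => a + g l)
    · intro l hl
      rw [mem_coe, mem_filter] at hl
      rw [mem_coe, mem_filter, mem_Ioc]
      have h3 := hg1 l
      have h4 := hgC l
      refine ⟨?_, hl.2⟩
      change a < a + g l ∧ a + g l ≤ a + C
      omega
    · intro l _ l' _ hll
      simp only at hll
      exact hg (by omega)
  unfold Good win
  apply card_le_card
  intro a ha
  rw [mem_filter, mem_Ioc] at ha
  rw [mem_filter, mem_Icc]
  exact ⟨⟨by omega, by omega⟩, ha.2.1.trans (key h hinj h1 hC a), ha.2.2.trans (key h' hinj' h1' hC' (n - a))⟩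

end one

end Pool.Agent.L0h42.TB
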