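import Mathlib
import Pool.Agent.L0h42.TB.B21
import Pool.Agent.L0h42.TB.B22
import Pool.Agent.L0h42.TB.B23
import Pool.Agent.H373R2.T7.Lin
import Pool.Agent.H373R2.T7.Minor
import Pool.Agent.H373R2.T7.LamZ2
import Pool.Agent.H442R2.KF.BvY
import Pool.Agent.H373R2.T7.SupE2
import Pool.Agent.H373R2.T7.Cnt
import Pool.Agent.R311.DEH.A1
import Pool.Agent.Helper256.KM.Mertens
import Pool.Agent.W23.UBb
import Pool.Agent.H373R2.T7.Crt

/-! From good shifts to representations, in one dyadic range. -/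

set_option autoImplicit false
set_option linter.unusedSectionVars false

namespace Pool.Agent.L0h42.TB
open Finset
open Pool.Agent.H373R2.T7

lemma count_D (E : Finset ℕ) (W0 T Y : ℕ) (hW : Even W0) (hE : ∀ n ∈ E, Even n ∧ 5 * Y < n ∧ n ≤ 12 * Y) (hT : 2 * (W0 * T) ≤ Y) :
    T ^ 2 * E.card ≤ ∑ n0 ∈ (Ioc (4 * Y) (12 * Y)).filter Even,
      ((Icc 1 T ×ˢ Icc 1 T).filter (fun x : ℕ × ℕ => n0 + W0 * (x.1 + x.2) ∈ E)).card := by
  classical
  have h1 : ∀ n0 ∈ (Ioc (4 * Y) (12 * Y)).filter Even, ((Icc 1 T ×ˢ Icc 1 T).filter (fun x : ℕ × ℕ => n0 + W0 * (x.1 + x.2) ∈ E)).card =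
      ∑ x ∈ Icc 1 T ×ˢ Icc 1 T, if n0 + W0 * (x.1 + x.2) ∈ E then 1 else 0 := by
    intro n0 _
    rw [card_filter]
  rw [sum_congr rfl h1, sum_comm]
  calc T ^ 2 * E.card = ∑ _x ∈ Icc 1 T ×ˢ Icc 1 T, E.card := by
        rw [sum_const, card_product, Nat.card_Icc, smul_eq_mul, Nat.add_sub_cancel]; ring
    _ ≤ _ := by
        apply sum_le_sum
        intro x hx
        rw [mem_product, mem_Icc, mem_Icc] at hx
        rw [← card_filter]
        have h2 : W0 * (x.1 + x.2) ≤ Y := by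
          calc W0 * (x.1 + x.2) ≤ W0 * (T + T) := Nat.mul_le_mul_left _ (by omega)
            _ = 2 * (W0 * T) := by ring
            _ ≤ Y := hT
        have h3 : Even (W0 * (x.1 + x.2)) := hW.mul_right _
        apply card_le_card_of_injOn (fun n => n - W0 * (x.1 + x.2))
        · intro n hn
          have h4 := hE n (mem_coe.1 hn)
          rw [mem_coe, mem_filter, mem_filter, mem_Ioc]
          have h5 : n - W0 * (x.1 + x.2) + W0 * (x.1 + x.2) = n := Nat.sub_add_cancel (by omega)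
          change ((4 * Y < n - W0 * (x.1 + x.2) ∧ n - W0 * (x.1 + x.2) ≤ 12 * Y) ∧ Even (n - W0 * (x.1 + x.2))) ∧
            n - W0 * (x.1 + x.2) + W0 * (x.1 + x.2) ∈ E
          rw [h5]
          exact ⟨⟨⟨by omega, by omega⟩, (Nat.even_sub (by omega)).2 (by simp [h4.1, h3])⟩, mem_coe.1 hn⟩
        · intro n hn n' hn' hnn
          have h4 := hE n (mem_coe.1 hn)
          have h4' := hE n' (mem_coe.1 hn')
          simp only at hnn
          omega

lemma expo (k : ℕ) (hk : 1 ≤ k) (a C : ℝ) (ha : 0 < a) (hC : 4 ^ k * a ^ 2 ≤ C) :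
    (a / C) ^ (1 / (k : ℝ)) ≤ C ^ (-(1 / (2 * k : ℝ))) / 2 := by
  have hk0 : (0 : ℝ) < k := by exact_mod_cast hk
  have hC0 : 0 < C := lt_of_lt_of_le (by positivity) hC
  apply le_of_pow_le_pow_left₀ (n := k * 2) (by omega) (by positivity)
  rw [pow_mul, ← Real.rpow_natCast ((a / C) ^ (1 / (k : ℝ))) k, ← Real.rpow_mul (by positivity), one_div_mul_cancel hk0.ne', Real.rpow_one]
  rw [div_pow, div_pow, ← Real.rpow_natCast (C ^ (-(1 / (2 * k : ℝ)))) (k * 2), ← Real.rpow_mul hC0.le]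
  have h1 : -(1 / (2 * (k : ℝ))) * ((k * 2 : ℕ) : ℝ) = -1 := by
    push_cast
    field_simp
  rw [h1, Real.rpow_neg_one, div_le_div_iff₀ (by positivity) (by positivity)]
  have h2 : (2 : ℝ) ^ (k * 2) = 4 ^ k := by rw [mul_comm, pow_mul]; norm_num
  rw [h2]
  calc a ^ 2 * 4 ^ k = 4 ^ k * a ^ 2 := by ring
    _ ≤ C := hC
    _ = C⁻¹ * C ^ 2 := by field_simp

lemma w_lower (k : ℕ) (hk : 1 ≤ k) (C : ℝ) (hC : 1 ≤ C) : 1 / C ≤ C ^ (-(1 / (2 * k : ℝ))) := by
  have hk0 : (1 : ℝ) ≤ k := by exact_mod_cast hk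
  rw [one_div, ← Real.rpow_neg_one]
  apply Real.rpow_le_rpow_of_exponent_le hC
  rw [neg_le_neg_iff, div_le_one (by positivity)]
  linarith

/-- few even `n` in a dyadic range have few representations by primes which begin a cluster -/
theorem range_rep (m : ℕ) : ∃ c : ℝ, 0 < c ∧ ∃ B C0 N0 : ℕ, ∀ N : ℕ, N0 ≤ N → ∀ Y : ℕ, 13 * Y ≤ N → N ≤ 14 * Y → ∀ C : ℕ, C0 ≤ C →
    (C : ℝ) ≤ Real.log N →
    (((Ioc (5 * Y) (12 * Y)).filter (fun n => Even n ∧ (rep m C n : ℝ) < N / Real.log N ^ B)).card : ℝ) ≤ N * (C : ℝ) ^ (-c) := by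
  classical
  obtain ⟨k, hk, hcore⟩ := core (m + 1) (by omega)
  obtain ⟨B1, N1, hB1⟩ := hcore (2 * k + 2)
  obtain ⟨W0, hW0⟩ : ∃ W0, W0 = ∏ p ∈ pz (2 * k), p := ⟨_, rfl⟩
  have hW0dvd : ∀ p, p.Prime → p ≤ 2 * k → p ∣ W0 := by
    intro p hp hpk
    rw [hW0]
    exact dvd_prod_of_mem _ (mem_pz.2 ⟨hpk, hp⟩)
  have hW0even : Even W0 := even_iff_two_dvd.2 (hW0dvd 2 Nat.prime_two (by omega))
  have hW0pos : 1 ≤ W0 := by
    rw [hW0]
    exact Nat.one_le_iff_ne_zero.2 (prod_ne_zero_iff.2 fun p hp => (mem_pz.1 hp).2.ne_zero)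
  obtain ⟨N2, hN2⟩ := ev_L' ((k : ℝ) ^ 2 + 1)
  obtain ⟨N3, hN3⟩ := ev_log' 1 28
  refine ⟨1 / (2 * k), by positivity, B1 + 1, 4 ^ k * (2 * k * W0) ^ 2, max (max N1 N2) (max N3 1), ?_⟩
  intro N hN Y hY1 hY2 C hC0 hCL
  have hNN1 : N1 ≤ N := le_trans (le_trans (le_max_left _ _) (le_max_left _ _)) hN
  have hNN2 : N2 ≤ N := le_trans (le_trans (le_max_right _ _) (le_max_left _ _)) hN
  have hNN3 : N3 ≤ N := le_trans (le_trans (le_max_left _ _) (le_max_right _ _)) hN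
  have hNN4 : 1 ≤ N := le_trans (le_trans (le_max_right _ _) (le_max_right _ _)) hN
  have hL1 := hN2 N hNN2
  have hL2 := hN3 N hNN3
  set L := Real.log N with hL
  have hN0r : (1 : ℝ) ≤ N := by exact_mod_cast hNN4
  have hk0 : (1 : ℝ) ≤ k := by exact_mod_cast hk
  have hLk : (k : ℝ) ^ 2 ≤ L := by linarith
  have hLpos : 1 ≤ L := by nlinarith
  have hL28 : 28 * L ≤ N := by
    rw [pow_one] at hL2
    refine hL2.trans ?_
    rw [Real.sqrt_le_left (by positivity)]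
    nlinarith
  have hCY : 2 * C ≤ Y := by
    have h1 : (14 * (2 * C) : ℝ) ≤ 14 * Y := by
      have : (N : ℝ) ≤ 14 * Y := by exact_mod_cast hY2
      linarith
    have h2 : 14 * (2 * C) ≤ 14 * Y := by exact_mod_cast h1
    omega
  have hWC : 2 * k * W0 ≤ C := by
    refine le_trans ?_ hC0
    calc 2 * k * W0 ≤ (2 * k * W0) ^ 2 := Nat.le_self_pow (by norm_num) _
      _ = 1 * (2 * k * W0) ^ 2 := (one_mul _).symm
      _ ≤ 4 ^ k * (2 * k * W0) ^ 2 := Nat.mul_le_mul_right _ (Nat.one_le_pow _ _ (by norm_num))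
  obtain ⟨T, hT⟩ : ∃ T, T = C / W0 := ⟨_, rfl⟩
  have hTC : W0 * T ≤ C := by rw [hT]; exact Nat.mul_div_le _ _
  have hTk : 2 * k ≤ T := by
    rw [hT, Nat.le_div_iff_mul_le (by omega)]
    exact hWC
  have hT2 : C ≤ 2 * (W0 * T) := by
    have h1 : C < W0 * (T + 1) := by rw [hT]; exact Nat.lt_mul_div_succ _ (by omega)
    have h2 : W0 * (T + 1) ≤ W0 * (2 * T) := Nat.mul_le_mul_left _ (by omega)
    calc C ≤ W0 * (2 * T) := (h1.le).trans h2
      _ = _ := by ring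
  have hTC' : T ≤ C := le_trans (Nat.le_mul_of_pos_left _ (by omega)) hTC
  set E := (Ioc (5 * Y) (12 * Y)).filter (fun n => Even n ∧ (rep m C n : ℝ) < N / L ^ (B1 + 1)) with hE
  -- the exceptional centres
  set P := (Fintype.piFinset (fun _ : Fin k => Icc 1 T)) ×ˢ (Fintype.piFinset (fun _ : Fin k => Icc 1 T)) with hP
  set Bad := (P.filter (fun x => Function.Injective x.1 ∧ Function.Injective x.2)).biUnion (fun x =>
    (Ioc (4 * Y) (12 * Y)).filter (fun n => Even n ∧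
      ((Good (m + 1) Y (fun l => W0 * x.1 l) (fun l => W0 * x.2 l) n).card : ℝ) < N / L ^ B1)) with hBad
  have hPc : P.card = T ^ (2 * k) := by
    rw [hP, card_product, Fintype.card_piFinset, prod_const, Nat.card_Icc, Nat.add_sub_cancel, card_univ, Fintype.card_fin]
    ring
  have hinjW : ∀ f : Fin k → ℕ, Function.Injective f → Function.Injective (fun l => W0 * f l) := by
    intro f hf i j hij
    exact hf (Nat.eq_of_mul_eq_mul_left (by omega) hij)
  have hleC : ∀ f : Fin k → ℕ, (∀ l, f l ∈ Icc 1 T) → ∀ l, W0 * f l ≤ C := by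
    intro f hf l
    exact le_trans (Nat.mul_le_mul_left _ (mem_Icc.1 (hf l)).2) hTC
  have hleCr : ∀ f : Fin k → ℕ, (∀ l, f l ∈ Icc 1 T) → ∀ l, ((W0 * f l : ℕ) : ℝ) ≤ L := by
    intro f hf l
    exact le_trans (by exact_mod_cast hleC f hf l) hCL
  have hBadc : (Bad.card : ℝ) ≤ N / L ^ 2 := by
    have h1 : (Bad.card : ℝ) ≤ ∑ x ∈ P.filter (fun x => Function.Injective x.1 ∧ Function.Injective x.2), ((((Ioc (4 * Y) (12 * Y)).filter (fun n => Even n ∧
      ((Good (m + 1) Y (fun l => W0 * x.1 l) (fun l => W0 * x.2 l) n).card : ℝ) < N / L ^ B1)).card : ℕ) : ℝ) := by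
      exact_mod_cast card_biUnion_le
    have h2 : ∀ x ∈ P.filter (fun x => Function.Injective x.1 ∧ Function.Injective x.2), ((((Ioc (4 * Y) (12 * Y)).filter (fun n => Even n ∧
      ((Good (m + 1) Y (fun l => W0 * x.1 l) (fun l => W0 * x.2 l) n).card : ℝ) < N / L ^ B1)).card : ℕ) : ℝ) ≤ N / L ^ (2 * k + 2) := by
      intro x hx
      rw [mem_filter, hP, mem_product, Fintype.mem_piFinset, Fintype.mem_piFinset] at hx
      exact hB1 N hNN1 Y hY1 hY2 _ _ (hinjW _ hx.2.1) (hinjW _ hx.2.2) (hleCr _ hx.1.1) (hleCr _ hx.1.2)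
        (fun p hp hpk l => (hW0dvd p hp hpk).mul_right _) (fun p hp hpk l => (hW0dvd p hp hpk).mul_right _)
    have h3 := h1.trans (sum_le_sum h2)
    rw [sum_const, nsmul_eq_mul] at h3
    have h4 : ((P.filter (fun x => Function.Injective x.1 ∧ Function.Injective x.2)).card : ℝ) ≤ L ^ (2 * k) := by
      have h5 : ((P.filter (fun x => Function.Injective x.1 ∧ Function.Injective x.2)).card : ℝ) ≤ (T : ℝ) ^ (2 * k) := by
        exact_mod_cast (card_filter_le _ _).trans (le_of_eq hPc)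
      refine h5.trans (pow_le_pow_left₀ (Nat.cast_nonneg _) ?_ _)
      exact le_trans (by exact_mod_cast hTC') hCL
    calc (Bad.card : ℝ) ≤ _ := h3
      _ ≤ L ^ (2 * k) * (N / L ^ (2 * k + 2)) := mul_le_mul_of_nonneg_right h4 (by positivity)
      _ = N / L ^ 2 := by
          rw [pow_add]
          field_simp
  -- no grids outside the exceptional set
  have hgrid : ∀ n0 ∈ (Ioc (4 * Y) (12 * Y)).filter Even, n0 ∉ Bad →
      (((Icc 1 T ×ˢ Icc 1 T).filter (fun x : ℕ × ℕ => n0 + W0 * (x.1 + x.2) ∈ E)).card : ℝ) ≤ 2 * (T : ℝ) ^ 2 * ((k : ℝ) / T) ^ (1 / (k : ℝ)) := by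
    intro n0 hn0 hnb
    rw [mem_filter, mem_Ioc] at hn0
    obtain ⟨X, hX1, hX2⟩ := kst k T hk (by omega) ((Icc 1 T ×ˢ Icc 1 T).filter (fun x : ℕ × ℕ => n0 + W0 * (x.1 + x.2) ∈ E)) (filter_subset _ _) (by
      rintro ⟨f, g, hf, hg, hfT, hgT, hfg⟩
      have h1 : ¬ ((Good (m + 1) Y (fun l => W0 * f l) (fun l => W0 * g l) n0).card : ℝ) < N / L ^ B1 := by
        intro hlt
        apply hnb
        rw [hBad, mem_biUnion]
        refine ⟨(f, g), ?_, ?_⟩
        · rw [mem_filter, hP, mem_product, Fintype.mem_piFinset, Fintype.mem_piFinset]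
          exact ⟨⟨hfT, hgT⟩, hf, hg⟩
        · rw [mem_filter, mem_Ioc]
          exact ⟨hn0.1, hn0.2, hlt⟩
      rw [not_lt] at h1
      have h2 := good_rep hk m C Y n0 (fun l => W0 * f l) (fun l => W0 * g l) (hinjW f hf) (hinjW g hg) (hleC f hfT) (hleC g hgT) (by omega)
      have h3 : ((Good (m + 1) Y (fun l => W0 * f l) (fun l => W0 * g l) n0).card : ℝ) ≤
          ∑ x : Fin k × Fin k, (rep m C (n0 + W0 * f x.1 + W0 * g x.2) : ℝ) := by exact_mod_cast h2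
      have h4 : ∀ x ∈ (univ : Finset (Fin k × Fin k)), (rep m C (n0 + W0 * f x.1 + W0 * g x.2) : ℝ) < N / L ^ (B1 + 1) := by
        intro x _
        have h5 := (mem_filter.1 (hfg x.1 x.2)).2
        rw [hE, mem_filter] at h5
        have h6 : n0 + W0 * f x.1 + W0 * g x.2 = n0 + W0 * (f x.1 + g x.2) := by ring
        rw [h6]
        exact h5.2.2
      have h7 := sum_lt_sum_of_nonempty ⟨(⟨0, hk⟩, ⟨0, hk⟩), mem_univ _⟩ h4
      rw [sum_const, nsmul_eq_mul, card_univ, Fintype.card_prod, Fintype.card_fin] at h7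
      have h8 : ((k * k : ℕ) : ℝ) * (N / L ^ (B1 + 1)) ≤ N / L ^ B1 := by
        push_cast
        have h9 : (k : ℝ) * k ≤ L := by nlinarith
        calc (k : ℝ) * k * (N / L ^ (B1 + 1)) ≤ L * (N / L ^ (B1 + 1)) := mul_le_mul_of_nonneg_right h9 (by positivity)
          _ = N / L ^ B1 := by rw [pow_succ]; field_simp
      linarith)
    calc (((Icc 1 T ×ˢ Icc 1 T).filter (fun x : ℕ × ℕ => n0 + W0 * (x.1 + x.2) ∈ E)).card : ℝ) ≤ X + k * T := by exact_mod_cast hX1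
      _ ≤ _ := kst_rpow k T X hk (by omega) hX2
  have hcount := count_D E W0 T Y hW0even (fun n hn => by
    rw [hE, mem_filter, mem_Ioc] at hn
    exact ⟨hn.2.1, hn.1⟩) (by omega)
  have hT0 : (0 : ℝ) < T := by exact_mod_cast (show 0 < T by omega)
  set η := ((k : ℝ) / T) ^ (1 / (k : ℝ)) with hη
  have hη0 : 0 ≤ η := by positivity
  have hEc : (E.card : ℝ) ≤ N / L ^ 2 + 16 * Y * η := by
    have h1 : ((T ^ 2 * E.card : ℕ) : ℝ) ≤ ∑ n0 ∈ (Ioc (4 * Y) (12 * Y)).filter Even,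
      (((Icc 1 T ×ˢ Icc 1 T).filter (fun x : ℕ × ℕ => n0 + W0 * (x.1 + x.2) ∈ E)).card : ℝ) := by exact_mod_cast hcount
    have h2 : ∀ n0 ∈ (Ioc (4 * Y) (12 * Y)).filter Even,
        (((Icc 1 T ×ˢ Icc 1 T).filter (fun x : ℕ × ℕ => n0 + W0 * (x.1 + x.2) ∈ E)).card : ℝ) ≤
          (if n0 ∈ Bad then (T : ℝ) ^ 2 else 0) + 2 * (T : ℝ) ^ 2 * η := by
      intro n0 hn0
      split_ifs with hb
      · have h3 : (((Icc 1 T ×ˢ Icc 1 T).filter (fun x : ℕ × ℕ => n0 + W0 * (x.1 + x.2) ∈ E)).card : ℝ) ≤ (T : ℝ) ^ 2 := by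
          have h4 : ((Icc 1 T ×ˢ Icc 1 T).filter (fun x : ℕ × ℕ => n0 + W0 * (x.1 + x.2) ∈ E)).card ≤ T ^ 2 := by
            refine (card_filter_le _ _).trans (le_of_eq ?_)
            rw [card_product, Nat.card_Icc, Nat.add_sub_cancel]; ring
          exact_mod_cast h4
        have h5 : 0 ≤ 2 * (T : ℝ) ^ 2 * η := by positivity
        linarith
      · rw [zero_add]
        exact hgrid n0 hn0 hb
    have h3 := h1.trans (sum_le_sum h2)
    rw [sum_add_distrib, ← sum_filter, sum_const, sum_const, nsmul_eq_mul, nsmul_eq_mul] at h3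
    have h4 : ((((Ioc (4 * Y) (12 * Y)).filter Even).filter (fun n0 => n0 ∈ Bad)).card : ℝ) ≤ N / L ^ 2 := by
      refine le_trans ?_ hBadc
      exact_mod_cast card_le_card (fun n hn => (mem_filter.1 hn).2)
    have h5 : ((((Ioc (4 * Y) (12 * Y)).filter Even).card : ℕ) : ℝ) ≤ 8 * Y := by
      have h6 : ((Ioc (4 * Y) (12 * Y)).filter Even).card ≤ 8 * Y := by
        refine (card_filter_le _ _).trans ?_
        rw [Nat.card_Ioc]; omega
      exact_mod_cast h6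
    have h7 : (T : ℝ) ^ 2 * E.card ≤ (T : ℝ) ^ 2 * (N / L ^ 2 + 16 * Y * η) := by
      push_cast at h3
      calc (T : ℝ) ^ 2 * E.card ≤ _ := h3
        _ ≤ N / L ^ 2 * (T : ℝ) ^ 2 + 8 * Y * (2 * (T : ℝ) ^ 2 * η) := by
            apply add_le_add
            · exact mul_le_mul_of_nonneg_right h4 (by positivity)
            · exact mul_le_mul_of_nonneg_right h5 (by positivity)
        _ = _ := by ring
    exact le_of_mul_le_mul_left h7 (by positivity)
  -- the final comparison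
  have hC0r : (4 : ℝ) ^ k * ((2 * k * W0 : ℕ) : ℝ) ^ 2 ≤ C := by exact_mod_cast hC0
  have hW0r : (1 : ℝ) ≤ W0 := by exact_mod_cast hW0pos
  have haa : (0 : ℝ) < ((2 * k * W0 : ℕ) : ℝ) := by push_cast; positivity
  have hCpos : (0 : ℝ) < C := lt_of_lt_of_le (by positivity) hC0r
  have hC16 : (16 : ℝ) ≤ C := by
    have h1 : (4 : ℝ) ≤ 4 ^ k := by
      calc (4 : ℝ) = 4 ^ 1 := by norm_num
        _ ≤ 4 ^ k := pow_le_pow_right₀ (by norm_num) hk
    have h2 : (2 : ℝ) ≤ ((2 * k * W0 : ℕ) : ℝ) := by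
      push_cast
      nlinarith
    nlinarith
  have hexpo := expo k hk ((2 * k * W0 : ℕ) : ℝ) C haa hC0r
  have hw := w_lower k hk C (by linarith)
  set w := (C : ℝ) ^ (-(1 / (2 * k : ℝ))) with hwd
  have hηw : η ≤ w / 2 := by
    refine le_trans ?_ hexpo
    rw [hη]
    apply Real.rpow_le_rpow (by positivity) _ (by positivity)
    rw [div_le_div_iff₀ hT0 hCpos]
    have h1 : (C : ℝ) ≤ 2 * (W0 * T) := by exact_mod_cast hT2
    push_cast
    calc (k : ℝ) * C ≤ k * (2 * (W0 * T)) := mul_le_mul_of_nonneg_left h1 (by positivity)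
      _ = _ := by ring
  have hw0 : 0 < w := by positivity
  have hY13 : (13 * Y : ℝ) ≤ N := by exact_mod_cast hY1
  have h1 : (N : ℝ) / L ^ 2 ≤ N * (w * (5 / 13)) := by
    rw [div_eq_mul_one_div]
    apply mul_le_mul_of_nonneg_left _ (by positivity)
    have h2 : 1 / L ^ 2 ≤ 1 / (C : ℝ) ^ 2 := by
      apply one_div_le_one_div_of_le (by positivity)
      exact pow_le_pow_left₀ hCpos.le hCL 2
    have h3 : 1 / (C : ℝ) ^ 2 = (1 / C) * (1 / C) := by field_simp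
    have h4 : 1 / (C : ℝ) ≤ 5 / 13 := by
      rw [div_le_div_iff₀ hCpos (by norm_num)]
      linarith
    rw [h3] at h2
    exact h2.trans (mul_le_mul hw h4 (by positivity) hw0.le)
  have h2 : 16 * (Y : ℝ) * η ≤ N * (w * (8 / 13)) := by
    calc 16 * (Y : ℝ) * η ≤ 16 * Y * (w / 2) := mul_le_mul_of_nonneg_left hηw (by positivity)
      _ = 13 * Y * (w * (8 / 13)) := by ring
      _ ≤ _ := mul_le_mul_of_nonneg_right hY13 (by positivity)
  calc (E.card : ℝ) ≤ N / L ^ 2 + 16 * Y * η := hEc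
    _ ≤ N * (w * (5 / 13)) + N * (w * (8 / 13)) := add_le_add h1 h2
    _ = N * w := by ring

/-- bounded windows: few even `n` in a dyadic range have few pairs of windows with many primes -/
theorem range_win (m : ℕ) (hm : 1 ≤ m) : ∃ C : ℕ, ∀ A : ℕ, ∃ B N0 : ℕ, ∀ N : ℕ, N0 ≤ N → ∀ Y : ℕ, 13 * Y ≤ N → N ≤ 14 * Y →
    (((Ioc (5 * Y) (12 * Y)).filter (fun n => Even n ∧ (win m C n : ℝ) < N / Real.log N ^ B)).card : ℝ) ≤ N / Real.log N ^ A := by
  classical
  obtain ⟨k, hk, hcore⟩ := core m hm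
  obtain ⟨W0, hW0⟩ : ∃ W0, W0 = ∏ p ∈ pz (2 * k), p := ⟨_, rfl⟩
  have hW0dvd : ∀ p, p.Prime → p ≤ 2 * k → p ∣ W0 := by
    intro p hp hpk
    rw [hW0]
    exact dvd_prod_of_mem _ (mem_pz.2 ⟨hpk, hp⟩)
  have hW0pos : 1 ≤ W0 := by
    rw [hW0]
    exact Nat.one_le_iff_ne_zero.2 (prod_ne_zero_iff.2 fun p hp => (mem_pz.1 hp).2.ne_zero)
  refine ⟨W0 * (k + 1), fun A => ?_⟩
  obtain ⟨B1, N1, hB1⟩ := hcore A
  obtain ⟨N2, hN2⟩ := ev_L' ((W0 * (k + 1) : ℕ) : ℝ)
  refine ⟨B1, max N1 N2, fun N hN Y hY1 hY2 => ?_⟩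
  have hNN1 : N1 ≤ N := le_trans (le_max_left _ _) hN
  have hNN2 : N2 ≤ N := le_trans (le_max_right _ _) hN
  have hL1 := hN2 N hNN2
  have hinj : Function.Injective (fun l : Fin k => W0 * (l.val + 1)) := by
    intro i j hij
    have h1 : i.val + 1 = j.val + 1 := Nat.eq_of_mul_eq_mul_left (by omega) hij
    exact Fin.ext (by omega)
  have hle : ∀ l : Fin k, W0 * (l.val + 1) ≤ W0 * (k + 1) := fun l => Nat.mul_le_mul_left _ (by have := l.2; omega)
  have h1le : ∀ l : Fin k, 1 ≤ W0 * (l.val + 1) := fun l => Nat.one_le_iff_ne_zero.2 (Nat.mul_ne_zero (by omega) (by omega))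
  have hler : ∀ l : Fin k, ((W0 * (l.val + 1) : ℕ) : ℝ) ≤ Real.log N := fun l => le_trans (by exact_mod_cast hle l) hL1
  have key := hB1 N hNN1 Y hY1 hY2 (fun l => W0 * (l.val + 1)) (fun l => W0 * (l.val + 1)) hinj hinj hler hler
    (fun p hp hpk l => (hW0dvd p hp hpk).mul_right _) (fun p hp hpk l => (hW0dvd p hp hpk).mul_right _)
  refine le_trans ?_ key
  have hsub : (Ioc (5 * Y) (12 * Y)).filter (fun n => Even n ∧ (win m (W0 * (k + 1)) n : ℝ) < N / Real.log N ^ B1) ⊆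
      (Ioc (4 * Y) (12 * Y)).filter (fun n => Even n ∧ ((Good m Y (fun l : Fin k => W0 * (l.val + 1)) (fun l : Fin k => W0 * (l.val + 1)) n).card : ℝ) <
        N / Real.log N ^ B1) := by
    intro n hn
    rw [mem_filter, mem_Ioc] at hn ⊢
    refine ⟨⟨by omega, hn.1.2⟩, hn.2.1, lt_of_le_of_lt ?_ hn.2.2⟩
    exact_mod_cast good_win m (W0 * (k + 1)) Y n _ _ hinj hinj h1le h1le hle hle (by omega)
  exact_mod_cast card_le_card hsub

end Pool.Agent.L0h42.TB
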