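import Mathlib
import Pool.Agent.H373R2.T7.Lin
import Pool.Agent.H373R2.T7.Minor
import Pool.Agent.H373R2.T7.LamZ2
import Pool.Agent.H442R2.KF.BvY
import Pool.Agent.H373R2.T7.SupE2
import Pool.Agent.H373R2.T7.Cnt
import Pool.Agent.R311.DEH.A1
import Pool.Agent.Helper256.KM.Mertens
import Pool.Agent.W23.UBb
import Pool.Agent.H373R2.T7.Crt

/-! From dyadic ranges to initial segments. -/

set_option autoImplicit false
set_option linter.unusedSectionVars false

namespace Pool.Agent.L0h42.TB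
open Finset
open Pool.Agent.H373R2.T7

/-- from dyadic ranges to `[1, X]` -/
lemma dyadic (P : ℕ → Prop) [DecidablePred P] (X D : ℕ) (δ : ℝ) (hδ : 0 ≤ δ) (hD : 1 ≤ D) (hXD : 60 * D ≤ X)
    (h : ∀ Y : ℕ, X ≤ 12 * D * Y → 12 * Y ≤ X + 12 → (((Ioc (5 * Y) (12 * Y)).filter P).card : ℝ) ≤ δ * (14 * Y)) :
    (((Icc 1 X).filter P).card : ℝ) ≤ X / D + 3 * δ * X := by
  classical
  obtain ⟨Yj, hYj⟩ : ∃ Yj : ℕ → ℕ, Yj = fun j => X / (12 * 2 ^ j) + 1 := ⟨_, rfl⟩
  obtain ⟨J, hJ⟩ : ∃ J, J = Nat.log 2 D + 1 := ⟨_, rfl⟩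
  have hD0 : (0 : ℝ) < D := by exact_mod_cast hD
  have hsub : (Icc 1 X).filter P ⊆ Icc 1 (X / D) ∪ (range J).biUnion (fun j => (Ioc (5 * Yj j) (12 * Yj j)).filter P) := by
    intro n hn
    rw [mem_filter, mem_Icc] at hn
    rw [mem_union, mem_Icc, mem_biUnion]
    by_cases hnD : n ≤ X / D
    · exact Or.inl ⟨hn.1.1, hnD⟩
    · right
      rw [not_le] at hnD
      have hn0 : 0 < n := by omega
      have h1 : 1 ≤ X / n := (Nat.le_div_iff_mul_le hn0).2 (by omega)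
      obtain ⟨j, hj⟩ : ∃ j, j = Nat.log 2 (X / n) := ⟨_, rfl⟩
      have h2 : 2 ^ j ≤ X / n := by rw [hj]; exact Nat.pow_log_le_self 2 (by omega)
      have h3 : X / n < 2 ^ (j + 1) := by rw [hj]; exact Nat.lt_pow_succ_log_self (by norm_num) _
      have h4 : 2 ^ j * n ≤ X := (Nat.le_div_iff_mul_le hn0).1 h2
      have h5 : X < 2 ^ (j + 1) * n := (Nat.div_lt_iff_lt_mul hn0).1 h3
      have h6 : X < D * n := by
        have := (Nat.div_lt_iff_lt_mul (show 0 < D by omega)).1 hnD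
        linarith [mul_comm n D]
      have h7 : 2 ^ j ≤ D := by
        by_contra hcon
        push Not at hcon
        have : D * n ≤ 2 ^ j * n := Nat.mul_le_mul_right _ hcon.le
        omega
      have h8 : j < J := by
        rw [hJ]
        have := Nat.le_log_of_pow_le (by norm_num) h7
        omega
      refine ⟨j, mem_range.2 h8, ?_⟩
      rw [mem_filter, mem_Ioc]
      refine ⟨⟨?_, ?_⟩, hn.2⟩
      · rw [hYj]
        simp only
        have h9 : 12 * 2 ^ j * (X / (12 * 2 ^ j)) ≤ X := Nat.mul_div_le _ _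
        have h10 : 2 ^ (j + 1) = 2 * 2 ^ j := by ring
        have h11 : 60 * 2 ^ j ≤ X := le_trans (Nat.mul_le_mul_left _ h7) hXD
        have hp : 0 < 2 ^ j := by positivity
        by_contra hcon
        push Not at hcon
        rw [h10] at h5
        have h12 : 12 * (2 ^ j * n) ≤ 12 * (2 ^ j * (5 * (X / (12 * 2 ^ j) + 1))) :=
          Nat.mul_le_mul_left _ (Nat.mul_le_mul_left _ hcon)
        have h13 : 12 * (2 ^ j * (5 * (X / (12 * 2 ^ j) + 1))) = 5 * (12 * 2 ^ j * (X / (12 * 2 ^ j))) + 60 * 2 ^ j := by ring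
        have h14 : 2 * 2 ^ j * n = 2 * (2 ^ j * n) := by ring
        omega
      · rw [hYj]
        simp only
        have h9 : X < 12 * 2 ^ j * (X / (12 * 2 ^ j) + 1) := Nat.lt_mul_div_succ _ (by positivity)
        have h10 : 2 ^ j * n < 2 ^ j * (12 * (X / (12 * 2 ^ j) + 1)) := by
          calc 2 ^ j * n ≤ X := h4
            _ < 12 * 2 ^ j * (X / (12 * 2 ^ j) + 1) := h9
            _ = _ := by ring
        exact (Nat.lt_of_mul_lt_mul_left h10).le
  have hcard : (((Icc 1 X).filter P).card : ℝ) ≤ ((X / D : ℕ) : ℝ) + ∑ j ∈ range J, (((Ioc (5 * Yj j) (12 * Yj j)).filter P).card : ℝ) := by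
    have h1 : ((Icc 1 X).filter P).card ≤ X / D + ∑ j ∈ range J, ((Ioc (5 * Yj j) (12 * Yj j)).filter P).card := by
      refine (card_le_card hsub).trans ((card_union_le _ _).trans ?_)
      rw [Nat.card_Icc, Nat.add_sub_cancel]
      exact Nat.add_le_add_left card_biUnion_le _
    exact_mod_cast h1
  have hterm : ∀ j ∈ range J, (((Ioc (5 * Yj j) (12 * Yj j)).filter P).card : ℝ) ≤ δ * (7 / 6 * X * (1 / 2) ^ j + 14) := by
    intro j hj
    rw [mem_range, hJ] at hj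
    have h7 : 2 ^ j ≤ D := (Nat.pow_le_pow_right (by norm_num) (by omega)).trans (Nat.pow_log_le_self 2 (by omega : D ≠ 0))
    have hYv : Yj j = X / (12 * 2 ^ j) + 1 := by rw [hYj]
    have h9 : X < 12 * 2 ^ j * (X / (12 * 2 ^ j) + 1) := Nat.lt_mul_div_succ _ (by positivity)
    have h10 : 12 * 2 ^ j * (X / (12 * 2 ^ j)) ≤ X := Nat.mul_div_le _ _
    have h11 : 1 ≤ 2 ^ j := Nat.one_le_two_pow
    refine (h (Yj j) ?_ ?_).trans ?_
    · rw [hYv]
      refine h9.le.trans ?_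
      exact Nat.mul_le_mul_right _ (Nat.mul_le_mul_left _ h7)
    · rw [hYv]
      have h12 : 12 * (X / (12 * 2 ^ j)) ≤ 12 * 2 ^ j * (X / (12 * 2 ^ j)) := by
        apply Nat.mul_le_mul_right
        omega
      omega
    · apply mul_le_mul_of_nonneg_left _ hδ
      rw [hYv]
      have h13 : ((X / (12 * 2 ^ j) : ℕ) : ℝ) ≤ X / (12 * 2 ^ j) := by
        have := @Nat.cast_div_le ℝ _ _ _ X (12 * 2 ^ j)
        push_cast at this
        exact this
      push_cast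
      have h14 : (X : ℝ) / (12 * 2 ^ j) = X * (1 / 2) ^ j / 12 := by
        rw [one_div, inv_pow]
        field_simp
      rw [h14] at h13
      linarith
  have hgeo : ∑ j ∈ range J, ((1 : ℝ) / 2) ^ j ≤ 2 := by
    rw [geom_sum_eq (by norm_num)]
    have : (0 : ℝ) ≤ (1 / 2) ^ J := by positivity
    rw [div_le_iff_of_neg (by norm_num)]
    linarith
  have hJX : 14 * (J : ℝ) ≤ X / 2 := by
    have h1 : J ≤ D + D := by
      have : Nat.log 2 D < D := Nat.log_lt_self 2 (by omega)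
      omega
    have h2 : 60 * (D : ℝ) ≤ X := by exact_mod_cast hXD
    have h3 : (J : ℝ) ≤ D + D := by exact_mod_cast h1
    linarith
  have hX0 : (0 : ℝ) ≤ X := Nat.cast_nonneg _
  calc (((Icc 1 X).filter P).card : ℝ) ≤ ((X / D : ℕ) : ℝ) + ∑ j ∈ range J, (((Ioc (5 * Yj j) (12 * Yj j)).filter P).card : ℝ) := hcard
    _ ≤ X / D + ∑ j ∈ range J, δ * (7 / 6 * X * (1 / 2) ^ j + 14) := add_le_add Nat.cast_div_le (sum_le_sum hterm)
    _ = X / D + δ * (7 / 6 * X * ∑ j ∈ range J, (1 / 2 : ℝ) ^ j + 14 * J) := by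
        rw [← mul_sum, sum_add_distrib, sum_const, card_range, nsmul_eq_mul, mul_sum]
        ring
    _ ≤ X / D + δ * (7 / 6 * X * 2 + X / 2) := by
        gcongr
    _ ≤ X / D + 3 * δ * X := by nlinarith [mul_nonneg hδ hX0]

lemma dy_logs (X D Y : ℕ) (h1 : X ≤ 12 * D * Y) (h2 : 12 * Y ≤ X + 12) (hX : 60 ≤ X) (hD : D ^ 2 ≤ X) :
    Real.log X ≤ 2 * Real.log ((14 * Y : ℕ) : ℝ) ∧ Real.log ((14 * Y : ℕ) : ℝ) ≤ 2 * Real.log X ∧ (X : ℝ) ≤ D * ((14 * Y : ℕ) : ℝ) ∧ X ≤ (14 * Y) ^ 2 := by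
  have hX0 : (0 : ℝ) < X := by exact_mod_cast (show 0 < X by omega)
  have hY1 : 1 ≤ Y := by
    rcases Nat.eq_zero_or_pos Y with h | h
    · rw [h] at h1; omega
    · exact h
  have hD1 : 1 ≤ D := by
    rcases Nat.eq_zero_or_pos D with h | h
    · rw [h] at h1; omega
    · exact h
  have hN0 : (0 : ℝ) < ((14 * Y : ℕ) : ℝ) := by exact_mod_cast (show 0 < 14 * Y by omega)
  have h3 : X ≤ D * (14 * Y) := by
    calc X ≤ 12 * D * Y := h1
      _ ≤ 14 * D * Y := Nat.mul_le_mul_right _ (Nat.mul_le_mul_right _ (by norm_num))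
      _ = _ := by ring
  have h4 : X ≤ (14 * Y) ^ 2 := by
    have h5 : X * X ≤ X * (14 * Y) ^ 2 := by
      calc X * X ≤ (D * (14 * Y)) * (D * (14 * Y)) := Nat.mul_le_mul h3 h3
        _ = D ^ 2 * (14 * Y) ^ 2 := by ring
        _ ≤ X * (14 * Y) ^ 2 := Nat.mul_le_mul_right _ hD
    exact Nat.le_of_mul_le_mul_left h5 (by omega)
  have h6 : 14 * Y ≤ X ^ 2 := by nlinarith
  refine ⟨?_, ?_, by exact_mod_cast h3, h4⟩
  · have h5 : (X : ℝ) ≤ ((14 * Y : ℕ) : ℝ) ^ 2 := by exact_mod_cast h4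
    calc Real.log X ≤ Real.log (((14 * Y : ℕ) : ℝ) ^ 2) := Real.log_le_log hX0 h5
      _ = _ := by rw [Real.log_pow]; norm_num
  · have h5 : ((14 * Y : ℕ) : ℝ) ≤ (X : ℝ) ^ 2 := by exact_mod_cast h6
    calc Real.log ((14 * Y : ℕ) : ℝ) ≤ Real.log ((X : ℝ) ^ 2) := Real.log_le_log hN0 h5
      _ = _ := by rw [Real.log_pow]; norm_num

end Pool.Agent.L0h42.TB
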