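import Mathlib
import Pool.Agent.L0h42.TB.B24
import Pool.Agent.L0h42.TB.B25
import Pool.Agent.H373R2.T7.Lin
import Pool.Agent.H373R2.T7.Minor
import Pool.Agent.H373R2.T7.LamZ2
import Pool.Agent.H442R2.KF.BvY
import Pool.Agent.H373R2.T7.SupE2
import Pool.Agent.H373R2.T7.Cnt
import Pool.Agent.R311.DEH.A1
import Pool.Agent.Helper256.KM.Mertens
import Pool.Agent.W23.UBb
import Pool.Agent.H373R2.T7.Crt

/-! Sums of two primes from clusters: almost all even numbers. -/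

set_option autoImplicit false
set_option linter.unusedSectionVars false

namespace Pool.Agent.L0h42.TB
open Finset
open Pool.Agent.H373R2.T7

/-- comparison of the thresholds -/
lemma thr_le (X N D : ℕ) (B B' : ℕ) (hN : 1 ≤ N) (hXD : (X : ℝ) ≤ D * N) (hl : 1 ≤ Real.log N) (hlN : Real.log N ≤ 2 * Real.log X)
    (hB : (D : ℝ) * 2 ^ B' * Real.log X ^ B' ≤ Real.log X ^ B) : (X : ℝ) / Real.log X ^ B ≤ N / Real.log N ^ B' := by
  have hLX : 0 < Real.log X := by linarith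
  have hN0 : (1 : ℝ) ≤ N := by exact_mod_cast hN
  rw [div_le_div_iff₀ (by positivity) (by positivity)]
  calc (X : ℝ) * Real.log N ^ B' ≤ (D * N) * (2 * Real.log X) ^ B' := by
        apply mul_le_mul hXD (pow_le_pow_left₀ (by linarith) hlN _) (by positivity) (by positivity)
    _ = N * (D * 2 ^ B' * Real.log X ^ B') := by rw [mul_pow]; ring
    _ ≤ N * Real.log X ^ B := mul_le_mul_of_nonneg_left hB (by positivity)

/-- almost all even `n ≤ X` have many representations by primes which begin a cluster -/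
theorem all_rep (m : ℕ) : ∃ c : ℝ, 0 < c ∧ ∃ B C0 X0 : ℕ, ∀ X : ℕ, X0 ≤ X → ∀ C : ℕ, C0 ≤ C → (C : ℝ) ≤ Real.log X →
    (((Icc 1 X).filter (fun n => Even n ∧ (rep m C n : ℝ) < X / Real.log X ^ B)).card : ℝ) ≤ X * (C : ℝ) ^ (-c) := by
  classical
  obtain ⟨c', hc', B', C0', N0, hmain⟩ := range_rep m
  obtain ⟨c, hc⟩ : ∃ c, c = min c' 1 / 2 := ⟨_, rfl⟩
  have hc0 : 0 < c := by rw [hc]; positivity
  have h2c : 2 * c ≤ c' := by rw [hc]; linarith [min_le_left c' 1]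
  have h2c1 : 2 * c ≤ 1 := by rw [hc]; linarith [min_le_right c' 1]
  -- the constants
  obtain ⟨C1, hC1⟩ : ∃ C1 : ℕ, ∀ C : ℕ, C1 ≤ C → (10 : ℝ) ≤ (C : ℝ) ^ c := by
    have h := ((tendsto_rpow_atTop hc0).comp (tendsto_natCast_atTop_atTop (R := ℝ))).eventually_ge_atTop 10
    rw [Filter.eventually_atTop] at h
    exact h
  obtain ⟨X1, hX1⟩ := ev_L' ((2 : ℝ) ^ B' + 2)
  obtain ⟨X2, hX2⟩ := ev_log' 1 60
  refine ⟨c, hc0, B' + 2, max C1 (2 * C0' + 3), max (max X1 X2) (max ((N0 + 1) ^ 2) 60), ?_⟩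
  intro X hX C hC hCL
  have hXX1 : X1 ≤ X := le_trans (le_trans (le_max_left _ _) (le_max_left _ _)) hX
  have hXX2 : X2 ≤ X := le_trans (le_trans (le_max_right _ _) (le_max_left _ _)) hX
  have hXX3 : (N0 + 1) ^ 2 ≤ X := le_trans (le_trans (le_max_left _ _) (le_max_right _ _)) hX
  have hXX4 : 60 ≤ X := le_trans (le_trans (le_max_right _ _) (le_max_right _ _)) hX
  have hCC1 := hC1 C (le_trans (le_max_left _ _) hC)
  have hCC2 : 2 * C0' + 3 ≤ C := le_trans (le_max_right _ _) hC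
  have hL1 := hX1 X hXX1
  have hL2 := hX2 X hXX2
  rw [pow_one] at hL2
  have hX0 : (1 : ℝ) ≤ X := by exact_mod_cast (show 1 ≤ X by omega)
  set L := Real.log X with hL
  have h2B : (1 : ℝ) ≤ 2 ^ B' := one_le_pow₀ (by norm_num)
  have hL3 : 3 ≤ L := by linarith
  have hsq : √(X : ℝ) * √X = X := Real.mul_self_sqrt (by positivity)
  have hsq1 : √(X : ℝ) ≤ X := by
    rw [Real.sqrt_le_left (by positivity)]
    nlinarith
  have hXD : 60 * C ≤ X := by
    have : (60 * C : ℝ) ≤ X := by linarith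
    exact_mod_cast this
  have hD2 : C ^ 2 ≤ X := by
    have h1 : (C : ℝ) ≤ √X := by linarith
    have h2 : (C : ℝ) ^ 2 ≤ X := by
      calc (C : ℝ) ^ 2 ≤ (√(X : ℝ)) ^ 2 := pow_le_pow_left₀ (by positivity) h1 2
        _ = X := by rw [sq]; exact hsq
    exact_mod_cast h2
  have hC0r : (3 : ℝ) ≤ C := by exact_mod_cast (show 3 ≤ C by omega)
  have hhalf : (C : ℝ) / 3 ≤ ((C / 2 : ℕ) : ℝ) := by
    have h1 : C ≤ 3 * (C / 2) := by omega
    have h2 : (C : ℝ) ≤ 3 * ((C / 2 : ℕ) : ℝ) := by exact_mod_cast h1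
    linarith
  obtain ⟨δ, hδ⟩ : ∃ δ : ℝ, δ = ((C / 2 : ℕ) : ℝ) ^ (-c') := ⟨_, rfl⟩
  have hδ0 : 0 ≤ δ := by rw [hδ]; positivity
  have hdy := dyadic (fun n => Even n ∧ (rep m C n : ℝ) < X / L ^ (B' + 2)) X C δ hδ0 (by omega) hXD (by
    intro Y hY1 hY2
    obtain ⟨g1, g2, g3, g4⟩ := dy_logs X C Y hY1 hY2 hXX4 hD2
    rw [← hL] at g1 g2
    have hN0 : N0 ≤ 14 * Y := by
      have h1 : (N0 + 1) ^ 2 ≤ (14 * Y) ^ 2 := hXX3.trans g4
      have h2 := (Nat.pow_le_pow_iff_left (by norm_num : (2 : ℕ) ≠ 0)).1 h1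
      omega
    have hY0 : 1 ≤ 14 * Y := by
      rcases Nat.eq_zero_or_pos Y with h | h
      · rw [h] at hY1; omega
      · omega
    have key := hmain (14 * Y) hN0 Y (by omega) (le_refl _) (C / 2) (by omega) (by
      have h1 : ((C / 2 : ℕ) : ℝ) ≤ (C : ℝ) / 2 := by
        have := @Nat.cast_div_le ℝ _ _ _ C 2
        simpa using this
      linarith)
    rw [← hδ] at key
    have hthr : (X : ℝ) / L ^ (B' + 2) ≤ ((14 * Y : ℕ) : ℝ) / Real.log ((14 * Y : ℕ) : ℝ) ^ B' := by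
      apply thr_le X (14 * Y) C (B' + 2) B' hY0 g3 (by linarith) g2
      rw [← hL]
      calc (C : ℝ) * 2 ^ B' * L ^ B' ≤ L * L * L ^ B' := by
            apply mul_le_mul_of_nonneg_right _ (by positivity)
            exact mul_le_mul hCL (by linarith) (by positivity) (by linarith)
        _ = L ^ (B' + 2) := by ring
    have hsub : (Ioc (5 * Y) (12 * Y)).filter (fun n => Even n ∧ (rep m C n : ℝ) < X / L ^ (B' + 2)) ⊆
        (Ioc (5 * Y) (12 * Y)).filter (fun n => Even n ∧ (rep m (C / 2) n : ℝ) < ((14 * Y : ℕ) : ℝ) / Real.log ((14 * Y : ℕ) : ℝ) ^ B') := by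
      intro n hn
      rw [mem_filter] at hn ⊢
      refine ⟨hn.1, hn.2.1, lt_of_le_of_lt ?_ (lt_of_lt_of_le hn.2.2 hthr)⟩
      exact_mod_cast rep_mono (Nat.div_le_self _ _)
    calc (((Ioc (5 * Y) (12 * Y)).filter (fun n => Even n ∧ (rep m C n : ℝ) < X / L ^ (B' + 2))).card : ℝ) ≤ _ := by
          exact_mod_cast card_le_card hsub
      _ ≤ ((14 * Y : ℕ) : ℝ) * δ := key
      _ = δ * (14 * Y) := by push_cast; ring)
  refine hdy.trans ?_
  -- the exponents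
  have hCpos : (0 : ℝ) < C := by linarith
  obtain ⟨w, hw⟩ : ∃ w : ℝ, w = (C : ℝ) ^ (-c) := ⟨_, rfl⟩
  have hw0 : 0 < w := by rw [hw]; positivity
  have hw10 : 10 * w ≤ 1 := by
    rw [hw, Real.rpow_neg hCpos.le]
    rw [← div_eq_mul_inv, div_le_one (by positivity)]
    exact hCC1
  have hww : (C : ℝ) ^ (-(2 * c)) = w * w := by
    rw [hw, ← Real.rpow_add hCpos]
    congr 1
    ring
  have hd1 : δ ≤ 3 * (w * w) := by
    rw [hδ]
    calc ((C / 2 : ℕ) : ℝ) ^ (-c') ≤ ((C / 2 : ℕ) : ℝ) ^ (-(2 * c)) :=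
          Real.rpow_le_rpow_of_exponent_le (by linarith) (by linarith)
      _ ≤ ((C : ℝ) / 3) ^ (-(2 * c)) := Real.rpow_le_rpow_of_nonpos (by positivity) hhalf (by linarith)
      _ = (C : ℝ) ^ (-(2 * c)) * 3 ^ (2 * c) := by
          rw [Real.div_rpow hCpos.le (by norm_num), Real.rpow_neg (by norm_num : (0 : ℝ) ≤ 3), div_inv_eq_mul]
      _ ≤ (w * w) * 3 := by
          rw [hww]
          apply mul_le_mul_of_nonneg_left _ (by positivity)
          calc (3 : ℝ) ^ (2 * c) ≤ 3 ^ (1 : ℝ) := Real.rpow_le_rpow_of_exponent_le (by norm_num) h2c1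
            _ = 3 := Real.rpow_one _
      _ = _ := by ring
  have hd2 : 1 / (C : ℝ) ≤ w * w := by
    rw [← hww, one_div, ← Real.rpow_neg_one]
    exact Real.rpow_le_rpow_of_exponent_le (by linarith) (by linarith)
  calc (X : ℝ) / C + 3 * δ * X = X * (1 / C + 3 * δ) := by ring
    _ ≤ X * (w * w + 3 * (3 * (w * w))) := by
        apply mul_le_mul_of_nonneg_left _ (by positivity)
        linarith
    _ = X * ((10 * w) * w) := by ring
    _ ≤ X * (1 * w) := by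
        apply mul_le_mul_of_nonneg_left _ (by positivity)
        exact mul_le_mul_of_nonneg_right hw10 hw0.le
    _ = X * (C : ℝ) ^ (-c) := by rw [one_mul, hw]

/-- almost all even `n ≤ X` have many pairs of bounded windows with many primes -/
theorem all_win (m : ℕ) (hm : 1 ≤ m) : ∃ C : ℕ, ∀ A : ℕ, ∃ B X0 : ℕ, ∀ X : ℕ, X0 ≤ X →
    (((Icc 1 X).filter (fun n => Even n ∧ (win m C n : ℝ) < X / Real.log X ^ B)).card : ℝ) ≤ X / Real.log X ^ A := by
  classical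
  obtain ⟨C, hC⟩ := range_win m hm
  refine ⟨C, fun A => ?_⟩
  obtain ⟨B', N0, hmain⟩ := hC (A + 1)
  obtain ⟨X1, hX1⟩ := ev_L' (max ((2 : ℝ) ^ (B' + 1)) (1 + 3 * 2 ^ (A + 1)))
  obtain ⟨X2, hX2⟩ := ev_log' (A + 1) 120
  refine ⟨A + B' + 2, max (max X1 X2) (max ((N0 + 1) ^ 2) 60), ?_⟩
  intro X hX
  have hXX1 : X1 ≤ X := le_trans (le_trans (le_max_left _ _) (le_max_left _ _)) hX
  have hXX2 : X2 ≤ X := le_trans (le_trans (le_max_right _ _) (le_max_left _ _)) hX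
  have hXX3 : (N0 + 1) ^ 2 ≤ X := le_trans (le_trans (le_max_left _ _) (le_max_right _ _)) hX
  have hXX4 : 60 ≤ X := le_trans (le_trans (le_max_right _ _) (le_max_right _ _)) hX
  have hL1 := hX1 X hXX1
  have hL2 := hX2 X hXX2
  have hL3 := (le_max_left _ _).trans hL1
  have hL4 := (le_max_right _ _).trans hL1
  have hX0 : (1 : ℝ) ≤ X := by exact_mod_cast (show 1 ≤ X by omega)
  set L := Real.log X with hL
  have hA2 : (2 : ℝ) ≤ 2 ^ (A + 1) := by
    calc (2 : ℝ) = 2 ^ 1 := by norm_num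
      _ ≤ 2 ^ (A + 1) := pow_le_pow_right₀ (by norm_num) (by omega)
  have hL5 : 2 ≤ L := by linarith
  have hLA : (1 : ℝ) ≤ L ^ (A + 1) := one_le_pow₀ (by linarith)
  obtain ⟨D, hD⟩ : ∃ D : ℕ, D = ⌈L ^ (A + 1)⌉₊ := ⟨_, rfl⟩
  have hD1 : L ^ (A + 1) ≤ D := by rw [hD]; exact Nat.le_ceil _
  have hD2 : (D : ℝ) ≤ 2 * L ^ (A + 1) := by
    have := (Nat.ceil_lt_add_one (show 0 ≤ L ^ (A + 1) by positivity)).le
    rw [← hD] at this
    linarith
  have hsq : √(X : ℝ) * √X = X := Real.mul_self_sqrt (by positivity)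
  have hsq1 : √(X : ℝ) ≤ X := by
    rw [Real.sqrt_le_left (by positivity)]
    nlinarith
  have hXD : 60 * D ≤ X := by
    have : (60 * D : ℝ) ≤ X := by linarith
    exact_mod_cast this
  have hDsq : D ^ 2 ≤ X := by
    have h1 : (D : ℝ) ≤ √X := by linarith
    have h2 : (D : ℝ) ^ 2 ≤ X := by
      calc (D : ℝ) ^ 2 ≤ (√(X : ℝ)) ^ 2 := pow_le_pow_left₀ (by positivity) h1 2
        _ = X := by rw [sq]; exact hsq
    exact_mod_cast h2
  have hDpos : 1 ≤ D := by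
    have : (1 : ℝ) ≤ D := hLA.trans hD1
    exact_mod_cast this
  obtain ⟨δ, hδ⟩ : ∃ δ : ℝ, δ = 2 ^ (A + 1) / L ^ (A + 1) := ⟨_, rfl⟩
  have hδ0 : 0 ≤ δ := by rw [hδ]; positivity
  have hdy := dyadic (fun n => Even n ∧ (win m C n : ℝ) < X / L ^ (A + B' + 2)) X D δ hδ0 hDpos hXD (by
    intro Y hY1 hY2
    obtain ⟨g1, g2, g3, g4⟩ := dy_logs X D Y hY1 hY2 hXX4 hDsq
    rw [← hL] at g1 g2
    have hN0 : N0 ≤ 14 * Y := by
      have h1 : (N0 + 1) ^ 2 ≤ (14 * Y) ^ 2 := hXX3.trans g4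
      have h2 := (Nat.pow_le_pow_iff_left (by norm_num : (2 : ℕ) ≠ 0)).1 h1
      omega
    have hY0 : 1 ≤ 14 * Y := by
      rcases Nat.eq_zero_or_pos Y with h | h
      · rw [h] at hY1; omega
      · omega
    have key := hmain (14 * Y) hN0 Y (by omega) (le_refl _)
    have hthr : (X : ℝ) / L ^ (A + B' + 2) ≤ ((14 * Y : ℕ) : ℝ) / Real.log ((14 * Y : ℕ) : ℝ) ^ B' := by
      apply thr_le X (14 * Y) D (A + B' + 2) B' hY0 g3 (by linarith) g2
      rw [← hL]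
      calc (D : ℝ) * 2 ^ B' * L ^ B' ≤ (2 * L ^ (A + 1)) * 2 ^ B' * L ^ B' := by
            apply mul_le_mul_of_nonneg_right _ (by positivity)
            exact mul_le_mul_of_nonneg_right hD2 (by positivity)
        _ = 2 ^ (B' + 1) * (L ^ (A + 1) * L ^ B') := by ring
        _ ≤ L * (L ^ (A + 1) * L ^ B') := mul_le_mul_of_nonneg_right hL3 (by positivity)
        _ = L ^ (A + B' + 2) := by ring
    have hsub : (Ioc (5 * Y) (12 * Y)).filter (fun n => Even n ∧ (win m C n : ℝ) < X / L ^ (A + B' + 2)) ⊆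
        (Ioc (5 * Y) (12 * Y)).filter (fun n => Even n ∧ (win m C n : ℝ) < ((14 * Y : ℕ) : ℝ) / Real.log ((14 * Y : ℕ) : ℝ) ^ B') := by
      intro n hn
      rw [mem_filter] at hn ⊢
      exact ⟨hn.1, hn.2.1, lt_of_lt_of_le hn.2.2 hthr⟩
    have hlog : (L / 2) ^ (A + 1) ≤ Real.log ((14 * Y : ℕ) : ℝ) ^ (A + 1) := pow_le_pow_left₀ (by positivity) (by linarith) _
    calc (((Ioc (5 * Y) (12 * Y)).filter (fun n => Even n ∧ (win m C n : ℝ) < X / L ^ (A + B' + 2))).card : ℝ) ≤ _ := by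
          exact_mod_cast card_le_card hsub
      _ ≤ ((14 * Y : ℕ) : ℝ) / Real.log ((14 * Y : ℕ) : ℝ) ^ (A + 1) := key
      _ ≤ ((14 * Y : ℕ) : ℝ) / (L / 2) ^ (A + 1) := div_le_div_of_nonneg_left (Nat.cast_nonneg _) (by positivity) hlog
      _ = δ * (14 * Y) := by
          rw [hδ, div_pow]
          push_cast
          field_simp)
  refine hdy.trans ?_
  calc (X : ℝ) / D + 3 * δ * X ≤ X / L ^ (A + 1) + 3 * (2 ^ (A + 1) / L ^ (A + 1)) * X := by
        rw [hδ]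
        gcongr
    _ = X * (1 + 3 * 2 ^ (A + 1)) / L ^ (A + 1) := by field_simp
    _ ≤ X * L / L ^ (A + 1) := by
        apply div_le_div_of_nonneg_right _ (by positivity)
        exact mul_le_mul_of_nonneg_left hL4 (by positivity)
    _ = X / L ^ A := by rw [pow_succ]; field_simp

/-- windows which grow arbitrarily slowly -/
theorem psi_rep (m : ℕ) (ψ : ℕ → ℕ) (hψ : Filter.Tendsto ψ Filter.atTop Filter.atTop) (ε : ℝ) (hε : 0 < ε) :
    ∃ X0 : ℕ, ∀ X : ℕ, X0 ≤ X → (((Icc 1 X).filter (fun n => Even n ∧ rep m (ψ n) n = 0)).card : ℝ) ≤ ε * X := by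
  classical
  obtain ⟨c, hc0, B, C0, X0, hmain⟩ := all_rep m
  obtain ⟨C, hC1, hC2⟩ : ∃ C : ℕ, C0 ≤ C ∧ (C : ℝ) ^ (-c) ≤ ε / 2 := by
    have h := ((tendsto_rpow_neg_atTop hc0).comp (tendsto_natCast_atTop_atTop (R := ℝ))).eventually_le_const (show 0 < ε / 2 by positivity)
    rw [Filter.eventually_atTop] at h
    obtain ⟨C1, hC1⟩ := h
    exact ⟨max C0 C1, le_max_left _ _, hC1 _ (le_max_right _ _)⟩
  obtain ⟨X1, hX1⟩ := ev_L' (max (C : ℝ) 1)
  have h2 := hψ.eventually_ge_atTop C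
  rw [Filter.eventually_atTop] at h2
  obtain ⟨n1, hn1⟩ := h2
  obtain ⟨X2, hX2⟩ := exists_nat_gt ((n1 : ℝ) / (ε / 2))
  refine ⟨max (max X0 X1) (max X2 1), fun X hX => ?_⟩
  have hXX0 : X0 ≤ X := le_trans (le_trans (le_max_left _ _) (le_max_left _ _)) hX
  have hXX1 : X1 ≤ X := le_trans (le_trans (le_max_right _ _) (le_max_left _ _)) hX
  have hXX2 : X2 ≤ X := le_trans (le_trans (le_max_left _ _) (le_max_right _ _)) hX
  have hXX3 : 1 ≤ X := le_trans (le_trans (le_max_right _ _) (le_max_right _ _)) hX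
  have hL := hX1 X hXX1
  have hL1 : 1 ≤ Real.log X := (le_max_right _ _).trans hL
  have hX0r : (1 : ℝ) ≤ X := by exact_mod_cast hXX3
  have key := hmain X hXX0 C hC1 ((le_max_left _ _).trans hL)
  have hsub : (Icc 1 X).filter (fun n => Even n ∧ rep m (ψ n) n = 0) ⊆
      Icc 1 n1 ∪ (Icc 1 X).filter (fun n => Even n ∧ (rep m C n : ℝ) < X / Real.log X ^ B) := by
    intro n hn
    rw [mem_filter, mem_Icc] at hn
    rw [mem_union, mem_Icc, mem_filter, mem_Icc]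
    by_cases h : n ≤ n1
    · exact Or.inl ⟨hn.1.1, h⟩
    · right
      refine ⟨hn.1, hn.2.1, ?_⟩
      have h3 := rep_mono (m := m) (n := n) (hn1 n (by omega))
      have h4 : rep m C n = 0 := by omega
      rw [h4, Nat.cast_zero]
      positivity
  have h3 : (((Icc 1 X).filter (fun n => Even n ∧ rep m (ψ n) n = 0)).card : ℝ) ≤
      n1 + (((Icc 1 X).filter (fun n => Even n ∧ (rep m C n : ℝ) < X / Real.log X ^ B)).card : ℝ) := by
    have h4 := (card_le_card hsub).trans (card_union_le _ _)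
    rw [Nat.card_Icc, Nat.add_sub_cancel] at h4
    exact_mod_cast h4
  have h5 : (n1 : ℝ) ≤ ε / 2 * X := by
    have h6 : (n1 : ℝ) / (ε / 2) ≤ X := hX2.le.trans (by exact_mod_cast hXX2)
    rw [div_le_iff₀ (by positivity)] at h6
    linarith
  have h6 : (X : ℝ) * (C : ℝ) ^ (-c) ≤ X * (ε / 2) := mul_le_mul_of_nonneg_left hC2 (by positivity)
  linarith

end Pool.Agent.L0h42.TB
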